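import Pool.Agent.DST.Core

/-!
Module BLK of project DST (MP_0f73d6_co).

The toggle tgl of a strictly increasing signed block u whose absolute values have no two adjacent equal letters.
m = mabs u is the least absolute value.  tgl_natAbs: |−x| = |x|.  mabs (tgl u) = mabs u, so tgl_tgl.
If x comes before y in u, |x| = |y| = m then x = -m, y = m (x < y), m > 0; entries z between satisfy -m < z < m,
impossible; so x and y are adjacent, contradiction to hc.  So exactly one letter has absolute value m.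
tgl_sorted: x before y, x < y.  If |x| = m is flipped then |y| > m; y < 0 would give y > x ≥ -m, |y| < m or …: so y > 0,
 y > m ≥ -x.  If |y| = m is flipped then |x| > m, and x > 0 is impossible (x < y ≤ m), so x < -m ≤ -y.
tgl_ng: if 0 is not in u (u nonempty) exactly one nonzero letter changes sign.
-/

namespace DST

theorem BLK_mabs_spec {u : List ℤ} (hne : u ≠ []) :
    (∃ x ∈ u, x.natAbs = mabs u) ∧ ∀ z ∈ u, mabs u ≤ z.natAbs := by
  have hne' : u.map Int.natAbs ≠ [] := by simpa using hne
  obtain ⟨m, hm⟩ : ∃ m, (u.map Int.natAbs).min? = some m := by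
    cases h : (u.map Int.natAbs).min? with
    | none => exact absurd (List.min?_eq_none_iff.1 h) hne'
    | some m => exact ⟨m, rfl⟩
  have hmabs : mabs u = m := by simp [mabs, hm]
  have h2 := List.min?_eq_some_iff.1 hm
  rw [hmabs]
  constructor
  · obtain ⟨x, hx, hxm⟩ := List.mem_map.1 h2.1
    exact ⟨x, hx, hxm⟩
  · intro z hz
    exact h2.2 _ (List.mem_map.2 ⟨z, hz, rfl⟩)

theorem tgl_natAbs (u : List ℤ) : (tgl u).map Int.natAbs = u.map Int.natAbs := by
  unfold tgl
  rw [List.map_map]
  apply List.map_congr_left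
  intro x _
  simp only [Function.comp]
  split_ifs
  · exact Int.natAbs_neg x
  · rfl

theorem BLK_mabs_tgl (u : List ℤ) : mabs (tgl u) = mabs u := by
  unfold mabs
  rw [tgl_natAbs]

theorem tgl_tgl (u : List ℤ) : tgl (tgl u) = u := by
  have h : tgl (tgl u) = (tgl u).map fun x => if x.natAbs = mabs (tgl u) then -x else x := rfl
  rw [h, BLK_mabs_tgl]
  unfold tgl
  rw [List.map_map]
  conv_rhs => rw [← List.map_id u]
  apply List.map_congr_left
  intro x _
  simp only [Function.comp, id]
  by_cases hx : x.natAbs = mabs u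
  · rw [if_pos hx, if_pos (by rw [Int.natAbs_neg]; exact hx), neg_neg]
  · rw [if_neg hx, if_neg hx]

theorem tgl_length (u : List ℤ) : (tgl u).length = u.length := by
  simp [tgl]

theorem BLK_two {u p q : List ℤ} {z x : ℤ} {p1 p2 : List ℤ} (hs : u.Pairwise (· < ·))
    (hc : ∀ (p q : List ℕ) (a : ℕ), u.map Int.natAbs ≠ p ++ a :: a :: q)
    (hu : u = p ++ x :: q) (hp : p = p1 ++ z :: p2) (hz : z.natAbs = mabs u)
    (hx : x.natAbs = mabs u) : False := by
  have hmin := (BLK_mabs_spec (u := u) (by rw [hu]; simp)).2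
  cases p2 with
  | nil =>
    apply hc (p1.map Int.natAbs) (q.map Int.natAbs) (mabs u)
    rw [hu, hp]
    simp only [List.append_assoc, List.cons_append, List.nil_append, List.map_append,
      List.map_cons]
    rw [hz, hx]
    simp [hu, hp]
  | cons w p3 =>
    have hw := hmin w (by rw [hu, hp]; simp)
    have hs' := hs
    rw [hu, hp] at hs'
    simp only [List.append_assoc, List.cons_append, List.pairwise_append, List.pairwise_cons] at hs'
    have h1 : z < w := hs'.2.1.1 w (by simp)
    have h2 : w < x := hs'.2.1.2.1 x (by simp)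
    omega

theorem BLK_dec {u : List ℤ} (hs : u.Pairwise (· < ·))
    (hc : ∀ (p q : List ℕ) (a : ℕ), u.map Int.natAbs ≠ p ++ a :: a :: q) (hne : u ≠ []) :
    ∃ (p q : List ℤ) (x : ℤ), u = p ++ x :: q ∧ tgl u = p ++ (-x) :: q ∧ x.natAbs = mabs u ∧
      (∀ z ∈ p, mabs u < z.natAbs) ∧ ∀ z ∈ q, mabs u < z.natAbs := by
  obtain ⟨⟨x, hxu, hx⟩, hmin⟩ := BLK_mabs_spec hne
  obtain ⟨p, q, hu⟩ := List.append_of_mem hxu
  have hp : ∀ z ∈ p, mabs u < z.natAbs := by
    intro z hz
    refine lt_of_le_of_ne (hmin z (by rw [hu]; simp [hz])) ?_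
    intro h
    obtain ⟨p1, p2, hp⟩ := List.append_of_mem hz
    exact BLK_two hs hc hu hp h.symm hx
  have hq : ∀ z ∈ q, mabs u < z.natAbs := by
    intro z hz
    refine lt_of_le_of_ne (hmin z (by rw [hu]; simp [hz])) ?_
    intro h
    obtain ⟨q1, q2, hq⟩ := List.append_of_mem hz
    refine BLK_two (p := p ++ x :: q1) (q := q2) (x := z) (z := x) (p1 := p) (p2 := q1) hs hc ?_ rfl
      hx h.symm
    rw [hu, hq]; simp
  refine ⟨p, q, x, hu, ?_, hx, hp, hq⟩
  have hid : ∀ l : List ℤ, (∀ z ∈ l, mabs u < z.natAbs) →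
      (l.map fun x => if x.natAbs = mabs u then -x else x) = l := by
    intro l hl
    conv_rhs => rw [← List.map_id l]
    apply List.map_congr_left
    intro z hz
    rw [if_neg (hl z hz).ne']
    rfl
  have h1 : tgl u = (p ++ x :: q).map fun x => if x.natAbs = mabs u then -x else x := by
    rw [← hu]; rfl
  rw [h1, List.map_append, List.map_cons, hid p hp, hid q hq, if_pos hx]

theorem tgl_sorted {u : List ℤ} (hs : u.Pairwise (· < ·))
    (hc : ∀ (p q : List ℕ) (a : ℕ), u.map Int.natAbs ≠ p ++ a :: a :: q) :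
    (tgl u).Pairwise (· < ·) := by
  by_cases hne : u = []
  · subst hne; simp [tgl]
  · obtain ⟨p, q, x, hu, ht, hx, hp, hq⟩ := BLK_dec hs hc hne
    rw [ht]
    rw [hu] at hs
    rw [List.pairwise_append, List.pairwise_cons] at hs ⊢
    obtain ⟨h1, ⟨h2, h3⟩, h4⟩ := hs
    refine ⟨h1, ⟨?_, h3⟩, ?_⟩
    · intro w hw
      have := h2 w hw
      have := hq w hw
      omega
    · intro z hz w hw
      rcases List.mem_cons.1 hw with rfl | hw
      · have := h4 z hz x (by simp)
        have := hp z hz
        omega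
      · exact h4 z hz w (by simp [hw])

theorem tgl_ng {u : List ℤ} (hs : u.Pairwise (· < ·))
    (hc : ∀ (p q : List ℕ) (a : ℕ), u.map Int.natAbs ≠ p ++ a :: a :: q) (hne : u ≠ [])
    (h0 : (0 : ℤ) ∉ u) : (-1 : ℤ) ^ ng (tgl u) = - (-1 : ℤ) ^ ng u := by
  obtain ⟨p, q, x, hu, ht, hx, hp, hq⟩ := BLK_dec hs hc hne
  have hx0 : x ≠ 0 := by
    rintro rfl
    apply h0
    rw [hu]; simp
  have h1 : ng (tgl u) = ng p + (ng q + if -x < 0 then 1 else 0) := by
    rw [ht]
    unfold ng
    rw [List.countP_append, List.countP_cons]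
    simp
  have h2 : ng u = ng p + (ng q + if x < 0 then 1 else 0) := by
    conv_lhs => rw [hu]
    unfold ng
    rw [List.countP_append, List.countP_cons]
    simp
  rw [h1, h2]
  rcases lt_or_gt_of_ne hx0 with h | h
  · rw [if_neg (by omega), if_pos h]
    rw [← add_assoc, ← add_assoc, pow_add _ _ 1]
    simp
  · rw [if_pos (by omega), if_neg (by omega)]
    rw [← add_assoc, ← add_assoc, pow_add _ _ 1]
    simp

end DST
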