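import Pool.Agent.DST.Core

/-!
Module CLA of project DST (MP_0f73d6_co).

The list of cells: members, sortedness, uniqueness, splitting at two cells.
cellsL_unique: two lists which are strictly sorted for the same asymmetric transitive relation and have the
  same members are equal (nodup gives a permutation, then uniqueness of sorted lists).
split3: from membership write cellsL = p ++ (i,j) :: t; since the list is sorted (i',j') lies in t, so
  t = q ++ (i',j') :: s; the members of q are between by sortedness, and conversely a cell between is not in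
  p, not in s and is neither of the two (irreflexivity and asymmetry of Bef), so it is in q.
-/

namespace DST

variable {r : ℤ} {lo hi : ℤ → ℤ}

private theorem cla_bind (l : List ℕ) :
    (do let a ← l; pure (a : ℤ) : List ℤ) = l.map (fun a : ℕ => (a : ℤ)) := by
  simp only [bind_pure_comp, List.map_eq_map]

theorem mem_cellsL {c : ℤ × ℤ} : c ∈ cellsL r lo hi ↔ Cell r lo hi c.1 c.2 := by
  obtain ⟨x, y⟩ := c
  unfold cellsL rowCells Cell
  rw [cla_bind]
  simp only [cla_bind, List.mem_flatMap, List.mem_reverse, List.mem_range, List.mem_map,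
    Prod.mk.injEq]
  constructor
  · rintro ⟨a, ⟨u, hu, rfl⟩, t, ⟨v, hv, rfl⟩, rfl, rfl⟩
    omega
  · rintro ⟨h1, h2, h3, h4⟩
    have h5 : ((x.toNat : ℕ) : ℤ) = x := Int.toNat_of_nonneg h1
    refine ⟨x, ⟨x.toNat, by omega, h5⟩, y - lo x, ⟨(y - lo x).toNat, by omega, ?_⟩, rfl, by ring⟩
    exact Int.toNat_of_nonneg (by omega)

theorem cellsL_pairwise : (cellsL r lo hi).Pairwise (fun c d => Bef c.1 c.2 d.1 d.2) := by
  unfold cellsL
  rw [cla_bind, List.pairwise_flatMap]
  constructor
  · intro a _
    unfold rowCells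
    rw [cla_bind, List.pairwise_map, List.pairwise_map]
    refine List.Pairwise.imp ?_ List.pairwise_lt_range
    intro x y hxy
    right
    refine ⟨rfl, ?_⟩
    simp only
    omega
  · rw [List.pairwise_map, List.pairwise_reverse]
    refine List.Pairwise.imp ?_ List.pairwise_lt_range
    intro a b hab c hc d hd
    unfold rowCells at hc hd
    rw [List.mem_map] at hc hd
    obtain ⟨t, _, rfl⟩ := hc
    obtain ⟨u, _, rfl⟩ := hd
    left
    simp only
    omega

private theorem cla_irr {c : ℤ × ℤ} (h : Bef c.1 c.2 c.1 c.2) : False := by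
  unfold Bef at h
  omega

private theorem cla_asymm {c d : ℤ × ℤ} (h : Bef c.1 c.2 d.1 d.2) (h' : Bef d.1 d.2 c.1 c.2) :
    False := by
  unfold Bef at h h'
  omega

theorem cellsL_unique {l : List (ℤ × ℤ)} (hs : l.Pairwise (fun c d => Bef c.1 c.2 d.1 d.2))
    (hm : ∀ c : ℤ × ℤ, c ∈ l ↔ Cell r lo hi c.1 c.2) : l = cellsL r lo hi := by
  have h1 : l.Nodup := List.Pairwise.imp (fun {a b} h e => by subst e; exact cla_irr h) hs
  have h2 : (cellsL r lo hi).Nodup :=
    List.Pairwise.imp (fun {a b} h e => by subst e; exact cla_irr h) cellsL_pairwise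
  have hp : l.Perm (cellsL r lo hi) :=
    (List.perm_ext_iff_of_nodup h1 h2).2 fun c => (hm c).trans mem_cellsL.symm
  exact List.Perm.eq_of_pairwise (fun a b _ _ hab hba => (cla_asymm hab hba).elim) hs
    cellsL_pairwise hp

theorem split3 {i j i' j' : ℤ} (c1 : Cell r lo hi i j) (c2 : Cell r lo hi i' j') (hb : Bef i j i' j') :
    ∃ p q s, cellsL r lo hi = p ++ (i, j) :: (q ++ (i', j') :: s) ∧
      ∀ c : ℤ × ℤ, c ∈ q ↔ (Cell r lo hi c.1 c.2 ∧ Btw i j i' j' c.1 c.2) := by
  have m1 : (i, j) ∈ cellsL r lo hi := mem_cellsL.2 c1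
  have m2 : (i', j') ∈ cellsL r lo hi := mem_cellsL.2 c2
  obtain ⟨p, t, hpt⟩ := List.append_of_mem m1
  have hP := cellsL_pairwise (r := r) (lo := lo) (hi := hi)
  rw [hpt, List.pairwise_append, List.pairwise_cons] at hP
  obtain ⟨hp1, ⟨hp2, hp3⟩, hp4⟩ := hP
  rw [hpt, List.mem_append, List.mem_cons] at m2
  have m3 : (i', j') ∈ t := by
    rcases m2 with m | m | m
    · exact (cla_asymm (c := (i, j)) (d := (i', j')) hb
        (hp4 _ m _ (List.mem_cons_self))).elim
    · obtain ⟨e1, e2⟩ := Prod.mk.inj m
      unfold Bef at hb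
      omega
    · exact m
  obtain ⟨q, s, hqs⟩ := List.append_of_mem m3
  subst hqs
  refine ⟨p, q, s, hpt, fun c => ⟨fun hc => ?_, fun hc => ?_⟩⟩
  · rw [List.pairwise_append] at hp3
    refine ⟨mem_cellsL.1 ?_, hp2 c (List.mem_append_left _ hc),
      hp3.2.2 c hc _ (List.mem_cons_self)⟩
    rw [hpt]
    exact List.mem_append_right _ (List.mem_cons_of_mem _ (List.mem_append_left _ hc))
  · obtain ⟨hc1, hc2, hc3⟩ := hc
    have m4 : c ∈ cellsL r lo hi := mem_cellsL.2 hc1
    rw [hpt, List.mem_append, List.mem_cons, List.mem_append, List.mem_cons] at m4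
    rcases m4 with m | m | m | m | m
    · exact (cla_asymm (c := (i, j)) (d := c) hc2 (hp4 _ m _ (List.mem_cons_self))).elim
    · subst m
      exact (cla_irr (c := (i, j)) hc2).elim
    · exact m
    · subst m
      exact (cla_irr (c := (i', j')) hc3).elim
    · rw [List.pairwise_append, List.pairwise_cons] at hp3
      exact (cla_asymm (c := c) (d := (i', j')) hc3 (hp3.2.1.1 c m)).elim

end DST
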