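import Pool.Agent.DST.WRA

/-!
Module WRB of project DST (MP_0f73d6_co).

The fact Q: if between two consecutive letters a there is no a-1, then there is exactly one a+1 between
them, and a+2 does not occur in the whole word.

Proof.  a = 0 is impossible by Cls.zero.  Induction on (length of q, count of a+1 in q), lexicographic
(e.g. strong induction on q.length, inside induction on q.count (a+1); a, p, q, s all generalized).
count 0: h1 gives a contradiction.
count 1: q = q1 ++ (a+1) :: q2, all letters of q1, q2 are far from a; slide both a to the middle:
  W (p ++ q1 ++ a :: (a+1) :: a :: (q2 ++ s)); knot (a ≥ 1): a+2 is not in p ++ q1, not in q2 ++ s.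
count ≥ 2: q = q1 ++ (a+1) :: (q2 ++ (a+1) :: q3) with a+1 not in q2 (two consecutive a+1).  q2 contains no a
  = (a+1)-1, so by induction (q2 is shorter than q) q2 contains a+2 exactly once: q2 = t1 ++ (a+2) :: t2, and
  letters of t1, t2 are far from a+1 (they are not a, a+1, a+2).  Slide the two letters a+1 to the middle:
  W (p ++ a :: (q1 ++ t1 ++ (a+1) :: (a+2) :: (a+1) :: (t2 ++ q3) ++ a :: s)); by braid replace the factor
  (a+1)(a+2)(a+1) by (a+2)(a+1)(a+2).  The new gap has the same length and one letter a+1 less, it contains
  no a and no a-1, so by induction a+2 does not occur in the new word: contradiction.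
-/

namespace DST

variable {W : List ℕ → Prop}

theorem WRB_count0 (hW : Cls W) {p q s : List ℕ} {a : ℕ} (h : W (p ++ a :: (q ++ a :: s)))
    (hq : a ∉ q) (hq' : ∀ c ∈ q, c + 1 ≠ a) (hc : a + 1 ∉ q) : False := by
  rcases h1 hW h hq with h' | ⟨c, hc1, hc2⟩
  · exact hc h'
  · exact hq' c hc1 hc2

theorem WRB_aux (hW : Cls W) : ∀ N M : ℕ, ∀ (p q s : List ℕ) (a : ℕ), q.length ≤ N →
    q.count (a + 1) ≤ M → W (p ++ a :: (q ++ a :: s)) → a ∉ q → (∀ c ∈ q, c + 1 ≠ a) →
    q.count (a + 1) = 1 ∧ a + 2 ∉ p ++ a :: (q ++ a :: s) := by
  intro N
  induction N with
  | zero =>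
    intro M p q s a hl _ h hq hq'
    have hq0 : q = [] := List.length_eq_zero_iff.1 (by omega)
    subst hq0
    exact absurd h (hW.nodup p s a)
  | succ N ihN =>
    intro M
    induction M with
    | zero =>
      intro p q s a _ hc h hq hq'
      exact (WRB_count0 hW h hq hq' (List.count_eq_zero.1 (by omega))).elim
    | succ M ihM =>
      intro p q s a hl hc h hq hq'
      have ha : 1 ≤ a := by
        by_contra h0
        have h0' : a = 0 := by omega
        subst h0'
        have := hW.zero _ h
        simp only [List.count_append, List.count_cons_self] at this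
        omega
      by_cases hm : a + 1 ∈ q
      · obtain ⟨q1, r, rfl, hq1⟩ := List.eq_append_cons_of_mem hm
        by_cases hm2 : a + 1 ∈ r
        · exfalso
          obtain ⟨q2, q3, rfl, hq2⟩ := List.eq_append_cons_of_mem hm2
          -- outer induction
          have e1 : p ++ a :: (q1 ++ (a + 1) :: (q2 ++ (a + 1) :: q3) ++ a :: s) =
              (p ++ a :: q1) ++ (a + 1) :: (q2 ++ (a + 1) :: (q3 ++ a :: s)) := by
            simp
          have h2 := h
          rw [e1] at h2
          have hl2 : q2.length ≤ N := by
            simp only [List.length_append, List.length_cons] at hl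
            omega
          have hq2a : ∀ c ∈ q2, c ≠ a := by
            intro c hc hca
            apply hq
            rw [← hca]
            simp [hc]
          have h3 := ihN (q2.count (a + 1 + 1)) (p ++ a :: q1) q2 (q3 ++ a :: s) (a + 1) hl2 le_rfl
            h2 hq2 (fun c hc hca => hq2a c hc (by omega))
          have hm3 : a + 1 + 1 ∈ q2 := List.count_pos_iff.1 (by omega)
          obtain ⟨t1, t2, rfl, ht1⟩ := List.eq_append_cons_of_mem hm3
          have ht2 : a + 1 + 1 ∉ t2 := by
            intro hx
            have hx' := List.count_pos_iff.2 hx
            have := h3.1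
            rw [List.count_append, List.count_cons_self] at this
            omega
          have hf1 : ∀ c ∈ t1, c + 2 ≤ a + 1 ∨ a + 1 + 2 ≤ c := by
            intro c hc
            have c1 : c ≠ a := hq2a c (by simp [hc])
            have c2 : c ≠ a + 1 := fun hx => hq2 (by rw [← hx]; simp [hc])
            have c3 : c ≠ a + 1 + 1 := fun hx => ht1 (by rw [← hx]; exact hc)
            omega
          have hf2 : ∀ c ∈ t2, c + 2 ≤ a + 1 ∨ a + 1 + 2 ≤ c := by
            intro c hc
            have c1 : c ≠ a := hq2a c (by simp [hc])
            have c2 : c ≠ a + 1 := fun hx => hq2 (by rw [← hx]; simp [hc])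
            have c3 : c ≠ a + 1 + 1 := fun hx => ht2 (by rw [← hx]; exact hc)
            omega
          have h4 := (slide hW (p ++ a :: q1) t1
            ((a + 1 + 1) :: (t2 ++ (a + 1) :: (q3 ++ a :: s))) (a + 1) hf1).1 (by
              simpa using h2)
          have h5 := (slide hW (p ++ a :: q1 ++ t1 ++ [a + 1, a + 1 + 1]) t2
            (q3 ++ a :: s) (a + 1) hf2).2 (by simpa using h4)
          have h6 := (hW.braid (p ++ a :: q1 ++ t1) (t2 ++ (q3 ++ a :: s)) (a + 1) (by omega)).1
            (by simpa using h5)
          have h7 := ihM p (q1 ++ t1 ++ (a + 1 + 1) :: (a + 1) :: (a + 1 + 1) :: (t2 ++ q3)) s a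
            (by
              simp only [List.length_append, List.length_cons] at hl ⊢
              omega)
            (by
              have k1 : q1.count (a + 1) = 0 := List.count_eq_zero.2 hq1
              have k2 : t1.count (a + 1) = 0 := List.count_eq_zero.2 fun hx => hq2 (by simp [hx])
              have k3 : t2.count (a + 1) = 0 := List.count_eq_zero.2 fun hx => hq2 (by simp [hx])
              simp only [List.count_append, List.count_cons, beq_iff_eq, k1, k2, k3] at hc ⊢
              simp at hc ⊢
              omega)
            (by simpa using h6)
            (by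
              intro hx
              apply hq
              simp only [List.mem_append, List.mem_cons] at hx ⊢
              rcases hx with (hx | hx) | hx | hx | hx | hx | hx
              · exact Or.inl hx
              · exact Or.inr (Or.inr (Or.inl (Or.inl hx)))
              · omega
              · omega
              · omega
              · exact Or.inr (Or.inr (Or.inl (Or.inr (Or.inr hx))))
              · exact Or.inr (Or.inr (Or.inr (Or.inr hx))))
            (by
              intro c hx hca
              have : c ∈ q1 ++ (a + 1) :: (t1 ++ (a + 1 + 1) :: t2 ++ (a + 1) :: q3) := by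
                simp only [List.mem_append, List.mem_cons] at hx ⊢
                rcases hx with (hx | hx) | hx | hx | hx | hx | hx
                · exact Or.inl hx
                · exact Or.inr (Or.inr (Or.inl (Or.inl hx)))
                · omega
                · omega
                · omega
                · exact Or.inr (Or.inr (Or.inl (Or.inr (Or.inr hx))))
                · exact Or.inr (Or.inr (Or.inr (Or.inr hx)))
              exact hq' c this hca)
          exact h7.2 (by simp)
        · have hcnt : (q1 ++ (a + 1) :: r).count (a + 1) = 1 := by
            rw [List.count_append, List.count_cons_self, List.count_eq_zero.2 hq1,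
              List.count_eq_zero.2 hm2]
          refine ⟨hcnt, ?_⟩
          have hf1 : ∀ c ∈ q1, c + 2 ≤ a ∨ a + 2 ≤ c := by
            intro c hc
            have c1 : c ≠ a := fun hx => hq (by rw [← hx]; simp [hc])
            have c2 : c + 1 ≠ a := hq' c (by simp [hc])
            have c3 : c ≠ a + 1 := fun hx => hq1 (by rw [← hx]; exact hc)
            omega
          have hf2 : ∀ c ∈ r, c + 2 ≤ a ∨ a + 2 ≤ c := by
            intro c hc
            have c1 : c ≠ a := fun hx => hq (by rw [← hx]; simp [hc])
            have c2 : c + 1 ≠ a := hq' c (by simp [hc])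
            have c3 : c ≠ a + 1 := fun hx => hm2 (by rw [← hx]; exact hc)
            omega
          have h4 := (slide hW p q1 ((a + 1) :: (r ++ a :: s)) a hf1).1 (by simpa using h)
          have h5 := (slide hW (p ++ q1 ++ [a, a + 1]) r s a hf2).2 (by simpa using h4)
          have h6 := hW.knot (p ++ q1) (r ++ s) a ha (by simpa using h5)
          intro hx
          simp only [List.mem_append, List.mem_cons] at hx h6
          rcases hx with hx | hx | ((hx | hx | hx) | hx | hx)
          · exact h6.1 (Or.inl hx)
          · omega
          · exact h6.1 (Or.inr hx)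
          · omega
          · exact h6.2 (Or.inl hx)
          · omega
          · exact h6.2 (Or.inr hx)
      · exact (WRB_count0 hW h hq hq' hm).elim

theorem qq (hW : Cls W) {p q s : List ℕ} {a : ℕ} (h : W (p ++ a :: (q ++ a :: s))) (hq : a ∉ q)
    (hq' : ∀ c ∈ q, c + 1 ≠ a) : q.count (a + 1) = 1 ∧ a + 2 ∉ p ++ a :: (q ++ a :: s) :=
  WRB_aux hW q.length (q.count (a + 1)) p q s a le_rfl le_rfl h hq hq'

end DST
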