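import Pool.Agent.DST.WRA
import Pool.Agent.DST.WRB
import Pool.Agent.DST.CLA

/-!
Module CLB of project DST (MP_0f73d6_co).

The word facts h1, qq, h3 for two cells with the same letter v.  Use split3 and word = map over cellsL, then
the list lemma.  For the counts: the members of q are pairwise different cells (sorted), so if all cells
between with letter v+1 (resp. v-1) coincide the count in q.map is at most 1; conversely count = 1 gives
existence and uniqueness (if two different cells of q had letter v+1 the count would be at least 2).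
zc: two different cells with letter 0 would give count 0 ≥ 2, against Cls.zero (one of them is before the
other).  adjc: two adjacent equal letters in the word contradict nodup; (i,j) and (i,j+1) are adjacent in
cellsL (or: h1 with nothing between).
-/

namespace DST

variable {W : List ℕ → Prop} {r : ℤ} {lo hi : ℤ → ℤ} {a : ℤ → ℤ → ℕ}

private theorem clb_uniq {α : Type*} {f : α → ℕ} {n : ℕ} {c d : α} :
    ∀ {q : List α}, (q.map f).count n ≤ 1 → c ∈ q → d ∈ q → f c = n → f d = n → c = d := by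
  intro q
  induction q with
  | nil => intro _ hc; simp at hc
  | cons x t ih =>
    intro h hc hd fc fd
    rw [List.map_cons, List.count_cons] at h
    rcases List.mem_cons.1 hc with rfl | hc'
    · rcases List.mem_cons.1 hd with rfl | hd'
      · rfl
      · have : 0 < (t.map f).count n := by
          rw [List.count_pos_iff]
          exact List.mem_map.2 ⟨d, hd', fd⟩
        simp only [fc, beq_self_eq_true, if_true] at h
        omega
    · rcases List.mem_cons.1 hd with rfl | hd'
      · have : 0 < (t.map f).count n := by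
          rw [List.count_pos_iff]
          exact List.mem_map.2 ⟨c, hc', fc⟩
        simp only [fd, beq_self_eq_true, if_true] at h
        omega
      · exact ih (by omega) hc' hd' fc fd

private theorem clb_count {α : Type*} {f : α → ℕ} {n : ℕ} :
    ∀ {q : List α}, q.Nodup → (∀ c ∈ q, ∀ d ∈ q, f c = n → f d = n → c = d) →
      (q.map f).count n ≤ 1 := by
  intro q
  induction q with
  | nil => intro _ _; simp
  | cons x t ih =>
    intro hn h
    rw [List.nodup_cons] at hn
    rw [List.map_cons, List.count_cons]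
    by_cases hx : f x = n
    · have : (t.map f).count n = 0 := by
        rw [List.count_eq_zero]
        intro hm
        obtain ⟨c, hc, fc⟩ := List.mem_map.1 hm
        have := h x (List.mem_cons_self) c (List.mem_cons_of_mem _ hc) hx fc
        exact hn.1 (this ▸ hc)
      rw [this]
      split <;> omega
    · have := ih hn.2 (fun c hc d hd => h c (List.mem_cons_of_mem _ hc) d (List.mem_cons_of_mem _ hd))
      simp only [beq_iff_eq, hx, if_false]
      omega

private theorem clb_nodup : (cellsL r lo hi).Nodup := by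
  refine List.Pairwise.imp ?_ (cellsL_pairwise (r := r) (lo := lo) (hi := hi))
  intro c d h hcd
  subst hcd
  rcases h with h | ⟨_, h⟩ <;> omega

private theorem clb_mem_word {x y : ℤ} (hc : Cell r lo hi x y) : a x y ∈ word r lo hi a :=
  List.mem_map.2 ⟨(x, y), mem_cellsL.2 hc, rfl⟩

private theorem clb_word {p q s : List (ℤ × ℤ)} {i j i' j' : ℤ} {v : ℕ}
    (h : cellsL r lo hi = p ++ (i, j) :: (q ++ (i', j') :: s)) (e1 : a i j = v) (e2 : a i' j' = v) :
    word r lo hi a = (p.map fun c => a c.1 c.2) ++ v :: ((q.map fun c => a c.1 c.2) ++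
      v :: (s.map fun c => a c.1 c.2)) := by
  unfold word
  rw [h]
  simp [e1, e2]

theorem h1c (hW : Cls W) (hw : W (word r lo hi a)) {i j i' j' : ℤ} {v : ℕ}
    (c1 : Cell r lo hi i j) (c2 : Cell r lo hi i' j') (hb : Bef i j i' j')
    (e1 : a i j = v) (e2 : a i' j' = v)
    (hne : ∀ x y, Cell r lo hi x y → Btw i j i' j' x y → a x y ≠ v) :
    ∃ x y, Cell r lo hi x y ∧ Btw i j i' j' x y ∧ (a x y = v + 1 ∨ a x y + 1 = v) := by
  obtain ⟨p, q, s, hl, hq⟩ := split3 c1 c2 hb
  rw [clb_word hl e1 e2] at hw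
  have hvq : v ∉ q.map fun c => a c.1 c.2 := by
    intro hm
    obtain ⟨c, hc, hcv⟩ := List.mem_map.1 hm
    exact hne c.1 c.2 ((hq c).1 hc).1 ((hq c).1 hc).2 hcv
  rcases h1 hW hw hvq with h | ⟨d, hd, hdv⟩
  · obtain ⟨c, hc, hcv⟩ := List.mem_map.1 h
    exact ⟨c.1, c.2, ((hq c).1 hc).1, ((hq c).1 hc).2, Or.inl hcv⟩
  · obtain ⟨c, hc, hcv⟩ := List.mem_map.1 hd
    exact ⟨c.1, c.2, ((hq c).1 hc).1, ((hq c).1 hc).2, Or.inr (by rw [hcv]; exact hdv)⟩

theorem qc (hW : Cls W) (hw : W (word r lo hi a)) {i j i' j' : ℤ} {v : ℕ}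
    (c1 : Cell r lo hi i j) (c2 : Cell r lo hi i' j') (hb : Bef i j i' j')
    (e1 : a i j = v) (e2 : a i' j' = v)
    (hne : ∀ x y, Cell r lo hi x y → Btw i j i' j' x y → a x y ≠ v)
    (hlow : ∀ x y, Cell r lo hi x y → Btw i j i' j' x y → a x y + 1 ≠ v) :
    (∃ x y, Cell r lo hi x y ∧ Btw i j i' j' x y ∧ a x y = v + 1) ∧
    (∀ x y x' y', Cell r lo hi x y → Cell r lo hi x' y' → Btw i j i' j' x y → Btw i j i' j' x' y' →
      a x y = v + 1 → a x' y' = v + 1 → x = x' ∧ y = y') ∧
    (∀ x y, Cell r lo hi x y → a x y ≠ v + 2) := by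
  obtain ⟨p, q, s, hl, hq⟩ := split3 c1 c2 hb
  have hw0 := hw
  rw [clb_word hl e1 e2] at hw
  have hvq : v ∉ q.map fun c => a c.1 c.2 := by
    intro hm
    obtain ⟨c, hc, hcv⟩ := List.mem_map.1 hm
    exact hne c.1 c.2 ((hq c).1 hc).1 ((hq c).1 hc).2 hcv
  have hvq' : ∀ c ∈ q.map fun c => a c.1 c.2, c + 1 ≠ v := by
    intro d hd
    obtain ⟨c, hc, hcv⟩ := List.mem_map.1 hd
    rw [← hcv]
    exact hlow c.1 c.2 ((hq c).1 hc).1 ((hq c).1 hc).2
  obtain ⟨hcount, hno⟩ := qq hW hw hvq hvq'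
  refine ⟨?_, ?_, ?_⟩
  · have : v + 1 ∈ q.map fun c => a c.1 c.2 := by
      rw [← List.count_pos_iff, hcount]
      exact Nat.one_pos
    obtain ⟨c, hc, hcv⟩ := List.mem_map.1 this
    exact ⟨c.1, c.2, ((hq c).1 hc).1, ((hq c).1 hc).2, hcv⟩
  · intro x y x' y' hx hx' hb1 hb2 ha1 ha2
    have := clb_uniq (f := fun c : ℤ × ℤ => a c.1 c.2) (n := v + 1) (c := (x, y)) (d := (x', y'))
      (q := q) hcount.le ((hq (x, y)).2 ⟨hx, hb1⟩) ((hq (x', y')).2 ⟨hx', hb2⟩) ha1 ha2
    exact Prod.mk.inj this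
  · intro x y hx hxy
    have := clb_mem_word (a := a) hx
    rw [clb_word hl e1 e2, hxy] at this
    exact hno this

theorem h3c (hW : Cls W) (hw : W (word r lo hi a)) {i j i' j' : ℤ} {v : ℕ} (hv : 2 ≤ v)
    (c1 : Cell r lo hi i j) (c2 : Cell r lo hi i' j') (hb : Bef i j i' j')
    (e1 : a i j = v) (e2 : a i' j' = v)
    (hne : ∀ x y, Cell r lo hi x y → Btw i j i' j' x y → a x y ≠ v)
    (hup : ∀ x y, Cell r lo hi x y → Btw i j i' j' x y → a x y ≠ v + 1)
    (hu : ∀ x y x' y', Cell r lo hi x y → Cell r lo hi x' y' → Btw i j i' j' x y →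
      Btw i j i' j' x' y' → a x y + 1 = v → a x' y' + 1 = v → x = x' ∧ y = y') :
    ∀ x y, Cell r lo hi x y → a x y ≠ v + 1 := by
  obtain ⟨p, q, s, hl, hq⟩ := split3 c1 c2 hb
  rw [clb_word hl e1 e2] at hw
  have hvq : v ∉ q.map fun c => a c.1 c.2 := by
    intro hm
    obtain ⟨c, hc, hcv⟩ := List.mem_map.1 hm
    exact hne c.1 c.2 ((hq c).1 hc).1 ((hq c).1 hc).2 hcv
  have hvq1 : v + 1 ∉ q.map fun c => a c.1 c.2 := by
    intro hm
    obtain ⟨c, hc, hcv⟩ := List.mem_map.1 hm
    exact hup c.1 c.2 ((hq c).1 hc).1 ((hq c).1 hc).2 hcv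
  have hqn : q.Nodup := by
    have h1 := clb_nodup (r := r) (lo := lo) (hi := hi)
    rw [hl] at h1
    have h2 := (List.nodup_append.1 h1).2.1
    have h3 := (List.nodup_cons.1 h2).2
    exact (List.nodup_append.1 h3).1
  have hcnt : (q.map fun c => a c.1 c.2).count (v - 1) ≤ 1 := by
    refine clb_count hqn ?_
    intro c hc d hd fc fd
    have := hu c.1 c.2 d.1 d.2 ((hq c).1 hc).1 ((hq d).1 hd).1 ((hq c).1 hc).2 ((hq d).1 hd).2
      (by omega) (by omega)
    exact Prod.ext this.1 this.2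
  have hno := h3 hW hv hw hvq hvq1 hcnt
  intro x y hx hxy
  have := clb_mem_word (a := a) hx
  rw [clb_word hl e1 e2, hxy] at this
  exact hno this

private theorem clb_zc (hW : Cls W) (hw : W (word r lo hi a)) {i j i' j' : ℤ}
    (c1 : Cell r lo hi i j) (c2 : Cell r lo hi i' j') (e1 : a i j = 0) (e2 : a i' j' = 0)
    (hb : Bef i j i' j') : False := by
  obtain ⟨p, q, s, hl, hq⟩ := split3 c1 c2 hb
  have hz := hW.zero _ hw
  rw [clb_word hl e1 e2] at hz
  simp only [List.count_append, List.count_cons_self] at hz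
  omega

theorem zc (hW : Cls W) (hw : W (word r lo hi a)) {i j i' j' : ℤ}
    (c1 : Cell r lo hi i j) (c2 : Cell r lo hi i' j') (e1 : a i j = 0) (e2 : a i' j' = 0) :
    i = i' ∧ j = j' := by
  by_contra hcon
  have : Bef i j i' j' ∨ Bef i' j' i j := by
    unfold Bef
    omega
  rcases this with h | h
  · exact clb_zc hW hw c1 c2 e1 e2 h
  · exact clb_zc hW hw c2 c1 e2 e1 h

theorem adjc (hW : Cls W) (hw : W (word r lo hi a)) {i j : ℤ}
    (c1 : Cell r lo hi i j) (c2 : Cell r lo hi i (j + 1)) : a i j ≠ a i (j + 1) := by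
  intro he
  have hno : ∀ x y, ¬ Btw i j i (j + 1) x y := by
    intro x y h
    unfold Btw Bef at h
    omega
  obtain ⟨x, y, _, hb, _⟩ := h1c hW hw c1 c2 (Or.inr ⟨rfl, by omega⟩) rfl he.symm
    (fun x y _ hb => absurd hb (hno x y))
  exact hno x y hb

end DST
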