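import Pool.Agent.DST.WRC
import Pool.Agent.DST.CLA

/-!
Module CLC of project DST (MP_0f73d6_co).

The facts l5 and l5' for four cells c1, c2, c3, c4 in reading order.  Split cellsL at the four cells (split3
for (c1,c2), and again; or a direct splitting of a sorted list at four members): cellsL = p ++ c1 :: (q1 ++
c2 :: (q2 ++ c3 :: (q3 ++ c4 :: s))), all members of q1, q2, q3 are cells between; apply the list lemmas.
-/

namespace DST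

variable {W : List ℕ → Prop} {r : ℤ} {lo hi : ℤ → ℤ} {a : ℤ → ℤ → ℕ}

private theorem clc_tail {L t : List (ℤ × ℤ)} {x y : ℤ × ℤ}
    (h : cellsL r lo hi = L ++ x :: t) (hy : Cell r lo hi y.1 y.2) (hb : Bef x.1 x.2 y.1 y.2) :
    y ∈ t := by
  have hm := mem_cellsL.2 hy
  have hp := cellsL_pairwise (r := r) (lo := lo) (hi := hi)
  rw [h] at hm hp
  rw [List.pairwise_append] at hp
  rcases List.mem_append.1 hm with h1 | h1
  · have := hp.2.2 y h1 x (List.mem_cons_self)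
    unfold Bef at this hb
    omega
  · rcases List.mem_cons.1 h1 with h2 | h2
    · subst h2
      unfold Bef at hb
      omega
    · exact h2

private theorem clc_btw {L q s : List (ℤ × ℤ)} {x y : ℤ × ℤ}
    (h : cellsL r lo hi = L ++ x :: (q ++ y :: s)) (c : ℤ × ℤ) (hc : c ∈ q) :
    Cell r lo hi c.1 c.2 ∧ Btw x.1 x.2 y.1 y.2 c.1 c.2 := by
  have hp := cellsL_pairwise (r := r) (lo := lo) (hi := hi)
  rw [h] at hp
  rw [List.pairwise_append] at hp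
  have h2 := hp.2.1
  rw [List.pairwise_cons] at h2
  have h3 := h2.2
  rw [List.pairwise_append] at h3
  refine ⟨?_, h2.1 c (List.mem_append_left _ hc), h3.2.2 c hc y (List.mem_cons_self)⟩
  rw [← mem_cellsL, h]
  simp [hc]

private theorem clc_split {i1 j1 i2 j2 i3 j3 i4 j4 : ℤ}
    (c1 : Cell r lo hi i1 j1) (c2 : Cell r lo hi i2 j2) (c3 : Cell r lo hi i3 j3)
    (c4 : Cell r lo hi i4 j4) (b12 : Bef i1 j1 i2 j2) (b23 : Bef i2 j2 i3 j3)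
    (b34 : Bef i3 j3 i4 j4) :
    ∃ p q1 q2 q3 s, cellsL r lo hi = p ++ (i1, j1) :: (q1 ++ (i2, j2) :: (q2 ++ (i3, j3) ::
      (q3 ++ (i4, j4) :: s))) ∧
      (∀ c ∈ q1, Cell r lo hi c.1 c.2 ∧ Btw i1 j1 i2 j2 c.1 c.2) ∧
      (∀ c ∈ q2, Cell r lo hi c.1 c.2 ∧ Btw i2 j2 i3 j3 c.1 c.2) ∧
      (∀ c ∈ q3, Cell r lo hi c.1 c.2 ∧ Btw i3 j3 i4 j4 c.1 c.2) := by
  obtain ⟨p, t1, h1⟩ := List.append_of_mem (mem_cellsL (c := (i1, j1)).2 c1)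
  obtain ⟨q1, t2, h2⟩ := List.append_of_mem (clc_tail (y := (i2, j2)) h1 c2 b12)
  have h2' : cellsL r lo hi = (p ++ (i1, j1) :: q1) ++ (i2, j2) :: t2 := by
    rw [h1, h2]; simp
  obtain ⟨q2, t3, h3⟩ := List.append_of_mem (clc_tail (y := (i3, j3)) h2' c3 b23)
  have h3' : cellsL r lo hi = (p ++ (i1, j1) :: (q1 ++ (i2, j2) :: q2)) ++ (i3, j3) :: t3 := by
    rw [h2', h3]; simp
  obtain ⟨q3, s, h4⟩ := List.append_of_mem (clc_tail (y := (i4, j4)) h3' c4 b34)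
  refine ⟨p, q1, q2, q3, s, ?_, ?_, ?_, ?_⟩
  · rw [h1, h2, h3, h4]
  · intro c hc
    exact clc_btw (x := (i1, j1)) (y := (i2, j2)) (L := p) (q := q1) (s := t2)
      (by rw [h1, h2]) c hc
  · intro c hc
    exact clc_btw (x := (i2, j2)) (y := (i3, j3)) (L := p ++ (i1, j1) :: q1) (q := q2) (s := t3)
      (by rw [h2', h3]) c hc
  · intro c hc
    exact clc_btw (x := (i3, j3)) (y := (i4, j4)) (L := p ++ (i1, j1) :: (q1 ++ (i2, j2) :: q2))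
      (q := q3) (s := s) (by rw [h3', h4]) c hc

private theorem clc_word {p q1 q2 q3 s : List (ℤ × ℤ)} {x1 x2 x3 x4 : ℤ × ℤ}
    (h : cellsL r lo hi = p ++ x1 :: (q1 ++ x2 :: (q2 ++ x3 :: (q3 ++ x4 :: s)))) :
    word r lo hi a = (p.map fun c => a c.1 c.2) ++ a x1.1 x1.2 :: ((q1.map fun c => a c.1 c.2) ++
      a x2.1 x2.2 :: ((q2.map fun c => a c.1 c.2) ++ a x3.1 x3.2 :: ((q3.map fun c => a c.1 c.2) ++
      a x4.1 x4.2 :: (s.map fun c => a c.1 c.2)))) := by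
  unfold word
  rw [h]
  simp

theorem l5c (hW : Cls W) (hw : W (word r lo hi a)) {i1 j1 i2 j2 i3 j3 i4 j4 : ℤ} {b : ℕ}
    (c1 : Cell r lo hi i1 j1) (c2 : Cell r lo hi i2 j2) (c3 : Cell r lo hi i3 j3)
    (c4 : Cell r lo hi i4 j4) (b12 : Bef i1 j1 i2 j2) (b23 : Bef i2 j2 i3 j3) (b34 : Bef i3 j3 i4 j4)
    (v1 : a i1 j1 = b + 1) (v2 : a i2 j2 = b) (v3 : a i3 j3 = b + 1) (v4 : a i4 j4 = b)
    (g1 : ∀ x y, Cell r lo hi x y → Btw i1 j1 i2 j2 x y → a x y ≠ b ∧ a x y ≠ b + 1 ∧ a x y ≠ b + 2)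
    (g2 : ∀ x y, Cell r lo hi x y → Btw i2 j2 i3 j3 x y →
      a x y + 1 ≠ b ∧ a x y ≠ b ∧ a x y ≠ b + 1 ∧ a x y ≠ b + 2)
    (g3 : ∀ x y, Cell r lo hi x y → Btw i3 j3 i4 j4 x y →
      a x y + 1 ≠ b ∧ a x y ≠ b ∧ a x y ≠ b + 1 ∧ a x y ≠ b + 2) : False := by
  obtain ⟨p, q1, q2, q3, s, hl, hq1, hq2, hq3⟩ := clc_split c1 c2 c3 c4 b12 b23 b34
  rw [clc_word hl] at hw
  simp only [v1, v2, v3, v4] at hw
  refine l5 hW hw ?_ ?_ ?_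
  · intro c hc
    obtain ⟨x, hx, rfl⟩ := List.mem_map.1 hc
    exact g1 x.1 x.2 (hq1 x hx).1 (hq1 x hx).2
  · intro c hc
    obtain ⟨x, hx, rfl⟩ := List.mem_map.1 hc
    exact g2 x.1 x.2 (hq2 x hx).1 (hq2 x hx).2
  · intro c hc
    obtain ⟨x, hx, rfl⟩ := List.mem_map.1 hc
    exact g3 x.1 x.2 (hq3 x hx).1 (hq3 x hx).2

theorem l5c' (hW : Cls W) (hw : W (word r lo hi a)) {i1 j1 i2 j2 i3 j3 i4 j4 : ℤ} {b : ℕ}
    (c1 : Cell r lo hi i1 j1) (c2 : Cell r lo hi i2 j2) (c3 : Cell r lo hi i3 j3)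
    (c4 : Cell r lo hi i4 j4) (b12 : Bef i1 j1 i2 j2) (b23 : Bef i2 j2 i3 j3) (b34 : Bef i3 j3 i4 j4)
    (v1 : a i1 j1 = b) (v2 : a i2 j2 = b + 1) (v3 : a i3 j3 = b) (v4 : a i4 j4 = b + 1)
    (g1 : ∀ x y, Cell r lo hi x y → Btw i1 j1 i2 j2 x y →
      a x y + 1 ≠ b ∧ a x y ≠ b ∧ a x y ≠ b + 1 ∧ a x y ≠ b + 2)
    (g2 : ∀ x y, Cell r lo hi x y → Btw i2 j2 i3 j3 x y →
      a x y + 1 ≠ b ∧ a x y ≠ b ∧ a x y ≠ b + 1 ∧ a x y ≠ b + 2)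
    (g3 : ∀ x y, Cell r lo hi x y → Btw i3 j3 i4 j4 x y → a x y ≠ b ∧ a x y ≠ b + 1 ∧ a x y ≠ b + 2) :
    False := by
  obtain ⟨p, q1, q2, q3, s, hl, hq1, hq2, hq3⟩ := clc_split c1 c2 c3 c4 b12 b23 b34
  rw [clc_word hl] at hw
  simp only [v1, v2, v3, v4] at hw
  refine l5' hW hw ?_ ?_ ?_
  · intro c hc
    obtain ⟨x, hx, rfl⟩ := List.mem_map.1 hc
    exact g1 x.1 x.2 (hq1 x hx).1 (hq1 x hx).2
  · intro c hc
    obtain ⟨x, hx, rfl⟩ := List.mem_map.1 hc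
    exact g2 x.1 x.2 (hq2 x hx).1 (hq2 x hx).2
  · intro c hc
    obtain ⟨x, hx, rfl⟩ := List.mem_map.1 hc
    exact g3 x.1 x.2 (hq3 x hx).1 (hq3 x hx).2

end DST
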