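import Pool.Agent.DST.CLA

/-!
Module FIN of project DST (MP_0f73d6_co).

Finiteness.  An array which is 0 outside the cells is determined by its reading word (List.map_inj_left on
cellsL and mem_cellsL), and W is finite.  K is determined by its values on 0 ≤ i ≤ r, which are between
min and max of finitely many bounds (lo (r-1) ≤ K i ≤ hi 0 - 1 by monotonicity; or simply lo i ≤ K (i+1), K i < hi i,
K 0 = hi 0 - 1), K = 0 elsewhere.  For uset_finite: κ is between lo (r-1) - (r-1) and hi 0 - 1, finite union.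
tset_finite: T is determined by the list of its entries in reading order, and for a given word w of natural
numbers there are finitely many lists of integers with absolute values w.
-/

namespace DST

variable {W : List ℕ → Prop} {r κ : ℤ} {lo hi : ℤ → ℤ}

private theorem fin_upper {K : ℤ → ℤ} {a : ℤ → ℤ → ℕ} (h : VSR r κ lo hi K a) (n : ℕ)
    (hn : (n : ℤ) ≤ r) : K n ≤ hi 0 - 1 := by
  induction n with
  | zero => simp [h.K0]
  | succ n ih =>
    have h1 := h.Kmono n (by omega) (by push_cast at hn; omega)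
    have h2 := ih (by push_cast at hn; omega)
    push_cast
    omega

private theorem fin_lower {K : ℤ → ℤ} {a : ℤ → ℤ → ℕ} (h : VSR r κ lo hi K a) (n : ℕ)
    (hn : (n : ℤ) ≤ r) : lo (r - 1) ≤ K (r - n) := by
  induction n with
  | zero => simp [h.Kr]
  | succ n ih =>
    have h1 := h.Kmono (r - (n + 1 : ℕ)) (by omega) (by omega)
    have h2 := ih (by push_cast at hn; omega)
    have h3 : r - ((n + 1 : ℕ) : ℤ) + 1 = r - n := by push_cast; ring
    rw [h3] at h1
    omega

theorem vset_finite (hfin : {w | W w}.Finite) (hS : Shp r lo hi) : (VSet W r κ lo hi).Finite := by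
  have ht : (({w | W w} : Set (List ℕ)) ×ˢ
      (Set.pi Set.univ fun _ : Fin (r.toNat + 1) => Set.Icc (lo (r - 1)) (hi 0 - 1))).Finite :=
    hfin.prod (Set.Finite.pi fun _ => Set.finite_Icc _ _)
  refine Set.Finite.of_injOn (f := fun x : (ℤ → ℤ) × (ℤ → ℤ → ℕ) =>
    (word r lo hi x.2, fun i : Fin (r.toNat + 1) => x.1 ((i : ℕ) : ℤ))) ?_ ?_ ht
  · rintro ⟨K, a⟩ ⟨hV, -, -⟩
    refine Set.mem_prod.2 ⟨hV.w, ?_⟩
    intro i _
    have hir : ((i : ℕ) : ℤ) ≤ r := by have := i.2; have := hS.rpos; omega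
    refine Set.mem_Icc.2 ⟨?_, fin_upper hV.toVSR _ hir⟩
    have h := fin_lower hV.toVSR (r - ((i : ℕ) : ℤ)).toNat (by omega)
    have h2 : r - (((r - ((i : ℕ) : ℤ)).toNat : ℕ) : ℤ) = ((i : ℕ) : ℤ) := by omega
    rw [h2] at h
    exact h
  · rintro ⟨K, a⟩ ⟨-, hK, ha⟩ ⟨K', a'⟩ ⟨-, hK', ha'⟩ heq
    simp only [Prod.mk.injEq] at heq
    obtain ⟨h1, h2⟩ := heq
    simp only at hK ha hK' ha'
    refine Prod.ext ?_ ?_
    · funext i
      simp only
      by_cases hi' : 0 ≤ i ∧ i ≤ r
      · have h3 := congrFun h2 ⟨i.toNat, by omega⟩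
        simp only at h3
        rwa [Int.toNat_of_nonneg hi'.1] at h3
      · rw [hK i hi', hK' i hi']
    · funext i j
      simp only
      by_cases hc : Cell r lo hi i j
      · have h4 := List.map_inj_left.1 h1 (i, j) (mem_cellsL.2 hc)
        exact h4
      · rw [ha i j hc, ha' i j hc]

theorem uset_finite (hfin : {w | W w}.Finite) (hS : Shp r lo hi) : (USet W r lo hi).Finite := by
  have h : USet W r lo hi ⊆ ⋃ κ ∈ Set.Icc (lo (r - 1) - (r - 1)) (hi 0 - 1),
      (fun x : (ℤ → ℤ) × (ℤ → ℤ → ℕ) => (κ, x)) '' VSet W r κ lo hi := by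
    rintro ⟨κ, x⟩ hx
    have hx' : x ∈ VSet W r κ lo hi := hx
    have h1 := hx'.1.κ0
    have h2 := hx'.1.κr
    have h3 := hx'.1.K0
    have h4 := hx'.1.Kr
    rw [Set.mem_iUnion₂]
    exact ⟨κ, Set.mem_Icc.2 ⟨by omega, by omega⟩, x, hx', rfl⟩
  exact Set.Finite.subset
    (Set.Finite.biUnion (Set.finite_Icc _ _) fun κ _ => (vset_finite hfin hS).image _) h

private theorem fin_fib (w : List ℕ) : {l : List ℤ | l.map Int.natAbs = w}.Finite := by
  induction w with
  | nil =>
    refine (Set.finite_singleton ([] : List ℤ)).subset ?_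
    intro l hl
    simpa using hl
  | cons a w ih =>
    refine (Set.Finite.image2 (fun (x : ℤ) (l : List ℤ) => x :: l)
      (Set.toFinite ({(a : ℤ), -(a : ℤ)} : Set ℤ)) ih).subset ?_
    intro l hl
    rcases l with _ | ⟨x, l⟩
    · simp at hl
    · simp only [Set.mem_ofPred_eq, List.map_cons, List.cons.injEq] at hl
      refine ⟨x, ?_, l, hl.2, rfl⟩
      simp only [Set.mem_insert_iff, Set.mem_singleton_iff]
      have := hl.1
      omega

theorem tset_finite (hfin : {w | W w}.Finite) : {T | Tab W r hi T}.Finite := by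
  have ht : (⋃ w ∈ {w | W w}, {l : List ℤ | l.map Int.natAbs = w}).Finite :=
    Set.Finite.biUnion hfin fun w _ => fin_fib w
  refine Set.Finite.of_injOn (f := fun T : ℤ → ℤ → ℤ =>
    (cellsL r z0 hi).map fun c => T c.1 c.2) ?_ ?_ ht
  · intro T hT
    rw [Set.mem_iUnion₂]
    refine ⟨_, hT.w, ?_⟩
    simp only [Set.mem_ofPred_eq, List.map_map, word]
    rfl
  · intro T hT T' hT' heq
    funext i j
    by_cases hc : Cell r z0 hi i j
    · exact List.map_inj_left.1 heq (i, j) (mem_cellsL.2 hc)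
    · rw [hT.off i j hc, hT'.off i j hc]

end DST
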