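import Pool.Agent.DST.ROW
import Pool.Agent.DST.CLB

/-!
Module NPM of project DST (MP_0f73d6_co).

np: a letter v which occurs in row i both to the left of the ribbon (block N_i) and to the right of it (block
P_(i-1)) has no v+1 in the word.
Proof by strong induction on v (assume some cell has the letter v+1, get a contradiction).  Let a i j1 = v,
lo i ≤ j1 < K (i+1), and a i j2 = v, K i < j2 < hi i (simp only [InP, sub_add_cancel]).  Cells between are the
(i,y) with j1 < y < j2 and there a i y < v (rowV).  So there is no v and no v+1 between.  v ≥ 2 by two_le.  If all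
cells between with letter v-1 coincided, h3c would say that v+1 does not occur: contradiction.  So there are
two different columns y1 < y2 between j1 and j2 with a i y1 = a i y2 = v-1.  By k1b (v is in W_i and in
W_(i-1)) the cells K (i+1) ≤ y ≤ K i have letters ≤ v-2, so y1, y2 are not among them.  If y2 < K (i+1) then rowN
gives a i y2 < a i y1; if K i < y1 then rowP gives a i y1 < a i y2; so y1 < K (i+1) and K i < y2 < hi i, i.e. v-1 is in
N_i and in P_(i-1), and v occurs; induction.
-/

namespace DST

variable {W : List ℕ → Prop} {r κ : ℤ} {lo hi K : ℤ → ℤ} {a : ℤ → ℤ → ℕ}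

theorem np_aux (hW : Cls W) (hS : Shp r lo hi) (h : VS W r κ lo hi K a) {i : ℤ} (i0 : 1 ≤ i)
    (ir : i + 1 < r) : ∀ v : ℕ, InN lo K a i v → InP hi K a (i - 1) v →
    ∀ x y, Cell r lo hi x y → a x y ≠ v + 1 := by
  intro v
  induction v using Nat.strong_induction_on with
  | _ v ih =>
    intro hN hP
    have h2 : 2 ≤ v := two_le hS h (by omega) ir (Or.inr hN)
    have hWN : InW lo hi K a i v := Or.inr hN
    have hWP : InW lo hi K a (i - 1) v := Or.inl hP
    obtain ⟨j1, k1, k2, k3⟩ := hN
    obtain ⟨j2, k4, k5, k6⟩ := hP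
    rw [sub_add_cancel] at k4 k5 k6
    have hKm := h.Kmono i (by omega) (by omega)
    have hKge := h.Kge i (by omega) (by omega)
    have c1 : Cell r lo hi i j1 := ⟨by omega, by omega, k1, by omega⟩
    have c2 : Cell r lo hi i j2 := ⟨by omega, by omega, by omega, k5⟩
    have hbtw : ∀ x y, Btw i j1 i j2 x y → x = i ∧ j1 < y ∧ y < j2 := by
      intro x y hb
      obtain ⟨hb1, hb2⟩ := hb
      unfold Bef at hb1 hb2
      omega
    have key : ∀ x y, Cell r lo hi x y → Btw i j1 i j2 x y → a x y < v := by
      intro x y hc hb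
      obtain ⟨rfl, h3, h4⟩ := hbtw x y hb
      rcases rowV h.toVSR (by omega) (by omega) k1 h3 h4 k5 with h5 | h5
      · rwa [k3] at h5
      · rwa [k6] at h5
    by_cases hu : ∀ x y x' y', Cell r lo hi x y → Cell r lo hi x' y' → Btw i j1 i j2 x y →
      Btw i j1 i j2 x' y' → a x y + 1 = v → a x' y' + 1 = v → x = x' ∧ y = y'
    · exact h3c hW h.w h2 c1 c2 (Or.inr ⟨rfl, by omega⟩) k3 k6
        (fun x y hc hb => by have := key x y hc hb; omega)
        (fun x y hc hb => by have := key x y hc hb; omega) hu
    · exfalso
      push Not at hu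
      obtain ⟨x, y, x', y', hc, hc', hb, hb', e, e', hne⟩ := hu
      obtain ⟨rfl, h3, h4⟩ := hbtw x y hb
      obtain ⟨hxx, h3', h4'⟩ := hbtw x' y' hb'
      subst hxx
      have hyy : y ≠ y' := hne rfl
      have rib : ∀ t, K (x' + 1) ≤ t → t ≤ K x' → a x' t + 2 ≤ v := fun t ht1 ht2 =>
        k1b hS h i0 ir hWN hWP ht1 ht2
      have main : ∀ s t, j1 < s → s < t → t < j2 → a x' s + 1 = v → a x' t + 1 = v → False := by
        intro s t hs1 hst ht hs ht'
        have q1 : K x' < t := by
          by_contra hcon
          rcases lt_or_ge t (K (x' + 1)) with h5 | h5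
          · have := rowN h.toVSR (by omega) (by omega) (by omega : lo x' ≤ s) hst h5.le
            omega
          · have := rib t h5 (by omega); omega
        have q2 : s < K (x' + 1) := by
          by_contra hcon
          rcases le_or_gt s (K x') with h5 | h5
          · have := rib s (by omega) h5; omega
          · have := rowP h.toVSR (by omega) (by omega) h5.le hst (by omega)
            omega
        refine ih (v - 1) (by omega) ⟨s, by omega, q2, by omega⟩
          ⟨t, by rw [sub_add_cancel]; omega, by rw [sub_add_cancel]; omega,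
            by rw [sub_add_cancel]; omega⟩ _ _ c1 (by omega)
      rcases lt_or_gt_of_ne hyy with h5 | h5
      · exact main y y' h3 h5 h4' e e'
      · exact main y' y h3' h5 h4 e' e

theorem np (hW : Cls W) (hS : Shp r lo hi) (h : VS W r κ lo hi K a) {i : ℤ} (i0 : 1 ≤ i)
    (ir : i + 1 < r) {v : ℕ} (hN : InN lo K a i v) (hP : InP hi K a (i - 1) v) :
    ∀ x y, Cell r lo hi x y → a x y ≠ v + 1 :=
  np_aux hW hS h i0 ir v hN hP

end DST
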