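import Pool.Agent.DST.XXM
import Pool.Agent.DST.NPM

/-!
Module S3A of project DST (MP_0f73d6_co).

s3a: new equality with v < b.  Let i ≥ 1, jb < j ≤ L, v = a i (j-1) = a (i-1) j.  v < b (c.jlt, jb ≤ j-1 < L), and
v ≥ M.  (i,j-1) is in N_i, (i-1,j) is in N_(i-1) (j ≤ L < K i by xK), so v is in W_i and in W_(i-1); v ≥ 2 (two_le).
Suppose the conclusion fails: no v+1 in row i-1 left of j, no v+1 in row i right of L.  Cells between (i,j-1)
and (i-1,j): row i columns > j-1, row i-1 columns < j.  Row i, columns j ≤ y < K (i+1) = L: letters < v (rowN); columns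
L ≤ y ≤ K i: letters ≤ v-2 (k1b); columns > K i: P_(i-1).  Row i-1 columns < j: letters > v, not v+1.
v is not in P_(i-1): otherwise np gives v+1 not in the word, but v+1 ≤ b is in W_i (c.top).  So there is no v and
no v+1 between.  Letters v-1 between: in N_i at most one, in P_(i-1) at most one, nowhere else; both would mean
v-1 in N_i and P_(i-1), and np gives that v is not in the word, contradiction.  So at most one, and h3c gives
that v+1 is not in the word, contradiction to v+1 ≤ b.
-/

namespace DST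

variable {W : List ℕ → Prop} {r κ : ℤ} {lo hi K : ℤ → ℤ} {a : ℤ → ℤ → ℕ} {i L f jb : ℤ} {M b : ℕ}

theorem s3a (c : Ctx W r κ lo hi K a i L f jb M b) (i1 : 1 ≤ i) {j : ℤ} (h1 : jb < j) (h2 : j ≤ L)
    (h3 : lo (i - 1) ≤ j) (he : a i (j - 1) = a (i - 1) j) :
    (∃ k, lo (i - 1) ≤ k ∧ k < j ∧ a (i - 1) k = a (i - 1) j + 1) ∨
      (∃ k, L < k ∧ k < hi i ∧ a i k = a (i - 1) j + 1) := by
  have i0 := c.i0
  have i1' := c.i1
  have hL := c.hL
  have jlo := c.jlo
  have jL := c.jL
  have hxK := xK c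
  have hW := c.cls
  have hS := c.shp
  have hV := c.vs
  have hVr := hV.toVSR
  have hKlt := hVr.Klt i i0 (by omega)
  have hhi := hS.him (i - 1) (by omega) (by omega)
  rw [sub_add_cancel] at hhi
  have hKm := hVr.Kmono i i0 (by omega)
  obtain ⟨v, hv⟩ : ∃ v, a (i - 1) j = v := ⟨_, rfl⟩
  rw [hv] at he ⊢
  have hvb : v < b := by
    have := c.jlt (j - 1) (by omega) (by omega)
    omega
  have hN : InN lo K a i v := ⟨j - 1, by omega, by omega, he⟩
  have hN' : InN lo K a (i - 1) v := ⟨j, h3, by rw [sub_add_cancel]; omega, hv⟩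
  have hWi : InW lo hi K a i v := Or.inr hN
  have hWi' : InW lo hi K a (i - 1) v := Or.inr hN'
  have hMv := c.Mmin i v i0 i1' hWi
  have hv2 := two_le hS hV i0 i1' hWi
  have hword : ∃ x y, Cell r lo hi x y ∧ a x y = v + 1 :=
    s1m_cell c (c.top (v + 1) (by omega) (by omega))
  obtain ⟨x0, y0, hc0, hv0⟩ := hword
  have hnotP : ¬ InP hi K a (i - 1) v := fun hP => np hW hS hV i1 i1' hN hP x0 y0 hc0 hv0
  by_contra hcon
  rw [not_or] at hcon
  obtain ⟨hA, hB⟩ := hcon
  push Not at hA hB
  have cell1 : Cell r lo hi i (j - 1) := ⟨i0, by omega, by omega, by omega⟩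
  have cell2 : Cell r lo hi (i - 1) j := ⟨by omega, by omega, h3, by omega⟩
  -- row i to the right of column j - 1
  have rowi : ∀ y, j - 1 < y → y < hi i → a i y ≠ v ∧ a i y ≠ v + 1 ∧
      (a i y + 1 = v → y < L ∨ K i < y) := by
    intro y hy hyh
    by_cases hy1 : y ≤ L
    · have hd := rowN hVr i0 (by omega : i < r) (by omega : lo i ≤ j - 1) hy (by omega : y ≤ K (i + 1))
      rw [he] at hd
      refine ⟨by omega, by omega, fun hh => ?_⟩
      by_contra hc
      rw [not_or] at hc
      have := k1b hS hV i1 i1' hWi hWi' (j := y) (by omega) (by omega)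
      omega
    · by_cases hy2 : y ≤ K i
      · have := k1b hS hV i1 i1' hWi hWi' (j := y) (by omega) hy2
        exact ⟨by omega, by omega, by omega⟩
      · refine ⟨fun h => hnotP ⟨y, ?_, ?_, ?_⟩, hB y (by omega) hyh, fun _ => Or.inr (by omega)⟩
        · rw [sub_add_cancel]; omega
        · rw [sub_add_cancel]; exact hyh
        · rw [sub_add_cancel]; exact h
  have rowi' : ∀ y, lo (i - 1) ≤ y → y < j → v < a (i - 1) y := by
    intro y hy hyj
    have := rowN hVr (by omega : 0 ≤ i - 1) (by omega : i - 1 < r) hy hyj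
      (by rw [sub_add_cancel]; omega)
    rwa [hv] at this
  have hbt : ∀ x y, Cell r lo hi x y → Btw i (j - 1) (i - 1) j x y →
      (x = i ∧ j - 1 < y ∧ y < hi i) ∨ (x = i - 1 ∧ lo (i - 1) ≤ y ∧ y < j) := by
    rintro x y ⟨x0, xr, xlo, xhi⟩ ⟨h1, h2⟩
    rcases h1 with h1 | ⟨h1, h1'⟩
    · rcases h2 with h2 | ⟨h2, h2'⟩
      · omega
      · right
        subst h2
        exact ⟨rfl, xlo, h2'⟩
    · left
      subst h1
      exact ⟨rfl, h1', xhi⟩
  refine h3c hW hV.w (i := i) (j := j - 1) (i' := i - 1) (j' := j) (v := v) hv2 cell1 cell2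
    (Or.inl (by omega)) he hv ?_ ?_ ?_ x0 y0 hc0 hv0
  · intro x y hc hb
    rcases hbt x y hc hb with ⟨rfl, e1, e2⟩ | ⟨rfl, e1, e2⟩
    · exact (rowi y e1 e2).1
    · have := rowi' y e1 e2
      omega
  · intro x y hc hb
    rcases hbt x y hc hb with ⟨rfl, e1, e2⟩ | ⟨rfl, e1, e2⟩
    · exact (rowi y e1 e2).2.1
    · exact hA y e1 e2
  · intro x y x' y' hc hc' hb hb' e e'
    have key : ∀ x y, Cell r lo hi x y → Btw i (j - 1) (i - 1) j x y → a x y + 1 = v →
        x = i ∧ j - 1 < y ∧ y < hi i ∧ (y < L ∨ K i < y) := by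
      intro x y hc hb e
      rcases hbt x y hc hb with ⟨rfl, e1, e2⟩ | ⟨rfl, e1, e2⟩
      · exact ⟨rfl, e1, e2, (rowi y e1 e2).2.2 e⟩
      · have := rowi' y e1 e2
        omega
    obtain ⟨rfl, f1, f2, f3⟩ := key x y hc hb e
    obtain ⟨f0', f1', f2', f3'⟩ := key x' y' hc' hb' e'
    subst f0'
    refine ⟨rfl, ?_⟩
    have mixed : ∀ y y', j - 1 < y → y < L → K x' < y' → y' < hi x' → a x' y + 1 = v →
        a x' y' + 1 = v → False := by
      intro y y' g1 g2 g3 g4 g5 g6
      have hn : InN lo K a x' (v - 1) := ⟨y, by omega, by omega, by omega⟩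
      have hp : InP hi K a (x' - 1) (v - 1) :=
        ⟨y', by rw [sub_add_cancel]; omega, by rw [sub_add_cancel]; exact g4,
          by rw [sub_add_cancel]; omega⟩
      refine np hW hS hV i1 i1' hn hp x' (j - 1) cell1 ?_
      omega
    rcases f3 with f3 | f3
    · rcases f3' with f3' | f3'
      · rcases lt_trichotomy y y' with hlt | heq | hlt
        · have := rowN hVr i0 (by omega : x' < r) (by omega : lo x' ≤ y) hlt
            (by omega : y' ≤ K (x' + 1))
          omega
        · exact heq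
        · have := rowN hVr i0 (by omega : x' < r) (by omega : lo x' ≤ y') hlt
            (by omega : y ≤ K (x' + 1))
          omega
      · exact (mixed y y' f1 f3 f3' f2' e e').elim
    · rcases f3' with f3' | f3'
      · exact (mixed y' y f1' f3' f3 f2 e' e).elim
      · rcases lt_trichotomy y y' with hlt | heq | hlt
        · have := rowP hVr i0 (by omega : x' < r) (by omega : K x' ≤ y) hlt f2'
          omega
        · exact heq
        · have := rowP hVr i0 (by omega : x' < r) (by omega : K x' ≤ y') hlt f2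
          omega

end DST
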