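import Pool.Agent.DST.XXM
import Pool.Agent.DST.NPM
import Pool.Agent.DST.CLC

/-!
Module S3B of project DST (MP_0f73d6_co).

s3b: new equality with the letter b.  i ≥ 1, lo (i-1) ≤ jb, a (i-1) jb = b.  jb ≤ L < K i (xK), so b is in N_(i-1) and
in P_i, hence in W_i and W_(i-1).  Suppose the conclusion fails: no b+1 in row i-1 left of jb, no b+1 in row i
right of L.  Cells between (i+1,L+f) and (i-1,jb): row i+1 right of L+f: letters > b, ≠ b+1.  Row i left of L:
N_i, no b (c.jgt, c.jlt), no b+1 (c.nb).  Row i, L ≤ y ≤ K i: ≤ b-2 (k1b).  Row i right of K i: P_(i-1), no b+1.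
Row i-1 left of jb: > b, no b+1.
 b is not in P_(i-1): otherwise between (i,y) (the b in P_(i-1)) and (i-1,jb) all letters are > b and qc gives a
   b+1 between, which is excluded.
 So no b and no b+1 between (i+1,L+f) and (i-1,jb).  Letters b-1 between are in N_i or in P_(i-1), at most one
   in each; both: np says that b is not in the word, contradiction.  So at most one b-1: h3c gives that b+1 is
   nowhere in the word (b ≥ 2).  And h1c gives that there is one b-1 in N_i or in P_(i-1); so b-1 ≥ M, b > M.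
Counting.  A = {a (i-1) y : jb ≤ y < K i} has K i - jb elements in [M,b] (rowN, c.Mmin), B = {a i y : K i < y ≤ L+f} has
max(0,L+f-K i) elements in [M,b] (in P_(i-1); ≤ a i (L+f) < b by rowP and s1).  [M,b] is contained in
{p_1..p_f} together with {a i y : jb ≤ y < L} (c.top, c.jgt), so b-M+1 ≤ f + (L-jb).
 Case 1: some u in A and B.  u ≠ b (b not in P_(i-1)).  Let (i,y1) in P_(i-1), (i-1,y2) in N_(i-1) have the letter u.
   Between all letters are > u; qc: u+2 is not in the word, so u+2 > b, u = b-1.  b-1 is in P_(i-1) so it is not in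
   N_i (at most one b-1), so it is in P_i, hence a (i+1) (L+f-1) = b-1.  l5c with b := b-1 and the cells (i+1,L+f)
   [b], (i,y1) [b-1], (i-1,jb) [b], (i-1,y2) [b-1] (jb < y2 since the row decreases there).  gap 1: row i+1: > b, ≠
   b+1; N_i: no b-1, b, b+1; ribbon cells of row i: ≤ b-2 (k1b for b) and even ≤ b-3 by k1b for b-1; P_(i-1) before
   y1: < b-1.  gap 2: P_(i-1) after y1: > b-1, not b, not b+1; row i-1 left of jb: > b, not b+1.  gap 3: columns
   between jb and y2 in row i-1: letters strictly between b-1 and b: none.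
 Case 2: A and B disjoint.  Then card A + card B ≥ (K i - jb) + (L+f-K i) = L+f-jb ≥ b-M+1, so A ∪ B = [M,b] and M
   is in W_(i-1).  M is in W_i.  Consider the last M in W_i (the one in N_i if M is in N_i, else the one in P_i) and
   the first M in W_(i-1) (the one in P_(i-1) if it is there, else in N_(i-1)): between them letters of W_i and
   W_(i-1), all ≥ M and not M, and ribbon cells of row i, ≤ M-2 (k1b).  qc: M+2 is not in the word.  So b ≤ M+1 and
   b = M+1.  Exactly one M = b-1 between (i+1,L+f) and (i-1,jb), as above (not in both N_i and P_(i-1)).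
   (i) M in N_i (cell (i,y1)), M not in P_(i-1): then M in N_(i-1), cell (i-1,y2), jb < y2.  l5c with b := M: cells
     (i+1,L+f) [M+1], (i,y1) [M], (i-1,jb) [M+1], (i-1,y2) [M].  gap 1: P_i after b: > b, ≠ b+1; N_i before y1: > M, not
     b, b+1.  gap 2: N_i after y1: would be < M: none; ribbon cells ≤ M-2; P_(i-1): ≥ M, not M, not b, not b+1; row
     i-1 left of jb: > b, not b+1.  gap 3: nothing (letters strictly between M+1 and M).
   (ii) M in P_(i-1) (cell (i,y1)), M not in N_i: then M in P_i: a (i+1) (L+f-1) = M... (some cell (i+1,y0), L < y0 <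
     L+f).  l5c' with b := M: cells (i+1,y0) [M], (i+1,L+f) [M+1], (i,y1) [M], (i-1,jb) [M+1].  gap 1: letters strictly
     between M and M+1: none.  gap 2: row i+1 right of L+f: > b, ≠ b+1; N_i: ≥ M, not M, b, b+1; ribbon ≤ M-2; P_(i-1)
     before y1: < M: none.  gap 3: P_(i-1) after y1: > M, not b, not b+1; row i-1 left of jb: > b, not b+1.
-/

namespace DST

variable {W : List ℕ → Prop} {r κ : ℤ} {lo hi K : ℤ → ℤ} {a : ℤ → ℤ → ℕ} {i L f jb : ℤ} {M b : ℕ}

private theorem s3b_btw2 {i j j' x y : ℤ} (h : Btw (i + 1) j (i - 1) j' x y) :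
    (x = i + 1 ∧ j < y) ∨ x = i ∨ (x = i - 1 ∧ y < j') := by
  unfold Btw Bef at h; omega

private theorem s3b_btw1 {i j j' x y : ℤ} (h : Btw i j (i - 1) j' x y) :
    (x = i ∧ j < y) ∨ (x = i - 1 ∧ y < j') := by
  unfold Btw Bef at h; omega

private theorem s3b_btw1' {i j j' x y : ℤ} (h : Btw (i + 1) j i j' x y) :
    (x = i + 1 ∧ j < y) ∨ (x = i ∧ y < j') := by
  unfold Btw Bef at h; omega

private theorem s3b_btw0 {i j j' x y : ℤ} (h : Btw i j i j' x y) :
    x = i ∧ j < y ∧ y < j' := by
  unfold Btw Bef at h; omega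

theorem s3b (c : Ctx W r κ lo hi K a i L f jb M b) (i1 : 1 ≤ i) (h3 : lo (i - 1) ≤ jb)
    (he : a (i - 1) jb = b) :
    (∃ k, lo (i - 1) ≤ k ∧ k < jb ∧ a (i - 1) k = b + 1) ∨
      (∃ k, L < k ∧ k < hi i ∧ a i k = b + 1) := by
  by_contra H
  push Not at H
  obtain ⟨Hn1, Hn2⟩ := H
  have hV : VSR r κ lo hi K a := c.vs.toVSR
  have hi0 := c.i0
  have hi1 := c.i1
  have hL := c.hL
  have hf1 := c.f1
  have hfh := c.fh
  have hfb := c.fb
  have hjlo := c.jlo
  have hjL := c.jL
  have hMb := c.Mb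
  have hLK : L < K i := xK c
  have hKhi : K i < hi i := hV.Klt i hi0 (by omega)
  have hhi1 : hi (i + 1) ≤ hi i := c.shp.him i hi0 hi1
  have hhi0 : hi i ≤ hi (i - 1) := by
    have := c.shp.him (i - 1) (by omega) (by omega)
    rwa [sub_add_cancel] at this
  have hlo1 : lo (i + 1) ≤ lo i := c.shp.lom i hi0 hi1
  have hlo0 : lo i ≤ lo (i - 1) := by
    have := c.shp.lom (i - 1) (by omega) (by omega)
    rwa [sub_add_cancel] at this
  have hloK1 : lo (i + 1) ≤ L := by
    have := hV.Kge i hi0 (by omega)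
    rw [hL] at this; omega
  have hloK0 : lo (i - 1) ≤ K i := by omega
  -- membership helper functions
  have mkP : ∀ y, L < y → y < hi (i + 1) → InW lo hi K a i (a (i + 1) y) := fun y h1 h2 =>
    Or.inl ⟨y, by rw [hL]; exact h1, h2, rfl⟩
  have mkN : ∀ y, lo i ≤ y → y < L → InW lo hi K a i (a i y) := fun y h1 h2 =>
    Or.inr ⟨y, h1, by rw [hL]; exact h2, rfl⟩
  have mkP0 : ∀ y, K i < y → y < hi i → InW lo hi K a (i - 1) (a i y) := fun y h1 h2 =>
    Or.inl ⟨y, by rw [sub_add_cancel]; exact h1, by rw [sub_add_cancel]; exact h2, by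
      rw [sub_add_cancel]⟩
  have mkN0 : ∀ y, lo (i - 1) ≤ y → y < K i → InW lo hi K a (i - 1) (a (i - 1) y) :=
    fun y h1 h2 => Or.inr ⟨y, h1, by rw [sub_add_cancel]; exact h2, rfl⟩
  -- row facts
  have dN0 : ∀ y y', lo (i - 1) ≤ y → y < y' → y' ≤ K i → a (i - 1) y' < a (i - 1) y :=
    fun y y' h1 h2 h3 => rowN hV (i := i - 1) (by omega) (by omega) h1 h2
      (by rw [sub_add_cancel]; exact h3)
  have dN : ∀ y y', lo i ≤ y → y < y' → y' ≤ L → a i y' < a i y :=
    fun y y' h1 h2 h3 => rowN hV (i := i) hi0 (by omega) h1 h2 (by rw [hL]; exact h3)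
  have iP : ∀ y y', L ≤ y → y < y' → y' < hi (i + 1) → a (i + 1) y < a (i + 1) y' :=
    fun y y' h1 h2 h3 => rowP hV (i := i + 1) (by omega) (by omega) (by rw [hL]; exact h1) h2 h3
  have iP0 : ∀ y y', K i ≤ y → y < y' → y' < hi i → a i y < a i y' :=
    fun y y' h1 h2 h3 => rowP hV (i := i) hi0 (by omega) h1 h2 h3
  have R1 : ∀ y, L + f < y → y < hi (i + 1) → b < a (i + 1) y ∧ a (i + 1) y ≠ b + 1 := by
    intro y h1 h2
    refine ⟨?_, ?_⟩
    · have := iP (L + f) y (by omega) h1 h2
      omega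
    · intro h
      exact c.nb (h ▸ mkP y (by omega) h2)
  have R2 : ∀ y, lo i ≤ y → y < L → a i y ≠ b ∧ a i y ≠ b + 1 := by
    intro y h1 h2
    refine ⟨?_, ?_⟩
    · rcases lt_or_ge y jb with h | h
      · have := c.jgt y h1 h; omega
      · have := c.jlt y h h2; omega
    · intro h
      exact c.nb (h ▸ mkN y h1 h2)
  have bW : InW lo hi K a i b := c.top b hMb le_rfl
  have bW0 : InW lo hi K a (i - 1) b := he ▸ mkN0 jb h3 (by omega)
  have b2 : 2 ≤ b := two_le c.shp c.vs hi0 hi1 bW
  have rib : ∀ v, InW lo hi K a i v → InW lo hi K a (i - 1) v → ∀ y, L ≤ y → y ≤ K i →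
      a i y + 2 ≤ v := fun v h1 h2 y h4 h5 =>
    k1b c.shp c.vs i1 hi1 h1 h2 (by rw [hL]; exact h4) h5
  have R3 : ∀ y, L ≤ y → y ≤ K i → a i y + 2 ≤ b := rib b bW bW0
  have R5 : ∀ y, lo (i - 1) ≤ y → y < jb → b < a (i - 1) y ∧ a (i - 1) y ≠ b + 1 := by
    intro y h1 h2
    refine ⟨?_, Hn1 y h1 h2⟩
    have := dN0 y jb h1 h2 (by omega)
    omega
  have Mn : ∀ v, InW lo hi K a i v → M ≤ v := fun v h => c.Mmin i v hi0 hi1 h
  have Mn0 : ∀ v, InW lo hi K a (i - 1) v → M ≤ v := fun v h =>
    c.Mmin (i - 1) v (by omega) (by omega) h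
  -- the cells
  have cf : Cell r lo hi (i + 1) (L + f) := ⟨by omega, hi1, by omega, hfh⟩
  have cj : Cell r lo hi (i - 1) jb := ⟨by omega, by omega, h3, by omega⟩
  have cell0 : ∀ y, lo i ≤ y → y < hi i → Cell r lo hi i y := fun y h1 h2 =>
    ⟨hi0, by omega, h1, h2⟩
  have cellm : ∀ y, lo (i - 1) ≤ y → y < hi (i - 1) → Cell r lo hi (i - 1) y := fun y h1 h2 =>
    ⟨by omega, by omega, h1, h2⟩
  have cellp : ∀ y, lo (i + 1) ≤ y → y < hi (i + 1) → Cell r lo hi (i + 1) y := fun y h1 h2 =>
    ⟨by omega, hi1, h1, h2⟩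
  -- all letters of [M,b] occur
  have occ : ∀ v, M ≤ v → v ≤ b → ∃ x y, Cell r lo hi x y ∧ a x y = v := by
    intro v h1 h2
    rcases c.top v h1 h2 with ⟨j, q1, q2, q3⟩ | ⟨j, q1, q2, q3⟩
    · exact ⟨i + 1, j, cellp j (by omega) q2, q3⟩
    · exact ⟨i, j, cell0 j q1 (by omega), q3⟩
  have npv : ∀ v y1 y2, lo i ≤ y1 → y1 < L → a i y1 = v → K i < y2 → y2 < hi i → a i y2 = v →
      ∀ x y, Cell r lo hi x y → a x y ≠ v + 1 := by
    intro v y1 y2 p1 p2 p3 q1 q2 q3
    exact np c.cls c.shp c.vs i1 hi1 ⟨y1, p1, by rw [hL]; exact p2, p3⟩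
      ⟨y2, by rw [sub_add_cancel]; exact q1, by rw [sub_add_cancel]; exact q2, by
        rw [sub_add_cancel]; exact q3⟩
  -- b is not in P_(i-1)
  have S1 : ∀ y, K i < y → y < hi i → a i y ≠ b := by
    intro y h1 h2 h4
    have hall : ∀ x' y', Cell r lo hi x' y' → Btw i y (i - 1) jb x' y' → b < a x' y' ∧
        a x' y' ≠ b + 1 := by
      intro x' y' hc hb
      rcases s3b_btw1 hb with ⟨rfl, h5⟩ | ⟨rfl, h5⟩
      · have := iP0 y y' (by omega) h5 hc.2.2.2
        exact ⟨by omega, Hn2 y' (by omega) hc.2.2.2⟩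
      · exact R5 y' hc.2.2.1 h5
    obtain ⟨⟨x', y', hc, hb, h5⟩, -, -⟩ := qc c.cls c.vs.w (cell0 y (by omega) h2) cj
      (by unfold Bef; omega) h4 he (fun x' y' hc hb => by have := hall x' y' hc hb; omega)
      (fun x' y' hc hb => by have := hall x' y' hc hb; omega)
    exact (hall x' y' hc hb).2 h5
  -- letters between (i+1,L+f) and (i-1,jb)
  have S2 : ∀ x y, Cell r lo hi x y → Btw (i + 1) (L + f) (i - 1) jb x y →
      a x y ≠ b ∧ a x y ≠ b + 1 ∧ (a x y + 1 = b → x = i ∧ (y < L ∨ K i < y)) := by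
    intro x y hc hb
    rcases s3b_btw2 hb with ⟨rfl, h5⟩ | rfl | ⟨rfl, h5⟩
    · have := R1 y h5 hc.2.2.2
      exact ⟨by omega, by omega, fun h => by omega⟩
    · rcases lt_or_ge y L with h6 | h6
      · have := R2 y hc.2.2.1 h6
        exact ⟨this.1, this.2, fun _ => ⟨rfl, Or.inl h6⟩⟩
      · rcases le_or_gt y (K x) with h7 | h7
        · have := R3 y h6 h7
          exact ⟨by omega, by omega, fun h => by omega⟩
        · exact ⟨S1 y h7 hc.2.2.2, Hn2 y (by omega) hc.2.2.2, fun _ => ⟨rfl, Or.inr h7⟩⟩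
    · have := R5 y hc.2.2.1 h5
      exact ⟨by omega, by omega, fun h => by omega⟩
  have notboth : ∀ y1 y2, lo i ≤ y1 → y1 < L → a i y1 + 1 = b → K i < y2 → y2 < hi i →
      a i y2 + 1 = b → False := by
    intro y1 y2 p1 p2 p3 q1 q2 q3
    exact npv (a i y1) y1 y2 p1 p2 rfl q1 q2 (by omega) (i + 1) (L + f) cf (by omega)
  have hBef : Bef (i + 1) (L + f) (i - 1) jb := by unfold Bef; omega
  have noB1 : ∀ x y, Cell r lo hi x y → a x y ≠ b + 1 := by
    refine h3c c.cls c.vs.w b2 cf cj hBef hfb he (fun x y hc hb => (S2 x y hc hb).1)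
      (fun x y hc hb => (S2 x y hc hb).2.1) ?_
    intro x y x' y' hc hc' hb hb' e e'
    obtain ⟨rfl, g⟩ := (S2 x y hc hb).2.2 e
    obtain ⟨rfl, g'⟩ := (S2 x' y' hc' hb').2.2 e'
    refine ⟨rfl, ?_⟩
    rcases g with g | g <;> rcases g' with g' | g'
    · rcases lt_trichotomy y y' with h | h | h
      · have := dN y y' hc.2.2.1 h (by omega); omega
      · exact h
      · have := dN y' y hc'.2.2.1 h (by omega); omega
    · exact (notboth y y' hc.2.2.1 g e g' hc'.2.2.2 e').elim
    · exact (notboth y' y hc'.2.2.1 g' e' g hc.2.2.2 e).elim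
    · rcases lt_trichotomy y y' with h | h | h
      · have := iP0 y y' (by omega) h hc'.2.2.2; omega
      · exact h
      · have := iP0 y' y (by omega) h hc.2.2.2; omega
  obtain ⟨y0, hy0, hy0c⟩ : ∃ y, a i y + 1 = b ∧ ((lo i ≤ y ∧ y < L) ∨ (K i < y ∧ y < hi i)) := by
    obtain ⟨x, y, hc, hb, h⟩ := h1c c.cls c.vs.w cf cj hBef hfb he
      (fun x y hc hb => (S2 x y hc hb).1)
    rcases h with h | h
    · exact ((S2 x y hc hb).2.1 h).elim
    · obtain ⟨rfl, g⟩ := (S2 x y hc hb).2.2 h
      refine ⟨y, h, ?_⟩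
      rcases g with g | g
      · exact Or.inl ⟨hc.2.2.1, g⟩
      · exact Or.inr ⟨g, hc.2.2.2⟩
  have hMlt : M < b := by
    rcases hy0c with ⟨g1, g2⟩ | ⟨g1, g2⟩
    · have := Mn _ (mkN y0 g1 g2); omega
    · have := Mn0 _ (mkP0 y0 g1 g2); omega
  have bW1 : InW lo hi K a i (b - 1) := c.top (b - 1) (by omega) (by omega)
  -- case 1
  by_cases hcase : ∃ y2 y1, jb ≤ y2 ∧ y2 < K i ∧ K i < y1 ∧ y1 ≤ L + f ∧ a (i - 1) y2 = a i y1
  · obtain ⟨y2, y1, q1, q2, q3, q4, q5⟩ := hcase
    have hy1 : y1 < hi i := by omega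
    have hu : a i y1 ≠ b := S1 y1 q3 hy1
    have hjy : jb < y2 := by
      rcases lt_or_eq_of_le q1 with h | h
      · exact h
      · subst h; omega
    have hub : a (i - 1) y2 < b := by
      have := dN0 jb y2 h3 hjy (by omega); omega
    have hall : ∀ x' y', Cell r lo hi x' y' → Btw i y1 (i - 1) y2 x' y' →
        a i y1 < a x' y' := by
      intro x' y' hc hb
      rcases s3b_btw1 hb with ⟨rfl, h5⟩ | ⟨rfl, h5⟩
      · exact iP0 y1 y' (by omega) h5 hc.2.2.2
      · have := dN0 y' y2 hc.2.2.1 h5 (by omega); omega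
    have cy1 : Cell r lo hi i y1 := cell0 y1 (by omega) hy1
    have cy2 : Cell r lo hi (i - 1) y2 := cellm y2 (by omega) (by omega)
    obtain ⟨-, -, hno⟩ := qc c.cls c.vs.w cy1 cy2
      (by unfold Bef; omega) rfl q5 (fun x' y' hc hb => by have := hall x' y' hc hb; omega)
      (fun x' y' hc hb => by have := hall x' y' hc hb; omega)
    have hMu : M ≤ a i y1 := Mn0 _ (mkP0 y1 q3 hy1)
    have hu1 : a i y1 + 1 = b := by
      by_contra hne
      obtain ⟨x, y, hc, h⟩ := occ (a i y1 + 2) (by omega) (by omega)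
      exact hno x y hc h
    have noN : ∀ y, lo i ≤ y → y < L → a i y + 1 ≠ b := fun y p1 p2 p3 =>
      notboth y y1 p1 p2 p3 q3 hy1 hu1
    refine l5c c.cls c.vs.w cf cy1 cj cy2 (b := b - 1) (by unfold Bef; omega)
      (by unfold Bef; omega) (by unfold Bef; omega) (by omega) (by omega) (by omega) (by omega)
      ?_ ?_ ?_
    · intro x y hc hb
      rcases s3b_btw1' hb with ⟨rfl, h5⟩ | ⟨rfl, h5⟩
      · have := R1 y h5 hc.2.2.2; omega
      · rcases lt_or_ge y L with h6 | h6
        · have := R2 y hc.2.2.1 h6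
          have := noN y hc.2.2.1 h6
          omega
        · rcases le_or_gt y (K x) with h7 | h7
          · have := R3 y h6 h7; omega
          · have := iP0 y y1 (by omega) h5 hy1; omega
    · intro x y hc hb
      rcases s3b_btw1 hb with ⟨rfl, h5⟩ | ⟨rfl, h5⟩
      · have := iP0 y1 y (by omega) h5 hc.2.2.2
        have := S1 y (by omega) hc.2.2.2
        have := Hn2 y (by omega) hc.2.2.2
        omega
      · have := R5 y hc.2.2.1 h5; omega
    · intro x y hc hb
      obtain ⟨rfl, h5, h6⟩ := s3b_btw0 hb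
      have := dN0 jb y h3 h5 (by omega)
      have := dN0 y y2 (by omega) h6 (by omega)
      omega
  -- case 2
  push Not at hcase
  have hMW0 : InW lo hi K a (i - 1) M := by
    classical
    by_contra hM
    set A : Finset ℕ := (Finset.Ico jb (K i)).image (fun y => a (i - 1) y) with hA
    set B : Finset ℕ := (Finset.Ioc (K i) (L + f)).image (fun y => a i y) with hB
    set C1 : Finset ℕ := (Finset.Ioc L (L + f)).image (fun y => a (i + 1) y) with hC1
    set C2 : Finset ℕ := (Finset.Ico jb L).image (fun y => a i y) with hC2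
    have cA : A.card = (K i - jb).toNat := by
      rw [hA, Finset.card_image_of_injOn, Int.card_Ico]
      intro y hy y' hy' h
      simp only [Finset.coe_Ico, Set.mem_Ico] at hy hy'
      simp only at h
      rcases lt_trichotomy y y' with h1 | h1 | h1
      · have := dN0 y y' (by omega) h1 (by omega); omega
      · exact h1
      · have := dN0 y' y (by omega) h1 (by omega); omega
    have cB : B.card = (L + f - K i).toNat := by
      rw [hB, Finset.card_image_of_injOn, Int.card_Ioc]
      intro y hy y' hy' h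
      simp only [Finset.coe_Ioc, Set.mem_Ioc] at hy hy'
      simp only at h
      rcases lt_trichotomy y y' with h1 | h1 | h1
      · have := iP0 y y' (by omega) h1 (by omega); omega
      · exact h1
      · have := iP0 y' y (by omega) h1 (by omega); omega
    have cC1 : C1.card ≤ f.toNat := by
      refine (Finset.card_image_le).trans ?_
      rw [Int.card_Ioc]; apply le_of_eq; congr 1; omega
    have cC2 : C2.card ≤ (L - jb).toNat := by
      refine (Finset.card_image_le).trans ?_
      rw [Int.card_Ico]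
    have hdisj : Disjoint A B := by
      rw [Finset.disjoint_left]
      intro u hu hu'
      simp only [hA, hB, Finset.mem_image, Finset.mem_Ico, Finset.mem_Ioc] at hu hu'
      obtain ⟨y2, ⟨p1, p2⟩, p3⟩ := hu
      obtain ⟨y1, ⟨p4, p5⟩, p6⟩ := hu'
      exact hcase y2 y1 p1 p2 p4 p5 (by rw [p3, p6])
    have hsub : A ∪ B ⊆ Finset.Ioc M b := by
      intro u hu
      rw [Finset.mem_union] at hu
      rw [Finset.mem_Ioc]
      rcases hu with hu | hu
      · simp only [hA, Finset.mem_image, Finset.mem_Ico] at hu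
        obtain ⟨y, ⟨p1, p2⟩, rfl⟩ := hu
        have hw := mkN0 y (by omega) p2
        have h1 := Mn0 _ hw
        have h2 : a (i - 1) y ≤ b := by
          rcases lt_or_eq_of_le p1 with h | h
          · have := dN0 jb y h3 h (by omega); omega
          · subst h; omega
        have h4 : M ≠ a (i - 1) y := fun h => hM (h ▸ hw)
        omega
      · simp only [hB, Finset.mem_image, Finset.mem_Ioc] at hu
        obtain ⟨y, ⟨p1, p2⟩, rfl⟩ := hu
        have hw := mkP0 y p1 (by omega)
        have h1 := Mn0 _ hw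
        have h0 := s1 c hf1 le_rfl
        have h2 : a i y ≤ a i (L + f) := by
          rcases lt_or_eq_of_le p2 with h | h
          · exact (iP0 y (L + f) (by omega) h (by omega)).le
          · rw [h]
        have h4 : M ≠ a i y := fun h => hM (h ▸ hw)
        omega
    have hsub2 : Finset.Icc M b ⊆ C1 ∪ C2 := by
      intro v hv
      rw [Finset.mem_Icc] at hv
      rw [Finset.mem_union]
      rcases c.top v hv.1 hv.2 with ⟨j, q1, q2, q3⟩ | ⟨j, q1, q2, q3⟩
      · left
        simp only [hC1, Finset.mem_image, Finset.mem_Ioc]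
        refine ⟨j, ⟨by omega, ?_⟩, q3⟩
        by_contra h
        have := R1 j (by omega) q2
        omega
      · right
        simp only [hC2, Finset.mem_image, Finset.mem_Ico]
        refine ⟨j, ⟨?_, by omega⟩, q3⟩
        by_contra h
        have := c.jgt j q1 (by omega)
        omega
    have k1 := Finset.card_le_card hsub
    have k2 := Finset.card_le_card hsub2
    rw [Finset.card_union_of_disjoint hdisj, cA, cB, Nat.card_Ioc] at k1
    rw [Nat.card_Icc] at k2
    have k3 := k2.trans (Finset.card_union_le _ _)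
    omega
  have hMW : InW lo hi K a i M := c.top M le_rfl hMb
  have ribM := rib M hMW hMW0
  have M2 : 2 ≤ M := two_le c.shp c.vs hi0 hi1 hMW
  have notbothM : ∀ y1 y2, lo i ≤ y1 → y1 < L → a i y1 = M → K i < y2 → y2 < hi i →
      a i y2 = M → False := by
    intro y1 y2 p1 p2 p3 q1 q2 q3
    obtain ⟨x, y, hc, h⟩ := occ (M + 1) (by omega) (by omega)
    exact npv M y1 y2 p1 p2 p3 q1 q2 q3 x y hc h
  -- lower bounds
  have lbN : ∀ y, lo i ≤ y → y < L → M ≤ a i y := fun y h1 h2 => Mn _ (mkN y h1 h2)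
  have lbP0 : ∀ y, K i < y → y < hi i → M ≤ a i y := fun y h1 h2 => Mn0 _ (mkP0 y h1 h2)
  by_cases hNi : ∃ y1, lo i ≤ y1 ∧ y1 < L ∧ a i y1 = M
  · obtain ⟨y1, p1, p2, p3⟩ := hNi
    have noP : ∀ y, K i < y → y < hi i → a i y ≠ M := fun y q1 q2 q3 =>
      notbothM y1 y p1 p2 p3 q1 q2 q3
    obtain ⟨y2, q1, q2, q3⟩ : ∃ y2, lo (i - 1) ≤ y2 ∧ y2 < K i ∧ a (i - 1) y2 = M := by
      rcases hMW0 with ⟨j, q1, q2, q3⟩ | ⟨j, q1, q2, q3⟩
      · rw [sub_add_cancel] at q1 q2 q3
        exact (noP j q1 q2 q3).elim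
      · rw [sub_add_cancel] at q2
        exact ⟨j, q1, q2, q3⟩
    have cy1 : Cell r lo hi i y1 := cell0 y1 p1 (by omega)
    have cy2 : Cell r lo hi (i - 1) y2 := cellm y2 q1 (by omega)
    have hrow : ∀ y, y1 < y → y < hi i → a i y + 2 ≤ M ∨ (M < a i y ∧ K i < y) := by
      intro y h1 h2
      rcases lt_or_ge y L with h6 | h6
      · have := dN y1 y p1 h1 (by omega)
        have := lbN y (by omega) h6
        omega
      · rcases le_or_gt y (K i) with h7 | h7
        · exact Or.inl (ribM y h6 h7)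
        · have := lbP0 y h7 h2
          have := noP y h7 h2
          right; omega
    have hbM : b = M + 1 := by
      by_contra hne
      obtain ⟨x, y, hc, h⟩ := occ (M + 2) (by omega) (by omega)
      have hall : ∀ x' y', Cell r lo hi x' y' → Btw i y1 (i - 1) y2 x' y' →
          a x' y' + 2 ≤ M ∨ M < a x' y' := by
        intro x' y' hc hb
        rcases s3b_btw1 hb with ⟨rfl, h5⟩ | ⟨rfl, h5⟩
        · have := hrow y' h5 hc.2.2.2; omega
        · have := dN0 y' y2 hc.2.2.1 h5 (by omega); omega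
      obtain ⟨-, -, hno⟩ := qc c.cls c.vs.w cy1 cy2
        (by unfold Bef; omega) p3 q3 (fun x' y' hc hb => by have := hall x' y' hc hb; omega)
        (fun x' y' hc hb => by have := hall x' y' hc hb; omega)
      exact hno x y hc h
    have hjy : jb < y2 := by
      rcases lt_trichotomy jb y2 with h | h | h
      · exact h
      · subst h; omega
      · have := dN0 y2 jb q1 h (by omega); omega
    refine l5c c.cls c.vs.w cf cy1 cj cy2 (b := M) (by unfold Bef; omega)
      (by unfold Bef; omega) (by unfold Bef; omega) (by omega) (by omega) (by omega) (by omega)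
      ?_ ?_ ?_
    · intro x y hc hb
      rcases s3b_btw1' hb with ⟨rfl, h5⟩ | ⟨rfl, h5⟩
      · have := R1 y h5 hc.2.2.2; omega
      · have := dN y y1 hc.2.2.1 h5 (by omega)
        have := R2 y hc.2.2.1 (by omega)
        omega
    · intro x y hc hb
      rcases s3b_btw1 hb with ⟨rfl, h5⟩ | ⟨rfl, h5⟩
      · rcases hrow y h5 hc.2.2.2 with h6 | ⟨h6, h7⟩
        · omega
        · have := S1 y h7 hc.2.2.2
          have := Hn2 y (by omega) hc.2.2.2
          omega
      · have := R5 y hc.2.2.1 h5; omega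
    · intro x y hc hb
      obtain ⟨rfl, h5, h6⟩ := s3b_btw0 hb
      have := dN0 jb y h3 h5 (by omega)
      have := dN0 y y2 (by omega) h6 (by omega)
      omega
  · push Not at hNi
    obtain ⟨y3, p1, p2, p3⟩ : ∃ y3, L < y3 ∧ y3 < hi (i + 1) ∧ a (i + 1) y3 = M := by
      rcases hMW with ⟨j, q1, q2, q3⟩ | ⟨j, q1, q2, q3⟩
      · rw [hL] at q1
        exact ⟨j, q1, q2, q3⟩
      · rw [hL] at q2
        exact (hNi j q1 q2 q3).elim
    have cy3 : Cell r lo hi (i + 1) y3 := cellp y3 (by omega) p2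
    by_cases hP0 : ∃ y1, K i < y1 ∧ y1 < hi i ∧ a i y1 = M
    · obtain ⟨y1, q1, q2, q3⟩ := hP0
      have cy1 : Cell r lo hi i y1 := cell0 y1 (by omega) q2
      have hrow : ∀ y, lo i ≤ y → y < y1 → a i y + 2 ≤ M ∨ (M < a i y ∧ y < L) := by
        intro y h1 h2
        rcases lt_or_ge y L with h6 | h6
        · have := lbN y h1 h6
          have := hNi y h1 h6
          right; omega
        · rcases le_or_gt y (K i) with h7 | h7
          · exact Or.inl (ribM y h6 h7)
          · have := lbP0 y h7 (by omega)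
            have := iP0 y y1 (by omega) h2 q2
            omega
      have hbM : b = M + 1 := by
        by_contra hne
        obtain ⟨x, y, hc, h⟩ := occ (M + 2) (by omega) (by omega)
        have hall : ∀ x' y', Cell r lo hi x' y' → Btw (i + 1) y3 i y1 x' y' →
            a x' y' + 2 ≤ M ∨ M < a x' y' := by
          intro x' y' hc hb
          rcases s3b_btw1' hb with ⟨rfl, h5⟩ | ⟨rfl, h5⟩
          · have := iP y3 y' (by omega) h5 hc.2.2.2; omega
          · have := hrow y' hc.2.2.1 h5; omega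
        obtain ⟨-, -, hno⟩ := qc c.cls c.vs.w cy3 cy1
          (by unfold Bef; omega) p3 q3 (fun x' y' hc hb => by have := hall x' y' hc hb; omega)
          (fun x' y' hc hb => by have := hall x' y' hc hb; omega)
        exact hno x y hc h
      have hyf : y3 < L + f := by
        rcases lt_trichotomy y3 (L + f) with h | h | h
        · exact h
        · subst h; omega
        · have := R1 y3 h p2; omega
      refine l5c' c.cls c.vs.w cy3 cf cy1 cj (b := M) (by unfold Bef; omega)
        (by unfold Bef; omega) (by unfold Bef; omega) (by omega) (by omega) (by omega) (by omega)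
        ?_ ?_ ?_
      · intro x y hc hb
        obtain ⟨rfl, h5, h6⟩ := s3b_btw0 hb
        have := iP y3 y (by omega) h5 (by omega)
        have := iP y (L + f) (by omega) h6 (by omega)
        omega
      · intro x y hc hb
        rcases s3b_btw1' hb with ⟨rfl, h5⟩ | ⟨rfl, h5⟩
        · have := R1 y h5 hc.2.2.2; omega
        · rcases hrow y hc.2.2.1 h5 with h6 | ⟨h6, h7⟩
          · omega
          · have := R2 y hc.2.2.1 h7; omega
      · intro x y hc hb
        rcases s3b_btw1 hb with ⟨rfl, h5⟩ | ⟨rfl, h5⟩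
        · have := iP0 y1 y (by omega) h5 hc.2.2.2
          have := S1 y (by omega) hc.2.2.2
          have := Hn2 y (by omega) hc.2.2.2
          omega
        · have := R5 y hc.2.2.1 h5; omega
    · push Not at hP0
      obtain ⟨y2, q1, q2, q3⟩ : ∃ y2, lo (i - 1) ≤ y2 ∧ y2 < K i ∧ a (i - 1) y2 = M := by
        rcases hMW0 with ⟨j, q1, q2, q3⟩ | ⟨j, q1, q2, q3⟩
        · rw [sub_add_cancel] at q1 q2 q3
          exact (hP0 j q1 q2 q3).elim
        · rw [sub_add_cancel] at q2
          exact ⟨j, q1, q2, q3⟩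
      have cy2 : Cell r lo hi (i - 1) y2 := cellm y2 q1 (by omega)
      have hbM : b = M + 1 := by
        by_contra hne
        obtain ⟨x, y, hc, h⟩ := occ (M + 2) (by omega) (by omega)
        have hall : ∀ x' y', Cell r lo hi x' y' → Btw (i + 1) y3 (i - 1) y2 x' y' →
            a x' y' + 2 ≤ M ∨ M < a x' y' := by
          intro x' y' hc hb
          rcases s3b_btw2 hb with ⟨rfl, h5⟩ | rfl | ⟨rfl, h5⟩
          · have := iP y3 y' (by omega) h5 hc.2.2.2; omega
          · rcases lt_or_ge y' L with h6 | h6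
            · have := lbN y' hc.2.2.1 h6
              have := hNi y' hc.2.2.1 h6
              right; omega
            · rcases le_or_gt y' (K x') with h7 | h7
              · exact Or.inl (ribM y' h6 h7)
              · have := lbP0 y' h7 hc.2.2.2
                have := hP0 y' h7 hc.2.2.2
                right; omega
          · have := dN0 y' y2 hc.2.2.1 h5 (by omega); omega
        obtain ⟨-, -, hno⟩ := qc c.cls c.vs.w cy3 cy2
          (by unfold Bef; omega) p3 q3 (fun x' y' hc hb => by have := hall x' y' hc hb; omega)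
          (fun x' y' hc hb => by have := hall x' y' hc hb; omega)
        exact hno x y hc h
      rcases hy0c with ⟨g1, g2⟩ | ⟨g1, g2⟩
      · exact hNi y0 g1 g2 (by omega)
      · exact hP0 y0 g1 g2 (by omega)

end DST
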