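import Pool.Agent.DST.S2M
import Pool.Agent.DST.S3A
import Pool.Agent.DST.S3B

/-!
Module TGC of project DST (MP_0f73d6_co).

Column conditions of the toggled structure.  v denotes the common letter of an equality.
cN at the boundary i (rows i+1, i, columns j < L+1, j ≥ lo i): j < jb unchanged.  jb ≤ j ≤ L: row i+1 unchanged (column ≤
  L), new row i entry is > the row i+1 entry: for j < L it is ≥ … : new entry is b or a i (j-1), both > a i j ≥ a (i+1) j
  (c.jlt, rowN, old cN); for j = L: the new entry is a letter of W_i (b or a i (L-1)), > a (i+1) L by k1a.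
cP at i (columns j > L+1): L+2 ≤ j ≤ L+f: a i j ≤ p_(j-L-1) by s1'; j > L+f unchanged.
cN at i-1 (rows i, i-1, columns j < K i): jb ≤ j ≤ L: s2; others unchanged.  cP at i-1: columns > K i > L unchanged.
cN at i+1 (rows i+2, i+1, columns < K (i+2) ≤ L): unchanged.  cP at i+1: column L+1: a i L < p_1 ≤ a (i+2) (L+1);
  columns L+1 < j ≤ L+f: p_(j-L-1) < p_(j-L) ≤ a (i+2) j; others unchanged.
e3 at i+1: equalities only in unchanged columns of row i+1 (in changed columns the inequality is strict);
  if v+1 is in row i+2 right of j: same.  If v+1 is in row i+1 left of j: its column is not in [L+1,L+f] if j ≤ L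
  (unchanged); if j > L+f: entries in columns L < y < j are < v, so v+1 is in a column ≤ L, unchanged.
  (Here if j > K (i+2)...: in all cases use that an entry v+1 left of j in row i+1 with j > L must be in a
  column ≤ L by rowP.)
e3 at i: strict in columns jb ≤ j ≤ L.  j < jb: v = a i j > b.  v+1 in row i left of j: unchanged.  v+1 in row i+1
  right of j: v+1 > b so its column is not in [L+1,L+f] (entries there are ≤ b), unchanged.
  j > L+f: v > b; v+1 in row i+1 right of j: same.  v+1 in row i left of j: if its column is < jb or > L it is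
  unchanged; if jb ≤ column < L the entry is < b < v; column L: a i L < M ≤ v: impossible.
  L+2 ≤ j ≤ L+f: v = a i j = p_g, g = j-L-1, 1 ≤ g < f, v < b.  v+1 ≤ b.  If v+1 = b it is now in (i,jb), jb < j.  Else
  v+1 is in W_i (c.top): in P_i: it is p_(g+1), g+1 < f, now in column L+g+2 > j of row i+1; in N_i: it is in a column
  < L of row i, < b, so column ≥ jb, now one column further right, ≤ L < j.
e3 at i-1 (rows i, i-1): columns j > K i: unchanged rows right of L; v+1 in row i right of j: same; in row i-1
  left of j: same (row i-1 unchanged).  Columns L < j < K i: same.  Columns j < jb: v = a i j > b; v+1 in row i-1 left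
  of j same; v+1 in row i right of j: its column is > L (for columns j < y ≤ L entries are < v by rowN): same.
  Columns jb < j ≤ L: s3a.  Column j = jb: s3b.  (The new entry in row i right of j: columns > L unchanged.)
Other boundaries unchanged.
-/

namespace DST

variable {W : List ℕ → Prop} {r κ : ℤ} {lo hi K : ℤ → ℤ} {a : ℤ → ℤ → ℕ} {i L f jb : ℤ} {M b : ℕ}

private theorem tgc_K1 : togK i L K (i + 1) = L + 1 := by
  unfold togK
  rw [if_pos rfl]

private theorem tgc_K {m : ℤ} (h : m ≠ i + 1) : togK i L K m = K m := by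
  unfold togK
  rw [if_neg h]

private theorem tgc_a1 : tog i L f jb b a (i + 1) (L + 1) = a i L := by
  unfold tog
  rw [if_pos rfl, if_pos rfl]

private theorem tgc_a2 {y : ℤ} (h1 : L + 1 < y) (h2 : y ≤ L + f) :
    tog i L f jb b a (i + 1) y = a (i + 1) (y - 1) := by
  unfold tog
  rw [if_pos rfl, if_neg (by omega), if_pos ⟨h1, h2⟩]

private theorem tgc_a3 {y : ℤ} (hf : 1 ≤ f) (h : y ≤ L ∨ L + f < y) :
    tog i L f jb b a (i + 1) y = a (i + 1) y := by
  unfold tog
  rw [if_pos rfl, if_neg (by omega), if_neg (by omega)]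

private theorem tgc_b1 : tog i L f jb b a i jb = b := by
  unfold tog
  rw [if_neg (by omega), if_pos rfl, if_pos rfl]

private theorem tgc_b2 {y : ℤ} (h1 : jb < y) (h2 : y ≤ L) :
    tog i L f jb b a i y = a i (y - 1) := by
  unfold tog
  rw [if_neg (by omega), if_pos rfl, if_neg (by omega), if_pos ⟨h1, h2⟩]

private theorem tgc_b3 {y : ℤ} (hj : jb ≤ L) (h : y < jb ∨ L < y) :
    tog i L f jb b a i y = a i y := by
  unfold tog
  rw [if_neg (by omega), if_pos rfl, if_neg (by omega), if_neg (by omega)]

private theorem tgc_o {x y : ℤ} (h1 : x ≠ i + 1) (h2 : x ≠ i) :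
    tog i L f jb b a x y = a x y := by
  unfold tog
  rw [if_neg h1, if_neg h2]

/-- strict inequality at the boundary i in the changed columns -/
private theorem tgc_strict (c : Ctx W r κ lo hi K a i L f jb M b) {j : ℤ} (h1 : jb ≤ j)
    (h2 : j ≤ L) : tog i L f jb b a (i + 1) j < tog i L f jb b a i j := by
  have i0 := c.i0
  have i1' := c.i1
  have hL := c.hL
  have jlo := c.jlo
  have hVr := c.vs.toVSR
  have hVc := c.vs.toVSC
  rw [tgc_a3 c.f1 (Or.inl h2)]
  rcases eq_or_lt_of_le h2 with e | e
  · subst e
    rcases eq_or_lt_of_le h1 with e' | e'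
    · subst e'
      rw [tgc_b1]
      have := (k1a c.shp c.vs i0 i1' (c.top b c.Mb le_rfl)).1
      rwa [hL] at this
    · rw [tgc_b2 e' le_rfl]
      have hN : InN lo K a i (a i (j - 1)) := ⟨j - 1, by omega, by omega, rfl⟩
      have := (k1a c.shp c.vs i0 i1' (Or.inr hN)).1
      rwa [hL] at this
  · have hc := hVc.cN i j i0 i1' (by omega) (by omega)
    rcases eq_or_lt_of_le h1 with e' | e'
    · subst e'
      rw [tgc_b1]
      have := c.jlt jb le_rfl e
      omega
    · rw [tgc_b2 e' h2]
      have := rowN hVr i0 (by omega : i < r) (by omega : lo i ≤ j - 1) (by omega : j - 1 < j)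
        (by omega)
      omega

/-- strict inequality at the boundary i+1 in the changed columns -/
private theorem tgc_strict' (c : Ctx W r κ lo hi K a i L f jb M b) {j : ℤ} (h1 : L + 1 ≤ j)
    (h2 : j ≤ L + f) : tog i L f jb b a (i + 1) j < a (i + 1) j := by
  have i0 := c.i0
  have i1' := c.i1
  have hL := c.hL
  have fh := c.fh
  have hVr := c.vs.toVSR
  rcases eq_or_lt_of_le h1 with e | e
  · subst e
    rw [tgc_a1]
    have hP : InP hi K a i (a (i + 1) (L + 1)) := ⟨L + 1, by omega, by omega, rfl⟩
    exact s1m_aL c (Or.inl hP)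
  · rw [tgc_a2 e h2]
    exact rowP hVr (by omega) i1' (by omega : K (i + 1) ≤ j - 1) (by omega) (by omega)

private theorem tgc_cN (c : Ctx W r κ lo hi K a i L f jb M b) (m j : ℤ) (m0 : 0 ≤ m)
    (mr : m + 1 < r) (h1 : lo m ≤ j) (h2 : j < togK i L K (m + 1)) :
    tog i L f jb b a (m + 1) j ≤ tog i L f jb b a m j := by
  have i0 := c.i0
  have i1' := c.i1
  have hL := c.hL
  have f1 := c.f1
  have jL := c.jL
  have hVr := c.vs.toVSR
  have hVc := c.vs.toVSC
  have hxK := xK c
  by_cases e1 : m = i
  · subst e1
    rw [tgc_K1] at h2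
    rcases lt_or_ge j jb with hj | hj
    · rw [tgc_a3 f1 (Or.inl (by omega)), tgc_b3 jL (Or.inl hj)]
      exact hVc.cN m j m0 mr h1 (by omega)
    · exact (tgc_strict c hj (by omega)).le
  · rw [tgc_K (by omega)] at h2
    by_cases e2 : m = i + 1
    · subst e2
      have := hVr.Kmono (i + 1) (by omega) (by omega)
      rw [tgc_o (by omega) (by omega), tgc_a3 f1 (Or.inl (by omega))]
      exact hVc.cN (i + 1) j m0 mr h1 h2
    · by_cases e3 : m + 1 = i
      · have e4 : m = i - 1 := by omega
        subst e4
        rw [sub_add_cancel] at h2 ⊢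
        have hc := hVc.cN (i - 1) j m0 mr h1 (by rw [sub_add_cancel]; exact h2)
        rw [sub_add_cancel] at hc
        rw [tgc_o (x := i - 1) (by omega) (by omega)]
        by_cases hj : j < jb ∨ L < j
        · rw [tgc_b3 jL hj]
          exact hc
        · exact s2 c (by omega) (by omega) (by omega) h1
      · rw [tgc_o (by omega) e3, tgc_o e2 e1]
        exact hVc.cN m j m0 mr h1 h2

private theorem tgc_cP (c : Ctx W r κ lo hi K a i L f jb M b) (m j : ℤ) (m0 : 0 ≤ m)
    (mr : m + 1 < r) (h1 : togK i L K (m + 1) < j) (h2 : j < hi (m + 1)) :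
    tog i L f jb b a m j ≤ tog i L f jb b a (m + 1) j := by
  have i0 := c.i0
  have i1' := c.i1
  have hL := c.hL
  have f1 := c.f1
  have jL := c.jL
  have hVr := c.vs.toVSR
  have hVc := c.vs.toVSC
  have hxK := xK c
  by_cases e1 : m = i
  · subst e1
    rw [tgc_K1] at h1
    rw [tgc_b3 jL (Or.inr (by omega))]
    by_cases hj : j ≤ L + f
    · rw [tgc_a2 h1 hj]
      have := s1' c (g := j - L - 1) (by omega) (by omega)
      have e2 : L + (j - L - 1) + 1 = j := by ring
      have e3 : L + (j - L - 1) = j - 1 := by ring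
      rwa [e2, e3] at this
    · rw [tgc_a3 f1 (Or.inr (by omega))]
      exact hVc.cP m j m0 mr (by omega) h2
  · rw [tgc_K (by omega)] at h1
    by_cases e2 : m = i + 1
    · subst e2
      have hc := hVc.cP (i + 1) j m0 mr h1 h2
      rw [tgc_o (x := i + 1 + 1) (by omega) (by omega)]
      by_cases hj : L + 1 ≤ j ∧ j ≤ L + f
      · exact (tgc_strict' c hj.1 hj.2).le.trans hc
      · rw [tgc_a3 f1 (by omega)]
        exact hc
    · by_cases e3 : m + 1 = i
      · have e4 : m = i - 1 := by omega
        subst e4
        rw [sub_add_cancel] at h1 h2 ⊢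
        have hc := hVc.cP (i - 1) j m0 mr (by rw [sub_add_cancel]; exact h1)
          (by rw [sub_add_cancel]; exact h2)
        rw [sub_add_cancel] at hc
        rw [tgc_o (x := i - 1) (by omega) (by omega), tgc_b3 jL (Or.inr (by omega))]
        exact hc
      · rw [tgc_o (by omega) e3, tgc_o e2 e1]
        exact hVc.cP m j m0 mr h1 h2

private theorem tgc_e3i (c : Ctx W r κ lo hi K a i L f jb M b) (j : ℤ)
    (h1 : lo i ≤ j) (h2 : j < hi (i + 1)) (h3 : j ≠ L + 1)
    (he : tog i L f jb b a (i + 1) j = tog i L f jb b a i j) :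
    (∃ k, j < k ∧ k < hi (i + 1) ∧ tog i L f jb b a (i + 1) k = tog i L f jb b a i j + 1) ∨
      (∃ k, lo i ≤ k ∧ k < j ∧ tog i L f jb b a i k = tog i L f jb b a i j + 1) := by
  have i0 := c.i0
  have i1' := c.i1
  have hL := c.hL
  have f1 := c.f1
  have jL := c.jL
  have jlo := c.jlo
  have fb := c.fb
  have fh := c.fh
  have hVr := c.vs.toVSR
  have hVc := c.vs.toVSC
  have hxK := xK c
  rcases lt_or_ge j jb with hj | hj
  · rw [tgc_a3 f1 (Or.inl (by omega)), tgc_b3 jL (Or.inl hj)] at he
    rw [tgc_b3 (y := j) jL (Or.inl hj)]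
    have hb := c.jgt j h1 hj
    rcases hVc.e3 i j i0 i1' h1 h2 (by omega) he with ⟨k, k1, k2, k3⟩ | ⟨k, k1, k2, k3⟩
    · left
      refine ⟨k, k1, k2, ?_⟩
      rw [tgc_a3 f1]
      · exact k3
      · by_contra hcon
        have hk : a (i + 1) k ≤ b := by
          rcases eq_or_lt_of_le (show k ≤ L + f by omega) with e | e
          · rw [e, fb]
          · have := rowP hVr (by omega) i1' (by omega : K (i + 1) ≤ k) e fh
            omega
        omega
    · right
      refine ⟨k, k1, k2, ?_⟩
      rw [tgc_b3 jL (Or.inl (by omega))]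
      exact k3
  · by_cases hjL : j ≤ L
    · have := tgc_strict c hj hjL
      omega
    · by_cases hjf : j ≤ L + f
      · -- L + 2 ≤ j ≤ L + f
        rw [tgc_a2 (by omega) hjf, tgc_b3 jL (Or.inr (by omega))] at he
        rw [tgc_b3 (y := j) jL (Or.inr (by omega))]
        obtain ⟨v, hv⟩ : ∃ v, a i j = v := ⟨_, rfl⟩
        rw [hv] at he ⊢
        have hvb : v < b := by
          have := rowP hVr (by omega) i1' (by omega : K (i + 1) ≤ j - 1)
            (by omega : j - 1 < L + f) fh
          omega
        have hP : InP hi K a i v := ⟨j - 1, by omega, by omega, he⟩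
        have hMv := c.Mmin i v i0 i1' (Or.inl hP)
        by_cases hb : v + 1 = b
        · right
          refine ⟨jb, jlo, by omega, ?_⟩
          rw [tgc_b1, hb]
        · rcases c.top (v + 1) (by omega) (by omega) with ⟨k, k1, k2, k3⟩ | ⟨k, k1, k2, k3⟩
          · left
            have hk1 : j - 1 < k := by
              by_contra hcon
              rcases eq_or_lt_of_le (show k ≤ j - 1 by omega) with e | e
              · rw [e] at k3
                omega
              · have := rowP hVr (by omega) i1' k1.le e (by omega : j - 1 < hi (i + 1))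
                omega
            have hk2 : k < L + f := by
              by_contra hcon
              rcases eq_or_lt_of_le (show L + f ≤ k by omega) with e | e
              · rw [← e] at k3
                omega
              · have := rowP hVr (by omega) i1' (by omega : K (i + 1) ≤ L + f) e k2
                omega
            refine ⟨k + 1, by omega, by omega, ?_⟩
            rw [tgc_a2 (by omega) (by omega), add_sub_cancel_right]
            exact k3
          · right
            have hk : jb ≤ k := by
              by_contra hcon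
              have := c.jgt k k1 (by omega)
              omega
            refine ⟨k + 1, by omega, by omega, ?_⟩
            rw [tgc_b2 (by omega) (by omega), add_sub_cancel_right]
            exact k3
      · -- L + f < j
        rw [tgc_a3 f1 (Or.inr (by omega)), tgc_b3 jL (Or.inr (by omega))] at he
        rw [tgc_b3 (y := j) jL (Or.inr (by omega))]
        have hvb : b < a (i + 1) j := by
          have := rowP hVr (by omega) i1' (by omega : K (i + 1) ≤ L + f)
            (by omega : L + f < j) h2
          omega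
        rcases hVc.e3 i j i0 i1' h1 h2 (by omega) he with ⟨k, k1, k2, k3⟩ | ⟨k, k1, k2, k3⟩
        · left
          refine ⟨k, k1, k2, ?_⟩
          rw [tgc_a3 f1 (Or.inr (by omega))]
          exact k3
        · right
          refine ⟨k, k1, k2, ?_⟩
          rw [tgc_b3 jL]
          · exact k3
          · by_contra hcon
            rcases eq_or_lt_of_le (show k ≤ L by omega) with e | e
            · rw [e] at k3
              have := s1m_aL c (c.top b c.Mb le_rfl)
              omega
            · have := c.jlt k (by omega) e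
              omega

private theorem tgc_e3m (c : Ctx W r κ lo hi K a i L f jb M b) (j : ℤ) (hi1 : 1 ≤ i)
    (h1 : lo (i - 1) ≤ j) (h2 : j < hi i) (h3 : j ≠ K i)
    (he : tog i L f jb b a i j = a (i - 1) j) :
    (∃ k, j < k ∧ k < hi i ∧ tog i L f jb b a i k = a (i - 1) j + 1) ∨
      (∃ k, lo (i - 1) ≤ k ∧ k < j ∧ a (i - 1) k = a (i - 1) j + 1) := by
  have i0 := c.i0
  have i1' := c.i1
  have hL := c.hL
  have f1 := c.f1
  have jL := c.jL
  have jlo := c.jlo
  have hVr := c.vs.toVSR
  have hVc := c.vs.toVSC
  have hlo := c.shp.lom (i - 1) (by omega) (by omega)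
  rw [sub_add_cancel] at hlo
  have hold := hVc.e3 (i - 1) j (by omega) (by omega) h1
  rw [sub_add_cancel] at hold
  by_cases hj : j < jb ∨ L < j
  · rw [tgc_b3 jL hj] at he
    rcases hold h2 h3 he with ⟨k, k1, k2, k3⟩ | ⟨k, k1, k2, k3⟩
    · left
      refine ⟨k, k1, k2, ?_⟩
      rw [tgc_b3 jL]
      · exact k3
      · by_contra hcon
        have := rowN hVr i0 (by omega : i < r) (by omega : lo i ≤ j) k1 (by omega)
        omega
    · right
      exact ⟨k, k1, k2, k3⟩
  · rcases eq_or_lt_of_le (show jb ≤ j by omega) with e | e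
    · subst e
      rw [tgc_b1] at he
      rw [← he]
      rcases s3b c hi1 h1 he.symm with ⟨k, k1, k2, k3⟩ | ⟨k, k1, k2, k3⟩
      · right
        exact ⟨k, k1, k2, k3⟩
      · left
        refine ⟨k, by omega, k2, ?_⟩
        rw [tgc_b3 jL (Or.inr k1)]
        exact k3
    · rw [tgc_b2 e (by omega)] at he
      rcases s3a c hi1 e (by omega) h1 he with ⟨k, k1, k2, k3⟩ | ⟨k, k1, k2, k3⟩
      · right
        exact ⟨k, k1, k2, k3⟩
      · left
        refine ⟨k, by omega, k2, ?_⟩
        rw [tgc_b3 jL (Or.inr k1)]
        exact k3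

private theorem tgc_e3p (c : Ctx W r κ lo hi K a i L f jb M b) (j : ℤ) (hr : i + 1 + 1 < r)
    (h1 : lo (i + 1) ≤ j) (h2 : j < hi (i + 1 + 1)) (h3 : j ≠ K (i + 1 + 1))
    (he : a (i + 1 + 1) j = tog i L f jb b a (i + 1) j) :
    (∃ k, j < k ∧ k < hi (i + 1 + 1) ∧
      a (i + 1 + 1) k = tog i L f jb b a (i + 1) j + 1) ∨
      (∃ k, lo (i + 1) ≤ k ∧ k < j ∧
        tog i L f jb b a (i + 1) k = tog i L f jb b a (i + 1) j + 1) := by
  have i0 := c.i0
  have i1' := c.i1
  have hL := c.hL
  have f1 := c.f1
  have hVr := c.vs.toVSR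
  have hVc := c.vs.toVSC
  have hKm := hVr.Kmono (i + 1) (by omega) i1'
  have hhi := c.shp.him (i + 1) (by omega) hr
  have hj : j ≤ L ∨ L + f < j := by
    by_contra hcon
    have hs := tgc_strict' c (j := j) (by omega) (by omega)
    have := hVc.cP (i + 1) j (by omega) hr (by omega) h2
    omega
  rw [tgc_a3 f1 hj] at he ⊢
  rcases hVc.e3 (i + 1) j (by omega) hr h1 h2 h3 he with ⟨k, k1, k2, k3⟩ | ⟨k, k1, k2, k3⟩
  · left
    exact ⟨k, k1, k2, k3⟩
  · right
    refine ⟨k, k1, k2, ?_⟩
    rw [tgc_a3 f1]
    · exact k3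
    · by_contra hcon
      have := rowP hVr (by omega) i1' (by omega : K (i + 1) ≤ k) k2 (by omega)
      omega

theorem tgc (c : Ctx W r κ lo hi K a i L f jb M b) :
    VSC r lo hi (togK i L K) (tog i L f jb b a) := by
  refine ⟨fun m j m0 mr h1 h2 => tgc_cN c m j m0 mr h1 h2,
    fun m j m0 mr h1 h2 => tgc_cP c m j m0 mr h1 h2, ?_⟩
  intro m j m0 mr h1 h2 h3 he
  by_cases e1 : m = i
  · subst e1
    rw [tgc_K1] at h3
    exact tgc_e3i c j h1 h2 h3 he
  · rw [tgc_K (by omega)] at h3
    by_cases e2 : m = i + 1
    · subst e2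
      have e4 : ∀ y, tog i L f jb b a (i + 1 + 1) y = a (i + 1 + 1) y :=
        fun y => tgc_o (by omega) (by omega)
      rw [e4] at he
      simp only [e4]
      exact tgc_e3p c j mr h1 h2 h3 he
    · by_cases e3 : m + 1 = i
      · have e4 : m = i - 1 := by omega
        subst e4
        rw [sub_add_cancel] at h2 h3 he
        simp only [sub_add_cancel]
        have e5 : ∀ y, tog i L f jb b a (i - 1) y = a (i - 1) y :=
          fun y => tgc_o (by omega) (by omega)
        rw [e5] at he
        simp only [e5]
        exact tgc_e3m c j (by omega) h1 h2 h3 he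
      · have e4 : ∀ y, tog i L f jb b a (m + 1) y = a (m + 1) y :=
          fun y => tgc_o (by omega) e3
        have e5 : ∀ y, tog i L f jb b a m y = a m y := fun y => tgc_o e2 e1
        rw [e4, e5] at he
        simp only [e4, e5]
        exact c.vs.toVSC.e3 m j m0 mr h1 h2 h3 he

end DST
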