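import Pool.Agent.DST.ROW

/-!
Module TGI of project DST (MP_0f73d6_co).

Invariants and injectivity of the toggle.
tog_inW: the sets of letters of all blocks W_k are unchanged.  k = i: the new P_i has the letters of P_i without b,
  the new N_i those of N_i and b (b is in P_i before, in N_i after; letters move by one column).  k = i-1: P_(i-1) is
  row i right of K i > L (hypothesis hK), unchanged; N_(i-1) unchanged.  k = i+1: N_(i+1) is row i+1 left of
  K (i+2) ≤ L, unchanged.  Others unchanged.
tog_inN: b is in column jb < L+1 of row i.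
sumK_tog: exactly the summand i+1 in Ico 1 r changes, by 1.
tog_off, togK_off: normalisation.
tog_inj: L = L' from togK at i+1 and K = K' (K (i+1) = L, c.hL).  jb = jb': say jb < jb'; column jb of the new row i
  is b in the first description, and a' i jb > b (c'.jgt) in the second: contradiction; symmetric.  f = f': say f <
  f'; column L+f+1 ≤ L+f' of the new row i+1 is (if L+f+1 < hi (i+1), true since L+f' is a cell column) a (i+1)
  (L+f+1) > b in the first description (rowP) and a' (i+1) (L+f) < a' (i+1) (L+f') = b in the second: contradiction.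
  Then compare entries: all entries of a are entries of tog a: a (i+1) (L+g) = tog a (i+1) (L+g+1) for 1 ≤ g < f,
  a (i+1) (L+f) = b, a i y = tog a i (y+1) for jb ≤ y < L, a i L = tog a (i+1) (L+1).
-/

namespace DST

variable {W : List ℕ → Prop} {r κ : ℤ} {lo hi K : ℤ → ℤ} {a : ℤ → ℤ → ℕ} {i L f jb : ℤ} {M b : ℕ}

private theorem t_p1 : tog i L f jb b a (i + 1) (L + 1) = a i L := by
  simp [tog]

private theorem t_p2 {y : ℤ} (h1 : L + 1 < y) (h2 : y ≤ L + f) :
    tog i L f jb b a (i + 1) y = a (i + 1) (y - 1) := by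
  unfold tog
  rw [if_pos rfl, if_neg (by omega), if_pos ⟨h1, h2⟩]

private theorem t_p3 {y : ℤ} (h1 : y ≠ L + 1) (h2 : ¬ (L + 1 < y ∧ y ≤ L + f)) :
    tog i L f jb b a (i + 1) y = a (i + 1) y := by
  unfold tog
  rw [if_pos rfl, if_neg h1, if_neg h2]

private theorem t_n1 : tog i L f jb b a i jb = b := by
  unfold tog
  rw [if_neg (by omega), if_pos rfl, if_pos rfl]

private theorem t_n2 {y : ℤ} (h1 : jb < y) (h2 : y ≤ L) :
    tog i L f jb b a i y = a i (y - 1) := by
  unfold tog
  rw [if_neg (by omega), if_pos rfl, if_neg (by omega), if_pos ⟨h1, h2⟩]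

private theorem t_n3 {y : ℤ} (h1 : y ≠ jb) (h2 : ¬ (jb < y ∧ y ≤ L)) :
    tog i L f jb b a i y = a i y := by
  unfold tog
  rw [if_neg (by omega), if_pos rfl, if_neg h1, if_neg h2]

private theorem t_o {x y : ℤ} (h1 : x ≠ i + 1) (h2 : x ≠ i) :
    tog i L f jb b a x y = a x y := by
  unfold tog
  rw [if_neg h1, if_neg h2]

private theorem tK1 : togK i L K (i + 1) = L + 1 := by simp [togK]

private theorem tK2 {m : ℤ} (h : m ≠ i + 1) : togK i L K m = K m := by simp [togK, h]

theorem tog_inW (c : Ctx W r κ lo hi K a i L f jb M b) (hK : L < K i) {k : ℤ} {v : ℕ} (k0 : 0 ≤ k)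
    (k1 : k + 1 < r) :
    InW lo hi (togK i L K) (tog i L f jb b a) k v ↔ InW lo hi K a k v := by
  have hv := c.vs.toVSR
  have hL := c.hL
  have jL := c.jL
  have f1 := c.f1
  have fh := c.fh
  have jlo := c.jlo
  by_cases hk : k = i
  · subst hk
    constructor
    · rintro (⟨j, h1, h2, h3⟩ | ⟨j, h1, h2, h3⟩)
      · rw [tK1] at h1
        by_cases hj : j ≤ L + f
        · rw [t_p2 h1 hj] at h3
          exact Or.inl ⟨j - 1, by omega, by omega, h3⟩
        · rw [t_p3 (by omega) (by omega)] at h3
          exact Or.inl ⟨j, by omega, h2, h3⟩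
      · rw [tK1] at h2
        by_cases hj : j = jb
        · subst hj
          rw [t_n1] at h3
          exact Or.inl ⟨L + f, by omega, fh, by rw [c.fb, h3]⟩
        · by_cases hj2 : jb < j
          · rw [t_n2 hj2 (by omega)] at h3
            exact Or.inr ⟨j - 1, by omega, by omega, h3⟩
          · rw [t_n3 hj (by omega)] at h3
            exact Or.inr ⟨j, h1, by omega, h3⟩
    · rintro (⟨j, h1, h2, h3⟩ | ⟨j, h1, h2, h3⟩)
      · rcases lt_trichotomy j (L + f) with hj | hj | hj
        · refine Or.inl ⟨j + 1, by rw [tK1]; omega, by omega, ?_⟩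
          rw [t_p2 (by omega) (by omega), show j + 1 - 1 = j by ring, h3]
        · refine Or.inr ⟨jb, jlo, by rw [tK1]; omega, ?_⟩
          rw [t_n1, ← h3, hj, c.fb]
        · refine Or.inl ⟨j, by rw [tK1]; omega, h2, ?_⟩
          rw [t_p3 (by omega) (by omega), h3]
      · by_cases hj : j < jb
        · refine Or.inr ⟨j, h1, by rw [tK1]; omega, ?_⟩
          rw [t_n3 (by omega) (by omega), h3]
        · refine Or.inr ⟨j + 1, by omega, by rw [tK1]; omega, ?_⟩
          rw [t_n2 (by omega) (by omega), show j + 1 - 1 = j by ring, h3]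
  · have e1 : ∀ j, K (k + 1) < j → tog i L f jb b a (k + 1) j = a (k + 1) j := by
      intro j hj
      by_cases hk2 : k + 1 = i
      · rw [hk2] at hj ⊢
        exact t_n3 (by omega) (by omega)
      · exact t_o (by omega) hk2
    have e2 : ∀ j, j < K (k + 1) → tog i L f jb b a k j = a k j := by
      intro j hj
      by_cases hk2 : k = i + 1
      · subst hk2
        have := hv.Kmono (i + 1) (by omega) (by omega)
        exact t_p3 (by omega) (by omega)
      · exact t_o hk2 hk
    have e3 : togK i L K (k + 1) = K (k + 1) := tK2 (by omega)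
    unfold InW InP InN
    rw [e3]
    constructor
    · rintro (⟨j, h1, h2, h3⟩ | ⟨j, h1, h2, h3⟩)
      · exact Or.inl ⟨j, h1, h2, by rw [← e1 j h1, h3]⟩
      · exact Or.inr ⟨j, h1, h2, by rw [← e2 j h2, h3]⟩
    · rintro (⟨j, h1, h2, h3⟩ | ⟨j, h1, h2, h3⟩)
      · exact Or.inl ⟨j, h1, h2, by rw [e1 j h1, h3]⟩
      · exact Or.inr ⟨j, h1, h2, by rw [e2 j h2, h3]⟩

theorem tog_inN (c : Ctx W r κ lo hi K a i L f jb M b) :
    InN lo (togK i L K) (tog i L f jb b a) i b := by
  have jL := c.jL
  exact ⟨jb, c.jlo, by rw [tK1]; omega, t_n1⟩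

theorem sumK_tog (c : Ctx W r κ lo hi K a i L f jb M b) :
    sumK r (togK i L K) = sumK r K + 1 := by
  have i0 := c.i0
  have i1 := c.i1
  have e : ∀ m, togK i L K m = K m + if m = i + 1 then 1 else 0 := by
    intro m
    unfold togK
    split_ifs with h
    · rw [h, c.hL]
    · ring
  unfold sumK
  rw [Finset.sum_congr rfl fun m _ => e m, Finset.sum_add_distrib, Finset.sum_ite_eq',
    if_pos (Finset.mem_Ico.2 ⟨by omega, i1⟩)]

theorem togK_off (c : Ctx W r κ lo hi K a i L f jb M b)
    (h : ∀ m, ¬ (0 ≤ m ∧ m ≤ r) → K m = 0) : ∀ m, ¬ (0 ≤ m ∧ m ≤ r) → togK i L K m = 0 := by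
  intro m hm
  have i0 := c.i0
  have i1 := c.i1
  rw [tK2 (by omega)]
  exact h m hm

theorem tog_off (c : Ctx W r κ lo hi K a i L f jb M b)
    (h : ∀ x y, ¬ Cell r lo hi x y → a x y = 0) :
    ∀ x y, ¬ Cell r lo hi x y → tog i L f jb b a x y = 0 := by
  intro x y hc
  have hv := c.vs.toVSR
  have hL := c.hL
  have i0 := c.i0
  have i1 := c.i1
  have jL := c.jL
  have f1 := c.f1
  have fh := c.fh
  have jlo := c.jlo
  have k1 := hv.Kge (i + 1) (by omega) i1
  have k2 := hv.Kmono (i + 1) (by omega) i1
  have k3 := hv.Kmono i i0 (by omega)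
  have k4 := hv.Klt i i0 (by omega)
  by_cases hx : x = i + 1
  · subst hx
    by_cases hy : y = L + 1
    · exact absurd ⟨by omega, i1, by omega, by omega⟩ hc
    · by_cases hy2 : L + 1 < y ∧ y ≤ L + f
      · exact absurd ⟨by omega, i1, by omega, by omega⟩ hc
      · rw [t_p3 hy hy2]
        exact h _ _ hc
  · by_cases hx2 : x = i
    · subst hx2
      by_cases hy : y = jb
      · exact absurd ⟨by omega, by omega, by omega, by omega⟩ hc
      · by_cases hy2 : jb < y ∧ y ≤ L
        · exact absurd ⟨by omega, by omega, by omega, by omega⟩ hc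
        · rw [t_n3 hy hy2]
          exact h _ _ hc
    · rw [t_o hx hx2]
      exact h _ _ hc

theorem tog_inj {K' : ℤ → ℤ} {a' : ℤ → ℤ → ℕ} {L' f' jb' : ℤ}
    (c : Ctx W r κ lo hi K a i L f jb M b) (c' : Ctx W r κ lo hi K' a' i L' f' jb' M b)
    (hK : togK i L K = togK i L' K') (ha : tog i L f jb b a = tog i L' f' jb' b a') :
    K = K' ∧ a = a' := by
  have hLL : L = L' := by
    have := congrFun hK (i + 1)
    rw [tK1, tK1] at this
    omega
  subst hLL
  have hKK : K = K' := by
    funext m
    by_cases hm : m = i + 1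
    · rw [hm, c.hL, c'.hL]
    · have := congrFun hK m
      rwa [tK2 hm, tK2 hm] at this
  have hA : ∀ x y, tog i L f jb b a x y = tog i L f' jb' b a' x y := fun x y => by rw [ha]
  have hjb : jb = jb' := by
    rcases lt_trichotomy jb jb' with hl | he | hg
    · have h1 := hA i jb
      rw [t_n1, t_n3 (by omega) (by omega)] at h1
      have := c'.jgt jb c.jlo hl
      omega
    · exact he
    · have h1 := hA i jb'
      rw [t_n1, t_n3 (by omega) (by omega)] at h1
      have := c.jgt jb' c'.jlo hg
      omega
  subst hjb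
  have hff : f = f' := by
    have k1 := c.f1
    have k2 := c'.f1
    have k3 := c.fh
    have k4 := c'.fh
    have k5 := c.i0
    have k6 := c.i1
    have k7 := c.hL
    have k8 := c'.hL
    have k9 := c.fb
    have k10 := c'.fb
    rcases lt_trichotomy f f' with hl | he | hg
    · have h1 := hA (i + 1) (L + f + 1)
      rw [t_p3 (by omega) (by omega), t_p2 (by omega) (by omega),
        show L + f + 1 - 1 = L + f by ring] at h1
      have h2 := rowP c.vs.toVSR (i := i + 1) (j := L + f) (j' := L + f + 1) (by omega) k6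
        (by omega) (by omega) (by omega)
      have h3 := rowP c'.vs.toVSR (i := i + 1) (j := L + f) (j' := L + f') (by omega) k6
        (by omega) (by omega) (by omega)
      omega
    · exact he
    · have h1 := hA (i + 1) (L + f' + 1)
      rw [t_p2 (by omega) (by omega), t_p3 (by omega) (by omega),
        show L + f' + 1 - 1 = L + f' by ring] at h1
      have h2 := rowP c'.vs.toVSR (i := i + 1) (j := L + f') (j' := L + f' + 1) (by omega) k6
        (by omega) (by omega) (by omega)
      have h3 := rowP c.vs.toVSR (i := i + 1) (j := L + f') (j' := L + f) (by omega) k6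
        (by omega) (by omega) (by omega)
      omega
  subst hff
  refine ⟨hKK, ?_⟩
  have jL := c.jL
  have f1 := c.f1
  funext x y
  by_cases hx : x = i + 1
  · subst hx
    by_cases h1 : L < y ∧ y < L + f
    · have := hA (i + 1) (y + 1)
      rwa [t_p2 (by omega) (by omega), t_p2 (by omega) (by omega),
        show y + 1 - 1 = y by ring] at this
    · by_cases h2 : y = L + f
      · rw [h2, c.fb, c'.fb]
      · have := hA (i + 1) y
        rwa [t_p3 (by omega) (by omega), t_p3 (by omega) (by omega)] at this
  · by_cases hx2 : x = i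
    · subst hx2
      by_cases h1 : jb ≤ y ∧ y < L
      · have := hA x (y + 1)
        rwa [t_n2 (by omega) (by omega), t_n2 (by omega) (by omega),
          show y + 1 - 1 = y by ring] at this
      · by_cases h2 : y = L
        · have := hA (x + 1) (L + 1)
          rw [t_p1, t_p1] at this
          rw [h2, this]
        · have := hA x y
          rwa [t_n3 (by omega) (by omega), t_n3 (by omega) (by omega)] at this
    · have := hA x y
      rwa [t_o hx hx2, t_o hx hx2] at this

end DST
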