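import Pool.Agent.DST.XXM

/-!
Module TGR of project DST (MP_0f73d6_co).

Row and ribbon conditions of the toggled structure (tog, togK).  Only K (i+1) = L changes to L+1, only the cells
(i+1,y), L+1 ≤ y ≤ L+f, and (i,y), jb ≤ y ≤ L, change.
K0, Kr, κ0, κr: i+1 is neither 0 nor r.  Kmono: L+1 ≤ K i by xK, K (i+2) ≤ L ≤ L+1.  Klt: L+1 < hi (i+1) since L+f is a
cell column.  Kge: fine.
N: row i, columns j < L+1: j+1 < jb old; j+1 = jb: a i (jb-1) > b (c.jgt); jb ≤ j: new entries are b, a i jb, …,
  a i (L-1), then a i (L+1) in column L+1: b > a i jb (c.jlt), old decrease (rowN), and a i (L-1) ≥ M > a i (L+1)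
  (resp. b ≥ M > a i (L+1)) by xx.  Row i+1, columns j < K (i+2) ≤ L: cells (i+1,j+1) with j+1 ≤ L unchanged.
  Other rows unchanged.
P: row i+1, columns j ≥ L+1: a i L < p_1 (x2 or k1a), p_1 < … < p_(f-1) < p_(f+1) < …; careful with f = 1: then a i L <
  p_2.  Row i: columns ≥ K i > L unchanged.  Other rows unchanged.
Rd, Ri: row i+1: columns K (i+2) ≤ j < L+1: for j < L old; j = L: step from a (i+1) L to a i L: L - (i+1) < κ gives Vd,
  else Vi.  Row i: columns L+1 ≤ j < K i unchanged.
Vd, Vi at i: step from the new (i+1,L+1), which is a i L, to (i,L+1): L+1-(i+1) = L - i, old Rd / Ri at (i,L) (L < K i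
  by xK).  Vd, Vi at i+1: column K (i+2) ≤ L of row i+1 unchanged.  Vd, Vi at i-1: column K i > L of row i unchanged.
z: row i+1, j = L+1, content L+1-(i+1) = L-i: old z at (i,L) (K (i+1) = L ≤ L ≤ K i).  Others unchanged.
-/

namespace DST

variable {W : List ℕ → Prop} {r κ : ℤ} {lo hi K : ℤ → ℤ} {a : ℤ → ℤ → ℕ} {i L f jb : ℤ} {M b : ℕ}

private theorem tgr_A (a : ℤ → ℤ → ℕ) {x y : ℤ} (h1 : x ≠ i + 1) (h2 : x ≠ i) :
    tog i L f jb b a x y = a x y := by
  simp only [tog, if_neg h1, if_neg h2]

private theorem tgr_B (a : ℤ → ℤ → ℕ) : tog i L f jb b a (i + 1) (L + 1) = a i L := by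
  simp only [tog, if_true]

private theorem tgr_C (a : ℤ → ℤ → ℕ) {y : ℤ} (h1 : L + 1 < y) (h2 : y ≤ L + f) :
    tog i L f jb b a (i + 1) y = a (i + 1) (y - 1) := by
  have h3 : y ≠ L + 1 := by omega
  simp only [tog, if_true, if_neg h3, if_pos (And.intro h1 h2)]

private theorem tgr_D (a : ℤ → ℤ → ℕ) {y : ℤ} (hf : 1 ≤ f) (h : y ≤ L ∨ L + f < y) :
    tog i L f jb b a (i + 1) y = a (i + 1) y := by
  have h3 : y ≠ L + 1 := by omega
  have h4 : ¬ (L + 1 < y ∧ y ≤ L + f) := by omega
  simp only [tog, if_true, if_neg h3, if_neg h4]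

private theorem tgr_E (a : ℤ → ℤ → ℕ) : tog i L f jb b a i jb = b := by
  have h1 : i ≠ i + 1 := by omega
  simp only [tog, if_true, if_neg h1]

private theorem tgr_F (a : ℤ → ℤ → ℕ) {y : ℤ} (h1 : jb < y) (h2 : y ≤ L) :
    tog i L f jb b a i y = a i (y - 1) := by
  have h3 : i ≠ i + 1 := by omega
  have h4 : y ≠ jb := by omega
  simp only [tog, if_neg h3, if_true, if_neg h4, if_pos (And.intro h1 h2)]

private theorem tgr_G (a : ℤ → ℤ → ℕ) {y : ℤ} (hj : jb ≤ L) (h : y < jb ∨ L < y) :
    tog i L f jb b a i y = a i y := by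
  have h3 : i ≠ i + 1 := by omega
  have h4 : y ≠ jb := by omega
  have h5 : ¬ (jb < y ∧ y ≤ L) := by omega
  simp only [tog, if_neg h3, if_true, if_neg h4, if_neg h5]

private theorem tgr_K (K : ℤ → ℤ) {m : ℤ} (h : m ≠ i + 1) : togK i L K m = K m := by
  simp only [togK, if_neg h]

private theorem tgr_K' (K : ℤ → ℤ) : togK i L K (i + 1) = L + 1 := by
  simp only [togK, if_true]

theorem tgr (c : Ctx W r κ lo hi K a i L f jb M b) :
    VSR r κ lo hi (togK i L K) (tog i L f jb b a) := by
  have h := c.vs.toVSR
  have i0 := c.i0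
  have i1 := c.i1
  have hL := c.hL
  have f1 := c.f1
  have fh := c.fh
  have jlo := c.jlo
  have jL := c.jL
  have hxK := xK c
  have hxx := xx c
  have hMb := c.Mb
  have hKi2 : K (i + 1 + 1) ≤ L := by
    rw [← hL]
    exact h.Kmono (i + 1) (by omega) i1
  have hloL : lo i ≤ L := by omega
  refine ⟨?_, ?_, ?_, ?_, ?_, ?_, ?_, ?_, ?_, ?_, ?_, ?_, ?_, ?_⟩
  · rw [tgr_K K (by omega)]
    exact h.K0
  · rw [tgr_K K (by omega)]
    exact h.Kr
  · intro x x0 xr
    have h0 := h.Kmono x x0 xr
    rcases eq_or_ne x (i + 1) with rfl | h1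
    · rw [tgr_K', tgr_K K (by omega)]
      omega
    · rw [tgr_K K h1]
      rcases eq_or_ne x i with rfl | h2
      · rw [tgr_K']
        omega
      · rw [tgr_K K (by omega)]
        exact h0
  · intro x x0 xr
    rcases eq_or_ne x (i + 1) with rfl | h1
    · rw [tgr_K']
      omega
    · rw [tgr_K K h1]
      exact h.Klt x x0 xr
  · intro x x0 xr
    rcases eq_or_ne x i with rfl | h2
    · rw [tgr_K']
      omega
    · rw [tgr_K K (by omega)]
      exact h.Kge x x0 xr
  · rw [tgr_K K (by omega)]
    exact h.κ0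
  · rw [tgr_K K (by omega)]
    exact h.κr
  · intro x j x0 xr hj hjK
    rcases eq_or_ne x (i + 1) with rfl | h1
    · rw [tgr_K K (by omega)] at hjK
      rw [tgr_D a f1 (by omega), tgr_D a f1 (by omega)]
      exact h.N (i + 1) j x0 xr hj hjK
    · rcases eq_or_ne x i with rfl | h2
      · rw [tgr_K'] at hjK
        rcases lt_trichotomy (j + 1) jb with h3 | h3 | h3
        · rw [tgr_G a jL (by omega), tgr_G a jL (by omega)]
          exact h.N x j x0 xr hj (by omega)
        · rw [h3, tgr_E, tgr_G a jL (by omega)]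
          exact c.jgt j hj (by omega)
        · rcases eq_or_ne j jb with h4 | h4
          · rw [h4, tgr_E]
            rcases lt_or_ge jb L with h5 | h5
            · rw [tgr_F a (by omega) (by omega), show jb + 1 - 1 = jb by omega]
              exact c.jlt jb le_rfl h5
            · have h6 : jb = L := by omega
              rw [h6, tgr_G a (by omega) (by omega)]
              omega
          · rw [tgr_F a (y := j) (by omega) (by omega)]
            rcases lt_or_ge j L with h5 | h5
            · rw [tgr_F a (by omega) (by omega), show j + 1 - 1 = j by omega]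
              have := h.N x (j - 1) x0 xr (by omega) (by omega)
              rwa [show j - 1 + 1 = j by omega] at this
            · have h6 : j = L := by omega
              rw [h6, tgr_G a jL (by omega)]
              have h7 : M ≤ a x (L - 1) := c.Mmin x _ x0 (by omega)
                (Or.inr ⟨L - 1, by omega, by omega, rfl⟩)
              omega
      · rw [tgr_K K (by omega)] at hjK
        rw [tgr_A a h1 h2, tgr_A a h1 h2]
        exact h.N x j x0 xr hj hjK
  · intro x j x0 xr hj hjK
    rcases eq_or_ne x (i + 1) with rfl | h1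
    · rw [tgr_K'] at hj
      rcases eq_or_ne j (L + 1) with h3 | h3
      · rw [h3, tgr_B]
        rcases lt_or_ge 1 f with h4 | h4
        · rw [tgr_C a (by omega) (by omega), show L + 1 + 1 - 1 = L + 1 by omega]
          have := x2 c (v := a (i + 1) (L + 1)) (Or.inl ⟨L + 1, by omega, by omega, rfl⟩)
          omega
        · rw [tgr_D a f1 (by omega)]
          have := x2 c (v := a (i + 1) (L + 1 + 1)) (Or.inl ⟨L + 1 + 1, by omega, by omega, rfl⟩)
          omega
      · rcases lt_or_ge (L + f) j with h4 | h4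
        · rw [tgr_D a f1 (by omega), tgr_D a f1 (by omega)]
          exact h.P (i + 1) j x0 xr (by omega) hjK
        · rw [tgr_C a (y := j) (by omega) (by omega)]
          have h6 := h.P (i + 1) (j - 1) x0 xr (by omega) (by omega)
          rw [show j - 1 + 1 = j by omega] at h6
          rcases lt_or_ge j (L + f) with h5 | h5
          · rw [tgr_C a (by omega) (by omega), show j + 1 - 1 = j by omega]
            exact h6
          · rw [tgr_D a f1 (by omega)]
            have h7 := h.P (i + 1) j x0 xr (by omega) (by omega)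
            omega
    · rcases eq_or_ne x i with rfl | h2
      · rw [tgr_K K h1] at hj
        rw [tgr_G a jL (by omega), tgr_G a jL (by omega)]
        exact h.P x j x0 xr hj hjK
      · rw [tgr_K K h1] at hj
        rw [tgr_A a h1 h2, tgr_A a h1 h2]
        exact h.P x j x0 xr hj hjK
  · intro x j x0 xr hj hjK hk
    rcases eq_or_ne x (i + 1) with rfl | h1
    · rw [tgr_K'] at hjK
      rw [tgr_K K (by omega)] at hj
      rcases lt_or_ge j L with h3 | h3
      · rw [tgr_D a f1 (by omega), tgr_D a f1 (by omega)]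
        exact h.Rd (i + 1) j x0 xr hj (by omega) hk
      · have h4 : j = L := by omega
        rw [h4, tgr_B, tgr_D a f1 (by omega)]
        have := h.Vd i i0 i1 (by omega)
        rwa [hL] at this
    · rcases eq_or_ne x i with rfl | h2
      · rw [tgr_K K h1] at hjK
        rw [tgr_K'] at hj
        rw [tgr_G a jL (by omega), tgr_G a jL (by omega)]
        exact h.Rd x j x0 xr (by omega) hjK hk
      · rw [tgr_K K h1] at hjK
        rw [tgr_K K (by omega)] at hj
        rw [tgr_A a h1 h2, tgr_A a h1 h2]
        exact h.Rd x j x0 xr hj hjK hk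
  · intro x j x0 xr hj hjK hk
    rcases eq_or_ne x (i + 1) with rfl | h1
    · rw [tgr_K'] at hjK
      rw [tgr_K K (by omega)] at hj
      rcases lt_or_ge j L with h3 | h3
      · rw [tgr_D a f1 (by omega), tgr_D a f1 (by omega)]
        exact h.Ri (i + 1) j x0 xr hj (by omega) hk
      · have h4 : j = L := by omega
        rw [h4, tgr_B, tgr_D a f1 (by omega)]
        have := h.Vi i i0 i1 (by omega)
        rwa [hL] at this
    · rcases eq_or_ne x i with rfl | h2
      · rw [tgr_K K h1] at hjK
        rw [tgr_K'] at hj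
        rw [tgr_G a jL (by omega), tgr_G a jL (by omega)]
        exact h.Ri x j x0 xr (by omega) hjK hk
      · rw [tgr_K K h1] at hjK
        rw [tgr_K K (by omega)] at hj
        rw [tgr_A a h1 h2, tgr_A a h1 h2]
        exact h.Ri x j x0 xr hj hjK hk
  · intro x x0 xr hk
    rcases eq_or_ne x (i + 1) with rfl | h1
    · rw [tgr_K K (by omega)] at hk ⊢
      rw [tgr_A a (x := i + 1 + 1) (by omega) (by omega), tgr_D a f1 (by omega)]
      exact h.Vd (i + 1) x0 xr hk
    · rcases eq_or_ne x i with rfl | h2
      · rw [tgr_K'] at hk ⊢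
        rw [tgr_B, tgr_G a jL (by omega)]
        exact h.Rd x L i0 (by omega) (by omega) hxK (by omega)
      · rw [tgr_K K (by omega)] at hk ⊢
        rw [tgr_A a h1 h2]
        rcases eq_or_ne (x + 1) i with h3 | h3
        · have h4 := h.Vd x x0 xr hk
          rw [h3] at h4 ⊢
          rw [tgr_G a jL (by omega)]
          exact h4
        · rw [tgr_A a (by omega) h3]
          exact h.Vd x x0 xr hk
  · intro x x0 xr hk
    rcases eq_or_ne x (i + 1) with rfl | h1
    · rw [tgr_K K (by omega)] at hk ⊢
      rw [tgr_A a (by omega) (by omega), tgr_D a f1 (by omega)]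
      exact h.Vi (i + 1) x0 xr hk
    · rcases eq_or_ne x i with rfl | h2
      · rw [tgr_K'] at hk ⊢
        rw [tgr_B, tgr_G a jL (by omega)]
        exact h.Ri x L i0 (by omega) (by omega) hxK (by omega)
      · rw [tgr_K K (by omega)] at hk ⊢
        rw [tgr_A a (x := x) h1 h2]
        rcases eq_or_ne (x + 1) i with h3 | h3
        · have h4 := h.Vi x x0 xr hk
          rw [h3] at h4 ⊢
          rw [tgr_G a jL (by omega)]
          exact h4
        · rw [tgr_A a (by omega) h3]
          exact h.Vi x x0 xr hk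
  · intro x j x0 xr hj hjK hk
    rcases eq_or_ne x (i + 1) with rfl | h1
    · rw [tgr_K'] at hjK
      rw [tgr_K K (by omega)] at hj
      rcases eq_or_ne j (L + 1) with h3 | h3
      · rw [h3, tgr_B]
        exact h.z i L i0 (by omega) (by omega) (by omega) (by omega)
      · rw [tgr_D a f1 (by omega)]
        exact h.z (i + 1) j x0 xr hj (by omega) hk
    · rcases eq_or_ne x i with rfl | h2
      · rw [tgr_K K h1] at hjK
        rw [tgr_K'] at hj
        rw [tgr_G a jL (by omega)]
        exact h.z x j x0 xr (by omega) hjK hk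
      · rw [tgr_K K h1] at hjK
        rw [tgr_K K (by omega)] at hj
        rw [tgr_A a h1 h2]
        exact h.z x j x0 xr hj hjK hk

end DST
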