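import Pool.Agent.DST.S1M

/-!
Module XXM of project DST (MP_0f73d6_co).

xx: a i (L+1) < M.  Let x = a i (L+1), p_1 = a (i+1) (L+1); x < p_1 ≤ b by s1 (g = 1).  If M is in P_i then
  p_1 = M (rowP and c.Mmin), so x < M.  Otherwise suppose x ≥ M.  All letters of [M, p_1 - 1] are in W_i (c.top) and
  not in P_i (rowP), so in N_i; in particular x is in N_i, in column y0 < L.  Between (i,y0) and (i,L+1) are
  letters of N_i smaller than x and a i L < M ≤ x (k1a).  Letters x-1 between: at most one in N_i (rowN), and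
  a i L = x-1 only if x = M, and then there is no x-1 = M-1 in N_i (c.Mmin).  So at most one; no x+1 and no x
  between; x ≥ 2 (two_le): h3c gives that x+1 is not in the word, but x+1 ≤ p_1 ≤ b is (c.top).  Contradiction.
xK: L < K i.  L ≤ K i by Kmono.  If K i = L: for i = 0, K 0 = hi 0 - 1 and L+1 < hi 1 ≤ hi 0 (cell (1,L+f) exists,
  f ≥ 1), contradiction.  For i ≥ 1 the letter a i (L+1) is in P_(i-1) so it is ≥ M by c.Mmin, against xx.
x2: all letters v of W_i satisfy v ≥ a i L + 2.  v ≥ M > a i L (k1a).  If a i L = M - 1: a i (L+1) < M and a i (L+1)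
  ≠ M - 1 (adjc; or use strictness Rd/Ri), so a i (L+1) < a i L and by xK the step (i,L) → (i,L+1) is a ribbon
  step; it is decreasing, so L - i < κ (otherwise Ri).  Hence L - (i+1) < κ and Vd gives a (i+1) L > a i L = M-1, i.e.
  a (i+1) L ≥ M, but k1a for the letter M gives a (i+1) L < M.  So a i L ≤ M - 2.
-/

namespace DST

variable {W : List ℕ → Prop} {r κ : ℤ} {lo hi K : ℤ → ℤ} {a : ℤ → ℤ → ℕ} {i L f jb : ℤ} {M b : ℕ}

theorem xx (c : Ctx W r κ lo hi K a i L f jb M b) : a i (L + 1) < M := by
  by_contra hcon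
  rw [not_lt] at hcon
  have i0 := c.i0
  have i1 := c.i1
  have hL := c.hL
  have hfh := c.fh
  have f1 := c.f1
  have hMW := c.top M le_rfl c.Mb
  have haLM := s1m_aL c hMW
  have hz := s1 c (g := 1) le_rfl f1
  have hpb : a (i + 1) (L + 1) ≤ b := by
    rcases eq_or_lt_of_le f1 with h | h
    · have e : L + 1 = L + f := by omega
      rw [e, c.fb]
    · have := rowP c.vs.toVSR (by omega) i1 (by omega : K (i + 1) ≤ L + 1)
        (by omega : L + 1 < L + f) (by omega)
      rw [c.fb] at this; omega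
  have hnotP : ∀ v, v < a (i + 1) (L + 1) → ¬ InP hi K a i v := by
    rintro v hv2 ⟨k, h1, h2, h3⟩
    rcases eq_or_lt_of_le (show L + 1 ≤ k by omega) with h4 | h4
    · rw [← h4] at h3; omega
    · have := rowP c.vs.toVSR (by omega) i1 (by omega : K (i + 1) ≤ L + 1) h4 h2; omega
  have hzN : InN lo K a i (a i (L + 1)) := by
    rcases c.top (a i (L + 1)) hcon (by omega) with h | h
    · exact absurd h (hnotP _ hz)
    · exact h
  have e0 : a i (L + 0 + 1) = a i (L + 1) := by rw [add_zero]
  refine s1m_h3 c (g := 0) le_rfl (by omega) e0 hzN ?_ (by omega) hcon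
  intro y h1 h2 h3
  have hy : y = L := by omega
  subst hy
  refine ⟨?_, by omega⟩
  intro hN
  have := c.Mmin i _ i0 i1 (Or.inr hN)
  omega

theorem xK (c : Ctx W r κ lo hi K a i L f jb M b) : L < K i := by
  have i0 := c.i0
  have i1 := c.i1
  have hL := c.hL
  have hfh := c.fh
  have f1 := c.f1
  have hhi := c.shp.him i i0 i1
  have hKm := c.vs.Kmono i i0 (by omega)
  by_contra hcon
  have hKi : K i = L := by omega
  rcases eq_or_lt_of_le i0 with h | h
  · rw [← h] at hKi hhi hfh
    have := c.vs.K0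
    omega
  · have hx := xx c
    have hP : InP hi K a (i - 1) (a i (L + 1)) := by
      refine ⟨L + 1, ?_, ?_, ?_⟩
      · rw [sub_add_cancel]; omega
      · rw [sub_add_cancel]; omega
      · rw [sub_add_cancel]
    have := c.Mmin (i - 1) _ (by omega) (by omega) (Or.inl hP)
    omega

theorem x2 (c : Ctx W r κ lo hi K a i L f jb M b) {v : ℕ} (hv : InW lo hi K a i v) :
    a i L + 2 ≤ v := by
  have i0 := c.i0
  have i1 := c.i1
  have hL := c.hL
  have hMW := c.top M le_rfl c.Mb
  have hk := k1a c.shp c.vs i0 i1 hMW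
  rw [hL] at hk
  have hMv := c.Mmin i v i0 i1 hv
  have hx := xx c
  have hKi := xK c
  by_contra hcon
  have haM : a i L = M - 1 := by omega
  rcases lt_or_ge (L - i) κ with h | h
  · have h1 := c.vs.Vd i i0 i1 (by rw [hL]; omega)
    rw [hL] at h1
    omega
  · have h1 := c.vs.Ri i L i0 (by omega) (by omega) hKi h
    omega

end DST
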