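import Pool.Agent.DST.WRA
import Pool.Agent.DST.CLA
import Pool.Agent.DST.XXM

/-!
Module TGW of project DST (MP_0f73d6_co).

The word of the toggled structure is in W.  Decompose (cellsL_unique, or split3 repeatedly):
 cellsL = C1 ++ (X1 ++ (i+1,L+f) :: (Y1 ++ (Z1 ++ (i,L) :: C2)))  with  X1 = cells (i+1,y), L < y < L+f,
 Y1 = cells (i+1,y), y > L+f, followed by cells (i,y), lo i ≤ y < jb,  Z1 = cells (i,y), jb ≤ y < L,
 C1 = cells read before (i+1,L+1), C2 = cells read after (i,L)
(C1 and C2 can be defined by List.filter on cellsL).  The new letters on the cells (i+1,L+1), …, (i+1,L+f) are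
a i L followed by the old letters of X1; on (i,jb), …, (i,L) they are b followed by the old letters of Z1.  So with
X, Y, Z the lists of old letters and d = a i L:
 word a = C1 ++ (X ++ b :: (Y ++ (Z ++ d :: C2))),  word a' = C1 ++ (d :: (X ++ (Y ++ b :: (Z ++ C2)))).
Letters of Y are ≥ b+2 (rowP, c.jgt, c.nb): slide b through Y.  Letters of X, Y, Z and b are letters of W_i, ≥ d+2
(x2): slide d to the left through all of them.
-/

namespace DST

variable {W : List ℕ → Prop} {r κ : ℤ} {lo hi K : ℤ → ℤ} {a : ℤ → ℤ → ℕ} {i L f jb : ℤ} {M b : ℕ}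

private def tgwSeg (x s : ℤ) (n : ℕ) : List (ℤ × ℤ) :=
  (List.range n).map fun t : ℕ => (x, s + (t : ℤ))

private theorem tgw_mem_seg {x s : ℤ} {n : ℕ} {c : ℤ × ℤ} :
    c ∈ tgwSeg x s n ↔ c.1 = x ∧ s ≤ c.2 ∧ c.2 < s + n := by
  simp only [tgwSeg, List.mem_map, List.mem_range]
  constructor
  · rintro ⟨t, ht, rfl⟩
    refine ⟨rfl, ?_, ?_⟩
    · show s ≤ s + (t : ℤ)
      omega
    · show s + (t : ℤ) < s + (n : ℤ)
      omega
  · rintro ⟨h1, h2, h3⟩
    refine ⟨(c.2 - s).toNat, by omega, ?_⟩
    refine Prod.ext h1.symm ?_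
    show s + ((c.2 - s).toNat : ℤ) = c.2
    omega

private theorem tgw_seg_pairwise (x s : ℤ) (n : ℕ) :
    (tgwSeg x s n).Pairwise (fun c d => Bef c.1 c.2 d.1 d.2) := by
  simp only [tgwSeg, List.pairwise_map]
  refine List.pairwise_lt_range.imp ?_
  intro t t' h
  right
  refine ⟨rfl, ?_⟩
  show s + (t : ℤ) < s + (t' : ℤ)
  omega

private theorem tgw_seg_old (a : ℤ → ℤ → ℕ) (x s : ℤ) (n : ℕ) :
    (tgwSeg x s (n + 1)).map (fun c => a c.1 c.2) =
      (tgwSeg x s n).map (fun c => a c.1 c.2) ++ [a x (s + n)] := by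
  simp [tgwSeg, List.range_succ]

private theorem tgw_seg_new (a a' : ℤ → ℤ → ℕ) (x s : ℤ) (n : ℕ)
    (h : ∀ y, s < y → y ≤ s + n → a' x y = a x (y - 1)) :
    (tgwSeg x s (n + 1)).map (fun c => a' c.1 c.2) =
      a' x s :: (tgwSeg x s n).map (fun c => a c.1 c.2) := by
  simp only [tgwSeg, List.range_succ_eq_map, List.map_cons, List.map_map]
  congr 1
  · simp
  · refine List.map_congr_left fun t ht => ?_
    have ht' : t < n := List.mem_range.mp ht
    simp only [Function.comp_apply]
    rw [h _ (by push_cast; omega) (by push_cast; omega)]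
    congr 1
    push_cast
    omega

theorem tgw (c : Ctx W r κ lo hi K a i L f jb M b) : W (word r lo hi (tog i L f jb b a)) := by
  have h := c.vs.toVSR
  have i0 := c.i0
  have i1 := c.i1
  have hL := c.hL
  have f1 := c.f1
  have fh := c.fh
  have jlo := c.jlo
  have jL := c.jL
  have hxK := xK c
  have hMb := c.Mb
  have hKi2 : K (i + 1 + 1) ≤ L := by
    rw [← hL]
    exact h.Kmono (i + 1) (by omega) i1
  have hlo1 : lo (i + 1) ≤ L := (h.Kge (i + 1) (by omega) i1).trans hKi2
  have hhi : L < hi i := lt_trans hxK (h.Klt i i0 (by omega))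
  obtain ⟨f', hf'⟩ : ∃ f' : ℕ, f = f' + 1 := ⟨(f - 1).toNat, by omega⟩
  obtain ⟨n', hn'⟩ : ∃ n' : ℕ, L = jb + n' := ⟨(L - jb).toNat, by omega⟩
  set C1 := (cellsL r lo hi).filter
    (fun c => decide (i + 1 < c.1 ∨ (c.1 = i + 1 ∧ c.2 < L + 1))) with hC1
  set Y1 := (cellsL r lo hi).filter
    (fun c => decide ((c.1 = i + 1 ∧ L + f < c.2) ∨ (c.1 = i ∧ c.2 < jb))) with hY1
  set C2 := (cellsL r lo hi).filter
    (fun c => decide (c.1 < i ∨ (c.1 = i ∧ L < c.2))) with hC2
  have mC1 : ∀ c : ℤ × ℤ, c ∈ C1 ↔ Cell r lo hi c.1 c.2 ∧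
      (i + 1 < c.1 ∨ (c.1 = i + 1 ∧ c.2 < L + 1)) := by
    intro c
    rw [hC1, List.mem_filter, mem_cellsL, decide_eq_true_eq]
  have mY1 : ∀ c : ℤ × ℤ, c ∈ Y1 ↔ Cell r lo hi c.1 c.2 ∧
      ((c.1 = i + 1 ∧ L + f < c.2) ∨ (c.1 = i ∧ c.2 < jb)) := by
    intro c
    rw [hY1, List.mem_filter, mem_cellsL, decide_eq_true_eq]
  have mC2 : ∀ c : ℤ × ℤ, c ∈ C2 ↔ Cell r lo hi c.1 c.2 ∧
      (c.1 < i ∨ (c.1 = i ∧ L < c.2)) := by
    intro c
    rw [hC2, List.mem_filter, mem_cellsL, decide_eq_true_eq]
  have hdec : C1 ++ (tgwSeg (i + 1) (L + 1) (f' + 1) ++ (Y1 ++ (tgwSeg i jb (n' + 1) ++ C2))) =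
      cellsL r lo hi := by
    apply cellsL_unique
    · rw [List.pairwise_append, List.pairwise_append, List.pairwise_append, List.pairwise_append]
      refine ⟨cellsL_pairwise.filter _, ⟨tgw_seg_pairwise _ _ _, ⟨cellsL_pairwise.filter _,
        ⟨tgw_seg_pairwise _ _ _, cellsL_pairwise.filter _, ?_⟩, ?_⟩, ?_⟩, ?_⟩
      · intro p hp q hq
        rw [tgw_mem_seg] at hp
        have hq' := ((mC2 q).mp hq).2
        unfold Bef
        push_cast at hp
        omega
      · intro p hp q hq
        have hp' := ((mY1 p).mp hp).2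
        unfold Bef
        rcases List.mem_append.mp hq with hq | hq
        · rw [tgw_mem_seg] at hq
          push_cast at hq
          omega
        · have hq' := ((mC2 q).mp hq).2
          omega
      · intro p hp q hq
        rw [tgw_mem_seg] at hp
        push_cast at hp
        unfold Bef
        rcases List.mem_append.mp hq with hq | hq
        · have hq' := ((mY1 q).mp hq).2
          omega
        · rcases List.mem_append.mp hq with hq | hq
          · rw [tgw_mem_seg] at hq
            push_cast at hq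
            omega
          · have hq' := ((mC2 q).mp hq).2
            omega
      · intro p hp q hq
        have hp' := ((mC1 p).mp hp).2
        unfold Bef
        rcases List.mem_append.mp hq with hq | hq
        · rw [tgw_mem_seg] at hq
          push_cast at hq
          omega
        · rcases List.mem_append.mp hq with hq | hq
          · have hq' := ((mY1 q).mp hq).2
            omega
          · rcases List.mem_append.mp hq with hq | hq
            · rw [tgw_mem_seg] at hq
              push_cast at hq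
              omega
            · have hq' := ((mC2 q).mp hq).2
              omega
    · intro q
      simp only [List.mem_append, mC1, mY1, mC2, tgw_mem_seg]
      push_cast
      constructor
      · rintro (h1 | h1 | h1 | h1 | h1)
        · exact h1.1
        · obtain ⟨h2, h3, h4⟩ := h1
          refine ⟨by omega, by omega, ?_, ?_⟩
          · rw [h2]
            omega
          · rw [h2]
            omega
        · exact h1.1
        · obtain ⟨h2, h3, h4⟩ := h1
          refine ⟨by omega, by omega, ?_, ?_⟩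
          · rw [h2]
            omega
          · rw [h2]
            omega
        · exact h1.1
      · intro hc
        simp only [hc, true_and]
        omega
  have hcellP : ∀ y, L < y → y < hi (i + 1) → InW lo hi K a i (a (i + 1) y) := fun y h1 h2 =>
    Or.inl ⟨y, by omega, h2, rfl⟩
  have hcellN : ∀ y, lo i ≤ y → y < L → InW lo hi K a i (a i y) := fun y h1 h2 =>
    Or.inr ⟨y, h1, by omega, rfl⟩
  set F : ℤ × ℤ → ℕ := fun c => a c.1 c.2 with hF
  set F' : ℤ × ℤ → ℕ := fun c => tog i L f jb b a c.1 c.2 with hF'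
  have hjb1 : i ≠ i + 1 := by omega
  -- old word
  have hold : word r lo hi a = C1.map F ++ ((tgwSeg (i + 1) (L + 1) f').map F ++ b ::
      (Y1.map F ++ ((tgwSeg i jb n').map F ++ a i L :: C2.map F))) := by
    unfold word
    rw [← hdec]
    simp only [List.map_append]
    rw [tgw_seg_old a (i + 1) (L + 1) f', tgw_seg_old a i jb n']
    rw [show L + 1 + (f' : ℤ) = L + f by omega, c.fb, ← hn']
    simp only [List.append_assoc, List.singleton_append]
    rfl
  have hnew : word r lo hi (tog i L f jb b a) =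
      C1.map F ++ a i L :: (((tgwSeg (i + 1) (L + 1) f').map F ++ (Y1.map F ++ b ::
      (tgwSeg i jb n').map F)) ++ C2.map F) := by
    unfold word
    rw [← hdec]
    simp only [List.map_append]
    rw [tgw_seg_new a (tog i L f jb b a) (i + 1) (L + 1) f' (fun y h1 h2 => by
        have h3 : y ≠ L + 1 := by omega
        have h4 : L + 1 < y ∧ y ≤ L + f := by omega
        simp only [tog, if_true, if_neg h3, if_pos h4]),
      tgw_seg_new a (tog i L f jb b a) i jb n' (fun y h1 h2 => by
        have h3 : y ≠ jb := by omega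
        have h4 : jb < y ∧ y ≤ L := by omega
        simp only [tog, if_neg hjb1, if_true, if_neg h3, if_pos h4])]
    have e1 : tog i L f jb b a (i + 1) (L + 1) = a i L := by simp only [tog, if_true]
    have e2 : tog i L f jb b a i jb = b := by simp only [tog, if_neg hjb1, if_true]
    have e3 : C1.map (fun c => tog i L f jb b a c.1 c.2) = C1.map F := by
      refine List.map_congr_left fun q hq => ?_
      have hq' := ((mC1 q).mp hq).2
      show tog i L f jb b a q.1 q.2 = a q.1 q.2
      by_cases h5 : q.1 = i + 1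
      · have h6 : q.2 ≠ L + 1 := by omega
        have h7 : ¬ (L + 1 < q.2 ∧ q.2 ≤ L + f) := by omega
        rw [h5]
        simp only [tog, if_true, if_neg h6, if_neg h7]
      · have h6 : q.1 ≠ i := by omega
        simp only [tog, if_neg h5, if_neg h6]
    have e4 : C2.map (fun c => tog i L f jb b a c.1 c.2) = C2.map F := by
      refine List.map_congr_left fun q hq => ?_
      have hq' := ((mC2 q).mp hq).2
      show tog i L f jb b a q.1 q.2 = a q.1 q.2
      have h8 : q.1 ≠ i + 1 := by omega
      by_cases h5 : q.1 = i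
      · have h6 : q.2 ≠ jb := by omega
        have h7 : ¬ (jb < q.2 ∧ q.2 ≤ L) := by omega
        rw [h5]
        simp only [tog, if_neg hjb1, if_true, if_neg h6, if_neg h7]
      · simp only [tog, if_neg h8, if_neg h5]
    have e5 : Y1.map (fun c => tog i L f jb b a c.1 c.2) = Y1.map F := by
      refine List.map_congr_left fun q hq => ?_
      have hq' := ((mY1 q).mp hq).2
      show tog i L f jb b a q.1 q.2 = a q.1 q.2
      rcases hq' with ⟨h5, h6⟩ | ⟨h5, h6⟩
      · have h7 : q.2 ≠ L + 1 := by omega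
        have h8 : ¬ (L + 1 < q.2 ∧ q.2 ≤ L + f) := by omega
        rw [h5]
        simp only [tog, if_true, if_neg h7, if_neg h8]
      · have h7 : q.2 ≠ jb := by omega
        have h8 : ¬ (jb < q.2 ∧ q.2 ≤ L) := by omega
        rw [h5]
        simp only [tog, if_neg hjb1, if_true, if_neg h7, if_neg h8]
    rw [e1, e2, e3, e4, e5]
    simp only [List.append_assoc, List.cons_append]
    rfl
  -- letters
  have lX : ∀ v ∈ (tgwSeg (i + 1) (L + 1) f').map F, a i L + 2 ≤ v := by
    intro v hv
    obtain ⟨q, hq, rfl⟩ := List.mem_map.mp hv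
    rw [tgw_mem_seg] at hq
    show a i L + 2 ≤ a q.1 q.2
    rw [hq.1]
    exact x2 c (hcellP _ (by omega) (by omega))
  have lZ : ∀ v ∈ (tgwSeg i jb n').map F, a i L + 2 ≤ v := by
    intro v hv
    obtain ⟨q, hq, rfl⟩ := List.mem_map.mp hv
    rw [tgw_mem_seg] at hq
    show a i L + 2 ≤ a q.1 q.2
    rw [hq.1]
    exact x2 c (hcellN _ (by omega) (by omega))
  have lb : a i L + 2 ≤ b := by
    have := x2 c (hcellP (L + f) (by omega) fh)
    rwa [c.fb] at this
  have lY : ∀ v ∈ Y1.map F, a i L + 2 ≤ v ∧ b + 2 ≤ v := by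
    intro v hv
    obtain ⟨q, hq, rfl⟩ := List.mem_map.mp hv
    obtain ⟨hq1, hq2⟩ := (mY1 q).mp hq
    show a i L + 2 ≤ a q.1 q.2 ∧ b + 2 ≤ a q.1 q.2
    rcases hq2 with ⟨h5, h6⟩ | ⟨h5, h6⟩
    · have h7 := hq1.2.2.2
      rw [h5] at h7 ⊢
      have h8 := hcellP q.2 (by omega) h7
      have h9 := rowP h (i := i + 1) (j := L + f) (j' := q.2) (by omega) i1 (by omega) h6 h7
      rw [c.fb] at h9
      have h10 : a (i + 1) q.2 ≠ b + 1 := by
        intro h11
        rw [h11] at h8
        exact c.nb h8
      exact ⟨x2 c h8, by omega⟩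
    · have h7 := hq1.2.2.1
      rw [h5] at h7 ⊢
      have h8 := hcellN q.2 h7 (by omega)
      have h9 := c.jgt q.2 h7 h6
      have h10 : a i q.2 ≠ b + 1 := by
        intro h11
        rw [h11] at h8
        exact c.nb h8
      exact ⟨x2 c h8, by omega⟩
  have hW := c.vs.w
  rw [hold] at hW
  rw [← List.append_assoc, slide c.cls _ _ _ _ (fun v hv => Or.inr (lY v hv).2)] at hW
  rw [hnew, slide c.cls]
  · simpa only [List.append_assoc, List.cons_append] using hW
  · intro v hv
    right
    rcases List.mem_append.mp hv with hv | hv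
    · exact lX v hv
    · rcases List.mem_append.mp hv with hv | hv
      · exact (lY v hv).1
      · rcases List.mem_cons.mp hv with rfl | hv
        · exact lb
        · exact lZ v hv

end DST
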