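import Pool.Agent.DST.CTX
import Pool.Agent.DST.TGR
import Pool.Agent.DST.TGC
import Pool.Agent.DST.TGW
import Pool.Agent.DST.TGI
import Pool.Agent.DST.FIN

/-!
Module CNA of project DST (MP_0f73d6_co).

card_le: the toggle P → N is an injection of ASet into BSet with the other parity.
For x in ASet choose f, jb by exists_ctx (the hypotheses Mmin, top, nb come from Good and TypS) and map x to
(togK i L x.1, tog i L f jb b x.2), L = x.1 (i+1).  It is a V-structure by tgr, tgc, tgw, normalised by togK_off,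
tog_off, of the same type by tog_inW (with xK), b is in N_i by tog_inN, the parity changes by sumK_tog
(Int.negOnePow_succ).  Injective by tog_inj.  Use Set.ncard_le_ncard_of_injOn with finiteness of BSet (subset of
VSet).
-/

namespace DST

variable {W : List ℕ → Prop} {r κ : ℤ} {lo hi : ℤ → ℤ} {S : ℤ → Set ℕ} {i : ℤ} {M b : ℕ}

theorem card_le (hW : Cls W) (hfin : {w | W w}.Finite) (hS : Shp r lo hi) (hG : Good r S i M b)
    (u : ℤˣ) :
    (ASet W r κ lo hi S i b u).ncard ≤ (BSet W r κ lo hi S i b (-u)).ncard := by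
  classical
  have hctx : ∀ x ∈ ASet W r κ lo hi S i b u, ∃ p : ℤ × ℤ,
      Ctx W r κ lo hi x.1 x.2 i (x.1 (i + 1)) p.1 p.2 M b := by
    rintro x ⟨hV, hT, hP, _⟩
    obtain ⟨f, jb, h⟩ := exists_ctx hW hS hV.1 hG.i0 hG.i1
      (fun k v k0 k1 hv => hG.Mmin k v k0 k1 ((hT k v k0 k1).1 hv)) hG.Mb
      (fun v h1 h2 => (hT i v hG.i0 hG.i1).2 (hG.top v h1 h2))
      (fun h => hG.nb ((hT i (b + 1) hG.i0 hG.i1).1 h)) hP
    exact ⟨(f, jb), h⟩
  have hctx' : ∀ x : (ℤ → ℤ) × (ℤ → ℤ → ℕ), ∃ p : ℤ × ℤ, x ∈ ASet W r κ lo hi S i b u →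
      Ctx W r κ lo hi x.1 x.2 i (x.1 (i + 1)) p.1 p.2 M b := by
    intro x
    by_cases hx : x ∈ ASet W r κ lo hi S i b u
    · obtain ⟨p, hp⟩ := hctx x hx
      exact ⟨p, fun _ => hp⟩
    · exact ⟨(0, 0), fun h => absurd h hx⟩
  choose p hp using hctx'
  refine Set.ncard_le_ncard_of_injOn
    (fun x => (togK i (x.1 (i + 1)) x.1, tog i (x.1 (i + 1)) (p x).1 (p x).2 b x.2)) ?_ ?_ ?_
  · intro x hx
    have c := hp x hx
    obtain ⟨hV, hT, hP, hu⟩ := hx
    have hK := xK c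
    refine ⟨⟨?_, togK_off c hV.2.1, tog_off c hV.2.2⟩, ?_, tog_inN c, ?_⟩
    · exact { toVSR := tgr c, toVSC := tgc c, w := tgw c }
    · intro k v k0 k1
      rw [tog_inW c hK k0 k1]
      exact hT k v k0 k1
    · simp only
      rw [sumK_tog c, Int.negOnePow_succ, hu]
  · intro x hx y hy hxy
    have cx := hp x hx
    have cy := hp y hy
    have h1 : togK i (x.1 (i + 1)) x.1 = togK i (y.1 (i + 1)) y.1 := congrArg Prod.fst hxy
    have h2 : tog i (x.1 (i + 1)) (p x).1 (p x).2 b x.2 =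
        tog i (y.1 (i + 1)) (p y).1 (p y).2 b y.2 := congrArg Prod.snd hxy
    obtain ⟨h3, h4⟩ := tog_inj cx cy h1 h2
    exact Prod.ext h3 h4
  · exact (vset_finite hfin hS).subset fun x hx => hx.1

end DST
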