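import Pool.Agent.DST.ROA

/-!
Module ROB of project DST (MP_0f73d6_co).

Rotation by 180 degrees of shapes and V-structures.  Everything is the substitution i → r-1-i (rows), i → r-i
(boundaries), j → -j (columns).  VSR.N and VSR.P, Rd and Ri, Vd and Vi, cN and cP are exchanged; e3 is self-dual
(its two alternatives are exchanged).  κ becomes 1 - r - κ.
Use have := h.P (r-1-i) (-(j+1)) ... and rewrite the arguments (e.g. -(j+1)+1 = -j) by ring_nf or show.
-/

namespace DST

variable {W : List ℕ → Prop} {r κ : ℤ} {lo hi K : ℤ → ℤ} {a : ℤ → ℤ → ℕ}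

theorem rlo_rhi : rlo r (rhi r lo) = lo := by
  funext i
  unfold rlo rhi
  have h1 : r - 1 - (r - 1 - i) = i := by ring
  rw [h1]
  ring

theorem rhi_rlo : rhi r (rlo r hi) = hi := by
  funext i
  show 1 - (1 - hi (r - 1 - (r - 1 - i))) = hi i
  have h1 : r - 1 - (r - 1 - i) = i := by ring
  rw [h1]
  ring

theorem rK_rK : rK r (rK r K) = K := by
  funext i
  unfold rK
  have h1 : r - (r - i) = i := by ring
  rw [h1]
  ring

theorem ra_ra : ra r (ra r a) = a := by
  funext i j
  unfold ra
  have h1 : r - 1 - (r - 1 - i) = i := by ring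
  have h2 : - -j = j := by ring
  rw [h1, h2]

theorem shp_rot (hS : Shp r lo hi) : Shp r (rlo r hi) (rhi r lo) := by
  refine ⟨hS.rpos, ?_, ?_, ?_⟩
  · intro i h0 h1
    have := hS.ne (r - 1 - i) (by omega) (by omega)
    unfold rlo rhi
    omega
  · intro i h0 h1
    have h2 := hS.him (r - 1 - (i + 1)) (by omega) (by omega)
    have h3 : r - 1 - (i + 1) + 1 = r - 1 - i := by ring
    rw [h3] at h2
    unfold rlo
    omega
  · intro i h0 h1
    have h2 := hS.lom (r - 1 - (i + 1)) (by omega) (by omega)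
    have h3 : r - 1 - (i + 1) + 1 = r - 1 - i := by ring
    rw [h3] at h2
    unfold rhi
    omega

theorem vs_rot (h : VS W r κ lo hi K a) :
    VS (fun w => W w.reverse) r (1 - r - κ) (rlo r hi) (rhi r lo) (rK r K) (ra r a) := by
  have hK : ∀ i, rK r K i = - K (r - i) := fun i => rfl
  have hlo : ∀ i, rlo r hi i = 1 - hi (r - 1 - i) := fun i => rfl
  have hhi : ∀ i, rhi r lo i = 1 - lo (r - 1 - i) := fun i => rfl
  have ha : ∀ i j, ra r a i j = a (r - 1 - i) (-j) := fun i j => rfl
  refine ⟨⟨?_, ?_, ?_, ?_, ?_, ?_, ?_, ?_, ?_, ?_, ?_, ?_, ?_, ?_⟩, ⟨?_, ?_, ?_⟩, ?_⟩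
  · -- K0
    have h1 := h.Kr
    rw [hK, hhi, sub_zero, h1]
    ring_nf
  · -- Kr
    have h1 := h.K0
    rw [hK, hlo, sub_self, h1]
    have h2 : r - 1 - (r - 1) = 0 := by ring
    rw [h2]
    ring
  · -- Kmono
    intro i h0 h1
    have h2 := h.Kmono (r - (i + 1)) (by omega) (by omega)
    have h3 : r - (i + 1) + 1 = r - i := by ring
    rw [h3] at h2
    rw [hK, hK]
    omega
  · -- Klt
    intro i h0 h1
    have h2 := h.Kge (r - 1 - i) (by omega) (by omega)
    have h3 : r - 1 - i + 1 = r - i := by ring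
    rw [h3] at h2
    rw [hK, hhi]
    omega
  · -- Kge
    intro i h0 h1
    have h2 := h.Klt (r - 1 - i) (by omega) (by omega)
    have h3 : r - (i + 1) = r - 1 - i := by ring
    rw [hK, hlo, h3]
    omega
  · -- κ0
    have h1 := h.κr
    rw [hK, sub_zero]
    omega
  · -- κr
    have h1 := h.κ0
    rw [hK, sub_self]
    omega
  · -- N
    intro i j h0 h1 h2 h3
    rw [hlo] at h2
    rw [hK] at h3
    have h4 : r - (i + 1) = r - 1 - i := by ring
    rw [h4] at h3
    have h5 := h.P (r - 1 - i) (-(j + 1)) (by omega) (by omega) (by omega) (by omega)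
    have h6 : -(j + 1) + 1 = -j := by ring
    rw [h6] at h5
    rw [ha, ha]
    exact h5
  · -- P
    intro i j h0 h1 h2 h3
    rw [hhi] at h3
    rw [hK] at h2
    have h4 : r - 1 - i + 1 = r - i := by ring
    have h5 := h.N (r - 1 - i) (-(j + 1)) (by omega) (by omega) (by omega)
      (by rw [h4]; omega)
    have h6 : -(j + 1) + 1 = -j := by ring
    rw [h6] at h5
    rw [ha, ha]
    exact h5
  · -- Rd
    intro i j h0 h1 h2 h3 h4
    rw [hK] at h2 h3
    have e1 : r - (i + 1) = r - 1 - i := by ring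
    have e2 : r - 1 - i + 1 = r - i := by ring
    rw [e1] at h2
    have h5 := h.Ri (r - 1 - i) (-(j + 1)) (by omega) (by omega)
      (by rw [e2]; omega) (by omega) (by omega)
    have h6 : -(j + 1) + 1 = -j := by ring
    rw [h6] at h5
    rw [ha, ha]
    exact h5
  · -- Ri
    intro i j h0 h1 h2 h3 h4
    rw [hK] at h2 h3
    have e1 : r - (i + 1) = r - 1 - i := by ring
    have e2 : r - 1 - i + 1 = r - i := by ring
    rw [e1] at h2
    have h5 := h.Rd (r - 1 - i) (-(j + 1)) (by omega) (by omega)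
      (by rw [e2]; omega) (by omega) (by omega)
    have h6 : -(j + 1) + 1 = -j := by ring
    rw [h6] at h5
    rw [ha, ha]
    exact h5
  · -- Vd
    intro i h0 h1 h2
    rw [hK] at h2 ⊢
    have e1 : r - (i + 1) = r - 2 - i + 1 := by ring
    have e3 : r - 1 - (i + 1) = r - 2 - i := by ring
    have e4 : r - 1 - i = r - 2 - i + 1 := by ring
    have h5 := h.Vi (r - 2 - i) (by omega) (by omega) (by rw [e1] at h2; omega)
    rw [ha, ha, neg_neg, e3, e4, e1]
    exact h5
  · -- Vi
    intro i h0 h1 h2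
    rw [hK] at h2 ⊢
    have e1 : r - (i + 1) = r - 2 - i + 1 := by ring
    have e3 : r - 1 - (i + 1) = r - 2 - i := by ring
    have e4 : r - 1 - i = r - 2 - i + 1 := by ring
    have h5 := h.Vd (r - 2 - i) (by omega) (by omega) (by rw [e1] at h2; omega)
    rw [ha, ha, neg_neg, e3, e4, e1]
    exact h5
  · -- z
    intro i j h0 h1 h2 h3 h4
    rw [hK] at h2 h3
    have e1 : r - (i + 1) = r - 1 - i := by ring
    have e2 : r - 1 - i + 1 = r - i := by ring
    rw [e1] at h2
    rw [ha]
    exact h.z (r - 1 - i) (-j) (by omega) (by omega) (by rw [e2]; omega) (by omega) (by omega)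
  · -- cN
    intro i j h0 h1 h2 h3
    rw [hlo] at h2
    rw [hK] at h3
    have e1 : r - (i + 1) = r - 2 - i + 1 := by ring
    have e3 : r - 1 - (i + 1) = r - 2 - i := by ring
    have e4 : r - 1 - i = r - 2 - i + 1 := by ring
    rw [e1] at h3
    rw [e4] at h2
    have h5 := h.cP (r - 2 - i) (-j) (by omega) (by omega) (by omega) (by omega)
    rw [ha, ha, e3, e4]
    exact h5
  · -- cP
    intro i j h0 h1 h2 h3
    rw [hhi] at h3
    rw [hK] at h2
    have e1 : r - (i + 1) = r - 2 - i + 1 := by ring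
    have e3 : r - 1 - (i + 1) = r - 2 - i := by ring
    have e4 : r - 1 - i = r - 2 - i + 1 := by ring
    rw [e1] at h2
    rw [e3] at h3
    have h5 := h.cN (r - 2 - i) (-j) (by omega) (by omega) (by omega) (by omega)
    rw [ha, ha, e3, e4]
    exact h5
  · -- e3
    intro i j h0 h1 h2 h3 h4 h5
    rw [hlo] at h2
    rw [hhi] at h3
    rw [hK] at h4
    have e1 : r - (i + 1) = r - 2 - i + 1 := by ring
    have e3 : r - 1 - (i + 1) = r - 2 - i := by ring
    have e4 : r - 1 - i = r - 2 - i + 1 := by ring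
    rw [e1] at h4
    rw [e3] at h3
    rw [e4] at h2
    rw [ha, ha, e3, e4] at h5
    have h6 := h.e3 (r - 2 - i) (-j) (by omega) (by omega) (by omega) (by omega) (by omega) h5.symm
    rcases h6 with ⟨k, k1, k2, k3⟩ | ⟨k, k1, k2, k3⟩
    · right
      refine ⟨-k, ?_, by omega, ?_⟩
      · rw [hlo, e4]
        omega
      · rw [ha, ha, e4, neg_neg, k3, h5]
    · left
      refine ⟨-k, by omega, ?_, ?_⟩
      · rw [hhi, e3]
        omega
      · rw [ha, ha, e3, e4, neg_neg, k3, h5]
  · -- w
    show W (word r (rlo r hi) (rhi r lo) (ra r a)).reverse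
    rw [word_rot, List.reverse_reverse]
    exact h.w

end DST
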