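import Pool.Agent.DST.ROA
import Pool.Agent.DST.ROB

/-!
Module ROC of project DST (MP_0f73d6_co).

Rotation of the blocks: W_i becomes W_(r-2-i), P and N are exchanged.
sumK_rot: substitution i → r - i in Ico 1 r.
vset_rot: vs_rot and normalisation (cell_rot).
-/

namespace DST

variable {W : List ℕ → Prop} {r κ : ℤ} {lo hi K : ℤ → ℤ} {a : ℤ → ℤ → ℕ}

theorem inP_rot {i : ℤ} {v : ℕ} :
    InP (rhi r lo) (rK r K) (ra r a) (r - 2 - i) v ↔ InN lo K a i v := by
  have e1 : r - (r - 2 - i + 1) = i + 1 := by ring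
  have e2 : r - 1 - (r - 2 - i + 1) = i := by ring
  simp only [InP, InN, rhi, rK, ra, e1, e2]
  constructor
  · rintro ⟨j, h1, h2, h3⟩
    exact ⟨-j, by omega, by omega, h3⟩
  · rintro ⟨j, h1, h2, h3⟩
    exact ⟨-j, by omega, by omega, by rw [neg_neg]; exact h3⟩

theorem inN_rot {i : ℤ} {v : ℕ} :
    InN (rlo r hi) (rK r K) (ra r a) (r - 2 - i) v ↔ InP hi K a i v := by
  have e1 : r - (r - 2 - i + 1) = i + 1 := by ring
  have e2 : r - 1 - (r - 2 - i) = i + 1 := by ring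
  simp only [InP, InN, rlo, rK, ra, e1, e2]
  constructor
  · rintro ⟨j, h1, h2, h3⟩
    exact ⟨-j, by omega, by omega, h3⟩
  · rintro ⟨j, h1, h2, h3⟩
    exact ⟨-j, by omega, by omega, by rw [neg_neg]; exact h3⟩

theorem sumK_rot : sumK r (rK r K) = - sumK r K := by
  unfold sumK rK
  rw [← Finset.sum_neg_distrib]
  refine Finset.sum_nbij' (fun i => r - i) (fun i => r - i) ?_ ?_ ?_ ?_ ?_
  · intro i hi
    rw [Finset.mem_Ico] at hi ⊢
    constructor <;> omega
  · intro i hi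
    rw [Finset.mem_Ico] at hi ⊢
    constructor <;> omega
  · intro i _
    ring
  · intro i _
    ring
  · intro i _
    rfl

theorem vset_rot {x : (ℤ → ℤ) × (ℤ → ℤ → ℕ)} (hx : x ∈ VSet W r κ lo hi) :
    (rK r x.1, ra r x.2) ∈ VSet (fun w => W w.reverse) r (1 - r - κ) (rlo r hi) (rhi r lo) := by
  obtain ⟨h1, h2, h3⟩ := hx
  refine ⟨vs_rot h1, ?_, ?_⟩
  · intro i hi
    have := h2 (r - i) (by omega)
    simp only [rK, this, neg_zero]
  · intro i j hc
    rw [cell_rot] at hc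
    exact h3 _ _ hc

end DST
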