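import Pool.Agent.DST.Core

/-!
Module RVL of project DST (MP_0f73d6_co).

The reversed words satisfy the same closure properties (reverse of p ++ a :: b :: q is
q.reverse ++ b :: a :: p.reverse).
-/

namespace DST

variable {W : List ℕ → Prop}

theorem cls_rev (hW : Cls W) : Cls (fun w => W w.reverse) := by
  refine ⟨?_, ?_, ?_, ?_, ?_⟩
  · intro p q a b hab
    have := hW.comm q.reverse p.reverse a b hab
    simp only [List.reverse_append, List.reverse_cons, List.append_assoc, List.cons_append,
      List.nil_append, List.singleton_append] at this ⊢
    exact this.symm
  · intro p q a ha
    have := hW.braid q.reverse p.reverse a ha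
    simp only [List.reverse_append, List.reverse_cons, List.append_assoc, List.cons_append,
      List.nil_append, List.singleton_append] at this ⊢
    exact this
  · intro p q a h
    apply hW.nodup q.reverse p.reverse a
    simp only [List.reverse_append, List.reverse_cons, List.append_assoc, List.cons_append,
      List.nil_append, List.singleton_append] at h ⊢
    exact h
  · intro p q a ha h
    have h2 := hW.knot q.reverse p.reverse a ha (by
      simp only [List.reverse_append, List.reverse_cons, List.append_assoc, List.cons_append,
        List.nil_append, List.singleton_append] at h ⊢
      exact h)
    rw [List.mem_reverse, List.mem_reverse] at h2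
    exact ⟨h2.2, h2.1⟩
  · intro w hw
    have := hW.zero _ hw
    rwa [List.count_reverse] at this

theorem fin_rev (hfin : {w | W w}.Finite) : {w | W (List.reverse w)}.Finite := by
  have : {w | W (List.reverse w)} = List.reverse '' {w | W w} := by
    ext w
    constructor
    · intro h
      exact ⟨w.reverse, h, List.reverse_reverse w⟩
    · rintro ⟨v, hv, rfl⟩
      change W (List.reverse (List.reverse v))
      rw [List.reverse_reverse]; exact hv
  rw [this]
  exact hfin.image _

end DST
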