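import Pool.Agent.DST.CNA
import Pool.Agent.DST.ROC
import Pool.Agent.DST.RVL

/-!
Module CNB of project DST (MP_0f73d6_co).

card_rot: rotation is a bijection of BSet W ... S i b u onto ASet (W reversed) ... with the type k → S (r-2-k), block
  r-2-i, the same parity (negOnePow_neg).  (vset_rot both ways with rlo_rhi etc.; W.reverse.reverse = W; the
  type by inP_rot, inN_rot, InW is symmetric.)
card_rot': the same with A and B exchanged.
card_eq: |A(u)| ≤ |B(-u)| by card_le; |B(-u)| = |A^rot(-u)| ≤ |B^rot(u)| = |A(u)| by card_le for the rotated data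
  (cls_rev, fin_rev, shp_rot, Good for the rotated type).
-/

namespace DST

variable {W : List ℕ → Prop} {r κ : ℤ} {lo hi : ℤ → ℤ} {S : ℤ → Set ℕ} {i : ℤ} {M b : ℕ}

theorem good_rot (hG : Good r S i M b) : Good r (fun k => S (r - 2 - k)) (r - 2 - i) M b := by
  have e : r - 2 - (r - 2 - i) = i := by ring
  have h0 := hG.i0
  have h1 := hG.i1
  refine ⟨by omega, by omega, ?_, hG.Mb, ?_, ?_⟩
  · intro k v k0 k1 hv
    exact hG.Mmin (r - 2 - k) v (by omega) (by omega) hv
  · intro v h2 h3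
    simp only [e]
    exact hG.top v h2 h3
  · simp only [e]
    exact hG.nb

private theorem cnb_typ {x : (ℤ → ℤ) × (ℤ → ℤ → ℕ)} (h : TypS r lo hi S x) :
    TypS r (rlo r hi) (rhi r lo) (fun k => S (r - 2 - k)) (rK r x.1, ra r x.2) := by
  intro k v k0 k1
  have h1 := h (r - 2 - k) v (by omega) (by omega)
  have e : r - 2 - (r - 2 - k) = k := by ring
  rw [← h1]
  have h2 := inP_rot (r := r) (lo := lo) (K := x.1) (a := x.2) (i := r - 2 - k) (v := v)
  have h3 := inN_rot (r := r) (hi := hi) (K := x.1) (a := x.2) (i := r - 2 - k) (v := v)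
  rw [e] at h2 h3
  unfold InW
  rw [← h2, ← h3]
  exact Or.comm.trans (Or.comm.trans Or.comm)

private theorem cnb_rr (x : (ℤ → ℤ) × (ℤ → ℤ → ℕ)) : (rK r (rK r x.1), ra r (ra r x.2)) = x := by
  rw [rK_rK, ra_ra]

private theorem cnb_A {u : ℤˣ} {x : (ℤ → ℤ) × (ℤ → ℤ → ℕ)} (hx : x ∈ ASet W r κ lo hi S i b u) :
    (rK r x.1, ra r x.2) ∈ BSet (fun w => W w.reverse) r (1 - r - κ) (rlo r hi) (rhi r lo)
      (fun k => S (r - 2 - k)) (r - 2 - i) b u := by
  obtain ⟨hV, hT, hP, hu⟩ := hx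
  refine ⟨vset_rot hV, cnb_typ hT, inN_rot.2 hP, ?_⟩
  simp only
  rw [sumK_rot, Int.negOnePow_neg, hu]

private theorem cnb_B {u : ℤˣ} {x : (ℤ → ℤ) × (ℤ → ℤ → ℕ)} (hx : x ∈ BSet W r κ lo hi S i b u) :
    (rK r x.1, ra r x.2) ∈ ASet (fun w => W w.reverse) r (1 - r - κ) (rlo r hi) (rhi r lo)
      (fun k => S (r - 2 - k)) (r - 2 - i) b u := by
  obtain ⟨hV, hT, hP, hu⟩ := hx
  refine ⟨vset_rot hV, cnb_typ hT, inP_rot.2 hP, ?_⟩
  simp only
  rw [sumK_rot, Int.negOnePow_neg, hu]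

private theorem cnb_W : (fun w : List ℕ => (fun w : List ℕ => W w.reverse) w.reverse) = W := by
  funext w
  simp only [List.reverse_reverse]

private theorem cnb_S : (fun k => (fun k => S (r - 2 - k)) (r - 2 - k)) = S := by
  funext k
  have e : r - 2 - (r - 2 - k) = k := by ring
  simp only [e]

theorem card_rot (u : ℤˣ) :
    (ASet (fun w => W w.reverse) r (1 - r - κ) (rlo r hi) (rhi r lo) (fun k => S (r - 2 - k))
      (r - 2 - i) b u).ncard = (BSet W r κ lo hi S i b u).ncard := by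
  have hinj : Function.Injective (fun x : (ℤ → ℤ) × (ℤ → ℤ → ℕ) => (rK r x.1, ra r x.2)) := by
    intro x y hxy
    have h1 := congrArg (fun x : (ℤ → ℤ) × (ℤ → ℤ → ℕ) => (rK r x.1, ra r x.2)) hxy
    simp only at h1
    rwa [cnb_rr, cnb_rr] at h1
  rw [← Set.ncard_image_of_injective (BSet W r κ lo hi S i b u) hinj]
  congr 1
  ext y
  constructor
  · intro hy
    refine ⟨(rK r y.1, ra r y.2), ?_, cnb_rr y⟩
    have h1 := cnb_A hy
    have e1 : 1 - r - (1 - r - κ) = κ := by ring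
    have e2 : r - 2 - (r - 2 - i) = i := by ring
    rw [cnb_W, cnb_S, rlo_rhi, rhi_rlo, e1, e2] at h1
    exact h1
  · rintro ⟨x, hx, rfl⟩
    exact cnb_B hx

theorem card_rot' (u : ℤˣ) :
    (BSet (fun w => W w.reverse) r (1 - r - κ) (rlo r hi) (rhi r lo) (fun k => S (r - 2 - k))
      (r - 2 - i) b u).ncard = (ASet W r κ lo hi S i b u).ncard := by
  have hinj : Function.Injective (fun x : (ℤ → ℤ) × (ℤ → ℤ → ℕ) => (rK r x.1, ra r x.2)) := by
    intro x y hxy
    have h1 := congrArg (fun x : (ℤ → ℤ) × (ℤ → ℤ → ℕ) => (rK r x.1, ra r x.2)) hxy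
    simp only at h1
    rwa [cnb_rr, cnb_rr] at h1
  rw [← Set.ncard_image_of_injective (ASet W r κ lo hi S i b u) hinj]
  congr 1
  ext y
  constructor
  · intro hy
    refine ⟨(rK r y.1, ra r y.2), ?_, cnb_rr y⟩
    have h1 := cnb_B hy
    have e1 : 1 - r - (1 - r - κ) = κ := by ring
    have e2 : r - 2 - (r - 2 - i) = i := by ring
    rw [cnb_W, cnb_S, rlo_rhi, rhi_rlo, e1, e2] at h1
    exact h1
  · rintro ⟨x, hx, rfl⟩
    exact cnb_A hx

theorem card_eq (hW : Cls W) (hfin : {w | W w}.Finite) (hS : Shp r lo hi) (hG : Good r S i M b)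
    (u : ℤˣ) :
    (ASet W r κ lo hi S i b u).ncard = (BSet W r κ lo hi S i b (-u)).ncard := by
  apply le_antisymm (card_le hW hfin hS hG u)
  have h1 := card_le (κ := 1 - r - κ) (cls_rev hW) (fin_rev hfin) (shp_rot hS) (good_rot hG) (-u)
  rw [card_rot, neg_neg, card_rot'] at h1
  exact h1

end DST
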