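import Pool.Agent.DST.ROW
import Pool.Agent.DST.CLB

/-!
Module CTX of project DST (MP_0f73d6_co).

not_both: if b is in P_i (cell (i+1,y1)) and in N_i (cell (i,y2)) then between them all letters are > b (rowP,
  rowN) and qc gives a letter b+1 between, which is in P_i or N_i: contradiction to nb.
exists_ctx: f is given by the cell of b in P_i.  jb is the least column ≥ lo i, ≤ L, such that all columns of [jb,L)
  of row i have letters < b (the letters of N_i decrease and are ≠ b): e.g. induction, or Int least element.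
-/

namespace DST

variable {W : List ℕ → Prop} {r κ : ℤ} {lo hi K : ℤ → ℤ} {a : ℤ → ℤ → ℕ}

theorem not_both (hW : Cls W) (hS : Shp r lo hi) (h : VS W r κ lo hi K a) {i : ℤ} (i0 : 0 ≤ i)
    (i1 : i + 1 < r) {b : ℕ} (nb : ¬ InW lo hi K a i (b + 1)) (hP : InP hi K a i b) :
    ¬ InN lo K a i b := by
  rintro ⟨y2, hy2, hy2', e2⟩
  obtain ⟨y1, hy1, hy1', e1⟩ := hP
  have hv := h.toVSR
  have k1 := hv.Kge (i + 1) (by omega) i1
  have k2 := hv.Kmono (i + 1) (by omega) i1
  have k3 := hv.Kmono i i0 (by omega)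
  have k4 := hv.Klt i i0 (by omega)
  have key : ∀ x y, Cell r lo hi x y → Btw (i + 1) y1 i y2 x y →
      (x = i + 1 ∧ y1 < y ∧ y < hi (i + 1) ∧ b < a x y) ∨
        (x = i ∧ lo i ≤ y ∧ y < y2 ∧ b < a x y) := by
    rintro x y ⟨c1, c2, c3, c4⟩ ⟨b1, b2⟩
    rcases b1 with b1 | ⟨b1, b1'⟩
    · rcases b2 with b2 | ⟨b2, b2'⟩
      · omega
      · right
        subst b2
        refine ⟨rfl, c3, b2', ?_⟩
        have := rowN hv i0 (by omega) c3 b2' (le_of_lt hy2')
        omega
    · left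
      subst b1
      refine ⟨rfl, b1', c4, ?_⟩
      have := rowP hv (i := i + 1) (by omega) i1 (le_of_lt hy1) b1' c4
      omega
  obtain ⟨⟨x, y, hc, hb, he⟩, -, -⟩ := qc (v := b) hW h.w (i := i + 1) (j := y1) (i' := i) (j' := y2)
    ⟨by omega, i1, by omega, hy1'⟩ ⟨i0, by omega, hy2, by omega⟩ (Or.inl (by omega)) e1 e2
    (fun x y hc hb => by rcases key x y hc hb with h | h <;> omega)
    (fun x y hc hb => by rcases key x y hc hb with h | h <;> omega)
  rcases key x y hc hb with ⟨rfl, h1, h2, h3⟩ | ⟨rfl, h1, h2, h3⟩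
  · exact nb (Or.inl ⟨y, by omega, h2, he⟩)
  · exact nb (Or.inr ⟨y, h1, by omega, he⟩)

theorem exists_ctx (hW : Cls W) (hS : Shp r lo hi) (h : VS W r κ lo hi K a) {i : ℤ} (i0 : 0 ≤ i)
    (i1 : i + 1 < r) {M b : ℕ} (Mmin : ∀ k v, 0 ≤ k → k + 1 < r → InW lo hi K a k v → M ≤ v)
    (Mb : M ≤ b) (top : ∀ v, M ≤ v → v ≤ b → InW lo hi K a i v) (nb : ¬ InW lo hi K a i (b + 1))
    (hP : InP hi K a i b) : ∃ f jb, Ctx W r κ lo hi K a i (K (i + 1)) f jb M b := by
  have hnb := not_both hW hS h i0 i1 nb hP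
  obtain ⟨y1, hy1, hy1', e1⟩ := hP
  have hv := h.toVSR
  have k1 := hv.Kge i i0 (by omega)
  have key : ∀ m, lo i ≤ m → m ≤ K (i + 1) → ∃ jb, lo i ≤ jb ∧ jb ≤ m ∧
      (∀ j, lo i ≤ j → j < jb → b < a i j) ∧ (∀ j, jb ≤ j → j < m → a i j < b) := by
    intro m hm
    induction m, hm using Int.le_induction with
    | base => intro _; exact ⟨lo i, le_rfl, le_rfl, fun j h1 h2 => by omega, fun j h1 h2 => by omega⟩
    | succ m hm ih =>
      intro hm2
      obtain ⟨jb, j1, j2, j3, j4⟩ := ih (by omega)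
      have hne : a i m ≠ b := fun h => hnb ⟨m, hm, by omega, h⟩
      rcases lt_or_gt_of_ne hne with hl | hg
      · refine ⟨jb, j1, by omega, j3, fun j h1 h2 => ?_⟩
        rcases eq_or_lt_of_le (show j ≤ m by omega) with h3 | h3
        · rw [h3]; exact hl
        · exact j4 j h1 h3
      · refine ⟨m + 1, by omega, le_rfl, fun j h1 h2 => ?_, fun j h1 h2 => by omega⟩
        rcases eq_or_lt_of_le (show j ≤ m by omega) with h3 | h3
        · rw [h3]; exact hg
        · exact hg.trans (rowN hv i0 (by omega) h1 h3 (by omega))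
  obtain ⟨jb, j1, j2, j3, j4⟩ := key (K (i + 1)) k1 le_rfl
  refine ⟨y1 - K (i + 1), jb, ?_⟩
  exact
    { cls := hW
      shp := hS
      vs := h
      i0 := i0
      i1 := i1
      hL := rfl
      Mmin := Mmin
      Mb := Mb
      top := top
      nb := nb
      f1 := by omega
      fh := by omega
      fb := by rw [show K (i + 1) + (y1 - K (i + 1)) = y1 by ring]; exact e1
      jlo := j1
      jL := j2
      jgt := j3
      jlt := j4 }

end DST
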