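import Pool.Agent.DST.CNB
import Pool.Agent.DST.CTX

/-!
Module CNC of project DST (MP_0f73d6_co).

sum_typ_zero: V-structures of a given type S with good (i,M,b): b is in P_i or in N_i (b is in S i, TypS) and not in
both (not_both, nb).  So the set is the disjoint union of A(1), A(-1), B(1), B(-1) (ℤˣ has two elements), the sum is
|A(1)| - |A(-1)| + |B(1)| - |B(-1)| = 0 by card_eq.
can: fix y in USet; types (κ, S).  Partition the finite set USet by (y.1, S_y) with S_y k = {v | 0 ≤ k ∧ k+1 < r ∧ InW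
k v} (a function of y.2); it is enough that the sum over each class is 0 (e.g. Finset.sum_fiberwise or
Finset.sum_comp; classical decidability).  In a class fix y: by hne the block W_0 has hi 1 - 1 - lo 0 ≥ 1 letters:
the cell (1, hi 1 - 1) is in P_0 if K 1 < hi 1 - 1, else (0, lo 0) is in N_0 (lo 0 < hi 1 - 1 = K 1).  Let M be the least
letter of all blocks, i a block containing it, b the largest number with [M,b] in S_y i (finite set of letters),
so Good.  The class is {κ} times {x in VSet κ | TypS S_y x}, and the sum is ± the sum in sum_typ_zero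
(Int.negOnePow_add).
-/

namespace DST

variable {W : List ℕ → Prop} {r κ : ℤ} {lo hi : ℤ → ℤ} {S : ℤ → Set ℕ} {i : ℤ} {M b : ℕ}

private theorem cnc_const {α : Type*} {X : Set α} (hX : X.Finite) (g : α → ℤ) (c : ℤ)
    (h : ∀ x ∈ X, g x = c) : ∑ᶠ x ∈ X, g x = X.ncard * c := by
  rw [finsum_mem_congr rfl h, finsum_mem_eq_finite_toFinset_sum _ hX, Finset.sum_const,
    Set.ncard_eq_toFinset_card X hX, nsmul_eq_mul]

theorem sum_typ_zero (hW : Cls W) (hfin : {w | W w}.Finite) (hS : Shp r lo hi)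
    (hG : Good r S i M b) :
    ∑ᶠ x ∈ {x | x ∈ VSet W r κ lo hi ∧ TypS r lo hi S x}, (((sumK r x.1).negOnePow : ℤˣ) : ℤ) = 0 := by
  have hV := vset_finite (κ := κ) hfin hS
  have fA : ∀ u, (ASet W r κ lo hi S i b u).Finite := fun u => hV.subset fun x hx => hx.1
  have fB : ∀ u, (BSet W r κ lo hi S i b u).Finite := fun u => hV.subset fun x hx => hx.1
  have hne1 : (1 : ℤˣ) ≠ -1 := by decide
  have hX : {x | x ∈ VSet W r κ lo hi ∧ TypS r lo hi S x} =
      (ASet W r κ lo hi S i b 1 ∪ ASet W r κ lo hi S i b (-1)) ∪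
        (BSet W r κ lo hi S i b 1 ∪ BSet W r κ lo hi S i b (-1)) := by
    ext x
    constructor
    · rintro ⟨h1, h2⟩
      have h3 := (h2 i b hG.i0 hG.i1).2 (hG.top b hG.Mb le_rfl)
      rcases Int.units_eq_one_or (sumK r x.1).negOnePow with hu | hu
      · rcases h3 with h3 | h3
        · exact Or.inl (Or.inl ⟨h1, h2, h3, hu⟩)
        · exact Or.inr (Or.inl ⟨h1, h2, h3, hu⟩)
      · rcases h3 with h3 | h3
        · exact Or.inl (Or.inr ⟨h1, h2, h3, hu⟩)
        · exact Or.inr (Or.inr ⟨h1, h2, h3, hu⟩)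
    · rintro ((h | h) | (h | h))
      · exact ⟨h.1, h.2.1⟩
      · exact ⟨h.1, h.2.1⟩
      · exact ⟨h.1, h.2.1⟩
      · exact ⟨h.1, h.2.1⟩
  have dAB : ∀ u u', Disjoint (ASet W r κ lo hi S i b u) (BSet W r κ lo hi S i b u') := by
    intro u u'
    rw [Set.disjoint_left]
    rintro x ⟨h1, h2, h3, _⟩ ⟨_, _, h4, _⟩
    exact not_both hW hS h1.1 hG.i0 hG.i1
      (fun h => hG.nb ((h2 i (b + 1) hG.i0 hG.i1).1 h)) h3 h4
  have dA : Disjoint (ASet W r κ lo hi S i b 1) (ASet W r κ lo hi S i b (-1)) := by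
    rw [Set.disjoint_left]
    rintro x ⟨_, _, _, h⟩ ⟨_, _, _, h'⟩
    exact hne1 (h.symm.trans h')
  have dB : Disjoint (BSet W r κ lo hi S i b 1) (BSet W r κ lo hi S i b (-1)) := by
    rw [Set.disjoint_left]
    rintro x ⟨_, _, _, h⟩ ⟨_, _, _, h'⟩
    exact hne1 (h.symm.trans h')
  rw [hX, finsum_mem_union _ ((fA 1).union (fA (-1))) ((fB 1).union (fB (-1))),
    finsum_mem_union dA (fA 1) (fA (-1)), finsum_mem_union dB (fB 1) (fB (-1)),
    cnc_const (fA 1) _ 1 (fun x hx => by rw [hx.2.2.2]; rfl),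
    cnc_const (fA (-1)) _ (-1) (fun x hx => by rw [hx.2.2.2]; rfl),
    cnc_const (fB 1) _ 1 (fun x hx => by rw [hx.2.2.2]; rfl),
    cnc_const (fB (-1)) _ (-1) (fun x hx => by rw [hx.2.2.2]; rfl),
    card_eq hW hfin hS hG 1, card_eq hW hfin hS hG (-1), neg_neg]
  · ring
  · rw [Set.disjoint_union_left, Set.disjoint_union_right, Set.disjoint_union_right]
    exact ⟨⟨dAB _ _, dAB _ _⟩, ⟨dAB _ _, dAB _ _⟩⟩

/-- the type of a V-structure -/
private def cncS (r : ℤ) (lo hi : ℤ → ℤ) (x : (ℤ → ℤ) × (ℤ → ℤ → ℕ)) : ℤ → Set ℕ :=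
  fun k => {v | 0 ≤ k ∧ k + 1 < r ∧ InW lo hi x.1 x.2 k v}

private theorem cnc_typ {x y : (ℤ → ℤ) × (ℤ → ℤ → ℕ)} :
    TypS r lo hi (cncS r lo hi y) x ↔ cncS r lo hi x = cncS r lo hi y := by
  constructor
  · intro h
    funext k
    ext v
    constructor
    · rintro ⟨k0, k1, hv⟩
      exact (h k v k0 k1).1 hv
    · rintro ⟨k0, k1, hv⟩
      exact ⟨k0, k1, (h k v k0 k1).2 ⟨k0, k1, hv⟩⟩
  · intro h k v k0 k1
    have h1 : v ∈ cncS r lo hi x k ↔ v ∈ cncS r lo hi y k := by rw [h]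
    rw [← h1]
    exact ⟨fun h => ⟨k0, k1, h⟩, fun h => h.2.2⟩

private theorem cnc_fin {K : ℤ → ℤ} {a : ℤ → ℤ → ℕ} (i : ℤ) : {v | InW lo hi K a i v}.Finite := by
  have h1 : {v | InW lo hi K a i v} ⊆
      ((Set.Icc (K (i + 1)) (hi (i + 1))).image fun j => a (i + 1) j) ∪
        ((Set.Icc (lo i) (K (i + 1))).image fun j => a i j) := by
    rintro v (⟨j, h1, h2, h3⟩ | ⟨j, h1, h2, h3⟩)
    · left
      exact ⟨j, ⟨h1.le, h2.le⟩, h3⟩
    · right
      exact ⟨j, ⟨h1, h2.le⟩, h3⟩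
  exact (((Set.finite_Icc _ _).image _).union ((Set.finite_Icc _ _).image _)).subset h1

private theorem cnc_good {K : ℤ → ℤ} {a : ℤ → ℤ → ℕ} (h : VS W r κ lo hi K a)
    (hr : 1 < r) (hne : lo 0 + 1 < hi 1) : ∃ i M b, Good r (cncS r lo hi (K, a)) i M b := by
  classical
  have hex : ∃ v, ∃ k, 0 ≤ k ∧ k + 1 < r ∧ InW lo hi K a k v := by
    have h1 := h.Klt 1 (by norm_num) hr
    have h2 := h.Kge 0 le_rfl (by omega)
    have e : (0 : ℤ) + 1 = 1 := by norm_num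
    rw [e] at h2
    by_cases h3 : K 1 < hi 1 - 1
    · refine ⟨a 1 (hi 1 - 1), 0, le_rfl, by omega, Or.inl ⟨hi 1 - 1, ?_, ?_, ?_⟩⟩
      · rw [e]; exact h3
      · rw [e]; omega
      · rw [e]
    · refine ⟨a 0 (lo 0), 0, le_rfl, by omega, Or.inr ⟨lo 0, le_rfl, ?_, rfl⟩⟩
      rw [e]
      omega
  obtain ⟨i, i0, i1, hiM⟩ := Nat.find_spec hex
  set M := Nat.find hex with hM
  obtain ⟨B, hB⟩ := (cnc_fin (lo := lo) (hi := hi) (K := K) (a := a) i).bddAbove
  have hex2 : ∃ c, M < c ∧ c ∉ cncS r lo hi (K, a) i := by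
    refine ⟨max B M + 1, ?_, ?_⟩
    · have := le_max_right B M
      omega
    · rintro ⟨_, _, h3⟩
      have h4 := hB h3
      have h5 := le_max_left B M
      omega
  have hq := Nat.find_spec hex2
  set q := Nat.find hex2 with hqd
  refine ⟨i, M, q - 1, i0, i1, ?_, ?_, ?_, ?_⟩
  · rintro k v k0 k1 ⟨_, _, hv⟩
    exact Nat.find_min' hex ⟨k, k0, k1, hv⟩
  · omega
  · intro v h1 h2
    rcases Nat.eq_or_lt_of_le h1 with h3 | h3
    · rw [← h3]
      exact ⟨i0, i1, hiM⟩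
    · by_contra h4
      have h5 : q ≤ v := Nat.find_min' hex2 ⟨h3, h4⟩
      omega
  · rw [Nat.sub_add_cancel (by omega)]
    exact hq.2

theorem can (hW : Cls W) (hfin : {w | W w}.Finite) (hS : Shp r lo hi) (hr : 1 < r)
    (hne : lo 0 + 1 < hi 1) :
    ∑ᶠ y ∈ USet W r lo hi, (((y.1 + sumK r y.2.1).negOnePow : ℤˣ) : ℤ) = 0 := by
  classical
  have hU := uset_finite hfin hS
  rw [finsum_mem_eq_finite_toFinset_sum _ hU]
  rw [← Finset.sum_fiberwise_of_maps_to (s := hU.toFinset)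
    (t := hU.toFinset.image (fun y => (y.1, cncS r lo hi y.2)))
    (g := fun y => (y.1, cncS r lo hi y.2)) (fun y hy => Finset.mem_image_of_mem _ hy)]
  apply Finset.sum_eq_zero
  intro c hc
  rw [Finset.mem_image] at hc
  obtain ⟨y, hy, rfl⟩ := hc
  rw [Set.Finite.mem_toFinset] at hy
  obtain ⟨κ, K, a⟩ := y
  have hy' : (K, a) ∈ VSet W r κ lo hi := hy
  obtain ⟨i, M, b, hG⟩ := cnc_good hy'.1 hr hne
  have hz := sum_typ_zero (κ := κ) hW hfin hS hG
  have hX : {x | x ∈ VSet W r κ lo hi ∧ TypS r lo hi (cncS r lo hi (K, a)) x}.Finite :=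
    (vset_finite (κ := κ) hfin hS).subset fun x hx => hx.1
  rw [finsum_mem_eq_finite_toFinset_sum _ hX] at hz
  have h1 : ∑ x ∈ hX.toFinset, (((κ + sumK r x.1).negOnePow : ℤˣ) : ℤ) = 0 := by
    have h2 : ∀ x ∈ hX.toFinset, (((κ + sumK r x.1).negOnePow : ℤˣ) : ℤ) =
        ((κ.negOnePow : ℤˣ) : ℤ) * (((sumK r x.1).negOnePow : ℤˣ) : ℤ) := by
      intro x _
      rw [Int.negOnePow_add, Units.val_mul]
    rw [Finset.sum_congr rfl h2, ← Finset.mul_sum, hz, mul_zero]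
  rw [← h1]
  symm
  refine Finset.sum_bij (fun x _ => (κ, x)) ?_ ?_ ?_ ?_
  · intro x hx
    rw [Set.Finite.mem_toFinset] at hx
    rw [Finset.mem_filter, Set.Finite.mem_toFinset]
    refine ⟨hx.1, ?_⟩
    simp only
    rw [cnc_typ.1 hx.2]
  · intro x _ x' _ h
    exact congrArg Prod.snd h
  · rintro ⟨κ', x⟩ hx
    rw [Finset.mem_filter, Set.Finite.mem_toFinset] at hx
    obtain ⟨h2, h3⟩ := hx
    have h4 : κ' = κ := congrArg Prod.fst h3
    have h5 : cncS r lo hi x = cncS r lo hi (K, a) := congrArg Prod.snd h3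
    subst h4
    refine ⟨x, ?_, rfl⟩
    rw [Set.Finite.mem_toFinset]
    exact ⟨h2, cnc_typ.2 h5⟩
  · intro x _
    rfl

end DST
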