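import Mathlib

/-!
Project DST (MP_0f73d6_co): definitions used by all modules.

Arrays are functions a : ℤ → ℤ → ℕ on a skew shape: rows 0, …, r-1 (row 0 on top), row i has the
columns lo i ≤ j < hi i; lo and hi are weakly decreasing in i.  The reading word reads the bottom row
first, each row from left to right.
-/

namespace DST

/-- Closure properties of the set of reduced words of an unknotted signed permutation whose reduced
words contain 0 at most once. -/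
structure Cls (W : List ℕ → Prop) : Prop where
  comm : ∀ (p q : List ℕ) (a b : ℕ), a + 2 ≤ b → (W (p ++ a :: b :: q) ↔ W (p ++ b :: a :: q))
  braid : ∀ (p q : List ℕ) (a : ℕ), 1 ≤ a →
    (W (p ++ a :: (a + 1) :: a :: q) ↔ W (p ++ (a + 1) :: a :: (a + 1) :: q))
  nodup : ∀ (p q : List ℕ) (a : ℕ), ¬ W (p ++ a :: a :: q)
  knot : ∀ (p q : List ℕ) (a : ℕ), 1 ≤ a → W (p ++ a :: (a + 1) :: a :: q) → a + 2 ∉ p ∧ a + 2 ∉ q
  zero : ∀ w, W w → w.count 0 ≤ 1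

/-- (i,j) is read before (i',j') (bottom row first, rows from left to right). -/
def Bef (i j i' j' : ℤ) : Prop := i' < i ∨ (i' = i ∧ j < j')

/-- (x,y) is read strictly between (i,j) and (i',j'). -/
def Btw (i j i' j' x y : ℤ) : Prop := Bef i j x y ∧ Bef x y i' j'

/-- The cells of the skew shape. -/
def Cell (r : ℤ) (lo hi : ℤ → ℤ) (i j : ℤ) : Prop := 0 ≤ i ∧ i < r ∧ lo i ≤ j ∧ j < hi i

/-- Skew shapes. -/
structure Shp (r : ℤ) (lo hi : ℤ → ℤ) : Prop where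
  rpos : 0 < r
  ne : ∀ i, 0 ≤ i → i < r → lo i < hi i
  lom : ∀ i, 0 ≤ i → i + 1 < r → lo (i + 1) ≤ lo i
  him : ∀ i, 0 ≤ i → i + 1 < r → hi (i + 1) ≤ hi i

/-- The cells of row i from left to right. -/
def rowCells (lo hi : ℤ → ℤ) (i : ℤ) : List (ℤ × ℤ) :=
  (List.range (hi i - lo i).toNat).map fun t => (i, lo i + (t : ℤ))

/-- All cells in reading order. -/
def cellsL (r : ℤ) (lo hi : ℤ → ℤ) : List (ℤ × ℤ) :=
  (List.range r.toNat).reverse.flatMap fun i => rowCells lo hi (i : ℤ)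

/-- The reading word of an array. -/
def word (r : ℤ) (lo hi : ℤ → ℤ) (a : ℤ → ℤ → ℕ) : List ℕ :=
  (cellsL r lo hi).map fun c => a c.1 c.2

/-- Rows and ribbon of a V-structure.  The ribbon runs from (r-1, lo (r-1)) to (0, hi 0 - 1); it occupies
the columns K (i+1) ≤ j ≤ K i of row i.  Along it the entries decrease until the cell of content κ, whose
entry is 0, and increase afterwards. -/
structure VSR (r κ : ℤ) (lo hi K : ℤ → ℤ) (a : ℤ → ℤ → ℕ) : Prop where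
  K0 : K 0 = hi 0 - 1
  Kr : K r = lo (r - 1)
  Kmono : ∀ i, 0 ≤ i → i < r → K (i + 1) ≤ K i
  Klt : ∀ i, 0 ≤ i → i < r → K i < hi i
  Kge : ∀ i, 0 ≤ i → i < r → lo i ≤ K (i + 1)
  κ0 : κ ≤ K 0
  κr : K r - (r - 1) ≤ κ
  N : ∀ i j, 0 ≤ i → i < r → lo i ≤ j → j < K (i + 1) → a i (j + 1) < a i j
  P : ∀ i j, 0 ≤ i → i < r → K i ≤ j → j + 1 < hi i → a i j < a i (j + 1)
  Rd : ∀ i j, 0 ≤ i → i < r → K (i + 1) ≤ j → j < K i → j - i < κ → a i (j + 1) < a i j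
  Ri : ∀ i j, 0 ≤ i → i < r → K (i + 1) ≤ j → j < K i → κ ≤ j - i → a i j < a i (j + 1)
  Vd : ∀ i, 0 ≤ i → i + 1 < r → K (i + 1) - (i + 1) < κ → a i (K (i + 1)) < a (i + 1) (K (i + 1))
  Vi : ∀ i, 0 ≤ i → i + 1 < r → κ ≤ K (i + 1) - (i + 1) → a (i + 1) (K (i + 1)) < a i (K (i + 1))
  z : ∀ i j, 0 ≤ i → i < r → K (i + 1) ≤ j → j ≤ K i → j - i = κ → a i j = 0

/-- Columns of a V-structure. -/
structure VSC (r : ℤ) (lo hi K : ℤ → ℤ) (a : ℤ → ℤ → ℕ) : Prop where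
  cN : ∀ i j, 0 ≤ i → i + 1 < r → lo i ≤ j → j < K (i + 1) → a (i + 1) j ≤ a i j
  cP : ∀ i j, 0 ≤ i → i + 1 < r → K (i + 1) < j → j < hi (i + 1) → a i j ≤ a (i + 1) j
  e3 : ∀ i j, 0 ≤ i → i + 1 < r → lo i ≤ j → j < hi (i + 1) → j ≠ K (i + 1) → a (i + 1) j = a i j →
    (∃ k, j < k ∧ k < hi (i + 1) ∧ a (i + 1) k = a i j + 1) ∨
      (∃ k, lo i ≤ k ∧ k < j ∧ a i k = a i j + 1)

/-- V-structures with reading word in W. -/
structure VS (W : List ℕ → Prop) (r κ : ℤ) (lo hi K : ℤ → ℤ) (a : ℤ → ℤ → ℕ) : Prop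
    extends VSR r κ lo hi K a, VSC r lo hi K a where
  w : W (word r lo hi a)

/-- v occurs in row i+1 to the right of the ribbon (block P_i). -/
def InP (hi K : ℤ → ℤ) (a : ℤ → ℤ → ℕ) (i : ℤ) (v : ℕ) : Prop :=
  ∃ j, K (i + 1) < j ∧ j < hi (i + 1) ∧ a (i + 1) j = v

/-- v occurs in row i to the left of the ribbon (block N_i). -/
def InN (lo K : ℤ → ℤ) (a : ℤ → ℤ → ℕ) (i : ℤ) (v : ℕ) : Prop :=
  ∃ j, lo i ≤ j ∧ j < K (i + 1) ∧ a i j = v

/-- v occurs in the block W_i = P_i N_i. -/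
def InW (lo hi K : ℤ → ℤ) (a : ℤ → ℤ → ℕ) (i : ℤ) (v : ℕ) : Prop :=
  InP hi K a i v ∨ InN lo K a i v

/-- The toggle P → N at the boundary between the rows i+1 and i: the letter b in column L+f of row i+1
moves to column jb of row i, the ribbon cell (i,L) moves to (i+1,L+1). -/
def tog (i L f jb : ℤ) (b : ℕ) (a : ℤ → ℤ → ℕ) : ℤ → ℤ → ℕ := fun x y =>
  if x = i + 1 then
    (if y = L + 1 then a i L else if L + 1 < y ∧ y ≤ L + f then a (i + 1) (y - 1) else a (i + 1) y)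
  else if x = i then
    (if y = jb then b else if jb < y ∧ y ≤ L then a i (y - 1) else a i y)
  else a x y

/-- The new boundary. -/
def togK (i L : ℤ) (K : ℤ → ℤ) : ℤ → ℤ := fun m => if m = i + 1 then L + 1 else K m

/-- The situation in which the toggle P → N is made: M is the least letter of all blocks, it occurs in
the block W_i, all letters M, …, b occur in W_i, b+1 does not, b = a (i+1) (L+f) is in P_i and not in
N_i, jb is the place where b will be inserted in row i. -/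
structure Ctx (W : List ℕ → Prop) (r κ : ℤ) (lo hi K : ℤ → ℤ) (a : ℤ → ℤ → ℕ)
    (i L f jb : ℤ) (M b : ℕ) : Prop where
  cls : Cls W
  shp : Shp r lo hi
  vs : VS W r κ lo hi K a
  i0 : 0 ≤ i
  i1 : i + 1 < r
  hL : K (i + 1) = L
  Mmin : ∀ k v, 0 ≤ k → k + 1 < r → InW lo hi K a k v → M ≤ v
  Mb : M ≤ b
  top : ∀ v, M ≤ v → v ≤ b → InW lo hi K a i v
  nb : ¬ InW lo hi K a i (b + 1)
  f1 : 1 ≤ f
  fh : L + f < hi (i + 1)
  fb : a (i + 1) (L + f) = b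
  jlo : lo i ≤ jb
  jL : jb ≤ L
  jgt : ∀ j, lo i ≤ j → j < jb → b < a i j
  jlt : ∀ j, jb ≤ j → j < L → a i j < b

/-- Rotation by 180 degrees. -/
def rlo (r : ℤ) (hi : ℤ → ℤ) : ℤ → ℤ := fun i => 1 - hi (r - 1 - i)
def rhi (r : ℤ) (lo : ℤ → ℤ) : ℤ → ℤ := fun i => 1 - lo (r - 1 - i)
def rK (r : ℤ) (K : ℤ → ℤ) : ℤ → ℤ := fun i => - K (r - i)
def ra (r : ℤ) (a : ℤ → ℤ → ℕ) : ℤ → ℤ → ℕ := fun i j => a (r - 1 - i) (-j)

/-- Normalised V-structures for given κ: pairs (K, a). -/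
def VSet (W : List ℕ → Prop) (r κ : ℤ) (lo hi : ℤ → ℤ) : Set ((ℤ → ℤ) × (ℤ → ℤ → ℕ)) :=
  {x | VS W r κ lo hi x.1 x.2 ∧ (∀ i, ¬ (0 ≤ i ∧ i ≤ r) → x.1 i = 0) ∧
    ∀ i j, ¬ Cell r lo hi i j → x.2 i j = 0}

/-- Normalised V-structures with κ: triples (κ, K, a). -/
def USet (W : List ℕ → Prop) (r : ℤ) (lo hi : ℤ → ℤ) : Set (ℤ × (ℤ → ℤ) × (ℤ → ℤ → ℕ)) :=
  {y | y.2 ∈ VSet W r y.1 lo hi}

/-- The sum of the inner boundaries. -/
noncomputable def sumK (r : ℤ) (K : ℤ → ℤ) : ℤ := ∑ i ∈ Finset.Ico 1 r, K i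

/-- The left border 0 of straight shapes. -/
def z0 : ℤ → ℤ := fun _ => 0

/-- Signed tableaux on the straight shape with row lengths hi i (internal form). -/
structure Tab (W : List ℕ → Prop) (r : ℤ) (hi : ℤ → ℤ) (T : ℤ → ℤ → ℤ) : Prop where
  off : ∀ i j, ¬ Cell r z0 hi i j → T i j = 0
  w : W (word r z0 hi fun i j => (T i j).natAbs)
  row : ∀ i j, Cell r z0 hi i j → Cell r z0 hi i (j + 1) → T i j ≤ T i (j + 1)
  col : ∀ i j, Cell r z0 hi i j → Cell r z0 hi (i + 1) j → T i j ≤ T (i + 1) j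
  eg : ∀ i j, Cell r z0 hi i j → Cell r z0 hi (i + 1) j → T i j = T (i + 1) j →
    (∃ k, j < k ∧ Cell r z0 hi (i + 1) k ∧ (T (i + 1) k).natAbs = (T i j).natAbs + 1) ∨
      (∃ k, k < j ∧ Cell r z0 hi i k ∧ (T i k).natAbs = (T i j).natAbs + 1)

/-- Number of negative entries. -/
noncomputable def bars (r : ℤ) (hi : ℤ → ℤ) (T : ℤ → ℤ → ℤ) : ℕ :=
  ∑ i ∈ Finset.Ico 0 r, ((Finset.Ico 0 (hi i)).filter fun j => T i j < 0).card

/-- s is the column of the entry of least absolute value of row i; the row is strictly decreasing in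
absolute value and negative before it, strictly increasing and positive after it. -/
def IsVal (hi : ℤ → ℤ) (T : ℤ → ℤ → ℤ) (i s : ℤ) : Prop :=
  0 ≤ s ∧ s < hi i ∧ (∀ j, 0 ≤ j → j < s → T i j < 0 ∧ (T i (j + 1)).natAbs < (T i j).natAbs) ∧
    (∀ j, s < j → j < hi i → 0 < T i j ∧ (T i (j - 1)).natAbs < (T i j).natAbs)

open Classical in
/-- The valley column of row i (0 if there is none). -/
noncomputable def vcol (hi : ℤ → ℤ) (T : ℤ → ℤ → ℤ) (i : ℤ) : ℤ :=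
  if h : ∃ s, IsVal hi T i s then h.choose else 0

/-- Change the sign of the entry (i,s). -/
def flip (i s : ℤ) (T : ℤ → ℤ → ℤ) : ℤ → ℤ → ℤ := fun x y =>
  if x = i ∧ y = s then - T x y else T x y

/-- The sign of the valley entry of row i can be changed. -/
def Free (r : ℤ) (hi : ℤ → ℤ) (T : ℤ → ℤ → ℤ) (i : ℤ) : Prop :=
  0 ≤ i ∧ i < r ∧
    ((0 < T i (vcol hi T i) ∧ (i = 0 ∨ T (i - 1) (vcol hi T i) ≤ - T i (vcol hi T i))) ∨
      (T i (vcol hi T i) < 0 ∧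
        (hi (i + 1) ≤ vcol hi T i ∨ i + 1 = r ∨ - T i (vcol hi T i) ≤ T (i + 1) (vcol hi T i))))

/-- Structure of the tableaux in which no row is free. -/
structure TFD (r : ℤ) (hi : ℤ → ℤ) (T : ℤ → ℤ → ℤ) (i0 : ℤ) (s : ℤ → ℤ) : Prop where
  i0n : 0 ≤ i0
  i0r : i0 < r
  val : ∀ i, 0 ≤ i → i < r → IsVal hi T i (s i)
  z : T i0 (s i0) = 0
  pos : ∀ i, i0 < i → i < r → 0 < T i (s i)
  neg : ∀ i, 0 ≤ i → i < i0 → T i (s i) < 0
  mono : ∀ i, 0 ≤ i → i + 1 < r → s (i + 1) ≤ s i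
  dn : ∀ i, i0 < i → i < r → (T (i - 1) (s i)).natAbs < (T i (s i)).natAbs
  up : ∀ i, 0 ≤ i → i < i0 → s i < hi (i + 1) ∧ (T (i + 1) (s i)).natAbs < (T i (s i)).natAbs

/-- Number of negative entries in row i of the tableau of a V-structure. -/
def nu (κ : ℤ) (K : ℤ → ℤ) (i : ℤ) : ℤ :=
  if K i - i < κ then K i else if κ < K (i + 1) - i then K (i + 1) + 1 else κ + i

/-- The signed tableau of a V-structure. -/
def phi (κ : ℤ) (K : ℤ → ℤ) (a : ℤ → ℤ → ℕ) : ℤ → ℤ → ℤ := fun i j =>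
  if j < nu κ K i then - (a i j : ℤ) else (a i j : ℤ)

/-- Row lengths of the hook with l cells and j+1 rows. -/
def hkhi (l j : ℤ) : ℤ → ℤ := fun i => if i ≤ 0 then l - j else if i ≤ j then 1 else 0

/-- Words of length l in W which decrease strictly to a letter 0 in place p and increase strictly
afterwards. -/
def VW (W : List ℕ → Prop) (l : ℕ) : Set (List ℕ × ℕ) :=
  {x | W x.1 ∧ x.1.length = l ∧ x.2 < l ∧ x.1.getD x.2 0 = 0 ∧
    (∀ t, t < x.2 → x.1.getD (t + 1) 0 < x.1.getD t 0) ∧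
    (∀ t, x.2 ≤ t → t + 1 < l → x.1.getD t 0 < x.1.getD (t + 1) 0)}

/-- k blocks of signed letters, each strictly increasing, whose concatenation is in W up to signs. -/
def FacW (W : List ℕ → Prop) (k : ℕ) : Set (Fin k → List ℤ) :=
  {B | (∀ j, (B j).Pairwise (· < ·)) ∧ W ((List.ofFn B).flatten.map Int.natAbs)}

/-- Strictly increasing signed words in W. -/
def IncW (W : List ℕ → Prop) : Set (List ℤ) :=
  {u | u.Pairwise (· < ·) ∧ W (u.map Int.natAbs)}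

/-- Number of negative letters. -/
def ng (u : List ℤ) : ℕ := u.countP fun a => decide (a < 0)

/-- The least absolute value of a letter (0 for the empty word). -/
def mabs (u : List ℤ) : ℕ := ((u.map Int.natAbs).min?).getD 0

/-- Change the signs of the letters of least absolute value. -/
def tgl (u : List ℤ) : List ℤ := u.map fun x => if x.natAbs = mabs u then -x else x

/-- The letters of the blocks for types of V-structures. -/
def TypS (r : ℤ) (lo hi : ℤ → ℤ) (S : ℤ → Set ℕ) (x : (ℤ → ℤ) × (ℤ → ℤ → ℕ)) : Prop :=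
  ∀ k v, 0 ≤ k → k + 1 < r → (InW lo hi x.1 x.2 k v ↔ v ∈ S k)

/-- V-structures of type S with b in P_i and given parity of the sum of the boundaries. -/
def ASet (W : List ℕ → Prop) (r κ : ℤ) (lo hi : ℤ → ℤ) (S : ℤ → Set ℕ) (i : ℤ) (b : ℕ) (u : ℤˣ) :
    Set ((ℤ → ℤ) × (ℤ → ℤ → ℕ)) :=
  {x | x ∈ VSet W r κ lo hi ∧ TypS r lo hi S x ∧ InP hi x.1 x.2 i b ∧ (sumK r x.1).negOnePow = u}

/-- V-structures of type S with b in N_i and given parity of the sum of the boundaries. -/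
def BSet (W : List ℕ → Prop) (r κ : ℤ) (lo hi : ℤ → ℤ) (S : ℤ → Set ℕ) (i : ℤ) (b : ℕ) (u : ℤˣ) :
    Set ((ℤ → ℤ) × (ℤ → ℤ → ℕ)) :=
  {x | x ∈ VSet W r κ lo hi ∧ TypS r lo hi S x ∧ InN lo x.1 x.2 i b ∧ (sumK r x.1).negOnePow = u}

/-- The choice of (i, M, b) for the type S. -/
structure Good (r : ℤ) (S : ℤ → Set ℕ) (i : ℤ) (M b : ℕ) : Prop where
  i0 : 0 ≤ i
  i1 : i + 1 < r
  Mmin : ∀ k v, 0 ≤ k → k + 1 < r → v ∈ S k → M ≤ v
  Mb : M ≤ b
  top : ∀ v, M ≤ v → v ≤ b → v ∈ S i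
  nb : b + 1 ∉ S i

end DST
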