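import Mathlib

/-!
Definitions of the objects of problem MP_0f73d6_co: signed permutations and their reduced words,
unknotted elements, double Stanley functions, signed Edelman-Greene tableaux, Schur polynomials.
-/

namespace DST

/-- The generators of the hyperoctahedral group acting on the integers: s_0 exchanges 1 and -1;
for i ≥ 1, s_i exchanges i and i+1, and -i and -(i+1). -/
def sFun (i : ℕ) (x : ℤ) : ℤ :=
  if i = 0 then (if x = 1 then -1 else if x = -1 then 1 else x)
  else if x = i then i + 1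
  else if x = i + 1 then i
  else if x = -(i : ℤ) then -((i : ℤ) + 1)
  else if x = -((i : ℤ) + 1) then -(i : ℤ)
  else x

theorem sFun_invol (i : ℕ) : Function.Involutive (sFun i) := by
  intro x
  rcases Nat.eq_zero_or_pos i with rfl | hi
  · simp only [sFun, if_true]
    by_cases h1 : x = 1
    · subst h1; norm_num
    · by_cases h2 : x = -1
      · subst h2; norm_num
      · simp [h1, h2]
  · have h0 : i ≠ 0 := by omega
    simp only [sFun, h0, if_false]
    split_ifs <;> omega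

/-- The generator s_i as a permutation of the integers. -/
def gen (i : ℕ) : Equiv.Perm ℤ := (sFun_invol i).toPerm

/-- Signed permutations of 1, …, n+1 (elements of C_(n+1)), as permutations of the integers. -/
def IsSigned (n : ℕ) (ω : Equiv.Perm ℤ) : Prop :=
  (∀ x, ω (-x) = - ω x) ∧ ∀ x : ℤ, (n : ℤ) + 1 < |x| → ω x = x

/-- Reduced words of ω: words in the letters 0, …, n with product ω, of least length. -/
def Red (n : ℕ) (ω : Equiv.Perm ℤ) : Set (List ℕ) :=
  {w | (∀ a ∈ w, a ≤ n) ∧ (w.map gen).prod = ω ∧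
    ∀ v : List ℕ, (∀ a ∈ v, a ≤ n) → (v.map gen).prod = ω → w.length ≤ v.length}

/-- Unknotted elements. -/
def Unknotted (n : ℕ) (ω : Equiv.Perm ℤ) : Prop :=
  ∀ w ∈ Red n ω, ([0, 1, 0, 1] <:+: w → 2 ∉ w) ∧
    ∀ i : ℕ, 1 ≤ i → [i, i + 1, i] <:+: w → i + 2 ∉ w

/-- k-factorizations: k blocks of signed letters, each strictly increasing, whose concatenation is a
signed reduced word of ω. -/
def Facs (n : ℕ) (ω : Equiv.Perm ℤ) (k : ℕ) : Set (Fin k → List ℤ) :=
  {B | (∀ j, (B j).Pairwise (· < ·)) ∧ ((List.ofFn B).flatten.map Int.natAbs) ∈ Red n ω}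

/-- The weight of a k-factorization; the variables x_j are X (inl j), the variables y_j are X (inr j). -/
noncomputable def wt {k : ℕ} (B : Fin k → List ℤ) : MvPolynomial (Fin k ⊕ Fin k) ℤ :=
  ∏ j, MvPolynomial.X (Sum.inl j) ^ ((B j).countP (fun a => decide (a < 0))) *
    MvPolynomial.X (Sum.inr j) ^ ((B j).countP (fun a => decide (0 ≤ a)))

/-- The double Stanley function in the variables x_1, …, x_k, y_1, …, y_k. -/
noncomputable def Fd (n : ℕ) (ω : Equiv.Perm ℤ) (k : ℕ) : MvPolynomial (Fin k ⊕ Fin k) ℤ :=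
  ∑ᶠ B ∈ Facs n ω k, wt B

/-- Reading word of a filling: bottom row first, rows from left to right. -/
def reading (μ : YoungDiagram) (T : ℕ → ℕ → ℤ) : List ℤ :=
  (List.range (μ.colLen 0)).reverse.flatMap fun i => (List.range (μ.rowLen i)).map fun j => T i j

/-- Signed Edelman-Greene tableaux of shape μ for ω (fillings are extended by 0 outside μ). -/
structure IsTab (n : ℕ) (ω : Equiv.Perm ℤ) (μ : YoungDiagram) (T : ℕ → ℕ → ℤ) : Prop where
  off : ∀ i j, (i, j) ∉ μ → T i j = 0
  word : (reading μ T).map Int.natAbs ∈ Red n ω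
  row : ∀ i j, (i, j + 1) ∈ μ → T i j ≤ T i (j + 1)
  col : ∀ i j, (i + 1, j) ∈ μ → T i j ≤ T (i + 1) j
  eg : ∀ i j, (i + 1, j) ∈ μ → T i j = T (i + 1) j →
    (∃ k, j < k ∧ (i + 1, k) ∈ μ ∧ (T (i + 1) k).natAbs = (T i j).natAbs + 1) ∨
      (∃ l, l < j ∧ (T i l).natAbs = (T i j).natAbs + 1) ∨
      (T i j = -1 ∧ T (i + 1) j = -1 ∧ (i + 1, j + 1) ∈ μ ∧ T i (j + 1) = 0 ∧ T (i + 1) (j + 1) = 0)

/-- The number of barred entries. -/
def nbars (μ : YoungDiagram) (T : ℕ → ℕ → ℤ) : ℕ := (μ.cells.filter fun c => T c.1 c.2 < 0).card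

/-- The number of signed Edelman-Greene tableaux of shape μ for ω with exactly m barred entries. -/
noncomputable def EG (n : ℕ) (ω : Equiv.Perm ℤ) (μ : YoungDiagram) (m : ℕ) : ℕ :=
  {T | IsTab n ω μ T ∧ nbars μ T = m}.ncard

/-- Semistandard fillings of μ with entries in a set of k letters. -/
def IsSS {k : ℕ} (μ : YoungDiagram) (t : μ.cells → Fin k) : Prop :=
  ∀ c d : μ.cells, (c.1.1 = d.1.1 → c.1.2 < d.1.2 → t c ≤ t d) ∧
    (c.1.2 = d.1.2 → c.1.1 < d.1.1 → t c < t d)

open Classical in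
/-- The Schur polynomial s_μ(x_1, …, x_k). -/
noncomputable def schur (k : ℕ) (μ : YoungDiagram) : MvPolynomial (Fin k) ℤ :=
  ∑ t : {t : μ.cells → Fin k // IsSS μ t}, ∏ c, MvPolynomial.X (t.1 c)

/-- The substitution y_j = - x_j. -/
noncomputable def subst (k : ℕ) : MvPolynomial (Fin k ⊕ Fin k) ℤ →ₐ[ℤ] MvPolynomial (Fin k) ℤ :=
  MvPolynomial.aeval (Sum.elim MvPolynomial.X fun j => - MvPolynomial.X j)

/-- The substitution x_j → -x_j, y_j → x_j. -/
noncomputable def subst' (k : ℕ) : MvPolynomial (Fin k ⊕ Fin k) ℤ →ₐ[ℤ] MvPolynomial (Fin k) ℤ :=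
  MvPolynomial.aeval (Sum.elim (fun j => - MvPolynomial.X j) MvPolynomial.X)

/-- The sum over λ and r of (-1)^r E^(λ r) s_λ(x_1, …, x_k). -/
noncomputable def rhs (n : ℕ) (ω : Equiv.Perm ℤ) (k : ℕ) : MvPolynomial (Fin k) ℤ :=
  ∑ᶠ μ : YoungDiagram, ∑ᶠ m : ℕ, ((-1 : ℤ) ^ m * (EG n ω μ m : ℤ)) • schur k μ

/-- The hook with l cells and j+1 rows (for j < l). -/
def hookD (l j : ℕ) : YoungDiagram where
  cells := ((Finset.range (l - j)).image fun c => ((0 : ℕ), c)) ∪
    ((if j < l then Finset.range (j + 1) else ∅).image fun i => (i, (0 : ℕ)))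
  isLowerSet := by
    intro c d hdc hc
    simp only [Finset.coe_union, Finset.coe_image, Set.mem_union, Set.mem_image,
      Finset.mem_coe, Finset.mem_range] at hc ⊢
    obtain ⟨h1, h2⟩ := (Prod.le_def.1 hdc)
    rcases hc with ⟨x, hx, rfl⟩ | ⟨x, hx, rfl⟩
    · left
      exact ⟨d.2, by simp at h2; omega, by ext <;> simp at *; omega⟩
    · right
      split_ifs at hx ⊢ with hj
      · simp only [Finset.mem_range] at hx ⊢
        exact ⟨d.1, by simp at h1; omega, by ext <;> simp at *; omega⟩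
      · simp at hx

end DST
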