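import Pool.Agent.DST.RDL

/-!
Module EXP of project DST (MP_0f73d6_co).

The inner sum over the number m of barred entries: EG n ω μ m is the number of T with nbars μ T = m; sum over m of
(-1)^m EG = sum over T of (-1)^nbars (fibres of nbars on the finite set of tableaux, istab_finite; finitely many m).
-/

namespace DST

theorem exp_sum (n : ℕ) (ω : Equiv.Perm ℤ) (k : ℕ) (μ : YoungDiagram) :
    ∑ᶠ m : ℕ, ((-1 : ℤ) ^ m * (EG n ω μ m : ℤ)) • schur k μ =
      (∑ᶠ T ∈ {T | IsTab n ω μ T}, (-1 : ℤ) ^ nbars μ T) • schur k μ := by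
  classical
  have hf := istab_finite n ω μ
  have hS : ∀ T, T ∈ hf.toFinset ↔ IsTab n ω μ T := by
    intro T
    rw [Set.Finite.mem_toFinset]
    rfl
  have hEG : ∀ m, EG n ω μ m = (hf.toFinset.filter fun T => nbars μ T = m).card := by
    intro m
    unfold EG
    rw [← Set.ncard_coe_finset]
    congr 1
    ext T
    simp [hS]
  rw [finsum_mem_eq_finite_toFinset_sum _ hf]
  have hsupp : (Function.support fun m : ℕ => ((-1 : ℤ) ^ m * (EG n ω μ m : ℤ)) • schur k μ) ⊆
      ↑(hf.toFinset.image (nbars μ)) := by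
    intro m hm
    rw [Function.mem_support] at hm
    by_contra hc
    apply hm
    have h0 : EG n ω μ m = 0 := by
      rw [hEG m, Finset.card_eq_zero, Finset.filter_eq_empty_iff]
      intro T hT hTm
      apply hc
      rw [Finset.mem_coe, Finset.mem_image]
      exact ⟨T, hT, hTm⟩
    rw [h0]
    simp
  rw [finsum_eq_sum_of_support_subset _ hsupp, ← Finset.sum_smul]
  congr 1
  rw [← Finset.sum_fiberwise_of_maps_to (s := hf.toFinset) (t := hf.toFinset.image (nbars μ))
    (g := nbars μ) (fun T hT => Finset.mem_image_of_mem _ hT)]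
  refine Finset.sum_congr rfl fun m _ => ?_
  rw [hEG m]
  rw [Finset.sum_congr rfl (g := fun _ => (-1 : ℤ) ^ m)
    (fun T hT => by rw [(Finset.mem_filter.1 hT).2])]
  rw [Finset.sum_const, nsmul_eq_mul, mul_comm]

end DST
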