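import Pool.Agent.DST.MAIN

/-!
Module FIX of project DST (MP_0f73d6_co): the identity element, the final identities, the example s_0.
-/

namespace DST

open MvPolynomial

variable {n : ℕ} {ω : Equiv.Perm ℤ}

theorem red_nil (h : [] ∈ Red n ω) {w : List ℕ} : w ∈ Red n ω ↔ w = [] := by
  constructor
  · intro hw
    have := red_length hw h
    simpa using this
  · rintro rfl; exact h

theorem facs_nil (h : [] ∈ Red n ω) (k : ℕ) : Facs n ω k = {fun _ => []} := by
  ext B
  simp only [Facs, Set.mem_singleton_iff]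
  constructor
  · rintro ⟨-, hB⟩
    rw [red_nil h, List.map_eq_nil_iff, List.flatten_eq_nil_iff] at hB
    funext j
    exact hB _ (List.mem_ofFn.2 ⟨j, rfl⟩)
  · rintro rfl
    refine ⟨fun j => List.Pairwise.nil, ?_⟩
    rw [red_nil h, List.map_eq_nil_iff, List.flatten_eq_nil_iff]
    intro l hl
    obtain ⟨j, rfl⟩ := List.mem_ofFn.1 hl
    rfl

theorem fd_nil (h : [] ∈ Red n ω) (k : ℕ) : Fd n ω k = 1 := by
  rw [Fd, facs_nil h, finsum_mem_singleton]
  simp [wt]

theorem istab_nil (h : [] ∈ Red n ω) {T : ℕ → ℕ → ℤ} : IsTab n ω ⊥ T ↔ T = fun _ _ => 0 := by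
  have hb : ∀ c : ℕ × ℕ, c ∉ (⊥ : YoungDiagram) := fun c => YoungDiagram.notMem_bot c
  constructor
  · intro hT
    funext i j
    exact hT.off i j (hb _)
  · rintro rfl
    refine ⟨fun i j _ => rfl, ?_, fun i j hm => absurd hm (hb _), fun i j hm => absurd hm (hb _),
      fun i j hm => absurd hm (hb _)⟩
    rw [red_nil h, List.map_eq_nil_iff, ← List.length_eq_zero_iff, reading_length]
    simp

theorem nn_nil (h : [] ∈ Red n ω) : NN n ω ⊥ = 1 := by
  have he : {T | IsTab n ω ⊥ T} = {fun _ _ => 0} := by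
    ext T
    simp only [Set.mem_singleton_iff]
    exact istab_nil h
  rw [NN, he, finsum_mem_singleton]
  simp [nbars]

theorem schur_bot (k : ℕ) : schur k ⊥ = 1 := by
  classical
  have hE : IsEmpty (⊥ : YoungDiagram).cells := by
    rw [YoungDiagram.cells_bot]
    infer_instance
  have hc : ∀ t : (⊥ : YoungDiagram).cells → Fin k, IsSS ⊥ t := fun t c => (hE.false c).elim
  unfold schur
  rw [Fintype.sum_eq_single ⟨fun c => (hE.false c).elim, hc _⟩]
  · exact Finset.prod_eq_one fun c _ => (hE.false c).elim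
  · intro t ht
    exact absurd (Subtype.ext (funext fun c => (hE.false c).elim)) ht

theorem rhs_nil (h : [] ∈ Red n ω) (k : ℕ) : rhs n ω k = 1 := by
  have e1 : rhs n ω k = ∑ᶠ μ : YoungDiagram, NN n ω μ • schur k μ := by
    unfold rhs
    exact finsum_congr fun μ => exp_sum n ω k μ
  rw [e1, finsum_eq_single _ ⊥, nn_nil h, schur_bot, one_smul]
  intro μ hμ
  rw [nn_card, zero_smul]
  intro w hw hc
  rw [red_nil h] at hw
  subst hw
  apply hμ
  simp only [List.length_nil] at hc
  have := Finset.card_eq_zero.1 hc.symm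
  exact YoungDiagram.ext (by rw [this, YoungDiagram.cells_bot])

/-- The identity for the exchanged variables. -/
theorem final' (hu : Unknotted n ω) (h0 : ∀ w ∈ Red n ω, w.count 0 ≤ 1) (k : ℕ) :
    subst' k (Fd n ω k) = rhs n ω k := by
  have hW := cls_red hu h0
  by_cases hne : ∃ w, w ∈ Red n ω
  · obtain ⟨w, hw⟩ := hne
    have hlen : ∀ v ∈ Red n ω, v.length = w.length := fun v hv => red_length hv hw
    rcases Nat.eq_zero_or_pos w.length with hl | hl
    · have hnil : w = [] := List.length_eq_zero_iff.1 hl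
      subst hnil
      rw [fd_nil hw, rhs_nil hw, map_one]
    · rw [lhs_eq hW hl hlen, rhs_eq hW hl hlen]
  · have hne' : ∀ w, w ∉ Red n ω := fun w hw => hne ⟨w, hw⟩
    have e1 : rhs n ω k = ∑ᶠ μ : YoungDiagram, NN n ω μ • schur k μ := by
      unfold rhs
      exact finsum_congr fun μ => exp_sum n ω k μ
    have e2 : Facs n ω k = ∅ := by
      ext B
      simp only [Facs, Set.mem_empty_iff_false, iff_false]
      exact fun hB => hne' _ hB.2
    rw [e1, Fd, e2]
    simp only [Set.mem_empty_iff_false, finsum_false, finsum_zero, map_zero]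
    rw [finsum_eq_zero_of_forall_eq_zero]
    intro μ
    rw [nn_card, zero_smul]
    exact fun w hw => absurd hw (hne' w)

theorem subst_fd (k : ℕ) {w : List ℕ} (hw : w ∈ Red n ω) :
    subst k (Fd n ω k) = (-1 : ℤ) ^ w.length • subst' k (Fd n ω k) := by
  have hfin : (Facs n ω k).Finite := fac_finite (W := fun w => w ∈ Red n ω) (red_finite n ω) k
  have h1 : subst' k (Fd n ω k) = ∑ᶠ B ∈ Facs n ω k, subst' k (wt B) := by
    unfold Fd
    exact (subst' k).toAddMonoidHom.map_finsum_mem _ hfin
  have h2 : subst k (Fd n ω k) = ∑ᶠ B ∈ Facs n ω k, subst k (wt B) := by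
    unfold Fd
    exact (subst k).toAddMonoidHom.map_finsum_mem _ hfin
  rw [h1, h2, smul_finsum_mem hfin]
  refine finsum_mem_congr rfl fun B hB => ?_
  have hl : (List.ofFn B).flatten.length = w.length := by
    rw [← red_length hB.2 hw, List.length_map]
  exact subst_wt B _ hl

/-- The identity of the problem, with the sign. -/
theorem final (hu : Unknotted n ω) (h0 : ∀ w ∈ Red n ω, w.count 0 ≤ 1) (k : ℕ) {w : List ℕ}
    (hw : w ∈ Red n ω) : subst k (Fd n ω k) = (-1 : ℤ) ^ w.length • rhs n ω k := by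
  rw [subst_fd k hw, final' hu h0]

/-- Reduced words of s_0. -/
theorem red_gen0 (n : ℕ) {w : List ℕ} : w ∈ Red n (gen 0) ↔ w = [0] := by
  have hne : ∀ a : ℕ, gen a = gen 0 → a = 0 := by
    intro a ha
    have h1 : gen a 1 = gen 0 1 := by rw [ha]
    change sFun a 1 = sFun 0 1 at h1
    by_contra h
    simp only [sFun, h, if_false, if_true] at h1
    split_ifs at h1 <;> omega
  have hone : (1 : Equiv.Perm ℤ) ≠ gen 0 := by
    intro h
    have h1 : (1 : Equiv.Perm ℤ) 1 = gen 0 1 := by rw [← h]
    change (1 : ℤ) = sFun 0 1 at h1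
    simp [sFun] at h1
  have h0 : [0] ∈ Red n (gen 0) := by
    refine ⟨by simp, by simp, ?_⟩
    intro v _ hv
    cases v with
    | nil => simp at hv; exact absurd hv hone
    | cons a t => simp
  constructor
  · intro hw
    have hl := red_length hw h0
    obtain ⟨a, rfl⟩ := List.length_eq_one_iff.1 (by simpa using hl)
    have h2 := hw.2.1
    simp only [List.map_cons, List.map_nil, List.prod_cons, List.prod_nil, mul_one] at h2
    rw [hne a h2]
  · rintro rfl; exact h0

theorem gen0_signed {n : ℕ} (hn : 1 ≤ n) : IsSigned n (gen 0) := by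
  constructor
  · intro x
    change sFun 0 (-x) = - sFun 0 x
    simp only [sFun, if_true]
    split_ifs <;> omega
  · intro x hx
    change sFun 0 x = x
    have h1 : x ≠ 1 := by rintro rfl; simp at hx; omega
    have h2 : x ≠ -1 := by rintro rfl; simp at hx; omega
    simp [sFun, h1, h2]

theorem gen0_unknotted (n : ℕ) : Unknotted n (gen 0) := by
  intro w hw
  rw [red_gen0] at hw
  subst hw
  refine ⟨fun h => ?_, fun i _ h => ?_⟩
  · have := h.length_le; simp at this
  · have := h.length_le; simp at this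

theorem gen0_count (n : ℕ) : ∀ w ∈ Red n (gen 0), w.count 0 ≤ 1 := by
  intro w hw
  rw [red_gen0] at hw
  subst hw
  simp

theorem gen0_fails (n k : ℕ) (hk : 1 ≤ k) : subst k (Fd n (gen 0) k) ≠ rhs n (gen 0) k := by
  have h0 : [0] ∈ Red n (gen 0) := (red_gen0 n).2 rfl
  rw [final (gen0_unknotted n) (gen0_count n) k h0]
  have hW := cls_red (gen0_unknotted n) (gen0_count n)
  have hinc : IncW (fun w => w ∈ Red n (gen 0)) = {[0]} := by
    ext u
    simp only [IncW, Set.mem_singleton_iff]
    constructor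
    · rintro ⟨-, hu⟩
      rw [red_gen0] at hu
      cases u with
      | nil => simp at hu
      | cons a t =>
        simp only [List.map_cons, List.cons.injEq, Int.natAbs_eq_zero, List.map_eq_nil_iff] at hu
        rw [hu.1, hu.2]
    · rintro rfl
      refine ⟨List.pairwise_singleton _ _, ?_⟩
      rw [red_gen0]; rfl
  have hN : N0 n (gen 0) = 1 := by
    rw [N0, hinc, finsum_mem_singleton]
    simp [ng]
  rw [rhs_eq hW le_rfl (fun w hw => by rw [red_length hw h0]; rfl), hN]
  intro h
  have h2 := congrArg (MvPolynomial.eval (fun _ : Fin k => (1 : ℤ))) h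
  simp at h2
  omega

end DST
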