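import Pool.Agent.DST.VAL

/-!
Module FLA of project DST (MP_0f73d6_co).

tab_flip: if row i is free then changing the sign of its valley entry (column s = vcol) gives a signed tableau.
Let m = |T i s| > 0.  off, w: cells and absolute values are unchanged (flip only changes the sign; at a cell).
row: the neighbours of (i,s) in row i have larger absolute value, the left one is negative, the right one
 positive (IsVal), so ±m fits between them.
col: T i s > 0 is replaced by -m: the entry below (if any) is ≥ m ≥ -m; the entry above (if i > 0) is ≤ -m by Free.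
 T i s = -m is replaced by m: the entry above is ≤ -m ≤ m; the entry below, if it is a cell, is ≥ m by Free.
eg: for equalities not involving (i,s) nothing changes (the alternatives speak of absolute values only).  For a
 new equality involving (i,s):
 (above) T (i-1) s = ±m = new T i s.  The old sign was different, so the new value is -m (if the new value were +m
   then T i s was -m and T (i-1) s ≤ -m < m).  So T (i-1) s = -m.  Cells between (i,s) and (i-1,s): row i right of s:
   letters > m; row i-1 left of s: T is strictly increasing (row_lt) so entries < -m, letters > m.  h1c gives a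
   letter m+1 or m-1 between, so m+1 between: this is exactly Tab.eg for the new array (k > s in row i, or k < s in
   row i-1).
 (below) new T i s = T (i+1) s.  The new value is m (if it were -m, T i s was m ≤ T (i+1) s).  T (i+1) s = m > 0.
   Cells between (i+1,s) and (i,s): row i+1 right of s: entries > m; row i left of s: letters > m.  h1c.
-/

namespace DST

variable {W : List ℕ → Prop} {r : ℤ} {hi : ℤ → ℤ} {T : ℤ → ℤ → ℤ}

theorem fla_mono (hW : Cls W) (hT : Tab W r hi T) {i y y' : ℤ} (h1 : Cell r z0 hi i y)
    (h2 : Cell r z0 hi i y') (h : y < y') : T i y < T i y' := by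
  have key : ∀ n : ℕ, Cell r z0 hi i (y + 1 + n) → T i y < T i (y + 1 + n) := by
    intro n
    induction n with
    | zero =>
      intro hc
      simp only [Nat.cast_zero, add_zero] at hc ⊢
      exact row_lt hW hT h1 hc
    | succ n ih =>
      intro hc
      push_cast at hc ⊢
      have hc' : Cell r z0 hi i (y + 1 + n) :=
        ⟨h1.1, h1.2.1, by have := h1.2.2.1; omega, by have := hc.2.2.2; omega⟩
      have e : y + 1 + ((n : ℤ) + 1) = y + 1 + n + 1 := by ring
      rw [e] at hc ⊢
      exact lt_trans (ih hc') (row_lt hW hT hc' hc)
  have e : y' = y + 1 + ((y' - (y + 1)).toNat : ℤ) := by omega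
  rw [e]
  apply key
  rw [← e]
  exact h2

theorem fla_natAbs {i s x y : ℤ} : (flip i s T x y).natAbs = (T x y).natAbs := by
  unfold flip
  split_ifs <;> simp

theorem tab_flip (hW : Cls W) (hS : Shp r z0 hi) (hT : Tab W r hi T) {i : ℤ}
    (hF : Free r hi T i) : Tab W r hi (flip i (vcol hi T i) T) := by
  obtain ⟨i0, ir, hF⟩ := hF
  have hval := vcol_spec hW hS hT i0 ir
  set s := vcol hi T i with hs
  have hval' := hval
  obtain ⟨s0, sh, hleft, hright⟩ := hval
  have hsame : ∀ x y, ¬ (x = i ∧ y = s) → flip i s T x y = T x y := by
    intro x y h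
    unfold flip
    rw [if_neg h]
  have hnew : flip i s T i s = - T i s := by
    unfold flip
    rw [if_pos ⟨rfl, rfl⟩]
  have cs : Cell r z0 hi i s := ⟨i0, ir, s0, sh⟩
  have habs : (fun x y => (flip i s T x y).natAbs) = fun x y => (T x y).natAbs := by
    funext x y
    exact fla_natAbs
  refine ⟨?_, ?_, ?_, ?_, ?_⟩
  · intro x y hc
    have : ¬ (x = i ∧ y = s) := by
      rintro ⟨rfl, rfl⟩
      exact hc cs
    rw [hsame x y this]
    exact hT.off x y hc
  · rw [habs]; exact hT.w
  · intro x j c1 c2
    have hr := hT.row x j c1 c2
    by_cases h1 : x = i ∧ j = s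
    · obtain ⟨rfl, rfl⟩ := h1
      rw [hnew, hsame _ _ (by omega)]
      have := hright (s + 1) (by omega) c2.2.2.2
      rw [add_sub_cancel_right] at this
      omega
    · by_cases h2 : x = i ∧ j + 1 = s
      · obtain ⟨rfl, h2⟩ := h2
        rw [h2, hnew, hsame _ _ h1]
        have := hleft j c1.2.2.1 (by omega)
        rw [h2] at this
        omega
      · rw [hsame _ _ h1, hsame _ _ h2]; exact hr
  · intro x j c1 c2
    have hc := hT.col x j c1 c2
    by_cases h1 : x = i ∧ j = s
    · obtain ⟨rfl, rfl⟩ := h1
      rw [hnew, hsame _ _ (by omega)]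
      rcases hF with ⟨h, -⟩ | ⟨h, h5⟩
      · omega
      · have := c2.2.1
        have := c2.2.2.2
        omega
    · by_cases h2 : x + 1 = i ∧ j = s
      · obtain ⟨h2, rfl⟩ := h2
        have hx : x = i - 1 := by omega
        subst hx
        rw [hsame _ _ h1, h2, hnew]
        rw [h2] at hc
        rcases hF with ⟨h, h5⟩ | ⟨h, h5⟩
        · have := c1.1
          rcases h5 with h5 | h5
          · omega
          · exact h5
        · omega
      · rw [hsame _ _ h1, hsame _ _ h2]; exact hc
  · intro x j c1 c2 he
    simp only [fla_natAbs]
    have hcol := hT.col x j c1 c2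
    by_cases h1 : x = i ∧ j = s
    · obtain ⟨rfl, rfl⟩ := h1
      rw [hnew, hsame _ _ (by omega)] at he
      have hlt : T x s < 0 := by
        rcases hF with ⟨h, -⟩ | ⟨h, -⟩
        · omega
        · exact h
      obtain ⟨x', y', hc', hb', hv'⟩ := h1c (v := (T x s).natAbs) hW hT.w c2 c1
        (Or.inl (by omega)) (by omega) rfl (by
          intro x' y' hc' hb'
          obtain ⟨hb1, hb2⟩ := hb'
          unfold Bef at hb1 hb2
          rcases hb2 with hb2 | ⟨hb2, hb3⟩
          · rcases hb1 with hb1 | ⟨hb1, hb4⟩
            · omega
            · subst hb1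
              have := fla_mono hW hT c2 hc' hb4
              omega
          · subst hb2
            have := val_min hval' hc'.2.2.1 hc'.2.2.2 (by omega)
            omega)
      obtain ⟨hb1, hb2⟩ := hb'
      unfold Bef at hb1 hb2

      rcases hb2 with hb2 | ⟨hb2, hb3⟩
      · rcases hb1 with hb1 | ⟨hb1, hb4⟩
        · omega
        · subst hb1
          left
          have := fla_mono hW hT c2 hc' hb4
          exact ⟨y', hb4, hc', by omega⟩
      · subst hb2
        right
        have := val_min hval' hc'.2.2.1 hc'.2.2.2 (by omega)
        exact ⟨y', hb3, hc', by omega⟩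
    · by_cases h2 : x + 1 = i ∧ j = s
      · obtain ⟨h2, rfl⟩ := h2
        rw [hsame _ _ h1, h2, hnew] at he
        rw [h2] at hcol c2
        have hlt : 0 < T i s := by
          rcases hF with ⟨h, -⟩ | ⟨h, -⟩
          · exact h
          · omega
        rw [h2]
        obtain ⟨x', y', hc', hb', hv'⟩ := h1c (v := (T x s).natAbs) hW hT.w c2 c1
          (Or.inl (by omega)) (by omega) rfl (by
            intro x' y' hc' hb'
            obtain ⟨hb1, hb2⟩ := hb'
            unfold Bef at hb1 hb2
            rcases hb2 with hb2 | ⟨hb2, hb3⟩
            · rcases hb1 with hb1 | ⟨hb1, hb4⟩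
              · omega
              · subst hb1
                have := val_min hval' hc'.2.2.1 hc'.2.2.2 (by omega)
                omega
            · subst hb2
              have := fla_mono hW hT hc' c1 hb3
              omega)
        obtain ⟨hb1, hb2⟩ := hb'
        unfold Bef at hb1 hb2

        rcases hb2 with hb2 | ⟨hb2, hb3⟩
        · rcases hb1 with hb1 | ⟨hb1, hb4⟩
          · omega
          · subst hb1
            left
            have := val_min hval' hc'.2.2.1 hc'.2.2.2 (by omega)
            exact ⟨y', hb4, hc', by omega⟩
        · subst hb2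
          right
          have := fla_mono hW hT hc' c1 hb3
          exact ⟨y', hb3, hc', by omega⟩
      · rw [hsame _ _ h1, hsame _ _ h2] at he
        exact hT.eg x j c1 c2 he

end DST
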