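import Pool.Agent.DST.VAL

/-!
Module LE2 of project DST (MP_0f73d6_co).

lemma2: two adjacent rows cannot have the same least absolute value in the same column s.
-/

namespace DST

variable {W : List ℕ → Prop} {r : ℤ} {hi : ℤ → ℤ} {T : ℤ → ℤ → ℤ}

theorem lemma2 (hW : Cls W) (hS : Shp r z0 hi) (hT : Tab W r hi T) {i s : ℤ} (i0 : 0 ≤ i)
    (ir : i + 1 < r) (h : IsVal hi T i s) (h' : IsVal hi T (i + 1) s) :
    (T i s).natAbs ≠ (T (i + 1) s).natAbs := by
  intro hm
  have him := hS.him i i0 ir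
  have hs0 : (0 : ℤ) ≤ s := h.1
  have hs1 : s < hi i := h.2.1
  have hs2 : s < hi (i + 1) := h'.2.1
  have c1 : Cell r z0 hi (i + 1) s := ⟨by omega, ir, h'.1, h'.2.1⟩
  have c2 : Cell r z0 hi i s := ⟨i0, by omega, h.1, h.2.1⟩
  have hbig : ∀ x y, Cell r z0 hi x y → Btw (i + 1) s i s x y →
      (T i s).natAbs < (T x y).natAbs := by
    rintro x y ⟨hx0, hxr, hy0, hy1⟩ ⟨hb1, hb2⟩
    have hy0' : (0 : ℤ) ≤ y := hy0
    rcases hb1 with hb1 | ⟨hb1, hb3⟩
    · rcases hb2 with hb2 | ⟨hb2, hb4⟩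
      · omega
      · subst hb2
        exact val_min h hy0' hy1 (by omega)
    · subst hb1
      rw [hm]
      exact val_min h' hy0' hy1 (by omega)
  obtain ⟨⟨x, y, hc, hb, he⟩, -, h3⟩ := qc (a := fun x y => (T x y).natAbs) (v := (T i s).natAbs)
    hW hT.w c1 c2 (Or.inl (by omega)) hm.symm rfl
    (fun x y hc hb => (hbig x y hc hb).ne')
    (fun x y hc hb => by have := hbig x y hc hb; omega)
  have he' : (T x y).natAbs = (T i s).natAbs + 1 := he
  have key : ∀ j, Cell r z0 hi i j → Cell r z0 hi (i + 1) j →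
      (T i j).natAbs = (T i s).natAbs + 1 → T i j = T (i + 1) j → False := by
    intro j hj hj' hn heq
    rcases hT.eg i j hj hj' heq with ⟨k, -, hk, hk2⟩ | ⟨k, -, hk, hk2⟩
    · exact h3 _ _ hk (by change (T (i + 1) k).natAbs = _; omega)
    · exact h3 _ _ hk (by change (T i k).natAbs = _; omega)
  obtain ⟨hx0, hxr, hy0, hy1⟩ := hc
  have hy0' : (0 : ℤ) ≤ y := hy0
  obtain ⟨hb1, hb2⟩ := hb
  have hcase : (x = i + 1 ∧ s < y) ∨ (x = i ∧ y < s) := by
    rcases hb1 with hb1 | ⟨hb1, hb3⟩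
    · rcases hb2 with hb2 | ⟨hb2, hb4⟩
      · omega
      · exact Or.inr ⟨hb2.symm, hb4⟩
    · exact Or.inl ⟨hb1, hb3⟩
  rcases hcase with ⟨rfl, hsy⟩ | ⟨rfl, hys⟩
  · have hy : y = s + 1 := by
      by_contra hne
      have h1 := val_min h' (j := y - 1) (by omega) (by omega) (by omega)
      have h2 := (h'.2.2.2 y hsy hy1).2
      omega
    subst hy
    have hp := (h'.2.2.2 (s + 1) (by omega) hy1).1
    have hp2 := (h.2.2.2 (s + 1) (by omega) (by omega)).1
    have hmn := val_min h (j := s + 1) (by omega) (by omega) (by omega)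
    have cc1 : Cell r z0 hi i (s + 1) := ⟨i0, by omega, hy0, by omega⟩
    have cc2 : Cell r z0 hi (i + 1) (s + 1) := ⟨hx0, hxr, hy0, hy1⟩
    have hcol := hT.col i (s + 1) cc1 cc2
    have heq : T i (s + 1) = T (i + 1) (s + 1) := by omega
    exact key _ cc1 cc2 (by omega) heq
  · have hy : y = s - 1 := by
      by_contra hne
      have h1 := val_min h (j := y + 1) (by omega) (by omega) (by omega)
      have h2 := (h.2.2.1 y hy0' hys).2
      omega
    subst hy
    have hlt : s < hi (x + 1) := h'.2.1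
    have hp := (h.2.2.1 (s - 1) hy0' (by omega)).1
    have hp2 := (h'.2.2.1 (s - 1) hy0' (by omega)).1
    have hmn := val_min h' (j := s - 1) (by omega) (by omega) (by omega)
    have cc1 : Cell r z0 hi x (s - 1) := ⟨i0, by omega, hy0', by omega⟩
    have cc2 : Cell r z0 hi (x + 1) (s - 1) := ⟨by omega, ir, hy0', by omega⟩
    have hcol := hT.col x (s - 1) cc1 cc2
    have heq : T x (s - 1) = T (x + 1) (s - 1) := by omega
    exact key _ cc1 cc2 (by omega) heq

end DST
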