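import Pool.Agent.DST.VAL
import Pool.Agent.DST.LE2
import Pool.Agent.DST.FLA

/-!
Module FLB of project DST (MP_0f73d6_co).

flip_flip: immediate.  isval_flip: IsVal of a row i' only speaks of absolute values and of signs of entries
 different from the valley entry; so flipping the valley entry of row i keeps all valleys.
vcol_flip: from isval_flip (the two existence statements are equivalent and valleys are unique).
free_flip: if row i is free in T then row i' is free in T iff it is free in flip i (vcol) T.
 i' = i: both are free: for T by hypothesis; for the flipped array: if T i s = m > 0 and T (i-1) s ≤ -m (or i = 0), the new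
   value is -m and the entry below (if a cell) is ≥ T i s = m.  If T i s = -m, the new value m, the entry above is ≤ -m.
 i' not adjacent to i: the entries in Free i' are unchanged.
 i' = i+1 (s' = vcol of row i+1): only matters if s' = s (otherwise T i s' is unchanged).  Let s' = s, m = |T i s|,
   m' = |T (i+1) s|, m ≠ m' by lemma2.  The entry of row i+1 is not changed by the flip.
   If m < m': T i s ≤ T (i+1) s implies T (i+1) s = m' > 0 (it is not -m' < -m ≤ T i s), and it is not free: i' ≠ 0 and
   T i s ≤ -m' is false; the same in the flipped array (± m > -m').  So both sides are false.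
   If m > m': T i s ≤ T (i+1) s ≤ m' < m so T i s = -m; but row i free then needs T (i+1) s ≥ m (s is a column of row
   i+1, i+1 < r): contradiction.  So this case does not occur.
 i' = i-1 (i ≥ 1): symmetric: s' = s, m' = |T (i-1) s|.  If m < m': T (i-1) s ≤ T i s gives T (i-1) s = -m', not free in both
   arrays since the entry below is ±m < m'.  If m > m': T i s ≥ T (i-1) s ≥ -m' > -m so T i s = m, free needs T (i-1) s ≤
   -m: contradiction.
-/

namespace DST

variable {W : List ℕ → Prop} {r : ℤ} {hi : ℤ → ℤ} {T : ℤ → ℤ → ℤ}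

theorem flb_ne {i s x y : ℤ} (h : ¬ (x = i ∧ y = s)) : flip i s T x y = T x y := by
  unfold flip
  rw [if_neg h]

theorem flb_eq {i s : ℤ} : flip i s T i s = - T i s := by
  unfold flip
  rw [if_pos ⟨rfl, rfl⟩]

theorem flb_abs {i s x y : ℤ} : (flip i s T x y).natAbs = (T x y).natAbs := by
  unfold flip
  split_ifs
  · rw [Int.natAbs_neg]
  · rfl

theorem flip_flip {i s : ℤ} : flip i s (flip i s T) = T := by
  funext x y
  by_cases h : x = i ∧ y = s
  · obtain ⟨rfl, rfl⟩ := h
    rw [flb_eq, flb_eq, neg_neg]
  · rw [flb_ne h, flb_ne h]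

theorem flb_uniq {T' : ℤ → ℤ → ℤ} {i s s' : ℤ} (ha : ∀ y, (T' i y).natAbs = (T i y).natAbs)
    (hs : IsVal hi T i s) (hs' : IsVal hi T' i s') : s = s' := by
  obtain ⟨a1, a2, a3, a4⟩ := hs
  obtain ⟨b1, b2, b3, b4⟩ := hs'
  rcases lt_trichotomy s s' with h | h | h
  · exfalso
    have h1 := (b3 s a1 h).2
    have h2 := (a4 (s + 1) (by omega) (by omega)).2
    rw [ha, ha] at h1
    rw [show s + 1 - 1 = s by ring] at h2
    omega
  · exact h
  · exfalso
    have h1 := (a3 s' b1 h).2
    have h2 := (b4 (s' + 1) (by omega) (by omega)).2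
    rw [ha, ha] at h2
    rw [show s' + 1 - 1 = s' by ring] at h2
    omega

theorem isval_flip {i i' s s' : ℤ} (hs : IsVal hi T i s) :
    IsVal hi (flip i s T) i' s' ↔ IsVal hi T i' s' := by
  by_cases hi' : i' = i
  · subst hi'
    constructor
    · intro h
      obtain rfl := flb_uniq (T' := flip i' s T) (fun y => flb_abs) hs h
      exact hs
    · intro h
      obtain rfl := flb_uniq (T' := T) (fun y => rfl) hs h
      obtain ⟨a1, a2, a3, a4⟩ := hs
      refine ⟨a1, a2, fun j h0 h1 => ?_, fun j h0 h1 => ?_⟩
      · rw [flb_abs, flb_abs, flb_ne (by omega)]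
        exact a3 j h0 h1
      · rw [flb_abs, flb_abs, flb_ne (by omega)]
        exact a4 j h0 h1
  · unfold IsVal
    have : ∀ y, flip i s T i' y = T i' y := fun y => flb_ne (by omega)
    simp only [this]

theorem vcol_flip {i i' s : ℤ} (hs : IsVal hi T i s) :
    vcol hi (flip i s T) i' = vcol hi T i' := by
  by_cases h : ∃ s', IsVal hi T i' s'
  · obtain ⟨s', h'⟩ := h
    rw [vcol_eq h', vcol_eq ((isval_flip hs).2 h')]
  · unfold vcol
    rw [dif_neg h, dif_neg (by rintro ⟨s', h'⟩; exact h ⟨s', (isval_flip hs).1 h'⟩)]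

theorem free_flip (hW : Cls W) (hS : Shp r z0 hi) (hT : Tab W r hi T) {i i' : ℤ}
    (hF : Free r hi T i) :
    Free r hi (flip i (vcol hi T i) T) i' ↔ Free r hi T i' := by
  have i0 := hF.1
  have ir := hF.2.1
  have hF2 := hF.2.2
  have hs := vcol_spec hW hS hT i0 ir
  set s := vcol hi T i with hsd
  by_cases hr : 0 ≤ i' ∧ i' < r
  swap
  · constructor
    · intro h
      exact absurd ⟨h.1, h.2.1⟩ hr
    · intro h
      exact absurd ⟨h.1, h.2.1⟩ hr
  obtain ⟨i0', ir'⟩ := hr
  have hs' := vcol_spec hW hS hT i0' ir'
  unfold Free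
  rw [vcol_flip hs]
  by_cases h1 : i' = i
  · subst h1
    rw [← hsd, flb_eq, flb_ne (x := i' - 1) (by omega), flb_ne (x := i' + 1) (by omega), neg_neg]
    have c1 : Cell r z0 hi i' s := ⟨i0, ir, hs.1, hs.2.1⟩
    have hd : i' + 1 < r → s < hi (i' + 1) → T i' s ≤ T (i' + 1) s := fun h2 h3 =>
      hT.col i' s c1 ⟨by omega, h2, hs.1, h3⟩
    have hu : 0 < i' → T (i' - 1) s ≤ T i' s := by
      intro h2
      have h3 := hS.him (i' - 1) (by omega) (by omega)
      rw [show i' - 1 + 1 = i' by ring] at h3
      have h4 := hT.col (i' - 1) s ⟨by omega, by omega, hs.1, lt_of_lt_of_le hs.2.1 h3⟩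
        (by rw [show i' - 1 + 1 = i' by ring]; exact c1)
      rw [show i' - 1 + 1 = i' by ring] at h4
      exact h4
    constructor
    · intro _
      exact hF
    · intro _
      refine ⟨i0, ir, ?_⟩
      rcases hF2 with h2 | h2
      · right
        refine ⟨by omega, ?_⟩
        by_cases h3 : hi (i' + 1) ≤ s
        · exact Or.inl h3
        · by_cases h4 : i' + 1 = r
          · exact Or.inr (Or.inl h4)
          · exact Or.inr (Or.inr (hd (by omega) (by omega)))
      · left
        refine ⟨by omega, ?_⟩
        by_cases h4 : i' = 0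
        · exact Or.inl h4
        · exact Or.inr (hu (by omega))
  · set s' := vcol hi T i' with hsd'
    clear_value s s'
    rw [flb_ne (x := i') (by omega)]
    by_cases h2 : i' = i + 1 ∧ s' = s
    · obtain ⟨h2, h3⟩ := h2
      subst h2 h3
      have hl := lemma2 hW hS hT i0 ir' hs hs'
      have hc := hT.col i s' ⟨i0, ir, hs.1, hs.2.1⟩ ⟨i0', ir', hs'.1, hs'.2.1⟩
      have hh := hs'.2.1
      rw [show i + 1 - 1 = i by ring, flb_eq, flb_ne (x := i + 1 + 1) (by omega)]
      constructor
      · rintro ⟨_, _, h4⟩
        refine ⟨i0', ir', ?_⟩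
        rcases h4 with h4 | h4
        · exfalso
          omega
        · exact Or.inr h4
      · rintro ⟨_, _, h4⟩
        refine ⟨i0', ir', ?_⟩
        rcases h4 with h4 | h4
        · exfalso
          omega
        · exact Or.inr h4
    · rw [flb_ne (x := i' - 1) (by omega)]
      by_cases h5 : i' + 1 = i ∧ s' = s
      · obtain ⟨h5, h3⟩ := h5
        obtain rfl : i = i' + 1 := h5.symm
        subst h3
        have hl := lemma2 hW hS hT i0' ir hs' hs
        have hc := hT.col i' s' ⟨i0', ir', hs'.1, hs'.2.1⟩ ⟨i0, ir, hs.1, hs.2.1⟩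
        have hh := hs.2.1
        rw [show i' + 1 - 1 = i' by ring] at hF2
        rw [flb_eq]
        constructor
        · rintro ⟨_, _, h4⟩
          refine ⟨i0', ir', ?_⟩
          rcases h4 with h4 | h4
          · exact Or.inl h4
          · exfalso
            omega
        · rintro ⟨_, _, h4⟩
          refine ⟨i0', ir', ?_⟩
          rcases h4 with h4 | h4
          · exact Or.inl h4
          · exfalso
            omega
      · rw [flb_ne (x := i' + 1) (by omega)]

end DST
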