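import Pool.Agent.DST.FLB
import Pool.Agent.DST.FIN

/-!
Module FLC of project DST (MP_0f73d6_co).

bars_flip: flipping the nonzero entry of one cell changes bars by exactly one.
sum_free: the sum of (-1)^bars over all signed tableaux equals the sum over those without a free row.
 Involution on {T | Tab ∧ ∃ i, Free i}: flip the free row with the least index (free rows are in 0 ≤ i < r; the set of
 free rows is unchanged by free_flip, the valley column too).  The sum over this set is equal to its negative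
 (finsum_mem over the bijection), so 0.  The full (finite) set is the disjoint union.
-/

namespace DST

variable {W : List ℕ → Prop} {r : ℤ} {hi : ℤ → ℤ} {T : ℤ → ℤ → ℤ}

private theorem flc_row {i s : ℤ} (s0 : 0 ≤ s) (s1 : s < hi i) (h0 : T i s ≠ 0) :
    (T i s < 0 → ((Finset.Ico 0 (hi i)).filter fun j => flip i s T i j < 0).card + 1 =
      ((Finset.Ico 0 (hi i)).filter fun j => T i j < 0).card) ∧
    (0 < T i s → ((Finset.Ico 0 (hi i)).filter fun j => flip i s T i j < 0).card =
      ((Finset.Ico 0 (hi i)).filter fun j => T i j < 0).card + 1) := by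
  constructor
  · intro h
    have e : ((Finset.Ico 0 (hi i)).filter fun j => flip i s T i j < 0) =
        ((Finset.Ico 0 (hi i)).filter fun j => T i j < 0).erase s := by
      ext j
      simp only [Finset.mem_filter, Finset.mem_Ico, Finset.mem_erase, flip]
      by_cases hj : j = s
      · subst hj
        simp only [and_self, if_true]
        omega
      · simp only [hj, and_false, if_false]
        tauto
    rw [e]
    apply Finset.card_erase_add_one
    simp only [Finset.mem_filter, Finset.mem_Ico]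
    exact ⟨⟨s0, s1⟩, h⟩
  · intro h
    have e : ((Finset.Ico 0 (hi i)).filter fun j => flip i s T i j < 0) =
        insert s ((Finset.Ico 0 (hi i)).filter fun j => T i j < 0) := by
      ext j
      simp only [Finset.mem_filter, Finset.mem_Ico, Finset.mem_insert, flip]
      by_cases hj : j = s
      · subst hj
        simp only [and_self, if_true, true_or, iff_true]
        omega
      · simp only [hj, and_false, if_false]
        tauto
    rw [e]
    apply Finset.card_insert_of_notMem
    simp only [Finset.mem_filter, Finset.mem_Ico]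
    omega

theorem bars_flip {i s : ℤ} (hc : Cell r z0 hi i s) (h0 : T i s ≠ 0) :
    (-1 : ℤ) ^ bars r hi (flip i s T) = - (-1 : ℤ) ^ bars r hi T := by
  obtain ⟨i0, ir, s0, s1⟩ := hc
  rw [z0] at s0
  have hi' : i ∈ Finset.Ico 0 r := Finset.mem_Ico.mpr ⟨i0, ir⟩
  have e1 : bars r hi (flip i s T) = ((Finset.Ico 0 (hi i)).filter fun j => flip i s T i j < 0).card +
      ∑ i' ∈ (Finset.Ico 0 r).erase i, ((Finset.Ico 0 (hi i')).filter fun j => T i' j < 0).card := by
    rw [bars, ← Finset.add_sum_erase _ _ hi']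
    congr 1
    refine Finset.sum_congr rfl fun i' h' => ?_
    have hne : i' ≠ i := (Finset.mem_erase.mp h').1
    congr 1
    refine Finset.filter_congr fun j _ => ?_
    simp only [flip, hne, false_and, if_false]
  have e2 : bars r hi T = ((Finset.Ico 0 (hi i)).filter fun j => T i j < 0).card +
      ∑ i' ∈ (Finset.Ico 0 r).erase i, ((Finset.Ico 0 (hi i')).filter fun j => T i' j < 0).card := by
    rw [bars, ← Finset.add_sum_erase _ _ hi']
  obtain ⟨h1, h2⟩ := flc_row s0 s1 h0
  rcases lt_or_gt_of_ne h0 with hn | hp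
  · have e3 : bars r hi T = bars r hi (flip i s T) + 1 := by
      rw [e1, e2, ← h1 hn]; omega
    rw [e3, pow_succ]; ring
  · have e3 : bars r hi (flip i s T) = bars r hi T + 1 := by
      rw [e1, e2, h2 hp]; omega
    rw [e3, pow_succ]; ring

open Classical in
/-- the least free row -/
private noncomputable def mrow (r : ℤ) (hi : ℤ → ℤ) (T : ℤ → ℤ → ℤ) : ℕ :=
  if h : ∃ n : ℕ, Free r hi T n then Nat.find h else 0

private theorem mrow_free (h : ∃ i, Free r hi T i) : Free r hi T (mrow r hi T) := by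
  classical
  have h' : ∃ n : ℕ, Free r hi T n := by
    obtain ⟨i, hF⟩ := h
    obtain ⟨n, hn⟩ := Int.eq_ofNat_of_zero_le hF.1
    exact ⟨n, by rwa [← hn]⟩
  rw [mrow, dif_pos h']
  exact Nat.find_spec h'

private theorem mrow_congr {T T' : ℤ → ℤ → ℤ} (h : ∀ i, Free r hi T i ↔ Free r hi T' i) :
    mrow r hi T = mrow r hi T' := by
  classical
  by_cases h1 : ∃ n : ℕ, Free r hi T n
  · have h2 : ∃ n : ℕ, Free r hi T' n := by
      obtain ⟨n, hn⟩ := h1
      exact ⟨n, (h n).mp hn⟩
    rw [mrow, mrow, dif_pos h1, dif_pos h2]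
    apply le_antisymm
    · exact Nat.find_min' h1 ((h _).mpr (Nat.find_spec h2))
    · exact Nat.find_min' h2 ((h _).mp (Nat.find_spec h1))
  · have h2 : ¬ ∃ n : ℕ, Free r hi T' n := by
      rintro ⟨n, hn⟩
      exact h1 ⟨n, (h n).mpr hn⟩
    rw [mrow, mrow, dif_neg h1, dif_neg h2]

/-- the involution -/
private noncomputable def finv (r : ℤ) (hi : ℤ → ℤ) (T : ℤ → ℤ → ℤ) : ℤ → ℤ → ℤ :=
  flip (mrow r hi T) (vcol hi T (mrow r hi T)) T

private theorem finv_free (hW : Cls W) (hS : Shp r z0 hi) (hT : Tab W r hi T)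
    (h : ∃ i, Free r hi T i) (i : ℤ) : Free r hi (finv r hi T) i ↔ Free r hi T i :=
  free_flip hW hS hT (mrow_free h)

private theorem finv_finv (hW : Cls W) (hS : Shp r z0 hi) (hT : Tab W r hi T)
    (h : ∃ i, Free r hi T i) : finv r hi (finv r hi T) = T := by
  have hF := mrow_free h
  have h1 : mrow r hi (finv r hi T) = mrow r hi T := mrow_congr (finv_free hW hS hT h)
  have h2 : vcol hi (finv r hi T) (mrow r hi T) = vcol hi T (mrow r hi T) :=
    vcol_flip (vcol_spec hW hS hT hF.1 hF.2.1)
  rw [finv, h1, h2, finv, flip_flip]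

theorem sum_free (hW : Cls W) (hfin : {w | W w}.Finite) (hS : Shp r z0 hi) :
    ∑ᶠ T ∈ {T | Tab W r hi T}, (-1 : ℤ) ^ bars r hi T =
      ∑ᶠ T ∈ {T | Tab W r hi T ∧ ∀ i, ¬ Free r hi T i}, (-1 : ℤ) ^ bars r hi T := by
  classical
  have hf := tset_finite (r := r) (hi := hi) hfin
  set A := {T | Tab W r hi T ∧ ∃ i, Free r hi T i} with hA
  set B := {T | Tab W r hi T ∧ ∀ i, ¬ Free r hi T i} with hB
  have hfA : A.Finite := hf.subset fun T hT => hT.1
  have hfB : B.Finite := hf.subset fun T hT => hT.1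
  have hU : {T | Tab W r hi T} = A ∪ B := by
    ext T
    simp only [hA, hB, Set.mem_union, Set.mem_setOf_eq]
    constructor
    · intro h
      by_cases h1 : ∃ i, Free r hi T i
      · exact Or.inl ⟨h, h1⟩
      · exact Or.inr ⟨h, fun i hi => h1 ⟨i, hi⟩⟩
    · rintro (h | h) <;> exact h.1
  have hd : Disjoint A B := by
    rw [Set.disjoint_left]
    rintro T ⟨-, i, hi⟩ ⟨-, h2⟩
    exact h2 i hi
  rw [hU, finsum_mem_union hd hfA hfB, finsum_mem_eq_finite_toFinset_sum _ hfA]
  have h0 : ∑ T ∈ hfA.toFinset, (-1 : ℤ) ^ bars r hi T = 0 := by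
    have key : ∀ T ∈ hfA.toFinset, (-1 : ℤ) ^ bars r hi T + (-1 : ℤ) ^ bars r hi (finv r hi T) = 0 := by
      intro T hT
      obtain ⟨hT1, hT2⟩ : T ∈ A := hfA.mem_toFinset.mp hT
      have hF := mrow_free hT2
      have hv := vcol_spec hW hS hT1 hF.1 hF.2.1
      have hc : Cell r z0 hi (mrow r hi T) (vcol hi T (mrow r hi T)) :=
        ⟨hF.1, hF.2.1, hv.1, hv.2.1⟩
      have hne : T (mrow r hi T) (vcol hi T (mrow r hi T)) ≠ 0 := by
        rcases hF.2.2 with h | h
        · exact h.1.ne'
        · exact h.1.ne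
      rw [finv, bars_flip hc hne, add_neg_cancel]
    refine Finset.sum_involution (fun T _ => finv r hi T) key ?_ ?_ ?_
    · intro T hT _ heq
      have h1 := key T hT
      rw [heq] at h1
      have h2 : ((-1 : ℤ)) ^ bars r hi T ≠ 0 := pow_ne_zero _ (by norm_num)
      omega
    · intro T hT
      obtain ⟨hT1, hT2⟩ : T ∈ A := hfA.mem_toFinset.mp hT
      rw [hfA.mem_toFinset]
      refine ⟨tab_flip hW hS hT1 (mrow_free hT2), ?_⟩
      obtain ⟨i, hi⟩ := hT2
      exact ⟨i, (finv_free hW hS hT1 ⟨i, hi⟩ i).mpr hi⟩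
    · intro T hT
      obtain ⟨hT1, hT2⟩ : T ∈ A := hfA.mem_toFinset.mp hT
      exact finv_finv hW hS hT1 hT2
  rw [h0, zero_add]

end DST
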