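import Pool.Agent.DST.GRP

/-!
Module GEN of project DST (MP_0f73d6_co): every signed permutation of 1, …, n+1 has a reduced word.
-/

namespace DST

theorem gen_apply (i : ℕ) (x : ℤ) : gen i x = sFun i x := rfl

theorem signed_zero {n : ℕ} {ω : Equiv.Perm ℤ} (h : IsSigned n ω) : ω 0 = 0 := by
  have := h.1 0
  simp at this
  omega

theorem signed_range {n : ℕ} {ω : Equiv.Perm ℤ} (h : IsSigned n ω) {x : ℤ} (h1 : 1 ≤ x)
    (h2 : x ≤ n + 1) : ω x ≤ n + 1 ∧ -(n + 1 : ℤ) ≤ ω x ∧ ω x ≠ 0 := by
  have h0 : ω x ≠ 0 := by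
    intro h0
    have := ω.injective (h0.trans (signed_zero h).symm)
    omega
  have hb : ¬ ((n : ℤ) + 1 < |ω x|) := by
    intro hb
    have h3 := h.2 _ hb
    have h4 := ω.injective h3
    rw [h4, abs_of_pos (by omega)] at hb
    omega
  rw [not_lt, abs_le] at hb
  exact ⟨hb.2, hb.1, h0⟩

theorem gen_signed {n i : ℕ} (hi : i ≤ n) : IsSigned n (gen i) := by
  constructor
  · intro x
    rw [gen_apply, gen_apply]
    rcases Nat.eq_zero_or_pos i with rfl | hp
    · simp only [sFun, if_true]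
      split_ifs <;> omega
    · have h0 : i ≠ 0 := by omega
      simp only [sFun, h0, if_false]
      split_ifs <;> omega
  · intro x hx
    rw [gen_apply]
    have hx' : (n : ℤ) + 1 < x ∨ x < -((n : ℤ) + 1) := by
      rcases le_or_gt 0 x with h | h
      · rw [abs_of_nonneg h] at hx; left; exact hx
      · rw [abs_of_neg h] at hx; right; omega
    rcases Nat.eq_zero_or_pos i with rfl | hp
    · simp only [sFun, if_true]
      split_ifs <;> omega
    · have h0 : i ≠ 0 := by omega
      simp only [sFun, h0, if_false]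
      split_ifs <;> omega

theorem signed_mul {n : ℕ} {ω τ : Equiv.Perm ℤ} (h : IsSigned n ω) (h' : IsSigned n τ) :
    IsSigned n (ω * τ) := by
  constructor
  · intro x
    rw [Equiv.Perm.mul_apply, Equiv.Perm.mul_apply, h'.1, h.1]
  · intro x hx
    rw [Equiv.Perm.mul_apply, h'.2 x hx, h.2 x hx]

/-- Measure for the sorting argument. -/
noncomputable def genM (n : ℕ) (ω : Equiv.Perm ℤ) : ℤ := ∑ i ∈ Finset.range (n + 1), ((i : ℤ) + 1) * ω ((i : ℤ) + 1)

theorem genM_le {n : ℕ} {ω : Equiv.Perm ℤ} (h : IsSigned n ω) :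
    genM n ω ≤ ∑ i ∈ Finset.range (n + 1), ((i : ℤ) + 1) * ((n : ℤ) + 1) := by
  apply Finset.sum_le_sum
  intro i hi
  rw [Finset.mem_range] at hi
  have := (signed_range h (x := (i : ℤ) + 1) (by omega) (by omega)).1
  exact mul_le_mul_of_nonneg_left this (by omega)

theorem genM_zero {n : ℕ} {ω : Equiv.Perm ℤ} (h : IsSigned n ω) (hneg : ω 1 < 0) :
    genM n ω < genM n (ω * gen 0) := by
  unfold genM
  apply Finset.sum_lt_sum
  · intro i _
    rw [Equiv.Perm.mul_apply, gen_apply]
    rcases Nat.eq_zero_or_pos i with rfl | hp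
    · simp only [sFun, if_true, Nat.cast_zero, zero_add]
      rw [h.1 1]; omega
    · have h1 : (i : ℤ) + 1 ≠ 1 := by omega
      have h2 : (i : ℤ) + 1 ≠ -1 := by omega
      simp [sFun, h1, h2]
  · refine ⟨0, by simp, ?_⟩
    rw [Equiv.Perm.mul_apply, gen_apply]
    simp only [sFun, if_true, Nat.cast_zero, zero_add]
    rw [h.1 1]; omega

theorem genM_succ {n i : ℕ} {ω : Equiv.Perm ℤ} (hi : 1 ≤ i) (hn : i ≤ n)
    (hd : ω ((i : ℤ) + 1) < ω i) : genM n ω < genM n (ω * gen i) := by
  unfold genM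
  obtain ⟨m, rfl⟩ : ∃ m, i = m + 1 := ⟨i - 1, by omega⟩
  have key : ∀ (τ : Equiv.Perm ℤ), ∑ t ∈ Finset.range (n + 1), ((t : ℤ) + 1) * τ ((t : ℤ) + 1) =
      (∑ t ∈ (Finset.range (n + 1) \ {m, m + 1}), ((t : ℤ) + 1) * τ ((t : ℤ) + 1)) +
      (((m : ℤ) + 1) * τ ((m : ℤ) + 1) + ((m : ℤ) + 2) * τ ((m : ℤ) + 2)) := by
    intro τ
    have hsub : ({m, m + 1} : Finset ℕ) ⊆ Finset.range (n + 1) := by
      intro t ht
      simp only [Finset.mem_insert, Finset.mem_singleton] at ht
      rw [Finset.mem_range]; omega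
    rw [← Finset.sum_sdiff hsub, Finset.sum_pair (by omega)]
    push_cast
    ring_nf
  rw [key, key]
  have hrest : ∑ t ∈ (Finset.range (n + 1) \ {m, m + 1}), ((t : ℤ) + 1) * (ω * gen (m + 1)) ((t : ℤ) + 1) =
      ∑ t ∈ (Finset.range (n + 1) \ {m, m + 1}), ((t : ℤ) + 1) * ω ((t : ℤ) + 1) := by
    apply Finset.sum_congr rfl
    intro t ht
    simp only [Finset.mem_sdiff, Finset.mem_range, Finset.mem_insert, Finset.mem_singleton,
      not_or] at ht
    rw [Equiv.Perm.mul_apply, gen_apply]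
    have e : sFun (m + 1) ((t : ℤ) + 1) = (t : ℤ) + 1 := by
      simp only [sFun, Nat.succ_ne_zero, if_false]
      push_cast
      split_ifs <;> omega
    rw [e]
  have e1 : (ω * gen (m + 1)) ((m : ℤ) + 1) = ω ((m : ℤ) + 2) := by
    rw [Equiv.Perm.mul_apply, gen_apply]
    have e : sFun (m + 1) ((m : ℤ) + 1) = (m : ℤ) + 2 := by
      simp only [sFun, Nat.succ_ne_zero, if_false]
      push_cast
      split_ifs <;> omega
    rw [e]
  have e2 : (ω * gen (m + 1)) ((m : ℤ) + 2) = ω ((m : ℤ) + 1) := by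
    rw [Equiv.Perm.mul_apply, gen_apply]
    have e : sFun (m + 1) ((m : ℤ) + 2) = (m : ℤ) + 1 := by
      simp only [sFun, Nat.succ_ne_zero, if_false]
      push_cast
      split_ifs <;> omega
    rw [e]
  rw [hrest, e1, e2]
  push_cast at hd
  have hd' : ω ((m : ℤ) + 2) < ω ((m : ℤ) + 1) := by
    have : (m : ℤ) + 1 + 1 = m + 2 := by ring
    rw [this] at hd
    exact hd
  nlinarith

theorem signed_id {n : ℕ} {ω : Equiv.Perm ℤ} (h : IsSigned n ω) (h1 : 0 < ω 1)
    (hinc : ∀ i : ℕ, 1 ≤ i → i ≤ n → ω i < ω ((i : ℤ) + 1)) : ω = 1 := by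
  have up : ∀ i : ℕ, i ≤ n → ((i : ℤ) + 1) ≤ ω ((i : ℤ) + 1) := by
    intro i
    induction i with
    | zero => intro _; simp; omega
    | succ m ih =>
      intro hm
      have := ih (by omega)
      have h2 := hinc (m + 1) (by omega) hm
      push_cast at h2 ⊢
      omega
  have dn : ∀ i : ℕ, i ≤ n → ω ((n : ℤ) + 1 - i) ≤ (n : ℤ) + 1 - i := by
    intro i
    induction i with
    | zero =>
      intro _
      have := (signed_range h (x := (n : ℤ) + 1) (by omega) le_rfl).1
      simpa using this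
    | succ m ih =>
      intro hm
      have h3 := ih (by omega)
      have h2 := hinc (n - m) (by omega) (by omega)
      have e1 : ((n - m : ℕ) : ℤ) = (n : ℤ) + 1 - ((m + 1 : ℕ) : ℤ) := by push_cast; omega
      have e2 : ((n - m : ℕ) : ℤ) + 1 = (n : ℤ) + 1 - (m : ℤ) := by omega
      rw [e2, e1] at h2
      push_cast at h2 ⊢
      omega
  have pos : ∀ x : ℤ, 1 ≤ x → x ≤ n + 1 → ω x = x := by
    intro x hx1 hx2
    have a1 := up (x - 1).toNat (by omega)
    have a2 := dn ((n : ℤ) + 1 - x).toNat (by omega)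
    have e1 : (((x - 1).toNat : ℕ) : ℤ) + 1 = x := by omega
    have e2 : (n : ℤ) + 1 - (((n : ℤ) + 1 - x).toNat : ℤ) = x := by omega
    rw [e1] at a1
    rw [e2] at a2
    omega
  ext x
  change ω x = x
  rcases lt_trichotomy x 0 with hx | hx | hx
  · rcases le_or_gt (-x) (n + 1) with h2 | h2
    · have := pos (-x) (by omega) h2
      rw [h.1 x] at this
      omega
    · exact h.2 x (by rw [abs_of_neg hx]; omega)
  · rw [hx]; exact signed_zero h
  · rcases le_or_gt x (n + 1) with h2 | h2
    · exact pos x (by omega) h2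
    · exact h.2 x (by rw [abs_of_pos hx]; omega)

theorem exists_word {n : ℕ} (N : ℕ) : ∀ ω : Equiv.Perm ℤ, IsSigned n ω →
    (∑ i ∈ Finset.range (n + 1), ((i : ℤ) + 1) * ((n : ℤ) + 1)) - genM n ω ≤ N →
    ∃ w : List ℕ, (∀ a ∈ w, a ≤ n) ∧ (w.map gen).prod = ω := by
  induction N with
  | zero =>
    intro ω h hN
    by_cases hd : ω 1 < 0
    · have h1 := genM_zero h hd
      have h2 := genM_le (signed_mul h (gen_signed (Nat.zero_le n)))
      simp at hN
      omega
    · by_cases hd2 : ∃ i : ℕ, 1 ≤ i ∧ i ≤ n ∧ ω ((i : ℤ) + 1) < ω i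
      · obtain ⟨i, h1, h2, h3⟩ := hd2
        have h4 := genM_succ h1 h2 h3
        have h5 := genM_le (signed_mul h (gen_signed h2))
        simp at hN
        omega
      · refine ⟨[], by simp, ?_⟩
        rw [List.map_nil, List.prod_nil]
        refine (signed_id h ?_ ?_).symm
        · have := (signed_range h (x := 1) le_rfl (by omega)).2.2
          omega
        · intro i h1 h2
          by_contra h3
          apply hd2
          refine ⟨i, h1, h2, ?_⟩
          have hne : ω ((i : ℤ) + 1) ≠ ω i := fun he => by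
            have := ω.injective he
            omega
          omega
  | succ N ih =>
    intro ω h hN
    push_cast at hN
    by_cases hd : ω 1 < 0
    · have h1 := genM_zero h hd
      obtain ⟨w, hw1, hw2⟩ := ih _ (signed_mul h (gen_signed (Nat.zero_le n))) (by omega)
      refine ⟨w ++ [0], ?_, ?_⟩
      · intro a ha
        rw [List.mem_append, List.mem_singleton] at ha
        rcases ha with ha | rfl
        · exact hw1 a ha
        · exact Nat.zero_le n
      · rw [List.map_append, List.prod_append, hw2]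
        simp [mul_assoc, gen_sq]
    · by_cases hd2 : ∃ i : ℕ, 1 ≤ i ∧ i ≤ n ∧ ω ((i : ℤ) + 1) < ω i
      · obtain ⟨i, h1, h2, h3⟩ := hd2
        have h4 := genM_succ h1 h2 h3
        obtain ⟨w, hw1, hw2⟩ := ih _ (signed_mul h (gen_signed h2)) (by omega)
        refine ⟨w ++ [i], ?_, ?_⟩
        · intro a ha
          rw [List.mem_append, List.mem_singleton] at ha
          rcases ha with ha | rfl
          · exact hw1 a ha
          · exact h2
        · rw [List.map_append, List.prod_append, hw2]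
          simp [mul_assoc, gen_sq]
      · refine ⟨[], by simp, ?_⟩
        rw [List.map_nil, List.prod_nil]
        refine (signed_id h ?_ ?_).symm
        · have := (signed_range h (x := 1) le_rfl (by omega)).2.2
          omega
        · intro i h1 h2
          by_contra h3
          apply hd2
          refine ⟨i, h1, h2, ?_⟩
          have hne : ω ((i : ℤ) + 1) ≠ ω i := fun he => by
            have := ω.injective he
            omega
          omega

theorem red_nonempty {n : ℕ} {ω : Equiv.Perm ℤ} (h : IsSigned n ω) : (Red n ω).Nonempty := by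
  classical
  obtain ⟨w, hw1, hw2⟩ := exists_word
    ((∑ i ∈ Finset.range (n + 1), ((i : ℤ) + 1) * ((n : ℤ) + 1)) - genM n ω).toNat ω h (by omega)
  have hex : ∃ l : ℕ, ∃ w : List ℕ, w.length = l ∧ (∀ a ∈ w, a ≤ n) ∧ (w.map gen).prod = ω :=
    ⟨w.length, w, rfl, hw1, hw2⟩
  obtain ⟨v, hv1, hv2, hv3⟩ := Nat.find_spec hex
  refine ⟨v, hv2, hv3, ?_⟩
  intro u hu1 hu2
  rw [hv1]
  exact Nat.find_min' hex ⟨u, rfl, hu1, hu2⟩

end DST
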