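import Pool.Agent.DST.Core
import Pool.Agent.DST.Defs

/-!
Module GRP of project DST (MP_0f73d6_co).

The set Red n ω satisfies Cls if ω is unknotted and its reduced words contain 0 at most once.
gen_comm: gen a * gen b = gen b * gen a for a + 2 ≤ b (Equiv.ext; cases on the position of x; omega).
gen_braid: gen a * gen (a+1) * gen a = gen (a+1) * gen a * gen (a+1) for a ≥ 1.  gen_sq: gen a * gen a = 1.
comm, braid: same length, same product, letters ≤ n.  nodup: deleting a a gives a shorter word with the same
product.  knot: p ++ [a,a+1,a] ++ q: Unknotted gives a+2 not in the word.  zero: hypothesis.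
red_finite: words of bounded length (all reduced words have the same length) in letters ≤ n.
-/

namespace DST

theorem gen_sq (a : ℕ) : gen a * gen a = 1 := by
  ext x
  exact sFun_invol a x

private theorem grp_apply (a : ℕ) (x : ℤ) : gen a x = sFun a x := rfl

private theorem grp_fix (a : ℕ) (x : ℤ) (h1 : x.natAbs ≠ a) (h2 : x.natAbs ≠ a + 1) :
    sFun a x = x := by
  simp only [sFun]
  split_ifs <;> omega

private theorem grp_le (a : ℕ) (x : ℤ) (h : x.natAbs ≤ a + 1) : (sFun a x).natAbs ≤ a + 1 := by
  simp only [sFun]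
  split_ifs <;> omega

private theorem grp_mem (b : ℕ) (hb : 1 ≤ b) (x : ℤ) (h : x.natAbs = b ∨ x.natAbs = b + 1) :
    (sFun b x).natAbs = b ∨ (sFun b x).natAbs = b + 1 := by
  simp only [sFun]
  split_ifs <;> omega

private theorem grp_odd (a : ℕ) (x : ℤ) : sFun a (-x) = - sFun a x := by
  simp only [sFun]
  split_ifs <;> omega

theorem gen_comm {a b : ℕ} (h : a + 2 ≤ b) : gen a * gen b = gen b * gen a := by
  ext x
  simp only [Equiv.Perm.mul_apply, grp_apply]
  rcases le_or_gt x.natAbs (a + 1) with hx | hx
  · have h1 := grp_le a x hx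
    rw [grp_fix b x (by omega) (by omega), grp_fix b (sFun a x) (by omega) (by omega)]
  · rw [grp_fix a x (by omega) (by omega)]
    by_cases hb : x.natAbs = b ∨ x.natAbs = b + 1
    · have h1 := grp_mem b (by omega) x hb
      rw [grp_fix a (sFun b x) (by omega) (by omega)]
    · rw [grp_fix b x (by omega) (by omega), grp_fix a x (by omega) (by omega)]

private theorem grp_s1 (a : ℕ) (ha : 1 ≤ a) : sFun a (a : ℤ) = (a : ℤ) + 1 := by
  simp only [sFun]
  split_ifs <;> omega

private theorem grp_s2 (a : ℕ) (ha : 1 ≤ a) : sFun a ((a : ℤ) + 1) = (a : ℤ) := by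
  simp only [sFun]
  split_ifs <;> omega

private theorem grp_braid (a : ℕ) (h : 1 ≤ a) (x : ℤ) (hx : 0 ≤ x) :
    sFun a (sFun (a + 1) (sFun a x)) = sFun (a + 1) (sFun a (sFun (a + 1) x)) := by
  have e1 := grp_s1 a h
  have e2 := grp_s2 a h
  have e3 : sFun (a + 1) ((a : ℤ) + 1) = (a : ℤ) + 2 := by
    have := grp_s1 (a + 1) (by omega)
    push_cast at this
    rw [this]
    ring
  have e4 : sFun (a + 1) ((a : ℤ) + 2) = (a : ℤ) + 1 := by
    have := grp_s2 (a + 1) (by omega)
    push_cast at this
    have h' : (a : ℤ) + 1 + 1 = (a : ℤ) + 2 := by ring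
    rw [h'] at this
    exact this
  have e5 : sFun (a + 1) (a : ℤ) = a := grp_fix (a + 1) a (by omega) (by omega)
  have e6 : sFun a ((a : ℤ) + 2) = (a : ℤ) + 2 := grp_fix a _ (by omega) (by omega)
  by_cases h1 : x = a
  · rw [h1, e1, e3, e6, e5, e1, e3]
  by_cases h2 : x = a + 1
  · rw [h2, e2, e5, e1, e3, e6, e4]
  by_cases h3 : x = a + 2
  · rw [h3, e6, e4, e2, e5]
  have f1 : sFun a x = x := grp_fix a x (by omega) (by omega)
  have f2 : sFun (a + 1) x = x := grp_fix (a + 1) x (by omega) (by omega)
  rw [f1, f2, f1, f2]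

theorem gen_braid {a : ℕ} (h : 1 ≤ a) :
    gen a * (gen (a + 1) * gen a) = gen (a + 1) * (gen a * gen (a + 1)) := by
  ext x
  simp only [Equiv.Perm.mul_apply, grp_apply]
  rcases le_or_gt 0 x with hx | hx
  · exact grp_braid a h x hx
  · have h1 := grp_braid a h (-x) (by omega)
    simp only [grp_odd] at h1
    exact neg_injective h1

private theorem grp_congr {n : ℕ} {ω : Equiv.Perm ℤ} {v w : List ℕ}
    (hm : ∀ x, x ∈ v ↔ x ∈ w) (hp : (v.map gen).prod = (w.map gen).prod)
    (hl : v.length = w.length) : v ∈ Red n ω → w ∈ Red n ω := by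
  rintro ⟨h1, h2, h3⟩
  refine ⟨fun x hx => h1 x ((hm x).2 hx), ?_, ?_⟩
  · rw [← hp, h2]
  · rw [← hl]
    exact h3

theorem cls_red {n : ℕ} {ω : Equiv.Perm ℤ} (hu : Unknotted n ω)
    (h0 : ∀ w ∈ Red n ω, w.count 0 ≤ 1) : Cls (fun w => w ∈ Red n ω) := by
  refine ⟨?_, ?_, ?_, ?_, h0⟩
  · intro p q a b hab
    have hp : ((p ++ a :: b :: q).map gen).prod = ((p ++ b :: a :: q).map gen).prod := by
      simp only [List.map_append, List.map_cons, List.prod_append, List.prod_cons]
      rw [← mul_assoc (gen a), ← mul_assoc (gen b), gen_comm hab]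
    have hm : ∀ x, x ∈ p ++ a :: b :: q ↔ x ∈ p ++ b :: a :: q := by
      intro x
      simp only [List.mem_append, List.mem_cons]
      tauto
    constructor
    · exact grp_congr hm hp (by simp)
    · exact grp_congr (fun x => (hm x).symm) hp.symm (by simp)
  · intro p q a ha
    have hp : ((p ++ a :: (a + 1) :: a :: q).map gen).prod =
        ((p ++ (a + 1) :: a :: (a + 1) :: q).map gen).prod := by
      simp only [List.map_append, List.map_cons, List.prod_append, List.prod_cons]
      have := gen_braid ha
      congr 1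
      calc gen a * (gen (a + 1) * (gen a * (q.map gen).prod))
          = (gen a * (gen (a + 1) * gen a)) * (q.map gen).prod := by simp only [mul_assoc]
        _ = gen (a + 1) * (gen a * (gen (a + 1) * (q.map gen).prod)) := by
          rw [this]; simp only [mul_assoc]
    have hm : ∀ x, x ∈ p ++ a :: (a + 1) :: a :: q ↔ x ∈ p ++ (a + 1) :: a :: (a + 1) :: q := by
      intro x
      simp only [List.mem_append, List.mem_cons]
      tauto
    constructor
    · exact grp_congr hm hp (by simp)
    · exact grp_congr (fun x => (hm x).symm) hp.symm (by simp)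
  · rintro p q a ⟨h1, h2, h3⟩
    have hp : ((p ++ q).map gen).prod = ω := by
      rw [← h2]
      simp only [List.map_append, List.map_cons, List.prod_append, List.prod_cons]
      rw [← mul_assoc (gen a), gen_sq, one_mul]
    have := h3 (p ++ q) (fun x hx => h1 x (by
      rcases List.mem_append.1 hx with h | h
      · exact List.mem_append_left _ h
      · exact List.mem_append_right _ (List.mem_cons_of_mem _ (List.mem_cons_of_mem _ h)))) hp
    simp only [List.length_append, List.length_cons] at this
    omega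
  · intro p q a ha hw
    have h1 := (hu _ hw).2 a ha ⟨p, q, by simp⟩
    constructor
    · intro h
      exact h1 (List.mem_append_left _ h)
    · intro h
      exact h1 (List.mem_append_right _ (List.mem_cons_of_mem _ (List.mem_cons_of_mem _
        (List.mem_cons_of_mem _ h))))

theorem red_length {n : ℕ} {ω : Equiv.Perm ℤ} {v w : List ℕ} (hv : v ∈ Red n ω) (hw : w ∈ Red n ω) :
    v.length = w.length :=
  le_antisymm (hv.2.2 w hw.1 hw.2.1) (hw.2.2 v hv.1 hv.2.1)

theorem red_finite (n : ℕ) (ω : Equiv.Perm ℤ) : {w | w ∈ Red n ω}.Finite := by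
  by_cases hne : ∃ v, v ∈ Red n ω
  · obtain ⟨v, hv⟩ := hne
    refine ((List.finite_length_eq (Fin (n + 1)) v.length).image
      (fun l => l.map fun x : Fin (n + 1) => (x : ℕ))).subset ?_
    intro w hw
    have hlen := red_length hw hv
    have hle := hw.1
    refine ⟨w.attach.map fun x => ⟨x.1, Nat.lt_succ_of_le (hle x.1 x.2)⟩, ?_, ?_⟩
    · simpa using hlen
    · simp only [List.map_map]
      have : ((fun x : Fin (n + 1) => (x : ℕ)) ∘
          fun x : {x // x ∈ w} => (⟨x.1, Nat.lt_succ_of_le (hle x.1 x.2)⟩ : Fin (n + 1))) =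
          Subtype.val := by
        funext x
        rfl
      rw [this, List.attach_map_subtype_val]
  · have : {w | w ∈ Red n ω} = ∅ := by
      ext w
      simp only [Set.mem_ofPred_eq, Set.mem_empty_iff_false, iff_false]
      exact fun h => hne ⟨w, h⟩
    rw [this]
    exact Set.finite_empty

end DST
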