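import Pool.Agent.DST.ROW
import Pool.Agent.DST.CLA

/-!
Module HKS of project DST (MP_0f73d6_co).

Hooks.  Shape: r = j+1 rows, row 0 has l - j cells, rows 1..j one cell (column 0), so K i = 0 for 1 ≤ i ≤ r (0 ≤ K r = 0 ≤
K i < hi i = 1), and the ribbon is the whole shape.  The reading word of a is w with w[t] = a (j-t) 0 for 0 ≤ t ≤ j and
w[j+t] = a 0 t for 0 ≤ t < l-j.  hook_cells gives cellsL as an explicit list.
hook_sum: (κ, K, a) → (w, κ + j) is a bijection of USet onto VW W l: the ribbon conditions Rd, Ri (row 0), Vd, Vi are exactly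
 the conditions w[t+1] < w[t] for t < κ+j and w[t] < w[t+1] for t ≥ κ+j, and z, κ0, κr say that 0 ≤ κ+j < l, w[κ+j] = 0;
 the fields N, P, cN, cP, e3 are vacuous.  sumK = 0.  The sign: negOnePow κ = (-1)^j (-1)^(κ+j).
 (Given (w,p), K m = l-j-1 for m = 0 and 0 otherwise, κ = p - j, a (i,0) = w[j-i], a (0,t) = w[j+t], 0 outside.)
-/

namespace DST

variable {W : List ℕ → Prop}

theorem shp_hook {l j : ℕ} (hj : j < l) : Shp ((j : ℤ) + 1) z0 (hkhi l j) := by
  constructor
  · omega
  · intro i _ _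
    unfold z0 hkhi
    split_ifs <;> omega
  · intro i _ _
    unfold z0
    omega
  · intro i _ _
    unfold hkhi
    split_ifs <;> omega

private theorem hks_cell {l j : ℕ} (hj : j < l) {x y : ℤ} :
    Cell ((j : ℤ) + 1) z0 (hkhi l j) x y ↔
      (0 < x ∧ x ≤ j ∧ y = 0) ∨ (x = 0 ∧ 0 ≤ y ∧ y < (l : ℤ) - j) := by
  unfold Cell z0 hkhi
  split_ifs <;> omega

private theorem hks_lift (n : ℕ) :
    (do
      let a ← List.range n
      pure (a : ℤ) : List ℤ) = (List.range n).map (fun a : ℕ => (a : ℤ)) := by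
  rw [List.bind_eq_flatMap]
  simp only [List.pure_def]
  exact List.flatMap_pure_eq_map _ _

private theorem hks_cells {l j : ℕ} (hj : j < l) :
    cellsL ((j : ℤ) + 1) z0 (hkhi l j) =
      ((List.range j).map fun t : ℕ => (((j : ℤ) - (t : ℤ)), (0 : ℤ))) ++
        ((List.range (l - j)).map fun t : ℕ => ((0 : ℤ), (t : ℤ))) := by
  symm
  apply cellsL_unique
  · rw [List.pairwise_append]
    refine ⟨?_, ?_, ?_⟩
    · rw [List.pairwise_map]
      refine List.Pairwise.imp ?_ (List.pairwise_lt_range (n := j))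
      intro s t hst
      left
      omega
    · rw [List.pairwise_map]
      refine List.Pairwise.imp ?_ (List.pairwise_lt_range (n := l - j))
      intro s t hst
      right
      refine ⟨rfl, ?_⟩
      omega
    · intro c hc d hd
      rw [List.mem_map] at hc hd
      obtain ⟨s, hs, rfl⟩ := hc
      obtain ⟨t, _, rfl⟩ := hd
      rw [List.mem_range] at hs
      left
      omega
  · rintro ⟨x, y⟩
    rw [hks_cell hj, List.mem_append, List.mem_map, List.mem_map]
    simp only [List.mem_range, Prod.mk.injEq]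
    constructor
    · rintro (⟨t, ht, h1, h2⟩ | ⟨t, ht, h1, h2⟩)
      · left
        omega
      · right
        omega
    · rintro (⟨h1, h2, h3⟩ | ⟨h1, h2, h3⟩)
      · left
        exact ⟨((j : ℤ) - x).toNat, by omega, by omega, by omega⟩
      · right
        exact ⟨y.toNat, by omega, by omega, by omega⟩

theorem hook_cells {l j : ℕ} (hj : j < l) :
    cellsL ((j : ℤ) + 1) z0 (hkhi l j) =
      ((List.range j).map fun t => (((j : ℤ) - (t : ℤ)), (0 : ℤ))) ++
        ((List.range (l - j)).map fun t => ((0 : ℤ), (t : ℤ))) := by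
  rw [hks_lift, hks_lift, List.map_map, List.map_map]
  exact hks_cells hj

private theorem hks_word {l j : ℕ} (hj : j < l) (a : ℤ → ℤ → ℕ) :
    word ((j : ℤ) + 1) z0 (hkhi l j) a =
      ((List.range j).map fun t : ℕ => a ((j : ℤ) - (t : ℤ)) 0) ++
        ((List.range (l - j)).map fun t : ℕ => a 0 (t : ℤ)) := by
  unfold word
  rw [hks_cells hj, List.map_append, List.map_map, List.map_map]
  rfl

private theorem hks_len {l j : ℕ} (hj : j < l) (a : ℤ → ℤ → ℕ) :
    (word ((j : ℤ) + 1) z0 (hkhi l j) a).length = l := by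
  rw [hks_word hj]
  simp only [List.length_append, List.length_map, List.length_range]
  omega

private theorem hks_getD1 {l j : ℕ} (hj : j < l) (a : ℤ → ℤ → ℕ) (t : ℕ) (ht : t < j) :
    (word ((j : ℤ) + 1) z0 (hkhi l j) a).getD t 0 = a ((j : ℤ) - (t : ℤ)) 0 := by
  rw [hks_word hj, List.getD_append _ _ _ _ (by simpa using ht)]
  rw [List.getD_eq_getElem _ _ (by simpa using ht)]
  simp

private theorem hks_getD2 {l j : ℕ} (hj : j < l) (a : ℤ → ℤ → ℕ) (t : ℕ) (ht : j ≤ t)
    (htl : t < l) :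
    (word ((j : ℤ) + 1) z0 (hkhi l j) a).getD t 0 = a 0 ((t : ℤ) - (j : ℤ)) := by
  rw [hks_word hj, List.getD_append_right _ _ _ _ (by simpa using ht)]
  have h1 : t - ((List.range j).map fun t : ℕ => a ((j : ℤ) - (t : ℤ)) 0).length = t - j := by
    simp
  rw [h1, List.getD_eq_getElem _ _ (by
    simp only [List.length_map, List.length_range]
    omega)]
  simp only [List.getElem_map, List.getElem_range]
  congr 1
  omega

open Classical in
/-- the array of a word -/
private noncomputable def hksA (l j : ℕ) (w : List ℕ) : ℤ → ℤ → ℕ := fun x y =>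
  if Cell ((j : ℤ) + 1) z0 (hkhi l j) x y then w.getD ((j : ℤ) - x + y).toNat 0 else 0

/-- the boundary of the hook -/
private def hksK (l j : ℕ) : ℤ → ℤ := fun m => if m = 0 then (l : ℤ) - j - 1 else 0

private theorem hksA1 {l j : ℕ} (hj : j < l) (w : List ℕ) {x : ℤ} (h1 : 0 < x) (h2 : x ≤ j) :
    hksA l j w x 0 = w.getD ((j : ℤ) - x).toNat 0 := by
  unfold hksA
  rw [if_pos ((hks_cell hj).2 (Or.inl ⟨h1, h2, rfl⟩)), add_zero]

private theorem hksA2 {l j : ℕ} (hj : j < l) (w : List ℕ) {y : ℤ} (h1 : 0 ≤ y)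
    (h2 : y < (l : ℤ) - j) : hksA l j w 0 y = w.getD ((j : ℤ) + y).toNat 0 := by
  unfold hksA
  rw [if_pos ((hks_cell hj).2 (Or.inr ⟨rfl, h1, h2⟩)), sub_zero]

private theorem hks_word_A {l j : ℕ} (hj : j < l) (w : List ℕ) (hw : w.length = l) :
    word ((j : ℤ) + 1) z0 (hkhi l j) (hksA l j w) = w := by
  apply List.ext_getElem
  · rw [hks_len hj, hw]
  · intro t h1 h2
    rw [← List.getD_eq_getElem _ 0 h1, ← List.getD_eq_getElem _ 0 h2]
    by_cases ht : t < j
    · rw [hks_getD1 hj _ t ht, hksA1 hj w (by omega) (by omega)]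
      congr 1
      omega
    · rw [hks_getD2 hj _ t (by omega) (by omega), hksA2 hj w (by omega) (by omega)]
      congr 1
      omega

private theorem hks_A_word {l j : ℕ} (hj : j < l) (a : ℤ → ℤ → ℕ)
    (ha : ∀ x y, ¬ Cell ((j : ℤ) + 1) z0 (hkhi l j) x y → a x y = 0) :
    hksA l j (word ((j : ℤ) + 1) z0 (hkhi l j) a) = a := by
  funext x y
  by_cases hc : Cell ((j : ℤ) + 1) z0 (hkhi l j) x y
  · rcases (hks_cell hj).1 hc with ⟨h1, h2, h3⟩ | ⟨h1, h2, h3⟩
    · subst h3
      rw [hksA1 hj _ h1 h2, hks_getD1 hj a _ (by omega)]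
      congr 1
      omega
    · subst h1
      rw [hksA2 hj _ h2 h3, hks_getD2 hj a _ (by omega) (by omega)]
      congr 1
      omega
  · unfold hksA
    rw [if_neg hc, ha x y hc]

/-- the defining conditions in terms of the word -/
private theorem hks_mem {l j : ℕ} (hj : j < l) (κ : ℤ) (a : ℤ → ℤ → ℕ) (w : List ℕ) (p : ℕ)
    (hp : p < l) (hκ : κ = (p : ℤ) - j) (hw : word ((j : ℤ) + 1) z0 (hkhi l j) a = w)
    (h0 : w.getD p 0 = 0)
    (hd : ∀ t, t < p → w.getD (t + 1) 0 < w.getD t 0)
    (hi : ∀ t, p ≤ t → t + 1 < l → w.getD t 0 < w.getD (t + 1) 0) (hW : W w) :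
    VS W ((j : ℤ) + 1) κ z0 (hkhi l j) (hksK l j) a := by
  have g1 : ∀ x : ℤ, 0 ≤ x → x ≤ j → a x 0 = w.getD ((j : ℤ) - x).toNat 0 := by
    intro x h1 h2
    rcases eq_or_lt_of_le h1 with h3 | h3
    · subst h3
      rw [← hw, hks_getD2 hj a _ (by omega) (by omega)]
      congr 1
      omega
    · rw [← hw, hks_getD1 hj a _ (by omega)]
      congr 1
      omega
  have g2 : ∀ y : ℤ, 0 ≤ y → y < (l : ℤ) - j → a 0 y = w.getD ((j : ℤ) + y).toNat 0 := by
    intro y h1 h2
    rw [← hw, hks_getD2 hj a _ (by omega) (by omega)]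
    congr 1
    omega
  have hK0 : hksK l j 0 = (l : ℤ) - j - 1 := by
    unfold hksK
    rw [if_pos rfl]
  have hKp : ∀ m : ℤ, m ≠ 0 → hksK l j m = 0 := by
    intro m hm
    unfold hksK
    rw [if_neg hm]
  have hh0 : hkhi l j 0 = (l : ℤ) - j := by
    unfold hkhi
    rw [if_pos le_rfl]
  have hhp : ∀ m : ℤ, 0 < m → m ≤ j → hkhi l j m = 1 := by
    intro m h1 h2
    unfold hkhi
    rw [if_neg (by omega), if_pos h2]
  refine { K0 := ?_, Kr := ?_, Kmono := ?_, Klt := ?_, Kge := ?_, κ0 := ?_, κr := ?_, N := ?_,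
           P := ?_, Rd := ?_, Ri := ?_, Vd := ?_, Vi := ?_, z := ?_, cN := ?_, cP := ?_,
           e3 := ?_, w := ?_ }
  · rw [hK0, hh0]
  · rw [hKp _ (by omega)]
    rfl
  · intro i h1 h2
    rw [hKp (i + 1) (by omega)]
    unfold hksK
    split_ifs <;> omega
  · intro i h1 h2
    rcases eq_or_lt_of_le h1 with h3 | h3
    · subst h3
      rw [hK0, hh0]
      omega
    · rw [hKp i (by omega), hhp i h3 (by omega)]
      omega
  · intro i h1 h2
    rw [hKp (i + 1) (by omega)]
    exact le_refl (0 : ℤ)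
  · rw [hK0]
    omega
  · rw [hKp _ (by omega)]
    omega
  · intro i y h1 h2 h3 h4
    rw [hKp (i + 1) (by omega)] at h4
    unfold z0 at h3
    omega
  · intro i y h1 h2 h3 h4
    rcases eq_or_lt_of_le h1 with h5 | h5
    · subst h5
      rw [hK0] at h3
      rw [hh0] at h4
      omega
    · rw [hKp i (by omega)] at h3
      rw [hhp i h5 (by omega)] at h4
      omega
  · intro i y h1 h2 h3 h4 h5
    rw [hKp (i + 1) (by omega)] at h3
    rcases eq_or_lt_of_le h1 with h6 | h6
    · subst h6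
      rw [hK0] at h4
      rw [g2 (y + 1) (by omega) (by omega), g2 y h3 (by omega)]
      have h7 := hd ((j : ℤ) + y).toNat (by omega)
      have h8 : ((j : ℤ) + (y + 1)).toNat = ((j : ℤ) + y).toNat + 1 := by omega
      rw [h8]
      exact h7
    · rw [hKp i (by omega)] at h4
      omega
  · intro i y h1 h2 h3 h4 h5
    rw [hKp (i + 1) (by omega)] at h3
    rcases eq_or_lt_of_le h1 with h6 | h6
    · subst h6
      rw [hK0] at h4
      rw [g2 (y + 1) (by omega) (by omega), g2 y h3 (by omega)]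
      have h7 := hi ((j : ℤ) + y).toNat (by omega) (by omega)
      have h8 : ((j : ℤ) + (y + 1)).toNat = ((j : ℤ) + y).toNat + 1 := by omega
      rw [h8]
      exact h7
    · rw [hKp i (by omega)] at h4
      omega
  · intro i h1 h2 h3
    rw [hKp (i + 1) (by omega)] at h3 ⊢
    rw [g1 i h1 (by omega), g1 (i + 1) (by omega) (by omega)]
    have h7 := hd ((j : ℤ) - (i + 1)).toNat (by omega)
    have h8 : ((j : ℤ) - i).toNat = ((j : ℤ) - (i + 1)).toNat + 1 := by omega
    rw [h8]
    exact h7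
  · intro i h1 h2 h3
    rw [hKp (i + 1) (by omega)] at h3 ⊢
    rw [g1 i h1 (by omega), g1 (i + 1) (by omega) (by omega)]
    have h7 := hi ((j : ℤ) - (i + 1)).toNat (by omega) (by omega)
    have h8 : ((j : ℤ) - i).toNat = ((j : ℤ) - (i + 1)).toNat + 1 := by omega
    rw [h8]
    exact h7
  · intro i y h1 h2 h3 h4 h5
    rw [hKp (i + 1) (by omega)] at h3
    rcases eq_or_lt_of_le h1 with h6 | h6
    · subst h6
      rw [hK0] at h4
      rw [g2 y h3 (by omega)]
      have h8 : ((j : ℤ) + y).toNat = p := by omega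
      rw [h8, h0]
    · rw [hKp i (by omega)] at h4
      have h7 : y = 0 := by omega
      subst h7
      rw [g1 i h1 (by omega)]
      have h8 : ((j : ℤ) - i).toNat = p := by omega
      rw [h8, h0]
  · intro i y h1 h2 h3 h4
    rw [hKp (i + 1) (by omega)] at h4
    unfold z0 at h3
    omega
  · intro i y h1 h2 h3 h4
    rw [hKp (i + 1) (by omega)] at h3
    rw [hhp (i + 1) (by omega) (by omega)] at h4
    omega
  · intro i y h1 h2 h3 h4 h5 _
    rw [hKp (i + 1) (by omega)] at h5
    rw [hhp (i + 1) (by omega) (by omega)] at h4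
    unfold z0 at h3
    omega
  · rw [hw]
    exact hW

private theorem hks_K {l j : ℕ} (hj : j < l) {κ : ℤ} {K : ℤ → ℤ} {a : ℤ → ℤ → ℕ}
    (h : VSR ((j : ℤ) + 1) κ z0 (hkhi l j) K a)
    (hn : ∀ i, ¬ (0 ≤ i ∧ i ≤ (j : ℤ) + 1) → K i = 0) : K = hksK l j := by
  funext m
  unfold hksK
  split_ifs with hm
  · subst hm
    rw [h.K0]
    unfold hkhi
    rw [if_pos le_rfl]
  · by_cases h1 : 0 ≤ m ∧ m ≤ (j : ℤ) + 1
    · by_cases h2 : m = (j : ℤ) + 1
      · subst h2
        exact h.Kr
      · have h3 := h.Klt m h1.1 (by omega)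
        have h4 := h.Kge (m - 1) (by omega) (by omega)
        rw [sub_add_cancel] at h4
        unfold hkhi at h3
        rw [if_neg (by omega), if_pos (by omega)] at h3
        unfold z0 at h4
        omega
    · exact hn m h1

theorem hook_sum (l j : ℕ) (hj : j < l) :
    ∑ᶠ y ∈ USet W ((j : ℤ) + 1) z0 (hkhi l j), (((y.1 + sumK ((j : ℤ) + 1) y.2.1).negOnePow : ℤˣ) : ℤ) =
      (-1 : ℤ) ^ j * ∑ᶠ x ∈ VW W l, (-1 : ℤ) ^ x.2 := by
  have hsum : sumK ((j : ℤ) + 1) (hksK l j) = 0 := by
    unfold sumK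
    refine Finset.sum_eq_zero fun i hi => ?_
    rw [Finset.mem_Ico] at hi
    unfold hksK
    rw [if_neg (by omega)]
  have hmul : (-1 : ℤ) ^ j * ∑ᶠ x ∈ VW W l, (-1 : ℤ) ^ x.2 =
      ∑ᶠ x ∈ VW W l, (-1 : ℤ) ^ j * (-1 : ℤ) ^ x.2 := by
    rw [← smul_eq_mul, smul_finsum]
    refine finsum_congr fun x => ?_
    rw [smul_finsum]
    simp only [smul_eq_mul]
  rw [hmul]
  symm
  refine finsum_mem_eq_of_bijOn
    (fun x : List ℕ × ℕ => (((x.2 : ℤ) - j), hksK l j, hksA l j x.1)) ⟨?_, ?_, ?_⟩ ?_
  · rintro ⟨w, p⟩ ⟨h1, h2, h3, h4, h5, h6⟩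
    refine ⟨hks_mem hj _ _ w p h3 rfl (hks_word_A hj w h2) h4 h5 h6 h1, ?_, ?_⟩
    · intro i hi
      simp only
      unfold hksK
      rw [if_neg (by omega)]
    · intro x y hxy
      simp only
      unfold hksA
      rw [if_neg hxy]
  · rintro ⟨w, p⟩ hx ⟨w', p'⟩ hx' heq
    simp only [Prod.mk.injEq] at heq
    have h1 : word ((j : ℤ) + 1) z0 (hkhi l j) (hksA l j w) =
        word ((j : ℤ) + 1) z0 (hkhi l j) (hksA l j w') := by rw [heq.2.2]
    rw [hks_word_A hj w hx.2.1, hks_word_A hj w' hx'.2.1] at h1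
    have h2 : p = p' := by omega
    rw [h1, h2]
  · rintro ⟨κ, K, a⟩ ⟨hvs, hK, ha⟩
    simp only at hvs hK ha
    have hKK := hks_K hj hvs.toVSR hK
    subst hKK
    have hκ0 := hvs.κ0
    have hκr := hvs.κr
    have hK0 : hksK l j 0 = (l : ℤ) - j - 1 := by
      unfold hksK
      rw [if_pos rfl]
    have hKp : ∀ m : ℤ, m ≠ 0 → hksK l j m = 0 := by
      intro m hm
      unfold hksK
      rw [if_neg hm]
    rw [hK0] at hκ0
    rw [hKp _ (by omega)] at hκr
    refine ⟨(word ((j : ℤ) + 1) z0 (hkhi l j) a, (κ + j).toNat), ⟨hvs.w, hks_len hj a, ?_, ?_, ?_,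
      ?_⟩, ?_⟩
    · simp only
      omega
    · simp only
      by_cases h : κ < 0
      · rw [hks_getD1 hj a _ (by omega)]
        apply hvs.z _ _ (by omega) (by omega)
        · rw [hKp _ (by omega)]
        · rw [hKp _ (by omega)]
        · omega
      · rw [hks_getD2 hj a _ (by omega) (by omega)]
        apply hvs.z _ _ le_rfl (by omega)
        · rw [hKp _ (by omega)]
          omega
        · rw [hK0]
          omega
        · omega
    · intro t ht
      simp only at ht ⊢
      by_cases h : t + 1 < j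
      · rw [hks_getD1 hj a _ h, hks_getD1 hj a _ (by omega)]
        have h1 := hvs.Vd ((j : ℤ) - ((t + 1 : ℕ) : ℤ)) (by omega) (by omega)
        rw [hKp _ (by omega)] at h1
        have h2 := h1 (by omega)
        have h3 : (j : ℤ) - ((t + 1 : ℕ) : ℤ) + 1 = (j : ℤ) - t := by
          push_cast
          ring
        rw [h3] at h2
        exact h2
      · by_cases h' : t < j
        · have htj : t + 1 = j := by omega
          rw [hks_getD2 hj a _ (by omega) (by omega), hks_getD1 hj a _ h']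
          have h1 := hvs.Vd 0 le_rfl (by omega)
          rw [hKp _ (by omega)] at h1
          have h2 := h1 (by omega)
          have h3 : ((t + 1 : ℕ) : ℤ) - (j : ℤ) = 0 := by omega
          have h4 : (j : ℤ) - (t : ℤ) = 0 + 1 := by omega
          rw [h3, h4]
          exact h2
        · rw [hks_getD2 hj a _ (by omega) (by omega), hks_getD2 hj a _ (by omega) (by omega)]
          have h1 := hvs.Rd 0 ((t : ℤ) - j) le_rfl (by omega) (by
            rw [hKp _ (by omega)]
            omega) (by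
            rw [hK0]
            omega) (by omega)
          have h3 : ((t + 1 : ℕ) : ℤ) - (j : ℤ) = (t : ℤ) - j + 1 := by
            push_cast
            ring
          rw [h3]
          exact h1
    · intro t ht htl
      simp only at ht ⊢
      by_cases h : t + 1 < j
      · rw [hks_getD1 hj a _ h, hks_getD1 hj a _ (by omega)]
        have h1 := hvs.Vi ((j : ℤ) - ((t + 1 : ℕ) : ℤ)) (by omega) (by omega)
        rw [hKp _ (by omega)] at h1
        have h2 := h1 (by omega)
        have h3 : (j : ℤ) - ((t + 1 : ℕ) : ℤ) + 1 = (j : ℤ) - t := by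
          push_cast
          ring
        rw [h3] at h2
        exact h2
      · by_cases h' : t < j
        · have htj : t + 1 = j := by omega
          rw [hks_getD1 hj a _ h', hks_getD2 hj a _ (by omega) (by omega)]
          have h1 := hvs.Vi 0 le_rfl (by omega)
          rw [hKp _ (by omega)] at h1
          have h2 := h1 (by omega)
          have h3 : ((t + 1 : ℕ) : ℤ) - (j : ℤ) = 0 := by omega
          have h4 : (j : ℤ) - (t : ℤ) = 0 + 1 := by omega
          rw [h3, h4]
          exact h2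
        · rw [hks_getD2 hj a _ (by omega) (by omega), hks_getD2 hj a _ (by omega) (by omega)]
          have h1 := hvs.Ri 0 ((t : ℤ) - j) le_rfl (by omega) (by
            rw [hKp _ (by omega)]
            omega) (by
            rw [hK0]
            omega) (by omega)
          have h3 : ((t + 1 : ℕ) : ℤ) - (j : ℤ) = (t : ℤ) - j + 1 := by
            push_cast
            ring
          rw [h3]
          exact h1
    · refine Prod.ext ?_ (Prod.ext rfl (hks_A_word hj a ha))
      change (((κ + j).toNat : ℕ) : ℤ) - j = κ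
      omega
  · rintro ⟨w, p⟩ _
    rw [hsum, add_zero, Int.negOnePow_sub]
    push_cast
    rw [mul_comm, Int.negOnePow_def, Int.negOnePow_def]
    simp only [zpow_natCast, Units.val_pow_eq_pow_val, Units.val_neg, Units.val_one]

end DST
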