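import Pool.Agent.DST.TRN
import Pool.Agent.DST.HKS

/-!
Module HKD of project DST (MP_0f73d6_co).

The hook diagrams.  mem_hookD: by definition.  Row lengths and column length from membership (rowLen i is the number c
with (i,j) ∈ μ iff j < c).  hook_of: a diagram without the cell (1,1) and with l ≥ 1 cells is a hook: with
j+1 = colLen 0 rows, rows 1..j have length 1 (since (1,1) ∉ μ), so l = rowLen 0 + j.
-/

namespace DST

theorem mem_hookD {l j : ℕ} (hj : j < l) {c : ℕ × ℕ} :
    c ∈ hookD l j ↔ (c.1 = 0 ∧ c.2 < l - j) ∨ (c.2 = 0 ∧ c.1 ≤ j) := by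
  rw [← YoungDiagram.mem_cells]
  unfold hookD
  simp only [if_pos hj, Finset.mem_union, Finset.mem_image, Finset.mem_range]
  constructor
  · rintro (⟨x, hx, rfl⟩ | ⟨x, hx, rfl⟩)
    · left
      exact ⟨rfl, hx⟩
    · right
      exact ⟨rfl, by simp only; omega⟩
  · rintro (⟨h1, h2⟩ | ⟨h1, h2⟩)
    · left
      exact ⟨c.2, h2, Prod.ext h1.symm rfl⟩
    · right
      exact ⟨c.1, by omega, Prod.ext rfl h1.symm⟩

private theorem hkd_row0 {l j : ℕ} (hj : j < l) : (hookD l j).rowLen 0 = l - j := by
  apply le_antisymm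
  · by_contra h
    push Not at h
    have h1 := YoungDiagram.mem_iff_lt_rowLen.2 h
    rw [mem_hookD hj] at h1
    simp only at h1
    omega
  · by_contra h
    push Not at h
    have h1 : (0, (hookD l j).rowLen 0) ∈ hookD l j := by
      rw [mem_hookD hj]
      left
      exact ⟨rfl, h⟩
    have h2 := YoungDiagram.mem_iff_lt_rowLen.1 h1
    exact lt_irrefl _ h2

private theorem hkd_row {l j : ℕ} (hj : j < l) {i : ℕ} (hi : 1 ≤ i) :
    (hookD l j).rowLen i = if i ≤ j then 1 else 0 := by
  split_ifs with h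
  · apply le_antisymm
    · by_contra h'
      push Not at h'
      have h1 := YoungDiagram.mem_iff_lt_rowLen.2 h'
      rw [mem_hookD hj] at h1
      simp only at h1
      omega
    · have h1 : (i, 0) ∈ hookD l j := by
        rw [mem_hookD hj]
        right
        exact ⟨rfl, h⟩
      have h2 := YoungDiagram.mem_iff_lt_rowLen.1 h1
      omega
  · by_contra h'
    have h'' : 0 < (hookD l j).rowLen i := by omega
    have h1 := YoungDiagram.mem_iff_lt_rowLen.2 h''
    rw [mem_hookD hj] at h1
    simp only at h1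
    omega

theorem hook_colLen {l j : ℕ} (hj : j < l) : (hookD l j).colLen 0 = j + 1 := by
  apply le_antisymm
  · by_contra h
    push Not at h
    have h1 := YoungDiagram.mem_iff_lt_colLen.2 h
    rw [mem_hookD hj] at h1
    simp only at h1
    omega
  · by_contra h
    push Not at h
    have h1 : ((hookD l j).colLen 0, 0) ∈ hookD l j := by
      rw [mem_hookD hj]
      right
      exact ⟨rfl, by simp only; omega⟩
    have h2 := YoungDiagram.mem_iff_lt_colLen.1 h1
    exact lt_irrefl _ h2

theorem hook_yhi {l j : ℕ} (hj : j < l) : yhi (hookD l j) = hkhi l j := by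
  funext i
  unfold yhi hkhi
  by_cases hi : i ≤ 0
  · rw [if_pos hi]
    have h0 : i.toNat = 0 := by omega
    rw [h0, hkd_row0 hj]
    omega
  · rw [if_neg hi, hkd_row hj (by omega)]
    by_cases h1 : i ≤ (j : ℤ)
    · rw [if_pos h1, if_pos (by omega)]
      rfl
    · rw [if_neg h1, if_neg (by omega)]
      rfl

theorem hook_card {l j : ℕ} (hj : j < l) : (hookD l j).cells.card = l := by
  have h1 : (hookD l j).cells = ((Finset.range (l - j)).image fun c => ((0 : ℕ), c)) ∪
      ((Finset.range j).image fun i => (i + 1, (0 : ℕ))) := by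
    ext c
    rw [YoungDiagram.mem_cells, mem_hookD hj]
    simp only [Finset.mem_union, Finset.mem_image, Finset.mem_range]
    constructor
    · rintro (⟨h1, h2⟩ | ⟨h1, h2⟩)
      · left
        exact ⟨c.2, h2, Prod.ext h1.symm rfl⟩
      · rcases Nat.eq_zero_or_pos c.1 with h3 | h3
        · left
          exact ⟨0, by omega, Prod.ext h3.symm h1.symm⟩
        · right
          exact ⟨c.1 - 1, by omega, Prod.ext (by simp only; omega) h1.symm⟩
    · rintro (⟨x, hx, rfl⟩ | ⟨x, hx, rfl⟩)
      · left
        exact ⟨rfl, hx⟩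
      · right
        exact ⟨rfl, by simp only; omega⟩
  rw [h1, Finset.card_union_of_disjoint, Finset.card_image_of_injective, Finset.card_image_of_injective,
    Finset.card_range, Finset.card_range]
  · omega
  · intro a b hab
    simpa using hab
  · intro a b hab
    simpa using hab
  · rw [Finset.disjoint_left]
    intro c hc hc'
    simp only [Finset.mem_image, Finset.mem_range] at hc hc'
    obtain ⟨x, hx, rfl⟩ := hc
    obtain ⟨y, hy, hxy⟩ := hc'
    simp at hxy

theorem hook_of {l : ℕ} (hl : 1 ≤ l) (μ : YoungDiagram) (h11 : (1, 1) ∉ μ) (hc : μ.cells.card = l) :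
    ∃ j, j < l ∧ μ = hookD l j := by
  have h00 : (0, 0) ∈ μ := by
    have h1 : μ.cells.Nonempty := by
      rw [← Finset.card_pos, hc]
      exact hl
    obtain ⟨c, hc⟩ := h1
    have h2 := μ.isLowerSet (Prod.mk_le_mk.2 ⟨Nat.zero_le c.1, Nat.zero_le c.2⟩ : ((0, 0) : ℕ × ℕ) ≤ (c.1, c.2)) hc
    exact h2
  have hR : 0 < μ.rowLen 0 := YoungDiagram.mem_iff_lt_rowLen.1 h00
  have hC : 0 < μ.colLen 0 := YoungDiagram.mem_iff_lt_colLen.1 h00
  have hcells : μ.cells = ((Finset.range (μ.rowLen 0)).image fun c => ((0 : ℕ), c)) ∪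
      ((Finset.range (μ.colLen 0 - 1)).image fun i => (i + 1, (0 : ℕ))) := by
    ext ⟨x, y⟩
    rw [YoungDiagram.mem_cells]
    simp only [Finset.mem_union, Finset.mem_image, Finset.mem_range]
    constructor
    · intro h
      rcases Nat.eq_zero_or_pos x with rfl | hx
      · left
        exact ⟨y, YoungDiagram.mem_iff_lt_rowLen.1 h, rfl⟩
      · rcases Nat.eq_zero_or_pos y with rfl | hy
        · right
          have := YoungDiagram.mem_iff_lt_colLen.1 h
          exact ⟨x - 1, by omega, by rw [Nat.sub_add_cancel hx]⟩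
        · exfalso
          apply h11
          exact μ.isLowerSet (Prod.mk_le_mk.2 ⟨hx, hy⟩ : ((1, 1) : ℕ × ℕ) ≤ (x, y)) h
    · rintro (⟨z, hz, h⟩ | ⟨z, hz, h⟩)
      · rw [← h]
        exact YoungDiagram.mem_iff_lt_rowLen.2 hz
      · rw [← h]
        exact YoungDiagram.mem_iff_lt_colLen.2 (by omega)
  have hcard : μ.cells.card = μ.rowLen 0 + (μ.colLen 0 - 1) := by
    rw [hcells, Finset.card_union_of_disjoint, Finset.card_image_of_injective, Finset.card_image_of_injective,
      Finset.card_range, Finset.card_range]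
    · intro a b hab
      simpa using hab
    · intro a b hab
      simpa using hab
    · rw [Finset.disjoint_left]
      intro c hc hc'
      simp only [Finset.mem_image, Finset.mem_range] at hc hc'
      obtain ⟨x, hx, rfl⟩ := hc
      obtain ⟨y, hy, hxy⟩ := hc'
      simp at hxy
  have hj : μ.colLen 0 - 1 < l := by omega
  refine ⟨μ.colLen 0 - 1, hj, ?_⟩
  apply YoungDiagram.ext
  ext ⟨x, y⟩
  rw [YoungDiagram.mem_cells, YoungDiagram.mem_cells, mem_hookD hj]
  simp only
  constructor
  · intro h
    rcases Nat.eq_zero_or_pos x with rfl | hx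
    · left
      have := YoungDiagram.mem_iff_lt_rowLen.1 h
      exact ⟨rfl, by omega⟩
    · rcases Nat.eq_zero_or_pos y with rfl | hy
      · right
        have := YoungDiagram.mem_iff_lt_colLen.1 h
        exact ⟨rfl, by omega⟩
      · exfalso
        apply h11
        exact μ.isLowerSet (Prod.mk_le_mk.2 ⟨hx, hy⟩ : ((1, 1) : ℕ × ℕ) ≤ (x, y)) h
  · rintro (⟨rfl, h⟩ | ⟨rfl, h⟩)
    · exact YoungDiagram.mem_iff_lt_rowLen.2 (by omega)
    · exact YoungDiagram.mem_iff_lt_colLen.2 (by omega)

theorem hook_inj {l j j' : ℕ} (hj : j < l) (hj' : j' < l) (h : hookD l j = hookD l j') : j = j' := by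
  have h1 := hook_colLen hj
  have h2 := hook_colLen hj'
  rw [h] at h1
  omega

end DST
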