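import Pool.Agent.DST.BLK

/-!
Module LHS of project DST (MP_0f73d6_co).

fac_finite: the blocks B are determined by the concatenated signed word (finitely many: W finite, signs) and the
 lengths of the blocks.
fac_sum: involution on the factorizations with at least two nonempty blocks: since the word has at most one letter
 0 (Cls.zero), among the nonempty blocks there is one without 0; let j be the first nonempty block without 0 and
 replace B j by tgl (B j).  The word of absolute values is unchanged (tgl_natAbs), j is still the first such block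
 (0 in tgl u iff 0 in u), blocks stay strictly increasing (tgl_sorted; hc holds since the absolute values of B j
 are a factor of a word of W, Cls.nodup), the sign changes (tgl_ng), the monomial does not (tgl_length).  So these
 terms sum to 0 (the sum equals its negative; MvPolynomial (Fin k) ℤ has no 2-torsion).
 The factorizations with exactly one nonempty block are in bijection with Fin k times IncW W (the word has length
 l ≥ 1, so there is at least one nonempty block); the monomial is X j ^ l.
-/

namespace DST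

variable {W : List ℕ → Prop}

private theorem lhs_fiber (w : List ℕ) : {v : List ℤ | v.map Int.natAbs = w}.Finite := by
  induction w with
  | nil =>
    refine (Set.finite_singleton ([] : List ℤ)).subset ?_
    intro v hv
    simpa using hv
  | cons a w ih =>
    have h1 : ({(a : ℤ), -(a : ℤ)} : Set ℤ).Finite := (Set.finite_singleton _).insert _
    refine (h1.image2 List.cons ih).subset ?_
    intro v hv
    cases v with
    | nil => simp at hv
    | cons x v =>
      simp only [Set.mem_setOf_eq, List.map_cons, List.cons.injEq] at hv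
      refine ⟨x, ?_, v, hv.2, rfl⟩
      have h2 := hv.1
      simp only [Set.mem_insert_iff, Set.mem_singleton_iff]
      omega

private theorem lhs_fin (hfin : {w | W w}.Finite) : {v : List ℤ | W (v.map Int.natAbs)}.Finite :=
  hfin.preimage' (f := fun v : List ℤ => v.map Int.natAbs) fun w _ => lhs_fiber w

theorem fac_finite (hfin : {w | W w}.Finite) (k : ℕ) : (FacW W k).Finite := by
  have h1 := lhs_fin hfin
  refine (h1.biUnion (t := fun v => Set.pi Set.univ fun _ : Fin k => {l : List ℤ | List.Sublist l v})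
    ?_).subset ?_
  · intro v _
    refine Set.Finite.pi fun _ => ?_
    refine (v.sublists.finite_toSet).subset ?_
    intro l hl
    exact List.mem_sublists.2 hl
  · rintro B ⟨-, hB⟩
    simp only [Set.mem_iUnion]
    refine ⟨(List.ofFn B).flatten, hB, ?_⟩
    intro j _
    have h2 : B j ∈ List.ofFn B := (List.mem_ofFn' B (B j)).2 ⟨j, rfl⟩
    exact (List.infix_of_mem_flatten h2).sublist

theorem inc_finite (hfin : {w | W w}.Finite) : (IncW W).Finite :=
  (lhs_fin hfin).subset fun _ hu => hu.2

private theorem lhs_flat (k : ℕ) : ∀ (B : Fin k → List ℤ) (j : Fin k),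
    (∀ j', j' ≠ j → B j' = []) → (List.ofFn B).flatten = B j := by
  induction k with
  | zero => intro B j; exact j.elim0
  | succ k ih =>
    intro B j h
    rw [List.ofFn_succ, List.flatten_cons]
    refine Fin.cases (motive := fun j => (∀ j', j' ≠ j → B j' = []) →
      B 0 ++ (List.ofFn fun i : Fin k => B i.succ).flatten = B j) ?_ ?_ j h
    · intro h
      have h1 : (List.ofFn fun i : Fin k => B i.succ).flatten = [] := by
        rw [List.flatten_eq_nil_iff]
        intro l hl
        obtain ⟨i, rfl⟩ := (List.mem_ofFn' _ _).1 hl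
        exact h _ (Fin.succ_ne_zero i)
      rw [h1, List.append_nil]
    · intro j' h
      rw [h 0 (Fin.succ_ne_zero j').symm, List.nil_append]
      exact ih (fun i => B i.succ) j' fun i hi => h _ (fun h' => hi (Fin.succ_injective _ h'))

private theorem lhs_zero_mem (u : List ℤ) : (0 : ℤ) ∈ tgl u ↔ (0 : ℤ) ∈ u := by
  have h : ∀ v : List ℤ, (0 : ℤ) ∈ v ↔ 0 ∈ v.map Int.natAbs := by
    intro v
    simp
  rw [h, h u, tgl_natAbs]

private theorem lhs_nil (u : List ℤ) : tgl u = [] ↔ u = [] := by
  rw [← List.length_eq_zero_iff, tgl_length, List.length_eq_zero_iff]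

/-- blocks which are nonempty and do not contain 0 -/
private def lhsJ {k : ℕ} (B : Fin k → List ℤ) : Finset (Fin k) :=
  Finset.univ.filter fun j => B j ≠ [] ∧ (0 : ℤ) ∉ B j

/-- the involution -/
private def lhsI {k : ℕ} (B : Fin k → List ℤ) : Fin k → List ℤ :=
  if h : (lhsJ B).Nonempty then Function.update B ((lhsJ B).min' h) (tgl (B ((lhsJ B).min' h)))
  else B

private theorem lhsI_nil {k : ℕ} (B : Fin k → List ℤ) (j : Fin k) : lhsI B j = [] ↔ B j = [] := by
  unfold lhsI
  split_ifs with h
  · by_cases hj : j = (lhsJ B).min' h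
    · subst hj
      rw [Function.update_self, lhs_nil]
    · rw [Function.update_of_ne hj]
  · rfl

private theorem lhsI_zero {k : ℕ} (B : Fin k → List ℤ) (j : Fin k) :
    (0 : ℤ) ∈ lhsI B j ↔ (0 : ℤ) ∈ B j := by
  unfold lhsI
  split_ifs with h
  · by_cases hj : j = (lhsJ B).min' h
    · subst hj
      rw [Function.update_self, lhs_zero_mem]
    · rw [Function.update_of_ne hj]
  · rfl

private theorem lhsI_J {k : ℕ} (B : Fin k → List ℤ) : lhsJ (lhsI B) = lhsJ B := by
  unfold lhsJ
  ext j
  simp only [Finset.mem_filter, Finset.mem_univ, true_and, ne_eq, lhsI_nil, lhsI_zero]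

private theorem lhsI_invol {k : ℕ} (B : Fin k → List ℤ) : lhsI (lhsI B) = B := by
  by_cases h : (lhsJ B).Nonempty
  · have h1 : lhsI B = Function.update B ((lhsJ B).min' h) (tgl (B ((lhsJ B).min' h))) := by
      unfold lhsI
      rw [dif_pos h]
    have h' : (lhsJ (lhsI B)).Nonempty := by rw [lhsI_J]; exact h
    have h2 : lhsI (lhsI B) = Function.update (lhsI B) ((lhsJ (lhsI B)).min' h')
        (tgl (lhsI B ((lhsJ (lhsI B)).min' h'))) := by
      conv_lhs => unfold lhsI
      rw [dif_pos]
      rfl
    have h3 : (lhsJ (lhsI B)).min' h' = (lhsJ B).min' h := by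
      congr 1
      exact lhsI_J B
    rw [h2, h3]
    funext j
    by_cases hj : j = (lhsJ B).min' h
    · subst hj
      rw [Function.update_self, h1, Function.update_self, tgl_tgl]
    · rw [Function.update_of_ne hj, h1, Function.update_of_ne hj]
  · have h1 : lhsI B = B := by
      unfold lhsI
      rw [dif_neg h]
    rw [h1, h1]

private theorem lhsI_abs {k : ℕ} (B : Fin k → List ℤ) (j : Fin k) :
    (lhsI B j).map Int.natAbs = (B j).map Int.natAbs := by
  unfold lhsI
  split_ifs with h
  · by_cases hj : j = (lhsJ B).min' h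
    · subst hj
      rw [Function.update_self, tgl_natAbs]
    · rw [Function.update_of_ne hj]
  · rfl

private theorem lhs_word {k : ℕ} (B : Fin k → List ℤ) :
    (List.ofFn B).flatten.map Int.natAbs =
      (List.ofFn fun j => (B j).map Int.natAbs).flatten := by
  rw [List.map_flatten, List.map_ofFn]
  rfl

private theorem lhsI_mem (hW : Cls W) {k : ℕ} {B : Fin k → List ℤ} (hB : B ∈ FacW W k) :
    lhsI B ∈ FacW W k := by
  obtain ⟨h1, h2⟩ := hB
  refine ⟨?_, ?_⟩
  · intro j
    unfold lhsI
    split_ifs with h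
    · by_cases hj : j = (lhsJ B).min' h
      · subst hj
        rw [Function.update_self]
        apply tgl_sorted (h1 _)
        intro p q a hpq
        have h3 : B ((lhsJ B).min' h) ∈ List.ofFn B := (List.mem_ofFn' B _).2 ⟨_, rfl⟩
        obtain ⟨P, Q, hPQ⟩ := List.infix_of_mem_flatten h3
        rw [← hPQ, List.map_append, List.map_append, hpq] at h2
        apply hW.nodup (P.map Int.natAbs ++ p) (q ++ Q.map Int.natAbs) a
        simpa using h2
      · rw [Function.update_of_ne hj]
        exact h1 j
    · exact h1 j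
  · rw [lhs_word] at h2 ⊢
    simp only [lhsI_abs]
    exact h2

/-- the term of a factorization -/
private noncomputable def lhsF {k : ℕ} (B : Fin k → List ℤ) : MvPolynomial (Fin k) ℤ :=
  ((-1 : ℤ) ^ (∑ j, ng (B j))) •
    (∏ j, (MvPolynomial.X j : MvPolynomial (Fin k) ℤ) ^ (B j).length)

private theorem lhsI_len {k : ℕ} (B : Fin k → List ℤ) (j : Fin k) :
    (lhsI B j).length = (B j).length := by
  have h := congrArg List.length (lhsI_abs B j)
  simpa using h

private theorem lhsI_term {k : ℕ} {B : Fin k → List ℤ} (hs : ∀ j, (B j).Pairwise (· < ·))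
    (hc : ∀ (j : Fin k) (p q : List ℕ) (a : ℕ), (B j).map Int.natAbs ≠ p ++ a :: a :: q)
    (h : (lhsJ B).Nonempty) : lhsF B + lhsF (lhsI B) = 0 := by
  have hsg : (-1 : ℤ) ^ (∑ j, ng (lhsI B j)) = - (-1 : ℤ) ^ (∑ j, ng (B j)) := by
    obtain ⟨j₀, hj₀⟩ : ∃ j₀, j₀ = (lhsJ B).min' h := ⟨_, rfl⟩
    have hmem : j₀ ∈ lhsJ B := by rw [hj₀]; exact Finset.min'_mem _ _
    have hmem2 := (Finset.mem_filter.1 hmem).2
    have h1 : lhsI B = Function.update B j₀ (tgl (B j₀)) := by
      unfold lhsI
      rw [dif_pos h, hj₀]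
    rw [← Finset.prod_pow_eq_pow_sum, ← Finset.prod_pow_eq_pow_sum,
      ← Finset.mul_prod_erase Finset.univ _ (Finset.mem_univ j₀),
      ← Finset.mul_prod_erase Finset.univ (fun j => (-1 : ℤ) ^ ng (B j)) (Finset.mem_univ j₀)]
    have h2 : ∏ j ∈ Finset.univ.erase j₀, (-1 : ℤ) ^ ng (lhsI B j) =
        ∏ j ∈ Finset.univ.erase j₀, (-1 : ℤ) ^ ng (B j) := by
      apply Finset.prod_congr rfl
      intro j hj
      rw [h1, Function.update_of_ne (Finset.ne_of_mem_erase hj)]
    have h3 : (-1 : ℤ) ^ ng (lhsI B j₀) = - (-1 : ℤ) ^ ng (B j₀) := by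
      rw [h1, Function.update_self]
      exact tgl_ng (hs j₀) (hc j₀) hmem2.1 hmem2.2
    rw [h2, h3]
    ring
  unfold lhsF
  simp only [lhsI_len]
  rw [hsg, neg_smul, add_neg_cancel]

private theorem lhs_term_single {k : ℕ} (B : Fin k → List ℤ) (j : Fin k)
    (h : ∀ j', j' ≠ j → B j' = []) :
    lhsF B = ((-1 : ℤ) ^ ng (B j)) • (MvPolynomial.X j : MvPolynomial (Fin k) ℤ) ^
      (B j).length := by
  unfold lhsF
  have h1 : ∑ j', ng (B j') = ng (B j) := by
    rw [Finset.sum_eq_single j]
    · intro j' _ hj'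
      rw [h j' hj']
      rfl
    · intro hj
      exact absurd (Finset.mem_univ j) hj
  have h2 : ∏ j', (MvPolynomial.X j' : MvPolynomial (Fin k) ℤ) ^ (B j').length =
      (MvPolynomial.X j : MvPolynomial (Fin k) ℤ) ^ (B j).length := by
    rw [Finset.prod_eq_single j]
    · intro j' _ hj'
      rw [h j' hj']
      simp
    · intro hj
      exact absurd (Finset.mem_univ j) hj
  rw [h1, h2]

theorem fac_sum (hW : Cls W) (hfin : {w | W w}.Finite) (l : ℕ) (hl : 1 ≤ l)
    (hlen : ∀ w, W w → w.length = l) (k : ℕ) :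
    ∑ᶠ B ∈ FacW W k, ((-1 : ℤ) ^ (∑ j, ng (B j))) •
        (∏ j, (MvPolynomial.X j : MvPolynomial (Fin k) ℤ) ^ (B j).length) =
      (∑ᶠ u ∈ IncW W, (-1 : ℤ) ^ ng u) • ∑ j, (MvPolynomial.X j : MvPolynomial (Fin k) ℤ) ^ l := by
  classical
  change ∑ᶠ B ∈ FacW W k, lhsF B = _
  rw [finsum_mem_eq_finite_toFinset_sum _ (fac_finite hfin k),
    finsum_mem_eq_finite_toFinset_sum _ (inc_finite hfin)]
  obtain ⟨F, hF⟩ : ∃ F, F = (fac_finite hfin k).toFinset := ⟨_, rfl⟩
  obtain ⟨U, hU⟩ : ∃ U, U = (inc_finite hfin).toFinset := ⟨_, rfl⟩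
  rw [← hF, ← hU]
  have hFm : ∀ B, B ∈ F ↔ B ∈ FacW W k := by
    intro B
    rw [hF, Set.Finite.mem_toFinset]
  have hUm : ∀ u, u ∈ U ↔ u ∈ IncW W := by
    intro u
    rw [hU, Set.Finite.mem_toFinset]
  rw [← Finset.sum_filter_add_sum_filter_not F (fun B => ∃ j, ∀ j', j' ≠ j → B j' = [])]
  have hzero : ∑ B ∈ F.filter (fun B => ¬ ∃ j, ∀ j', j' ≠ j → B j' = []), lhsF B = 0 := by
    have hprop : ∀ B ∈ F.filter (fun B => ¬ ∃ j, ∀ j', j' ≠ j → B j' = []),
        (lhsJ B).Nonempty ∧ (∀ j, (B j).Pairwise (· < ·)) ∧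
        (∀ (j : Fin k) (p q : List ℕ) (a : ℕ), (B j).map Int.natAbs ≠ p ++ a :: a :: q) := by
      intro B hB
      obtain ⟨hB1, hB2⟩ := Finset.mem_filter.1 hB
      obtain ⟨hs, hw⟩ := (hFm B).1 hB1
      refine ⟨?_, hs, ?_⟩
      · -- two nonempty blocks
        have hne : ∃ j₁, B j₁ ≠ [] := by
          by_contra hcon
          push Not at hcon
          have h1 : (List.ofFn B).flatten = [] := by
            rw [List.flatten_eq_nil_iff]
            intro l' hl'
            obtain ⟨i, rfl⟩ := (List.mem_ofFn' _ _).1 hl'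
            exact hcon i
          rw [h1] at hw
          have := hlen _ hw
          simp at this
          omega
        obtain ⟨j₁, hj₁⟩ := hne
        have hne2 : ∃ j₂, j₂ ≠ j₁ ∧ B j₂ ≠ [] := by
          by_contra hcon
          push Not at hcon
          exact hB2 ⟨j₁, hcon⟩
        obtain ⟨j₂, hj₂, hj₂'⟩ := hne2
        by_cases h01 : (0 : ℤ) ∈ B j₁
        · by_cases h02 : (0 : ℤ) ∈ B j₂
          · exfalso
            have hz := hW.zero _ hw
            rw [lhs_word, List.count_flatten, List.map_ofFn, List.sum_ofFn] at hz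
            have h1 : ∀ j, (0 : ℤ) ∈ B j →
                1 ≤ (List.count 0 ∘ fun j => (B j).map Int.natAbs) j := by
              intro j hj
              simp only [Function.comp_apply]
              rw [Nat.one_le_iff_ne_zero, ne_eq, List.count_eq_zero, not_not]
              simpa using hj
            have h2 := Finset.add_le_sum (s := Finset.univ)
              (f := List.count 0 ∘ fun j => (B j).map Int.natAbs)
              (fun _ _ => Nat.zero_le _) (Finset.mem_univ j₁) (Finset.mem_univ j₂) hj₂.symm
            have h3 := h1 j₁ h01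
            have h4 := h1 j₂ h02
            omega
          · exact ⟨j₂, Finset.mem_filter.2 ⟨Finset.mem_univ _, hj₂', h02⟩⟩
        · exact ⟨j₁, Finset.mem_filter.2 ⟨Finset.mem_univ _, hj₁, h01⟩⟩
      · intro j p q a hpq
        have h3 : B j ∈ List.ofFn B := (List.mem_ofFn' B _).2 ⟨_, rfl⟩
        obtain ⟨P, Q, hPQ⟩ := List.infix_of_mem_flatten h3
        rw [← hPQ, List.map_append, List.map_append, hpq] at hw
        apply hW.nodup (P.map Int.natAbs ++ p) (q ++ Q.map Int.natAbs) a
        simpa using hw
    have hterm : ∀ B ∈ F.filter (fun B => ¬ ∃ j, ∀ j', j' ≠ j → B j' = []),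
        lhsF B + lhsF (lhsI B) = 0 := by
      intro B hB
      obtain ⟨h1, h2, h3⟩ := hprop B hB
      exact lhsI_term h2 h3 h1
    refine Finset.sum_involution (fun B _ => lhsI B) (fun B hB => hterm B hB) ?_ ?_
      (fun B _ => lhsI_invol B)
    · intro B hB hne heq
      apply hne
      have h1 := hterm B hB
      rw [heq] at h1
      exact add_self_eq_zero.1 h1
    · intro B hB
      obtain ⟨hB1, hB2⟩ := Finset.mem_filter.1 hB
      refine Finset.mem_filter.2 ⟨(hFm _).2 (lhsI_mem hW ((hFm B).1 hB1)), ?_⟩
      rintro ⟨j, hj⟩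
      exact hB2 ⟨j, fun j' hj' => (lhsI_nil B j').1 (hj j' hj')⟩
  rw [hzero, add_zero]
  -- factorizations with one nonempty block
  have hulen : ∀ u ∈ IncW W, u.length = l := by
    intro u hu
    have := hlen _ hu.2
    simpa using this
  have hbij : ∑ x ∈ (Finset.univ : Finset (Fin k)) ×ˢ U,
      ((-1 : ℤ) ^ ng x.2) • (MvPolynomial.X x.1 : MvPolynomial (Fin k) ℤ) ^ l =
      ∑ B ∈ F.filter (fun B => ∃ j, ∀ j', j' ≠ j → B j' = []), lhsF B := by
    refine Finset.sum_bij (fun x _ => Function.update (fun _ => ([] : List ℤ)) x.1 x.2) ?_ ?_ ?_ ?_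
    · rintro ⟨j, u⟩ hx
      obtain ⟨-, hu⟩ := Finset.mem_product.1 hx
      have hu' := (hUm u).1 hu
      have hj : ∀ j', j' ≠ j → Function.update (fun _ : Fin k => ([] : List ℤ)) j u j' = [] :=
        fun j' hj' => Function.update_of_ne hj' _ _
      refine Finset.mem_filter.2 ⟨(hFm _).2 ⟨?_, ?_⟩, j, hj⟩
      · intro j'
        by_cases hjj : j' = j
        · subst hjj
          simp only [Function.update_self]
          exact hu'.1
        · simp only
          rw [hj j' hjj]
          exact List.Pairwise.nil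
      · simp only
        rw [lhs_flat k _ j hj, Function.update_self]
        exact hu'.2
    · rintro ⟨j, u⟩ hx ⟨j', u'⟩ hx' heq
      obtain ⟨-, hu⟩ := Finset.mem_product.1 hx
      have hu1 := hulen u ((hUm u).1 hu)
      simp only at heq hu1
      have h1 := congrFun heq j
      rw [Function.update_self] at h1
      by_cases hjj : j = j'
      · subst hjj
        rw [Function.update_self] at h1
        rw [h1]
      · rw [Function.update_of_ne hjj] at h1
        rw [h1] at hu1
        simp at hu1
        omega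
    · intro B hB
      obtain ⟨hB1, j, hj⟩ := Finset.mem_filter.1 hB
      obtain ⟨hs, hw⟩ := (hFm B).1 hB1
      rw [lhs_flat k B j hj] at hw
      refine ⟨(j, B j), Finset.mem_product.2 ⟨Finset.mem_univ _, (hUm _).2 ⟨hs j, hw⟩⟩, ?_⟩
      funext j'
      simp only
      by_cases hjj : j' = j
      · subst hjj
        rw [Function.update_self]
      · rw [Function.update_of_ne hjj, hj j' hjj]
    · rintro ⟨j, u⟩ hx
      obtain ⟨-, hu⟩ := Finset.mem_product.1 hx
      have hu1 := hulen u ((hUm u).1 hu)
      have hj : ∀ j', j' ≠ j → Function.update (fun _ : Fin k => ([] : List ℤ)) j u j' = [] :=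
        fun j' hj' => Function.update_of_ne hj' _ _
      simp only
      rw [lhs_term_single _ j hj, Function.update_self, hu1]
  rw [← hbij, Finset.sum_product, Finset.smul_sum]
  apply Finset.sum_congr rfl
  intro j _
  rw [Finset.sum_smul]

end DST
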