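import Pool.Agent.DST.CLB

/-!
Module VAL of project DST (MP_0f73d6_co).

Rows of signed tableaux.  row_lt: T i j ≤ T i (j+1), and equality would give adjacent equal letters (adjc), so
T i j < T i (j+1); also the absolute values of neighbours are different (adjc).
exists_val: the row is strictly increasing; take s with least |T i s| on 0 ≤ j < hi i (finite nonempty set).
  For j < s: T i j < T i s and |T i j| ≥ |T i s| so T i j < 0 (if T i j ≥ 0 then 0 ≤ T i j < T i s, |T i j| < |T i s|);
  T i j < T i (j+1): if T i (j+1) ≤ 0 then the absolute value drops strictly; if T i (j+1) > 0 then j+1 = s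
  (j+1 < s would give T i (j+1) < 0), and |T i s| ≤ |T i j| with equality excluded by adjc.
  For j > s similarly.
val_unique: both s and s' are valleys, s < s': then |T i s'| < |T i s| (decreasing up to s') and |T i s| < |T i s'|.
val_min: chains of the inequalities.
vcol_spec: by Exists.choose_spec.
-/

namespace DST

variable {W : List ℕ → Prop} {r : ℤ} {hi : ℤ → ℤ} {T : ℤ → ℤ → ℤ}

theorem row_lt (hW : Cls W) (hT : Tab W r hi T) {i j : ℤ} (h1 : Cell r z0 hi i j)
    (h2 : Cell r z0 hi i (j + 1)) : T i j < T i (j + 1) := by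
  have A := hT.row i j h1 h2
  have B := adjc hW hT.w h1 h2
  rcases lt_or_eq_of_le A with h | h
  · exact h
  · exact absurd (congrArg Int.natAbs h) B

theorem exists_val (hW : Cls W) (hS : Shp r z0 hi) (hT : Tab W r hi T) {i : ℤ} (i0 : 0 ≤ i)
    (ir : i < r) : ∃ s, IsVal hi T i s := by
  have hne := hS.ne i i0 ir
  simp only [z0] at hne
  have cell : ∀ j, 0 ≤ j → j < hi i → Cell r z0 hi i j := fun j h0 h1 => ⟨i0, ir, h0, h1⟩
  have step : ∀ j, 0 ≤ j → j + 1 < hi i → T i j < T i (j + 1) := fun j h0 h1 =>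
    row_lt hW hT (cell j h0 (by omega)) (cell (j + 1) (by omega) h1)
  have nab : ∀ j, 0 ≤ j → j + 1 < hi i → (T i j).natAbs ≠ (T i (j + 1)).natAbs := fun j h0 h1 =>
    adjc hW hT.w (cell j h0 (by omega)) (cell (j + 1) (by omega) h1)
  have mono : ∀ x y, 0 ≤ x → x < y → y < hi i → T i x < T i y := by
    intro x y hx hxy hy
    obtain ⟨n, hn⟩ : ∃ n : ℕ, y = x + 1 + n := ⟨(y - (x + 1)).toNat, by omega⟩
    subst hn
    clear hxy
    induction n with
    | zero => simpa using step x hx (by push_cast at hy; omega)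
    | succ n ih =>
      have h1 := ih (by push_cast at hy; omega)
      have h2 := step (x + 1 + n) (by omega) (by push_cast at hy; omega)
      have e : x + 1 + ((n + 1 : ℕ) : ℤ) = x + 1 + n + 1 := by push_cast; ring
      rw [e]
      omega
  obtain ⟨s, hs, hmin⟩ := Finset.exists_min_image (Finset.Ico 0 (hi i))
    (fun j => (T i j).natAbs) ⟨0, by simp [hne]⟩
  simp only [Finset.mem_Ico] at hs hmin
  refine ⟨s, hs.1, hs.2, ?_, ?_⟩
  · intro j j0 js
    have a1 := mono j s j0 js hs.2
    have a2 := hmin j ⟨j0, by omega⟩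
    have a3 : T i j < 0 := by omega
    refine ⟨a3, ?_⟩
    have b1 := step j j0 (by omega)
    have b2 := nab j j0 (by omega)
    by_cases c : j + 1 = s
    · rw [c] at b1 b2 ⊢
      omega
    · have c1 := mono (j + 1) s (by omega) (by omega) hs.2
      have c2 := hmin (j + 1) ⟨by omega, by omega⟩
      omega
  · intro j js jh
    have a1 := mono s j hs.1 js jh
    have a2 := hmin j ⟨by omega, jh⟩
    have a3 : 0 < T i j := by omega
    refine ⟨a3, ?_⟩
    have b1 := step (j - 1) (by omega) (by omega)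
    have b2 := nab (j - 1) (by omega) (by omega)
    have e : j - 1 + 1 = j := by ring
    rw [e] at b1 b2
    by_cases c : j - 1 = s
    · rw [c] at b1 b2 ⊢
      omega
    · have c1 := mono s (j - 1) hs.1 (by omega) (by omega)
      have c2 := hmin (j - 1) ⟨by omega, by omega⟩
      omega

private theorem VAL_lt {i s : ℤ} (h : IsVal hi T i s) {j : ℤ} (h0 : 0 ≤ j) (h2 : j < s) :
    (T i s).natAbs < (T i j).natAbs := by
  obtain ⟨s0, s1, hd, hu⟩ := h
  obtain ⟨n, hn⟩ : ∃ n : ℕ, s = j + 1 + n := ⟨(s - (j + 1)).toNat, by omega⟩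
  have key : ∀ m : ℕ, j + 1 + m ≤ s → (T i (j + 1 + m)).natAbs < (T i j).natAbs := by
    intro m
    induction m with
    | zero => intro hm; simpa using (hd j h0 h2).2
    | succ m ih =>
      intro hm
      have h1 := ih (by push_cast at hm; omega)
      have h2 := (hd (j + 1 + m) (by omega) (by push_cast at hm; omega)).2
      have e : j + 1 + ((m + 1 : ℕ) : ℤ) = j + 1 + m + 1 := by push_cast; ring
      rw [e]
      omega
  rw [hn]
  exact key n (by omega)

private theorem VAL_gt {i s : ℤ} (h : IsVal hi T i s) {j : ℤ} (h1 : j < hi i) (h2 : s < j) :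
    (T i s).natAbs < (T i j).natAbs := by
  obtain ⟨s0, s1, hd, hu⟩ := h
  obtain ⟨n, hn⟩ : ∃ n : ℕ, j = s + 1 + n := ⟨(j - (s + 1)).toNat, by omega⟩
  have key : ∀ m : ℕ, s + 1 + m < hi i → (T i s).natAbs < (T i (s + 1 + m)).natAbs := by
    intro m
    induction m with
    | zero =>
      intro hm
      have := (hu (s + 1) (by omega) (by push_cast at hm; omega)).2
      simpa using this
    | succ m ih =>
      intro hm
      have h1 := ih (by push_cast at hm; omega)
      have h2 := (hu (s + 1 + m + 1) (by omega) (by push_cast at hm; omega)).2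
      have e : s + 1 + ((m + 1 : ℕ) : ℤ) = s + 1 + m + 1 := by push_cast; ring
      have e2 : s + 1 + (m : ℤ) + 1 - 1 = s + 1 + m := by ring
      rw [e2] at h2
      rw [e]
      omega
  rw [hn]
  exact key n (by omega)

theorem val_min {i s : ℤ} (h : IsVal hi T i s) {j : ℤ} (h0 : 0 ≤ j) (h1 : j < hi i) (h2 : j ≠ s) :
    (T i s).natAbs < (T i j).natAbs := by
  rcases lt_or_gt_of_ne h2 with h3 | h3
  · exact VAL_lt h h0 h3
  · exact VAL_gt h h1 h3

theorem val_unique {i s s' : ℤ} (h : IsVal hi T i s) (h' : IsVal hi T i s') : s = s' := by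
  by_contra hne
  have h1 := val_min h h'.1 h'.2.1 (Ne.symm hne)
  have h2 := val_min h' h.1 h.2.1 hne
  omega

theorem vcol_spec (hW : Cls W) (hS : Shp r z0 hi) (hT : Tab W r hi T) {i : ℤ} (i0 : 0 ≤ i)
    (ir : i < r) : IsVal hi T i (vcol hi T i) := by
  have h := exists_val hW hS hT i0 ir
  unfold vcol
  rw [dif_pos h]
  exact h.choose_spec

theorem vcol_eq {i s : ℤ} (h : IsVal hi T i s) : vcol hi T i = s := by
  have hex : ∃ s, IsVal hi T i s := ⟨s, h⟩
  unfold vcol
  rw [dif_pos hex]
  exact val_unique hex.choose_spec h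

end DST
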