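import Pool.Agent.DST.HKS
import Pool.Agent.DST.VAL

/-!
Module ONE of project DST (MP_0f73d6_co).

one_row: signed tableaux of one row with l cells (hkhi l 0, r = 1) are strictly increasing signed words:
T → [T 0 0, …, T 0 (l-1)], inverse u → (T 0 j = u[j] for 0 ≤ j < l, 0 elsewhere).  The word of |T| is the list of
absolute values (hook_cells with j = 0), strict increase by row_lt (chain → Pairwise), bars = number of
negative letters.  col and eg are vacuous.
-/

namespace DST

variable {W : List ℕ → Prop}

/-- The one-row array of a word. -/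
def oneE (l : ℕ) (u : List ℤ) : ℤ → ℤ → ℤ := fun i j =>
  if i = 0 ∧ 0 ≤ j ∧ j < l then u.getD j.toNat 0 else 0

theorem one_cell {l : ℕ} {i j : ℤ} :
    Cell (((0 : ℕ) : ℤ) + 1) z0 (hkhi l ((0 : ℕ) : ℤ)) i j ↔ i = 0 ∧ 0 ≤ j ∧ j < l := by
  unfold Cell hkhi z0
  constructor
  · rintro ⟨h1, h2, h3, h4⟩
    obtain rfl : i = 0 := by
      push_cast at h2
      omega
    simp at h4
    exact ⟨rfl, h3, h4⟩
  · rintro ⟨rfl, h3, h4⟩
    refine ⟨le_refl _, by simp, h3, by simpa using h4⟩

theorem one_word {l : ℕ} (hl : 1 ≤ l) (a : ℤ → ℤ → ℕ) :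
    word (((0 : ℕ) : ℤ) + 1) z0 (hkhi l ((0 : ℕ) : ℤ)) a = (List.range l).map fun t : ℕ => a 0 (t : ℤ) := by
  unfold word
  rw [hook_cells (by omega)]
  simp [← List.map_eq_flatMap]

theorem one_get {l : ℕ} {u : List ℤ} (hu : u.length = l) {t : ℕ} (ht : t < l) :
    oneE l u 0 (t : ℤ) = u[t] := by
  unfold oneE
  rw [if_pos ⟨rfl, by omega, by omega⟩, Int.toNat_natCast, List.getD_eq_getElem _ _ (by omega)]

theorem one_map {l : ℕ} {u : List ℤ} (hu : u.length = l) :
    (List.range l).map (fun t : ℕ => oneE l u 0 (t : ℤ)) = u := by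
  apply List.ext_getElem
  · simp [hu]
  · intro n h1 h2
    simp only [List.getElem_map, List.getElem_range]
    exact one_get hu (by simpa using h1)

theorem one_ng {l : ℕ} {u : List ℤ} (hu : u.length = l) :
    ng u = bars (((0 : ℕ) : ℤ) + 1) (hkhi l ((0 : ℕ) : ℤ)) (oneE l u) := by
  have h1 : bars (((0 : ℕ) : ℤ) + 1) (hkhi l ((0 : ℕ) : ℤ)) (oneE l u) =
      ((Finset.Ico (0 : ℤ) l).filter fun j => oneE l u 0 j < 0).card := by
    unfold bars hkhi
    have h3 : Finset.Ico (0 : ℤ) (((0 : ℕ) : ℤ) + 1) = {0} := by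
      ext x
      simp only [Finset.mem_Ico, Finset.mem_singleton]
      push_cast
      omega
    rw [h3, Finset.sum_singleton]
    simp
  rw [h1]
  have h2 : ng u = ((Finset.range l).filter fun t : ℕ => oneE l u 0 (t : ℤ) < 0).card := by
    unfold ng
    conv_lhs => rw [← one_map hu]
    rw [List.countP_map, List.countP_eq_length_filter]
    rfl
  rw [h2]
  apply Finset.card_bij (fun (t : ℕ) _ => (t : ℤ))
  · intro t ht
    simp only [Finset.mem_filter, Finset.mem_range, Finset.mem_Ico] at ht ⊢
    exact ⟨⟨by omega, by omega⟩, ht.2⟩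
  · intro t _ t' _ h
    exact_mod_cast h
  · intro j hj
    simp only [Finset.mem_filter, Finset.mem_Ico] at hj
    refine ⟨j.toNat, ?_, by omega⟩
    simp only [Finset.mem_filter, Finset.mem_range]
    refine ⟨by omega, ?_⟩
    rw [Int.toNat_of_nonneg hj.1.1]
    exact hj.2

theorem one_row (hW : Cls W) (l : ℕ) (hl : 1 ≤ l) (hlen : ∀ w, W w → w.length = l) :
    ∑ᶠ u ∈ IncW W, (-1 : ℤ) ^ ng u =
      ∑ᶠ T ∈ {T | Tab W (((0 : ℕ) : ℤ) + 1) (hkhi l ((0 : ℕ) : ℤ)) T},
        (-1 : ℤ) ^ bars (((0 : ℕ) : ℤ) + 1) (hkhi l ((0 : ℕ) : ℤ)) T := by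
  have hul : ∀ u ∈ IncW W, u.length = l := by
    intro u hu
    have := hlen _ hu.2
    simpa using this
  apply finsum_mem_eq_of_bijOn (oneE l)
  · refine ⟨?_, ?_, ?_⟩
    · intro u hu
      have hlu := hul u hu
      obtain ⟨hp, hw⟩ := hu
      refine ⟨?_, ?_, ?_, ?_, ?_⟩
      · intro i j h
        rw [one_cell] at h
        unfold oneE
        rw [if_neg h]
      · rw [one_word hl]
        have : (List.range l).map (fun t : ℕ => (oneE l u 0 (t : ℤ)).natAbs) = u.map Int.natAbs := by
          conv_rhs => rw [← one_map hlu]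
          rw [List.map_map]
          rfl
        rw [this]
        exact hw
      · intro i j h1 h2
        rw [one_cell] at h1 h2
        obtain ⟨rfl, h3, h4⟩ := h1
        obtain ⟨n, rfl⟩ := Int.eq_ofNat_of_zero_le h3
        have h5 : ((n : ℤ) + 1) = ((n + 1 : ℕ) : ℤ) := by push_cast; ring
        have h6 : n + 1 < l := by
          have := h2.2.2
          omega
        rw [h5, one_get hlu (by omega), one_get hlu h6]
        exact le_of_lt (List.pairwise_iff_getElem.1 hp n (n + 1) (by omega) (by omega) (by omega))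
      · intro i j h1 h2
        rw [one_cell] at h1 h2
        omega
      · intro i j h1 h2
        rw [one_cell] at h1 h2
        omega
    · intro u hu u' hu' h
      rw [← one_map (hul u hu), ← one_map (hul u' hu'), h]
    · intro T hT
      have hT : Tab W (((0 : ℕ) : ℤ) + 1) (hkhi l ((0 : ℕ) : ℤ)) T := hT
      have hch : ∀ (d s : ℕ), s + d + 1 < l → T 0 (s : ℤ) < T 0 ((s + d + 1 : ℕ) : ℤ) := by
        intro d
        induction d with
        | zero =>
          intro s hs
          have := row_lt hW hT (i := 0) (j := (s : ℤ)) (one_cell.2 ⟨rfl, by omega, by omega⟩)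
            (one_cell.2 ⟨rfl, by omega, by omega⟩)
          push_cast
          simpa using this
        | succ d ih =>
          intro s hs
          refine (ih s (by omega)).trans ?_
          have := row_lt hW hT (i := 0) (j := ((s + d + 1 : ℕ) : ℤ))
            (one_cell.2 ⟨rfl, by omega, by omega⟩) (one_cell.2 ⟨rfl, by omega, by omega⟩)
          rw [show ((s + (d + 1) + 1 : ℕ) : ℤ) = ((s + d + 1 : ℕ) : ℤ) + 1 by push_cast; ring]
          exact this
      refine ⟨(List.range l).map fun t : ℕ => T 0 (t : ℤ), ⟨?_, ?_⟩, ?_⟩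
      · rw [List.pairwise_map]
        refine List.Pairwise.imp_of_mem ?_ List.pairwise_lt_range
        intro s t _ ht hst
        rw [List.mem_range] at ht
        have := hch (t - s - 1) s (by omega)
        rw [show s + (t - s - 1) + 1 = t by omega] at this
        exact this
      · have h1 := hT.w
        rw [one_word hl] at h1
        rw [List.map_map]
        exact h1
      · funext i j
        by_cases h : i = 0 ∧ 0 ≤ j ∧ j < l
        · unfold oneE
          rw [if_pos h]
          obtain ⟨rfl, h3, h4⟩ := h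
          rw [List.getD_eq_getElem _ _ (by simp; omega)]
          simp only [List.getElem_map, List.getElem_range]
          rw [Int.toNat_of_nonneg h3]
        · unfold oneE
          rw [if_neg h]
          exact (hT.off i j (by rw [one_cell]; exact h)).symm
  · intro u hu
    rw [one_ng (hul u hu)]

end DST
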