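import Pool.Agent.DST.Core

/-!
Module SCB of project DST (MP_0f73d6_co).

For a finite set U of variables and m not in U: sum over j of (-1)^j e_j(U) h_(n-j)(U ∪ {m}) = x_m^n.
Proof by induction on U.  U empty: only j = 0, h_n({m}) = x_m^n.  Insert y: e_j(U+y) = e_j(U) + x_y e_(j-1)(U) and
h_n(U+y+m) = h_n(U+m) + x_y h_(n-1)(U+y+m); substitute: the sum telescopes to the one for U.
(Alternative: sign reversing involution moving the largest element between C and R.)
Here C runs over subsets of U of size j and R over multisets of size n-j with elements in U ∪ {m}.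
-/

namespace DST

open MvPolynomial

/-- elementary symmetric polynomial of a set of variables -/
noncomputable def scbE {k : ℕ} (U : Finset (Fin k)) (j : ℕ) : MvPolynomial (Fin k) ℤ :=
  ∑ C ∈ U.powersetCard j, ∏ x ∈ C, (X x : MvPolynomial (Fin k) ℤ)

open Classical in
/-- complete symmetric polynomial of a set of variables -/
noncomputable def scbH {k : ℕ} (V : Finset (Fin k)) (n : ℕ) : MvPolynomial (Fin k) ℤ :=
  ∑ R ∈ (Finset.univ : Finset (Sym (Fin k) n)).filter (fun R => ∀ x ∈ R, x ∈ V),
    ((R : Multiset (Fin k)).map (X : Fin k → MvPolynomial (Fin k) ℤ)).prod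

theorem scbE_zero {k : ℕ} (U : Finset (Fin k)) : scbE U 0 = 1 := by
  simp [scbE]

theorem scbE_empty {k : ℕ} (j : ℕ) : scbE (∅ : Finset (Fin k)) (j + 1) = 0 := by
  rw [scbE, Finset.powersetCard_eq_empty.2 (by simp), Finset.sum_empty]

theorem scbE_insert {k : ℕ} {U : Finset (Fin k)} {y : Fin k} (hy : y ∉ U) (j : ℕ) :
    scbE (insert y U) (j + 1) = scbE U (j + 1) + X y * scbE U j := by
  classical
  rw [scbE, Finset.powersetCard_succ_insert hy, Finset.sum_union, Finset.sum_image]
  · rw [scbE, scbE, Finset.mul_sum]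
    congr 1
    refine Finset.sum_congr rfl fun C hC => ?_
    have : y ∉ C := fun h => hy ((Finset.mem_powersetCard.1 hC).1 h)
    rw [Finset.prod_insert this]
  · intro C hC D hD hCD
    have h1 : y ∉ C := fun h => hy ((Finset.mem_powersetCard.1 hC).1 h)
    have h2 : y ∉ D := fun h => hy ((Finset.mem_powersetCard.1 hD).1 h)
    rw [← Finset.erase_insert h1, hCD, Finset.erase_insert h2]
  · rw [Finset.disjoint_left]
    intro C hC hC'
    obtain ⟨D, _, rfl⟩ := Finset.mem_image.1 hC'
    exact hy ((Finset.mem_powersetCard.1 hC).1 (Finset.mem_insert_self _ _))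

theorem scbH_zero {k : ℕ} (V : Finset (Fin k)) : scbH V 0 = 1 := by
  classical
  rw [scbH]
  have : (Finset.univ : Finset (Sym (Fin k) 0)).filter (fun R => ∀ x ∈ R, x ∈ V) = {Sym.nil} := by
    ext R
    simp only [Finset.mem_filter, Finset.mem_univ, true_and, Finset.mem_singleton]
    constructor
    · intro _
      exact Sym.eq_nil_of_card_zero R
    · rintro rfl x hx
      simp at hx
  rw [this]
  simp

theorem scbH_single {k : ℕ} (m : Fin k) (n : ℕ) : scbH ({m} : Finset (Fin k)) n = X m ^ n := by
  classical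
  rw [scbH]
  have : (Finset.univ : Finset (Sym (Fin k) n)).filter (fun R => ∀ x ∈ R, x ∈ ({m} : Finset (Fin k)))
      = {Sym.replicate n m} := by
    ext R
    simp only [Finset.mem_filter, Finset.mem_univ, true_and, Finset.mem_singleton]
    exact Sym.eq_replicate.symm
  rw [this, Finset.sum_singleton, Sym.coe_replicate, Multiset.map_replicate,
    Multiset.prod_replicate]

theorem scbH_insert {k : ℕ} {V : Finset (Fin k)} {y : Fin k} (hy : y ∉ V) (n : ℕ) :
    scbH (insert y V) (n + 1) = scbH V (n + 1) + X y * scbH (insert y V) n := by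
  classical
  rw [scbH, ← Finset.sum_filter_add_sum_filter_not _ (fun R : Sym (Fin k) (n + 1) => y ∉ R)]
  congr 1
  · rw [scbH]
    refine Finset.sum_congr ?_ fun _ _ => rfl
    ext R
    simp only [Finset.mem_filter, Finset.mem_univ, true_and, Finset.mem_insert]
    constructor
    · rintro ⟨h1, h2⟩ x hx
      rcases h1 x hx with rfl | h
      · exact absurd hx h2
      · exact h
    · intro h
      exact ⟨fun x hx => Or.inr (h x hx), fun hx => hy (h y hx)⟩
  · rw [scbH, Finset.mul_sum]
    symm
    refine Finset.sum_bij (fun R _ => y ::ₛ R) ?_ ?_ ?_ ?_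
    · intro R hR
      simp only [Finset.mem_filter, Finset.mem_univ, true_and, not_not] at hR ⊢
      refine ⟨fun x hx => ?_, Sym.mem_cons_self y R⟩
      rcases Sym.mem_cons.1 hx with rfl | h
      · exact Finset.mem_insert_self _ _
      · exact hR x h
    · intro R _ R' _ h
      exact Sym.cons_inj_right y R R' |>.1 h
    · intro R hR
      simp only [Finset.mem_filter, Finset.mem_univ, true_and, not_not] at hR
      refine ⟨R.erase y hR.2, ?_, Sym.cons_erase hR.2⟩
      simp only [Finset.mem_filter, Finset.mem_univ, true_and]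
      intro x hx
      apply hR.1
      rw [← Sym.cons_erase hR.2]
      exact Sym.mem_cons_of_mem hx
    · intro R _
      rw [Sym.coe_cons, Multiset.map_cons, Multiset.prod_cons]

theorem scb_step {A : Type*} [CommRing A] (e e' h h' : ℕ → A) (c : A) (he0 : e' 0 = e 0)
    (he : ∀ j, e' (j + 1) = e (j + 1) + c * e j) (hh0 : h' 0 = h 0)
    (hh : ∀ j, h' (j + 1) = h (j + 1) + c * h' j) (n : ℕ) :
    ∑ j ∈ Finset.range (n + 1), (-1 : A) ^ j * e' j * h' (n - j) =
      ∑ j ∈ Finset.range (n + 1), (-1 : A) ^ j * e j * h (n - j) := by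
  have hE : PowerSeries.mk (fun j => (-1 : A) ^ j * e' j) =
      (1 - PowerSeries.C c * PowerSeries.X) * PowerSeries.mk (fun j => (-1 : A) ^ j * e j) := by
    ext j
    rw [sub_mul, one_mul, map_sub, mul_assoc, PowerSeries.coeff_C_mul]
    cases j with
    | zero => simp [he0]
    | succ j =>
      rw [PowerSeries.coeff_succ_X_mul]
      simp only [PowerSeries.coeff_mk]
      rw [he]
      ring
  have hH : PowerSeries.mk h =
      (1 - PowerSeries.C c * PowerSeries.X) * PowerSeries.mk h' := by
    ext j
    rw [sub_mul, one_mul, map_sub, mul_assoc, PowerSeries.coeff_C_mul]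
    cases j with
    | zero => simp [hh0]
    | succ j =>
      rw [PowerSeries.coeff_succ_X_mul]
      simp only [PowerSeries.coeff_mk]
      rw [hh]
      ring
  have h1 : PowerSeries.mk (fun j => (-1 : A) ^ j * e' j) * PowerSeries.mk h' =
      PowerSeries.mk (fun j => (-1 : A) ^ j * e j) * PowerSeries.mk h := by
    rw [hE, hH]
    ring
  have h2 := congrArg (PowerSeries.coeff n) h1
  rw [PowerSeries.coeff_mul, PowerSeries.coeff_mul] at h2
  simp only [PowerSeries.coeff_mk] at h2
  rw [Finset.Nat.sum_antidiagonal_eq_sum_range_succ (fun i j => (-1 : A) ^ i * e' i * h' j) n,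
    Finset.Nat.sum_antidiagonal_eq_sum_range_succ (fun i j => (-1 : A) ^ i * e i * h j) n] at h2
  exact h2

theorem scb_main {k : ℕ} (U : Finset (Fin k)) (m : Fin k) (hm : m ∉ U) (n : ℕ) :
    ∑ j ∈ Finset.range (n + 1),
      (-1 : MvPolynomial (Fin k) ℤ) ^ j * scbE U j * scbH (insert m U) (n - j) = X m ^ n := by
  classical
  induction U using Finset.induction_on with
  | empty =>
    rw [Finset.sum_range_succ', Finset.sum_eq_zero]
    · rw [scbE_zero]
      simp [scbH_single]
    · intro j _
      rw [scbE_empty]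
      simp
  | insert y U hy ih =>
    have hm' : m ∉ U := fun h => hm (Finset.mem_insert_of_mem h)
    have hym : y ∉ insert m U := by
      intro h
      rcases Finset.mem_insert.1 h with h | h
      · exact hm (h ▸ Finset.mem_insert_self _ _)
      · exact hy h
    rw [← ih hm', Finset.insert_comm]
    exact scb_step (scbE U) (scbE (insert y U)) (scbH (insert m U)) (scbH (insert y (insert m U)))
      (X y) (by rw [scbE_zero, scbE_zero]) (scbE_insert hy) (by rw [scbH_zero, scbH_zero])
      (scbH_insert hym) n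

open Classical in
theorem eh_sum {k : ℕ} (U : Finset (Fin k)) (m : Fin k) (hm : m ∉ U) (n : ℕ) :
    ∑ j ∈ Finset.range (n + 1), (-1 : ℤ) ^ j •
      ∑ C ∈ U.powersetCard j,
        ∑ R ∈ (Finset.univ : Finset (Sym (Fin k) (n - j))).filter (fun R => ∀ x ∈ R, x ∈ insert m U),
          (∏ x ∈ C, (X x : MvPolynomial (Fin k) ℤ)) *
            ((R : Multiset (Fin k)).map (X : Fin k → MvPolynomial (Fin k) ℤ)).prod =
      (X m : MvPolynomial (Fin k) ℤ) ^ n := by
  rw [← scb_main U m hm n]
  refine Finset.sum_congr rfl fun j _ => ?_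
  have h1 : ∑ C ∈ U.powersetCard j,
        ∑ R ∈ (Finset.univ : Finset (Sym (Fin k) (n - j))).filter (fun R => ∀ x ∈ R, x ∈ insert m U),
          (∏ x ∈ C, (X x : MvPolynomial (Fin k) ℤ)) *
            ((R : Multiset (Fin k)).map (X : Fin k → MvPolynomial (Fin k) ℤ)).prod =
      scbE U j * scbH (insert m U) (n - j) := by
    rw [scbE, scbH, Finset.sum_mul_sum]
  rw [h1, mul_assoc, zsmul_eq_mul]
  simp

end DST
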