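import Pool.Agent.DST.SCA
import Pool.Agent.DST.SCB

/-!
Module SCC of project DST (MP_0f73d6_co).

Sum over the hooks: by schur_hook, exchange of sums, and eh_sum with U = {x > m}, n = l-1 (x ∈ insert m U iff m ≤ x), the
sum is the sum over m of X m * X m^(l-1).
-/

namespace DST

open MvPolynomial

theorem schur_hooks (k l : ℕ) (hl : 1 ≤ l) :
    ∑ j ∈ Finset.range l, (-1 : ℤ) ^ j • schur k (hookD l j) =
      ∑ m : Fin k, (X m : MvPolynomial (Fin k) ℤ) ^ l := by
  classical
  obtain ⟨n, rfl⟩ : ∃ n, l = n + 1 := ⟨l - 1, by omega⟩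
  have h1 : ∀ m : Fin k, (X m : MvPolynomial (Fin k) ℤ) ^ (n + 1) =
      ∑ j ∈ Finset.range (n + 1), (-1 : ℤ) ^ j •
        ∑ C ∈ (Finset.univ.filter fun x : Fin k => m < x).powersetCard j,
        ∑ R ∈ (Finset.univ : Finset (Sym (Fin k) (n + 1 - 1 - j))).filter
            (fun R => ∀ x ∈ R, m ≤ x),
          X m * (∏ x ∈ C, (X x : MvPolynomial (Fin k) ℤ)) *
            ((R : Multiset (Fin k)).map (X : Fin k → MvPolynomial (Fin k) ℤ)).prod := by
    intro m
    have hm : m ∉ (Finset.univ.filter fun x : Fin k => m < x) := by simp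
    rw [pow_succ', ← eh_sum (Finset.univ.filter fun x : Fin k => m < x) m hm n, Finset.mul_sum]
    apply Finset.sum_congr rfl
    intro j _
    rw [mul_smul_comm, Finset.mul_sum]
    congr 1
    apply Finset.sum_congr rfl
    intro C _
    rw [Finset.mul_sum]
    have h2 : (Finset.univ : Finset (Sym (Fin k) (n - j))).filter
        (fun R => ∀ x ∈ R, x ∈ insert m (Finset.univ.filter fun x : Fin k => m < x)) =
        (Finset.univ : Finset (Sym (Fin k) (n + 1 - 1 - j))).filter
            (fun R => ∀ x ∈ R, m ≤ x) := by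
      apply Finset.filter_congr
      intro R _
      apply forall_congr'
      intro x
      apply imp_congr Iff.rfl
      simp only [Finset.mem_insert, Finset.mem_filter, Finset.mem_univ, true_and]
      rw [le_iff_eq_or_lt, eq_comm]
    apply Finset.sum_congr
    · convert h2
    · intro R _
      ring
  rw [Finset.sum_congr rfl (fun m _ => h1 m), Finset.sum_comm]
  apply Finset.sum_congr rfl
  intro j hj
  rw [← Finset.smul_sum, schur_hook k (n + 1) j (Finset.mem_range.1 hj)]

end DST
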