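import Pool.Agent.DST.Core
import Pool.Agent.DST.Defs

/-!
Module SUB of project DST (MP_0f73d6_co).

Substitutions in the weight.  subst (wt B) = product of X j^p_j (-X j)^q_j = (-1)^(sum q_j) product X j^(p_j+q_j), p_j + q_j =
length of the block (every letter is negative or nonnegative).  subst' similarly with the signs (-1)^(sum p_j),
p_j = ng (B j).  The sum of the q_j is l minus the sum of the p_j if the whole word has length l.
-/

namespace DST

open MvPolynomial

theorem SUB_len (u : List ℤ) :
    u.length = u.countP (fun a => decide (a < 0)) + u.countP (fun a => decide (0 ≤ a)) := by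
  induction u with
  | nil => rfl
  | cons x u ih =>
    rw [List.length_cons, List.countP_cons, List.countP_cons, ih]
    by_cases hx : x < 0
    · have : ¬ (0 ≤ x) := by omega
      simp only [hx, this, decide_true, decide_false, if_true]
      simp
      omega
    · have : 0 ≤ x := by omega
      simp only [hx, this, decide_true, decide_false, if_true]
      simp
      omega

theorem subst_wt' {k : ℕ} (B : Fin k → List ℤ) :
    subst' k (wt B) = ((-1 : ℤ) ^ (∑ j, ng (B j))) •
      (∏ j, (X j : MvPolynomial (Fin k) ℤ) ^ (B j).length) := by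
  unfold subst' wt
  rw [map_prod]
  have h : ∀ j : Fin k, (MvPolynomial.aeval (Sum.elim (fun j => - MvPolynomial.X j) MvPolynomial.X :
      Fin k ⊕ Fin k → MvPolynomial (Fin k) ℤ)
      ((X (Sum.inl j) : MvPolynomial (Fin k ⊕ Fin k) ℤ) ^
        ((B j).countP (fun a => decide (a < 0))) *
        X (Sum.inr j) ^ ((B j).countP (fun a => decide (0 ≤ a)))) : MvPolynomial (Fin k) ℤ) =
      (-1 : MvPolynomial (Fin k) ℤ) ^ ng (B j) *
        (X j : MvPolynomial (Fin k) ℤ) ^ (B j).length := by
    intro j
    rw [map_mul, map_pow, map_pow, aeval_X, aeval_X]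
    simp only [Sum.elim_inl, Sum.elim_inr]
    rw [SUB_len (B j), pow_add, neg_pow]
    unfold ng
    ring
  rw [Finset.prod_congr rfl (fun j _ => h j), Finset.prod_mul_distrib, Finset.prod_pow_eq_pow_sum]
  rw [zsmul_eq_mul]
  push_cast
  rfl

theorem subst_wt {k : ℕ} (B : Fin k → List ℤ) (l : ℕ) (hl : (List.ofFn B).flatten.length = l) :
    subst k (wt B) = (-1 : ℤ) ^ l • subst' k (wt B) := by
  have hlen : ∑ j, (B j).length = l := by
    rw [← hl, List.length_flatten, List.map_ofFn, List.sum_ofFn]
    rfl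
  have hs : subst k (wt B) = ((-1 : MvPolynomial (Fin k) ℤ) ^
      (∑ j, (B j).countP (fun a => decide (0 ≤ a)))) *
      (∏ j, (X j : MvPolynomial (Fin k) ℤ) ^ (B j).length) := by
    unfold subst wt
    rw [map_prod]
    have h : ∀ j : Fin k, (MvPolynomial.aeval (Sum.elim MvPolynomial.X fun j => - MvPolynomial.X j :
        Fin k ⊕ Fin k → MvPolynomial (Fin k) ℤ)
        ((X (Sum.inl j) : MvPolynomial (Fin k ⊕ Fin k) ℤ) ^
          ((B j).countP (fun a => decide (a < 0))) *
          X (Sum.inr j) ^ ((B j).countP (fun a => decide (0 ≤ a)))) : MvPolynomial (Fin k) ℤ) =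
        (-1 : MvPolynomial (Fin k) ℤ) ^ ((B j).countP (fun a => decide (0 ≤ a))) *
          (X j : MvPolynomial (Fin k) ℤ) ^ (B j).length := by
      intro j
      rw [map_mul, map_pow, map_pow, aeval_X, aeval_X]
      simp only [Sum.elim_inl, Sum.elim_inr]
      rw [SUB_len (B j), pow_add, neg_pow (X j : MvPolynomial (Fin k) ℤ)]
      ring
    rw [Finset.prod_congr rfl (fun j _ => h j), Finset.prod_mul_distrib,
      Finset.prod_pow_eq_pow_sum]
  rw [hs, subst_wt', zsmul_eq_mul, zsmul_eq_mul]
  push_cast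
  rw [← mul_assoc]
  congr 1
  have h2 : l = (∑ j, ng (B j)) + ∑ j, (B j).countP (fun a => decide (0 ≤ a)) := by
    rw [← hlen, ← Finset.sum_add_distrib]
    refine Finset.sum_congr rfl fun j _ => ?_
    rw [SUB_len]; rfl
  rw [h2]
  generalize (∑ j, ng (B j)) = P
  generalize (∑ j, (B j).countP (fun a => decide (0 ≤ a))) = Q
  have h3 : ((-1 : MvPolynomial (Fin k) ℤ) ^ P) * ((-1 : MvPolynomial (Fin k) ℤ) ^ P) = 1 := by
    rw [← pow_add, ← two_mul, pow_mul]; simp
  have h4 : (-1 : MvPolynomial (Fin k) ℤ) ^ (P + Q) * (-1) ^ P = ((-1) ^ P * (-1) ^ P) * (-1) ^ Q := by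
    rw [pow_add]; ring
  rw [h4, h3, one_mul]

end DST
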