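import Pool.Agent.DST.ST1
import Pool.Agent.DST.CNC
import Pool.Agent.DST.ONE
import Pool.Agent.DST.LHS
import Pool.Agent.DST.SUB
import Pool.Agent.DST.SCC
import Pool.Agent.DST.GRP
import Pool.Agent.DST.EXP
import Pool.Agent.DST.HKD

/-!
Module MAIN of project DST (MP_0f73d6_co): assembly.
-/

namespace DST

open MvPolynomial

/-- The signed number of tableaux of shape μ. -/
noncomputable def NN (n : ℕ) (ω : Equiv.Perm ℤ) (μ : YoungDiagram) : ℤ :=
  ∑ᶠ T ∈ {T | IsTab n ω μ T}, (-1 : ℤ) ^ nbars μ T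

/-- The signed number of increasing signed words. -/
noncomputable def N0 (n : ℕ) (ω : Equiv.Perm ℤ) : ℤ :=
  ∑ᶠ u ∈ IncW (fun w => w ∈ Red n ω), (-1 : ℤ) ^ ng u

variable {n : ℕ} {ω : Equiv.Perm ℤ}

theorem nn_card (μ : YoungDiagram) (h : ∀ w ∈ Red n ω, w.length ≠ μ.cells.card) : NN n ω μ = 0 := by
  have he : {T | IsTab n ω μ T} = ∅ := by
    ext T
    simp only [Set.mem_setOf_eq, Set.mem_empty_iff_false, iff_false]
    intro hT
    have := h _ hT.word
    rw [List.length_map, reading_length] at this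
    exact this rfl
  rw [NN, he]
  simp

theorem nn_nonhook (hW : Cls (fun w => w ∈ Red n ω)) (μ : YoungDiagram) (h11 : (1, 1) ∈ μ) :
    NN n ω μ = 0 := by
  have h00 : (0, 0) ∈ μ := μ.up_left_mem (Nat.zero_le 1) (Nat.zero_le 1) h11
  have h10 : (1, 0) ∈ μ := μ.up_left_mem le_rfl (Nat.zero_le 1) h11
  rw [NN, trn hW μ h00, step1 hW (red_finite n ω) (shp_yhi μ h00)]
  apply can hW (red_finite n ω) (shp_yhi μ h00)
  · have := YoungDiagram.mem_iff_lt_colLen.1 h10
    exact_mod_cast this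
  · have := YoungDiagram.mem_iff_lt_rowLen.1 h11
    simp only [z0, yhi]
    have h2 : ((1 : ℤ)).toNat = 1 := rfl
    rw [h2]
    omega

theorem nn_hook_aux (hW : Cls (fun w => w ∈ Red n ω)) {l j : ℕ} (hj : j < l) :
    NN n ω (hookD l j) = (-1 : ℤ) ^ j * ∑ᶠ x ∈ VW (fun w => w ∈ Red n ω) l, (-1 : ℤ) ^ x.2 := by
  have h00 : (0, 0) ∈ hookD l j := by
    rw [mem_hookD hj]; left; simp; omega
  rw [NN, trn hW _ h00, step1 hW (red_finite n ω) (shp_yhi _ h00), hook_colLen hj, hook_yhi hj]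
  push_cast
  exact hook_sum l j hj

theorem n0_eq (hW : Cls (fun w => w ∈ Red n ω)) {l : ℕ} (hl : 1 ≤ l)
    (hlen : ∀ w ∈ Red n ω, w.length = l) :
    N0 n ω = ∑ᶠ x ∈ VW (fun w => w ∈ Red n ω) l, (-1 : ℤ) ^ x.2 := by
  rw [N0, one_row hW l hl hlen, step1 hW (red_finite n ω) (shp_hook (by omega)),
    hook_sum l 0 (by omega)]
  simp

theorem nn_hook (hW : Cls (fun w => w ∈ Red n ω)) {l j : ℕ} (hj : j < l)
    (hlen : ∀ w ∈ Red n ω, w.length = l) :
    NN n ω (hookD l j) = (-1 : ℤ) ^ j * N0 n ω := by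
  rw [nn_hook_aux hW hj, n0_eq hW (by omega) hlen]

theorem rhs_eq (hW : Cls (fun w => w ∈ Red n ω)) {l : ℕ} (hl : 1 ≤ l)
    (hlen : ∀ w ∈ Red n ω, w.length = l) (k : ℕ) :
    rhs n ω k = N0 n ω • ∑ m : Fin k, (X m : MvPolynomial (Fin k) ℤ) ^ l := by
  classical
  have e1 : rhs n ω k = ∑ᶠ μ : YoungDiagram, NN n ω μ • schur k μ := by
    unfold rhs
    exact finsum_congr fun μ => exp_sum n ω k μ
  have hsup : (Function.support fun μ : YoungDiagram => NN n ω μ • schur k μ) ⊆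
      ((Finset.range l).image (hookD l) : Finset YoungDiagram) := by
    intro μ hμ
    rw [Function.mem_support] at hμ
    have hne : NN n ω μ ≠ 0 := fun h => hμ (by rw [h, zero_smul])
    have hc : μ.cells.card = l := by
      by_contra hc
      exact hne (nn_card μ fun w hw => by rw [hlen w hw]; exact fun h => hc h.symm)
    have h11 : (1, 1) ∉ μ := fun h => hne (nn_nonhook hW μ h)
    obtain ⟨j, hj, rfl⟩ := hook_of hl μ h11 hc
    simp only [Finset.coe_image, Set.mem_image, Finset.mem_coe, Finset.mem_range]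
    exact ⟨j, hj, rfl⟩
  rw [e1, finsum_eq_sum_of_support_subset _ hsup, Finset.sum_image]
  · rw [← schur_hooks k l hl, Finset.smul_sum]
    refine Finset.sum_congr rfl fun j hj => ?_
    rw [nn_hook hW (Finset.mem_range.1 hj) hlen, smul_smul, mul_comm]
  · intro j hj j' hj' h
    exact hook_inj (Finset.mem_range.1 hj) (Finset.mem_range.1 hj') h

theorem lhs_eq (hW : Cls (fun w => w ∈ Red n ω)) {l : ℕ} (hl : 1 ≤ l)
    (hlen : ∀ w ∈ Red n ω, w.length = l) (k : ℕ) :
    subst' k (Fd n ω k) = N0 n ω • ∑ m : Fin k, (X m : MvPolynomial (Fin k) ℤ) ^ l := by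
  have hfin : (Facs n ω k).Finite := fac_finite (W := fun w => w ∈ Red n ω) (red_finite n ω) k
  have h1 : subst' k (Fd n ω k) = ∑ᶠ B ∈ Facs n ω k, subst' k (wt B) := by
    unfold Fd
    exact (subst' k).toAddMonoidHom.map_finsum_mem _ hfin
  rw [h1, N0, ← fac_sum hW (red_finite n ω) l hl hlen k]
  exact finsum_mem_congr rfl fun B _ => subst_wt' B

end DST
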