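import Pool.Agent.DST.ROW

/-!
Module PHA of project DST (MP_0f73d6_co).

phi_tab: the signed tableau of a V-structure on a straight shape is a signed tableau.
nu_bounds: K (i+1) ≤ nu κ K i, and nu κ K i ≤ K i + 1; nu ≤ K i unless κ < K (i+1) - i.
off: a = 0 outside the cells.  w: |phi| = a.
row: j+1 < nu: entries of a decrease at j (N for j < K (i+1); for K (i+1) ≤ j the second case of nu is impossible and Rd
  applies since j - i < κ or j < K i, K i - i < κ).  j ≥ nu: entries increase (Ri, P).  j < nu ≤ j+1: -a ≤ 0 ≤ a.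
col, L = K (i+1): j < L: j < nu (i), so T i j = -(a i j) ≤ -(a (i+1) j) ≤ T (i+1) j by cN.  j > L: nu (i+1) ≤ L + 1 ≤ j, so
  T (i+1) j = a (i+1) j ≥ a i j ≥ T i j by cP.  j = L: if L - (i+1) < κ then nu (i+1) = L, T (i+1) L = a (i+1) L > a i L ≥ T i L
  (Vd); otherwise κ < L - i, nu i = L+1 and T i L = - a i L < - a (i+1) L ≤ T (i+1) L (Vi).
eg: T i j = T (i+1) j implies a i j = a (i+1) j and j ≠ L (there the inequality is strict: |T i L| ≠ |T (i+1) L|), so e3.
-/

namespace DST

variable {W : List ℕ → Prop} {r : ℤ} {hi : ℤ → ℤ}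

private theorem pha_le {κ : ℤ} {K : ℤ → ℤ} {a : ℤ → ℤ → ℕ} (i j : ℤ) :
    phi κ K a i j ≤ (a i j : ℤ) ∧ -(a i j : ℤ) ≤ phi κ K a i j := by
  unfold phi
  split_ifs
  · constructor <;> omega
  · constructor <;> omega

private theorem pha_nu_vl (κ : ℤ) (K : ℤ → ℤ) (i : ℤ) : vl κ K i ≤ nu κ K i ∧ nu κ K i ≤ vl κ K i + 1 := by
  unfold vl nu
  split_ifs
  · constructor <;> omega
  · constructor <;> omega
  · constructor <;> omega

theorem phi_natAbs {κ : ℤ} {K : ℤ → ℤ} {a : ℤ → ℤ → ℕ} {i j : ℤ} :
    (phi κ K a i j).natAbs = a i j := by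
  unfold phi
  split_ifs <;> simp

theorem phi_tab (hS : Shp r z0 hi) {y : ℤ × (ℤ → ℤ) × (ℤ → ℤ → ℕ)} (hy : y ∈ USet W r z0 hi) :
    Tab W r hi (phi y.1 y.2.1 y.2.2) := by
  obtain ⟨κ, K, a⟩ := y
  obtain ⟨hV, -, hoff⟩ := hy
  simp only at hV hoff ⊢
  have hVr := hV.toVSR
  have hVc := hV.toVSC
  refine ⟨?_, ?_, ?_, ?_, ?_⟩
  · intro i j h
    have h0 := hoff i j h
    unfold phi
    rw [h0]
    simp
  · have e : (fun i j => (phi κ K a i j).natAbs) = a := by
      funext i j
      exact phi_natAbs
    rw [e]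
    exact hV.w
  · intro i j h h'
    obtain ⟨i0, ir, j0, jh⟩ := h
    obtain ⟨-, -, j0', jh'⟩ := h'
    have hn := pha_nu_vl κ K i
    by_cases c1 : j + 1 < nu κ K i
    · have hd := row_dec hVr i0 ir j0 (show j < vl κ K i by omega)
      unfold phi
      rw [if_pos (show j < nu κ K i by omega), if_pos c1]
      omega
    · by_cases c2 : nu κ K i ≤ j
      · have hd := row_inc hVr i0 ir (show vl κ K i ≤ j by omega) jh'
        unfold phi
        rw [if_neg (show ¬ j < nu κ K i by omega), if_neg c1]
        omega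
      · unfold phi
        rw [if_pos (show j < nu κ K i by omega), if_neg c1]
        omega
  · intro i j h h'
    obtain ⟨i0, ir, j0, jh⟩ := h
    obtain ⟨-, ir', j0', jh'⟩ := h'
    have hK1 := hVr.Kmono i i0 ir
    have hK2 := hVr.Kmono (i + 1) (by omega) ir'
    have hb1 := pha_le (κ := κ) (K := K) (a := a) i j
    have hb2 := pha_le (κ := κ) (K := K) (a := a) (i + 1) j
    rcases lt_trichotomy j (K (i + 1)) with hj | hj | hj
    · have hc := hVc.cN i j i0 ir' j0 hj
      have hn : j < nu κ K i := by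
        unfold nu
        split_ifs <;> omega
      have e : phi κ K a i j = -(a i j : ℤ) := by
        unfold phi
        rw [if_pos hn]
      rw [e]
      omega
    · subst hj
      by_cases c : K (i + 1) - (i + 1) < κ
      · have hv := hVr.Vd i i0 ir' c
        have hn : ¬ K (i + 1) < nu κ K (i + 1) := by
          unfold nu
          rw [if_pos c]
          omega
        have e : phi κ K a (i + 1) (K (i + 1)) = (a (i + 1) (K (i + 1)) : ℤ) := by
          unfold phi
          rw [if_neg hn]
        rw [e]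
        omega
      · have hv := hVr.Vi i i0 ir' (by omega)
        have hn : K (i + 1) < nu κ K i := by
          unfold nu
          rw [if_neg (by omega), if_pos (by omega)]
          omega
        have e : phi κ K a i (K (i + 1)) = -(a i (K (i + 1)) : ℤ) := by
          unfold phi
          rw [if_pos hn]
        rw [e]
        omega
    · have hc := hVc.cP i j i0 ir' hj jh'
      have hn : ¬ j < nu κ K (i + 1) := by
        unfold nu
        split_ifs <;> omega
      have e : phi κ K a (i + 1) j = (a (i + 1) j : ℤ) := by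
        unfold phi
        rw [if_neg hn]
      rw [e]
      omega
  · intro i j h h' he
    obtain ⟨i0, ir, j0, jh⟩ := h
    obtain ⟨-, ir', j0', jh'⟩ := h'
    have hab : a (i + 1) j = a i j := by
      have h1 := congrArg Int.natAbs he
      rw [phi_natAbs, phi_natAbs] at h1
      exact h1.symm
    have hne : j ≠ K (i + 1) := by
      intro e
      subst e
      by_cases c : K (i + 1) - (i + 1) < κ
      · have hv := hVr.Vd i i0 ir' c
        omega
      · have hv := hVr.Vi i i0 ir' (by omega)
        omega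
    rcases hVc.e3 i j i0 ir' j0 jh' hne hab with ⟨k, k1, k2, k3⟩ | ⟨k, k1, k2, k3⟩
    · left
      refine ⟨k, k1, ⟨by omega, ir', ?_, k2⟩, ?_⟩
      · exact le_trans j0' k1.le
      · rw [phi_natAbs, phi_natAbs]
        exact k3
    · right
      refine ⟨k, k2, ⟨i0, ir, k1, by omega⟩, ?_⟩
      rw [phi_natAbs, phi_natAbs]
      exact k3

end DST
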