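import Pool.Agent.DST.PHA
import Pool.Agent.DST.VAL

/-!
Module PHB of project DST (MP_0f73d6_co).

phi_val: the valley column of row i of phi is vl κ K i (K i if K i - i < κ, K (i+1) if κ < K (i+1) - i, else κ + i).
  IsVal: left of it negative entries (j < vl ≤ nu) with absolute values > 0: a i j > a i (j+1) ≥ 0, decreasing
  (row_dec); right of it: j ≥ nu (nu = vl or, in the second case, vl + 1), increasing (row_inc), so > 0.
phi_not_free: no row is free.
  K i - i < κ: then i ≥ 1 (κ ≤ K 0), s = K i, T i s = a i s > a (i-1) s ≥ 0 (Vd at i-1), so T i s > 0 and T (i-1) s > - T i s.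
  κ < K (i+1) - i: then i+1 < r (κr), s = K (i+1) < hi (i+1) (Klt), T i s = - a i s, a (i+1) s < a i s (Vi), so T (i+1) s < - T i s.
  Otherwise s = κ + i and T i s = 0 (VSR.z).
phi_inj: on USet phi is injective.  a = |phi|.  κ: the cell (i0, κ + i0) with letter 0 (there is a row i0 with
  K (i0+1) ≤ κ + i0 ≤ K i0: the ribbon is connected, e.g. take the largest i with κ ≤ K i - i); the zero cell is unique
  (zc), so κ and the row i0 agree.  K m for 1 ≤ m < r: if m > i0 then K m - m < κ and K m = vcol (phi) m; if m ≤ i0 then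
  κ < K m - (m-1) and K m = vcol (phi) (m-1) (phi_val, vcol_eq).  K 0, K r are fixed by the shape, K = 0 elsewhere.
-/

namespace DST

variable {W : List ℕ → Prop} {r : ℤ} {hi : ℤ → ℤ}

private theorem phb_vl {κ : ℤ} {K : ℤ → ℤ} {a : ℤ → ℤ → ℕ} (h : VSR r κ z0 hi K a) {i : ℤ}
    (i0 : 0 ≤ i) (ir : i < r) : 0 ≤ vl κ K i ∧ vl κ K i < hi i ∧ K (i + 1) ≤ vl κ K i ∧
      vl κ K i ≤ K i ∧ vl κ K i ≤ nu κ K i ∧ nu κ K i ≤ vl κ K i + 1 := by
  have h1 := h.Kmono i i0 ir
  have h2 := h.Klt i i0 ir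
  have h3 := h.Kge i i0 ir
  rw [z0] at h3
  unfold vl nu
  split_ifs <;> omega

theorem phi_val (hS : Shp r z0 hi) {y : ℤ × (ℤ → ℤ) × (ℤ → ℤ → ℕ)} (hy : y ∈ USet W r z0 hi) {i : ℤ}
    (i0 : 0 ≤ i) (ir : i < r) : IsVal hi (phi y.1 y.2.1 y.2.2) i (vl y.1 y.2.1 i) := by
  obtain ⟨κ, K, a⟩ := y
  obtain ⟨hv, -, -⟩ := hy
  have hv := hv.toVSR
  simp only at hv ⊢
  obtain ⟨h1, h2, h3, h4, h5, h6⟩ := phb_vl hv i0 ir
  refine ⟨h1, h2, fun j j0 jv => ?_, fun j vj jh => ?_⟩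
  · have h7 := row_dec hv (i := i) (j := j) i0 ir j0 jv
    rw [phi_natAbs, phi_natAbs]
    refine ⟨?_, h7⟩
    rw [phi, if_pos (by omega)]
    omega
  · have h7 := row_inc hv (i := i) (j := j - 1) i0 ir (by omega) (by omega)
    rw [sub_add_cancel] at h7
    rw [phi_natAbs, phi_natAbs]
    refine ⟨?_, h7⟩
    rw [phi, if_neg (by omega)]
    omega

theorem phi_not_free (hS : Shp r z0 hi) {y : ℤ × (ℤ → ℤ) × (ℤ → ℤ → ℕ)} (hy : y ∈ USet W r z0 hi)
    (i : ℤ) : ¬ Free r hi (phi y.1 y.2.1 y.2.2) i := by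
  rintro ⟨i0, ir, hF⟩
  rw [vcol_eq (phi_val hS hy i0 ir)] at hF
  obtain ⟨κ, K, a⟩ := y
  obtain ⟨hv, -, -⟩ := hy
  have hv := hv.toVSR
  simp only at hv hF
  by_cases c1 : K i - i < κ
  · have e1 : vl κ K i = K i := by rw [vl, if_pos c1]
    have e2 : nu κ K i = K i := by rw [nu, if_pos c1]
    have i1 : 1 ≤ i := by
      by_contra hne
      have : i = 0 := by omega
      subst this
      have := hv.κ0
      omega
    have h1 := hv.Vd (i - 1) (by omega) (by omega)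
    rw [sub_add_cancel] at h1
    have h2 := h1 c1
    rw [e1] at hF
    have h3 : phi κ K a i (K i) = a i (K i) := by rw [phi, if_neg (by omega)]
    have h4 : - (a (i - 1) (K i) : ℤ) ≤ phi κ K a (i - 1) (K i) := by
      rw [phi]; split_ifs <;> omega
    rw [h3] at hF
    omega
  · by_cases c2 : κ < K (i + 1) - i
    · have e1 : vl κ K i = K (i + 1) := by rw [vl, if_neg c1, if_pos c2]
      have e2 : nu κ K i = K (i + 1) + 1 := by rw [nu, if_neg c1, if_pos c2]
      have i1 : i + 1 < r := by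
        by_contra hne
        have : i + 1 = r := by omega
        have h5 := hv.κr
        rw [← this] at h5
        omega
      have h1 := hv.Vi i i0 i1 (by omega)
      have h6 := hv.Klt (i + 1) (by omega) i1
      rw [e1] at hF
      have h3 : phi κ K a i (K (i + 1)) = - (a i (K (i + 1)) : ℤ) := by
        rw [phi, if_pos (by omega)]
      have h4 : phi κ K a (i + 1) (K (i + 1)) ≤ (a (i + 1) (K (i + 1)) : ℤ) := by
        rw [phi]; split_ifs <;> omega
      rw [h3] at hF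
      omega
    · have e1 : vl κ K i = κ + i := by rw [vl, if_neg c1, if_neg c2]
      have h1 := hv.z i (κ + i) i0 ir (by omega) (by omega) (by omega)
      have h2 : phi κ K a i (κ + i) = 0 := by
        rw [phi, h1]; split_ifs <;> simp
      rw [e1, h2] at hF
      omega

private theorem phb_zero {κ : ℤ} {K : ℤ → ℤ} {a : ℤ → ℤ → ℕ} (hr : 0 < r)
    (h : VSR r κ z0 hi K a) :
    ∃ i0, 0 ≤ i0 ∧ i0 < r ∧ K (i0 + 1) ≤ κ + i0 ∧ κ + i0 ≤ K i0 := by
  by_contra hne
  push Not at hne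
  have h1 : ∀ n : ℕ, (n : ℤ) < r → κ + n ≤ K n := by
    intro n
    induction n with
    | zero =>
      intro _
      have := h.κ0
      simpa using this
    | succ n ih =>
      intro hn
      push_cast at hn ⊢
      have h2 := ih (by omega)
      by_contra h3
      have h4 := hne n (by omega) (by omega) (by omega)
      omega
  obtain ⟨m, hm⟩ := Int.eq_ofNat_of_zero_le (by omega : 0 ≤ r - 1)
  have h2 := h1 m (by omega)
  have h3 := h.κr
  have h4 := hne m (by omega) (by omega)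
  have h5 : (m : ℤ) + 1 = r := by omega
  rw [h5] at h4
  omega

private theorem phb_mono {κ : ℤ} {K : ℤ → ℤ} {a : ℤ → ℤ → ℕ} (h : VSR r κ z0 hi K a) {i m : ℤ}
    (i0 : 0 ≤ i) (im : i ≤ m) (mr : m ≤ r) : K m ≤ K i := by
  obtain ⟨n, hn⟩ := Int.eq_ofNat_of_zero_le (by omega : 0 ≤ m - i)
  have hm : m = i + n := by omega
  subst hm
  clear hn im
  induction n with
  | zero => simp
  | succ n ih =>
    push_cast at mr ⊢
    have h1 := h.Kmono (i + n) (by omega) (by omega)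
    have h2 := ih (by omega)
    rw [← add_assoc]
    omega

/-- the inner boundaries are valley columns -/
private theorem phb_K (hS : Shp r z0 hi) {y : ℤ × (ℤ → ℤ) × (ℤ → ℤ → ℕ)} (hy : y ∈ USet W r z0 hi)
    {i0 : ℤ} (h0 : 0 ≤ i0) (h1 : i0 < r) (h2 : y.2.1 (i0 + 1) ≤ y.1 + i0)
    (h3 : y.1 + i0 ≤ y.2.1 i0) {m : ℤ} (m1 : 1 ≤ m) (mr : m < r) :
    y.2.1 m = if i0 < m then vcol hi (phi y.1 y.2.1 y.2.2) m
      else vcol hi (phi y.1 y.2.1 y.2.2) (m - 1) := by
  have hv := hy.1.toVSR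
  split_ifs with hm
  · rw [vcol_eq (phi_val hS hy (by omega) mr)]
    have h4 := phb_mono hv (i := i0 + 1) (m := m) (by omega) (by omega) (by omega)
    rw [vl, if_pos (by omega)]
  · rw [vcol_eq (phi_val hS hy (i := m - 1) (by omega) (by omega))]
    have h4 := phb_mono hv (i := m) (m := i0) (by omega) (by omega) (by omega)
    have h5 := phb_mono hv (i := m - 1) (m := m) (by omega) (by omega) (by omega)
    rw [vl, if_neg (by omega), sub_add_cancel, if_pos (by omega)]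

theorem phi_inj (hW : Cls W) (hS : Shp r z0 hi) {y y' : ℤ × (ℤ → ℤ) × (ℤ → ℤ → ℕ)}
    (hy : y ∈ USet W r z0 hi) (hy' : y' ∈ USet W r z0 hi)
    (h : phi y.1 y.2.1 y.2.2 = phi y'.1 y'.2.1 y'.2.2) : y = y' := by
  have ha : y.2.2 = y'.2.2 := by
    funext i j
    rw [← phi_natAbs (κ := y.1) (K := y.2.1) (a := y.2.2),
      ← phi_natAbs (κ := y'.1) (K := y'.2.1) (a := y'.2.2), h]
  have hv := hy.1.toVSR
  have hv' := hy'.1.toVSR
  obtain ⟨i0, h0, h1, h2, h3⟩ := phb_zero hS.rpos hv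
  obtain ⟨i0', h0', h1', h2', h3'⟩ := phb_zero hS.rpos hv'
  have hz := hv.z i0 (y.1 + i0) h0 h1 h2 h3 (by omega)
  have hz' := hv'.z i0' (y'.1 + i0') h0' h1' h2' h3' (by omega)
  have hc : ∀ {κ : ℤ} {K : ℤ → ℤ} {a : ℤ → ℤ → ℕ} (hv : VSR r κ z0 hi K a) {i : ℤ},
      0 ≤ i → i < r → K (i + 1) ≤ κ + i → κ + i ≤ K i → Cell r z0 hi i (κ + i) := by
    intro κ K a hv i i0 ir k1 k2
    have e1 := hv.Kge i i0 ir
    have e2 := hv.Klt i i0 ir
    exact ⟨i0, ir, by omega, by omega⟩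
  have c1 := hc hv h0 h1 h2 h3
  have c2 := hc hv' h0' h1' h2' h3'
  rw [← ha] at hz'
  obtain ⟨e1, e2⟩ := zc hW hy.1.w c1 c2 hz hz'
  have hκ : y.1 = y'.1 := by omega
  have hK : y.2.1 = y'.2.1 := by
    funext m
    by_cases hm : 0 ≤ m ∧ m ≤ r
    · rcases eq_or_lt_of_le hm.1 with hm0 | hm0
      · rw [← hm0, hv.K0, hv'.K0]
      · rcases eq_or_lt_of_le hm.2 with hmr | hmr
        · rw [hmr, hv.Kr, hv'.Kr]
        · rw [phb_K hS hy h0 h1 h2 h3 (by omega) hmr, phb_K hS hy' h0' h1' h2' h3' (by omega) hmr,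
            h, e1]
    · rw [hy.2.1 m hm, hy'.2.1 m hm]
  exact Prod.ext hκ (Prod.ext hK ha)

end DST
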