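import Pool.Agent.DST.PHA

/-!
Module PHC of project DST (MP_0f73d6_co).

phi_bars: the number of negative entries of phi in row i is nu κ K i (entries left of nu are negative: they are
letters a i j > 0, because a i j > a i (j+1) for j < valley, and in the second case of nu the entry in column K (i+1)
is a i (K (i+1)) > a (i+1) (K (i+1)) ≥ 0 by Vi; entries from nu on are ≥ 0; 0 ≤ nu ≤ hi i).
So bars = sum of nu over Ico 0 r.  nu_sum: let i0 be the row of the zero (K (i0+1) ≤ κ + i0 ≤ K i0); nu = K i for i > i0, K (i+1) + 1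
for i < i0, κ + i0 for i0; the sum is (sum of K i for i0 < i < r) + (sum of K i for 1 ≤ i ≤ i0) + i0 + κ + i0 =
sumK r K + κ + 2 i0.
-/

namespace DST

variable {W : List ℕ → Prop} {r : ℤ} {hi : ℤ → ℤ}

private theorem phc_succ {a m : ℤ} (h : a ≤ m) (f : ℤ → ℤ) :
    ∑ i ∈ Finset.Ico a (m + 1), f i = ∑ i ∈ Finset.Ico a m, f i + f m := by
  have h1 : Finset.Ico a (m + 1) = insert m (Finset.Ico a m) := by
    ext x
    simp only [Finset.mem_Ico, Finset.mem_insert]
    omega
  rw [h1, Finset.sum_insert (by simp), add_comm]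

theorem nu_sum {κ : ℤ} {K : ℤ → ℤ} {a : ℤ → ℤ → ℕ} {lo : ℤ → ℤ} (hr : 0 < r)
    (h : VSR r κ lo hi K a) :
    ∃ t : ℤ, ∑ i ∈ Finset.Ico 0 r, nu κ K i = κ + sumK r K + 2 * t := by
  have hmono : ∀ i, 0 ≤ i → ∀ i', i ≤ i' → i' ≤ r → K i' ≤ K i := by
    intro i h0 i' hi'
    induction i', hi' using Int.le_induction with
    | base => intro _; exact le_rfl
    | succ m hm ih =>
      intro hmr
      have h1 := ih (by omega)
      have h2 := h.Kmono m (by omega) (by omega)
      omega
  obtain ⟨i0, ⟨hi00, hi0r, hi0κ⟩, hmax⟩ := Int.exists_greatest_of_bdd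
    (P := fun i => 0 ≤ i ∧ i < r ∧ κ ≤ K i - i) ⟨r, fun z hz => hz.2.1.le⟩
    ⟨0, le_rfl, hr, by have := h.κ0; omega⟩
  have hgt : ∀ i, i0 < i → i < r → K i - i < κ := by
    intro i h1 h2
    by_contra hcon
    have := hmax i ⟨by omega, h2, by omega⟩
    omega
  have hi1 : K (i0 + 1) - i0 ≤ κ := by
    by_cases h1 : i0 + 1 < r
    · have := hgt (i0 + 1) (by omega) h1
      omega
    · have h2 : i0 + 1 = r := by omega
      have h3 := h.κr
      rw [h2]
      have h4 : i0 = r - 1 := by omega
      rw [h4]
      exact h3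
  have nu_lt : ∀ i, 0 ≤ i → i < i0 → nu κ K i = K (i + 1) + 1 := by
    intro i h0 h1
    have h2 := hmono (i + 1) (by omega) i0 (by omega) (by omega)
    have h3 := hmono i h0 (i + 1) (by omega) (by omega)
    unfold nu
    rw [if_neg (by omega), if_pos (by omega)]
  have nu_eq : nu κ K i0 = κ + i0 := by
    unfold nu
    rw [if_neg (by omega), if_neg (by omega)]
  have nu_gt : ∀ i, i0 < i → i < r → nu κ K i = K i := by
    intro i h1 h2
    unfold nu
    rw [if_pos (hgt i h1 h2)]
  have hA : ∀ m, 0 ≤ m → m ≤ i0 →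
      ∑ i ∈ Finset.Ico 0 m, nu κ K i = ∑ i ∈ Finset.Ico 1 (m + 1), K i + m := by
    intro m hm
    induction m, hm using Int.le_induction with
    | base => intro _; simp
    | succ m hm ih =>
      intro hmi
      rw [phc_succ hm, ih (by omega), nu_lt m hm (by omega), phc_succ (by omega : 1 ≤ m + 1)]
      ring
  have hB : ∀ m, i0 + 1 ≤ m → m ≤ r →
      ∑ i ∈ Finset.Ico 0 m, nu κ K i = κ + 2 * i0 + ∑ i ∈ Finset.Ico 1 m, K i := by
    intro m hm
    induction m, hm using Int.le_induction with
    | base =>
      intro _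
      rw [phc_succ hi00, hA i0 hi00 le_rfl, nu_eq]
      ring
    | succ m hm ih =>
      intro hmr
      rw [phc_succ (by omega : 0 ≤ m), ih (by omega), nu_gt m (by omega) (by omega),
        phc_succ (by omega : 1 ≤ m)]
      ring
  refine ⟨i0, ?_⟩
  rw [hB r (by omega) le_rfl]
  unfold sumK
  ring

theorem phi_bars (hS : Shp r z0 hi) {y : ℤ × (ℤ → ℤ) × (ℤ → ℤ → ℕ)} (hy : y ∈ USet W r z0 hi) :
    (bars r hi (phi y.1 y.2.1 y.2.2) : ℤ) = ∑ i ∈ Finset.Ico 0 r, nu y.1 y.2.1 i := by
  obtain ⟨κ, K, a⟩ := y
  have h : VS W r κ z0 hi K a := hy.1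
  show ((bars r hi (phi κ K a) : ℕ) : ℤ) = ∑ i ∈ Finset.Ico 0 r, nu κ K i
  unfold bars
  rw [Nat.cast_sum]
  refine Finset.sum_congr rfl fun i hi' => ?_
  rw [Finset.mem_Ico] at hi'
  obtain ⟨h0, h1⟩ := hi'
  have hge : 0 ≤ K (i + 1) := h.Kge i h0 h1
  have hmono := h.Kmono i h0 h1
  have hlt := h.Klt i h0 h1
  have hn0 : K (i + 1) ≤ nu κ K i ∧ nu κ K i ≤ K i + 1 := by
    unfold nu
    split_ifs <;> omega
  have hset : (Finset.Ico 0 (hi i)).filter (fun j => phi κ K a i j < 0) =
      Finset.Ico 0 (nu κ K i) := by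
    ext j
    simp only [Finset.mem_filter, Finset.mem_Ico]
    constructor
    · rintro ⟨⟨h2, h3⟩, h4⟩
      refine ⟨h2, ?_⟩
      by_contra hcon
      unfold phi at h4
      rw [if_neg hcon] at h4
      omega
    · rintro ⟨h2, h3⟩
      refine ⟨⟨h2, by omega⟩, ?_⟩
      unfold phi
      rw [if_pos h3]
      have hpos : 0 < a i j := by
        by_cases h4 : j < K (i + 1)
        · have := h.N i j h0 h1 h2 h4
          omega
        · push Not at h4
          unfold nu at h3
          by_cases c1 : K i - i < κ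
          · rw [if_pos c1] at h3
            have := h.Rd i j h0 h1 h4 h3 (by omega)
            omega
          · rw [if_neg c1] at h3
            by_cases c2 : κ < K (i + 1) - i
            · rw [if_pos c2] at h3
              have h5 : j = K (i + 1) := by omega
              have h6 : i + 1 < r := by
                by_contra hcon
                have h7 : i = r - 1 := by omega
                have h8 := h.κr
                have h9 : r = i + 1 := by omega
                rw [h9] at h8
                have h10 : i + 1 - 1 = i := by ring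
                rw [h10] at h8
                omega
              have := h.Vi i h0 h6 (by omega)
              rw [h5]
              omega
            · rw [if_neg c2] at h3
              have := h.Rd i j h0 h1 h4 (by omega) (by omega)
              omega
      omega
  rw [hset, Int.card_Ico, sub_zero]
  exact Int.toNat_of_nonneg (by omega)

end DST
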