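import Pool.Agent.DST.Defs

/-!
Module RDL of project DST (MP_0f73d6_co).

reading_length: the reading word of a filling of μ has μ.cells.card letters (sum of the row lengths).
istab_finite: fillings with IsTab are finitely many: T is 0 outside μ, inside its entries are integers of absolute
value ≤ n (all entries are letters of the reading word up to sign); e.g. injection T → restriction to μ.cells with
values in Finset.Icc (-n) n.
-/

namespace DST

theorem reading_length (μ : YoungDiagram) (T : ℕ → ℕ → ℤ) : (reading μ T).length = μ.cells.card := by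
  have h1 : (reading μ T).length = ∑ i ∈ Finset.range (μ.colLen 0), μ.rowLen i := by
    unfold reading
    rw [List.length_flatMap]
    simp only [List.length_map, List.length_range, List.map_reverse, List.sum_reverse]
    rfl
  have h2 : μ.cells.card = ∑ i ∈ Finset.range (μ.colLen 0),
      (μ.cells.filter fun c => c.1 = i).card :=
    Finset.card_eq_sum_card_fiberwise (f := fun c : ℕ × ℕ => c.1) fun c hc => by
      have hc' : (c.1, c.2) ∈ μ := by simpa using hc
      have : (c.1, 0) ∈ μ := μ.up_left_mem le_rfl (Nat.zero_le _) hc'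
      simpa using YoungDiagram.mem_iff_lt_colLen.1 this
  rw [h1, h2]
  refine Finset.sum_congr rfl fun i _ => ?_
  rw [YoungDiagram.rowLen_eq_card]
  rfl

theorem istab_finite (n : ℕ) (ω : Equiv.Perm ℤ) (μ : YoungDiagram) : {T | IsTab n ω μ T}.Finite := by
  have ht : (Set.pi Set.univ fun _ : μ.cells => Set.Icc (-(n : ℤ)) n).Finite :=
    Set.Finite.pi fun _ => Set.finite_Icc _ _
  refine Set.Finite.of_injOn (f := fun (T : ℕ → ℕ → ℤ) (c : μ.cells) => T c.1.1 c.1.2) ?_ ?_ ht
  · intro T hT
    rintro ⟨⟨i, j⟩, hc⟩ _
    have hc' : (i, j) ∈ μ := hc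
    have hi : i < μ.colLen 0 :=
      YoungDiagram.mem_iff_lt_colLen.1 (μ.up_left_mem le_rfl (Nat.zero_le _) hc')
    have hj : j < μ.rowLen i := YoungDiagram.mem_iff_lt_rowLen.1 hc'
    have hmem : T i j ∈ reading μ T := by
      unfold reading
      rw [List.mem_flatMap]
      exact ⟨i, by simpa using hi, List.mem_map.2 ⟨j, by simpa using hj, rfl⟩⟩
    have hle := hT.word.1 (T i j).natAbs (List.mem_map.2 ⟨_, hmem, rfl⟩)
    simp only [Set.mem_Icc]
    omega
  · intro T hT T' hT' heq
    funext i j
    by_cases hc : (i, j) ∈ μ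
    · exact congrFun heq ⟨(i, j), hc⟩
    · rw [hT.off i j hc, hT'.off i j hc]

end DST
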