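import Pool.Agent.DST.CLA

/-!
Module ROA of project DST (MP_0f73d6_co).

The reading word of the rotated array is the reversed word.  The list
(cellsL r lo hi).reverse.map (fun c => (r-1-c.1, -c.2)) is sorted for Bef and its members are the cells of the
rotated shape, so it is cellsL r (rlo r hi) (rhi r lo) by cellsL_unique.  Then map.
-/

namespace DST

variable {r : ℤ} {lo hi : ℤ → ℤ} {a : ℤ → ℤ → ℕ}

theorem cell_rot {i j : ℤ} :
    Cell r (rlo r hi) (rhi r lo) i j ↔ Cell r lo hi (r - 1 - i) (-j) := by
  unfold Cell rlo rhi
  constructor
  · rintro ⟨h1, h2, h3, h4⟩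
    refine ⟨by omega, by omega, by omega, by omega⟩
  · rintro ⟨h1, h2, h3, h4⟩
    refine ⟨by omega, by omega, by omega, by omega⟩

theorem word_rot : word r (rlo r hi) (rhi r lo) (ra r a) = (word r lo hi a).reverse := by
  have key : (cellsL r lo hi).reverse.map (fun c => (r - 1 - c.1, -c.2)) =
      cellsL r (rlo r hi) (rhi r lo) := by
    apply cellsL_unique
    · rw [List.pairwise_map, List.pairwise_reverse]
      refine cellsL_pairwise.imp ?_
      intro c d hcd
      unfold Bef at hcd ⊢
      simp only
      omega
    · intro c
      rw [List.mem_map, cell_rot]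
      constructor
      · rintro ⟨d, hd, rfl⟩
        rw [List.mem_reverse, mem_cellsL] at hd
        simp only
        have e1 : r - 1 - (r - 1 - d.1) = d.1 := by ring
        have e2 : - -d.2 = d.2 := by ring
        rw [e1, e2]
        exact hd
      · intro h
        refine ⟨(r - 1 - c.1, -c.2), ?_, ?_⟩
        · rw [List.mem_reverse, mem_cellsL]
          exact h
        · ext
          · simp only
            ring
          · simp only
            ring
  unfold word
  rw [← key, List.map_map, ← List.map_reverse]
  apply List.map_congr_left
  intro c _
  simp only [Function.comp_apply, ra]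
  congr 1
  · ring
  · ring

end DST
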