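import Pool.Agent.DST.Core

/-!
Module ROW of project DST (MP_0f73d6_co).

Rows of V-structures.
vl is the valley column of row i: K i if K i - i < κ, K (i+1) if κ < K (i+1) - i, else κ + i; it lies between
K (i+1) and K i.
row_dec: for j < vl the entries decrease: j < K (i+1) is VSR.N; K (i+1) ≤ j < K i and j - i < κ is VSR.Rd (in
  the first case j < K i gives j - i < κ; in the second case there is no such j).
row_inc: for vl ≤ j the entries increase: j ≥ K i is VSR.P, else VSR.Ri.
rowV: y ≤ vl: decreasing chain from j1 to y gives a i y < a i j1; y > vl (or y ≥ vl): increasing chain.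
rowN, rowP: chains of VSR.N and VSR.P.
k1a: let L = K (i+1).  v in P_i, i.e. v = a (i+1) j, j > L: a (i+1) L < v by rowP.  v in N_i: a i L < v by rowN.
  If L - (i+1) < κ then a i L < a (i+1) L (Vd), so letters of P_i are > a i L.  For v = a i j in N_i:
  v ≥ a i (L-1) ≥ a (i+1) (L-1) (VSC.cN, the cell (i+1,L-1) exists because lo (i+1) ≤ lo i) and
  a (i+1) (L-1) > a (i+1) L: if L-1 < K (i+2) by VSR.N, else by VSR.Rd since L-1-(i+1) < κ.
  If κ ≤ L - (i+1) then a (i+1) L < a i L (Vi), so letters of N_i are > a (i+1) L.  For v in P_i: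
  v ≥ a (i+1) (L+1) ≥ a i (L+1) (VSC.cP) and a i (L+1) > a i L: if L+1 ≤ K i by VSR.Ri (κ ≤ L - i), else
  K i = L and VSR.P (L + 1 < hi (i+1) ≤ hi i).
two_le: the two numbers in k1a are different (Vd or Vi), so the larger one is ≥ 1 and v ≥ 2.
k1b: v in W_i and W_(i-1); claim a i j + 2 ≤ v for all ribbon cells K (i+1) ≤ j ≤ K i of row i.
  By k1a (for i and for i-1) v > a (i+1) (K (i+1)), a i (K (i+1)), a i (K i), a (i-1) (K i).
  If K i - i < κ: the ribbon decreases on the whole row i segment and a i j ≤ a i (K (i+1)) < a (i+1) (K (i+1)) < v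
  (Vd at i since K (i+1) - (i+1) < κ).  If κ < K (i+1) - i, i.e. κ ≤ K (i+1) - (i+1): it increases and
  a i j ≤ a i (K i) < a (i-1) (K i) < v (Vi at i-1 since κ ≤ K i - i).  Otherwise K (i+1) - (i+1) < κ ≤ K i - i:
  a i (K (i+1)) < a (i+1) (K (i+1)) < v and a i (K i) < a (i-1) (K i) < v, and a i j is at most one of the two ends.
-/

namespace DST

variable {W : List ℕ → Prop} {r κ : ℤ} {lo hi K : ℤ → ℤ} {a : ℤ → ℤ → ℕ}

/-- The valley column of row i. -/
def vl (κ : ℤ) (K : ℤ → ℤ) (i : ℤ) : ℤ :=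
  if K i - i < κ then K i else if κ < K (i + 1) - i then K (i + 1) else κ + i

private theorem ROW_dchain (f : ℤ → ℕ) (x y : ℤ) (h : ∀ j, x ≤ j → j < y → f (j + 1) < f j) :
    x < y → f y < f x := by
  intro hxy
  obtain ⟨n, hn⟩ : ∃ n : ℕ, y = x + 1 + n := ⟨(y - (x + 1)).toNat, by omega⟩
  subst hn
  clear hxy
  induction n with
  | zero => simpa using h x le_rfl (by push_cast; omega)
  | succ n ih =>
    have h1 := ih (fun j h1 h2 => h j h1 (by push_cast at h2 ⊢; omega))
    have h2 := h (x + 1 + n) (by omega) (by push_cast; omega)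
    have e : x + 1 + ((n + 1 : ℕ) : ℤ) = x + 1 + n + 1 := by push_cast; ring
    rw [e]
    omega

private theorem ROW_ichain (f : ℤ → ℕ) (x y : ℤ) (h : ∀ j, x ≤ j → j < y → f j < f (j + 1)) :
    x < y → f x < f y := by
  intro hxy
  obtain ⟨n, hn⟩ : ∃ n : ℕ, y = x + 1 + n := ⟨(y - (x + 1)).toNat, by omega⟩
  subst hn
  clear hxy
  induction n with
  | zero => simpa using h x le_rfl (by push_cast; omega)
  | succ n ih =>
    have h1 := ih (fun j h1 h2 => h j h1 (by push_cast at h2 ⊢; omega))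
    have h2 := h (x + 1 + n) (by omega) (by push_cast; omega)
    have e : x + 1 + ((n + 1 : ℕ) : ℤ) = x + 1 + n + 1 := by push_cast; ring
    rw [e]
    omega

theorem row_dec (h : VSR r κ lo hi K a) {i j : ℤ} (i0 : 0 ≤ i) (ir : i < r) (hj : lo i ≤ j)
    (hv : j < vl κ K i) : a i (j + 1) < a i j := by
  have hm := h.Kmono i i0 ir
  unfold vl at hv
  by_cases h1 : j < K (i + 1)
  · exact h.N i j i0 ir hj h1
  · split_ifs at hv with c1 c2
    · exact h.Rd i j i0 ir (by omega) (by omega) (by omega)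
    · omega
    · exact h.Rd i j i0 ir (by omega) (by omega) (by omega)

theorem row_inc (h : VSR r κ lo hi K a) {i j : ℤ} (i0 : 0 ≤ i) (ir : i < r) (hv : vl κ K i ≤ j)
    (hj : j + 1 < hi i) : a i j < a i (j + 1) := by
  have hm := h.Kmono i i0 ir
  unfold vl at hv
  by_cases h1 : K i ≤ j
  · exact h.P i j i0 ir h1 hj
  · split_ifs at hv with c1 c2
    · omega
    · exact h.Ri i j i0 ir (by omega) (by omega) (by omega)
    · exact h.Ri i j i0 ir (by omega) (by omega) (by omega)

theorem rowV (h : VSR r κ lo hi K a) {i j1 y j2 : ℤ} (i0 : 0 ≤ i) (ir : i < r) (h1 : lo i ≤ j1)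
    (h2 : j1 < y) (h3 : y < j2) (h4 : j2 < hi i) : a i y < a i j1 ∨ a i y < a i j2 := by
  by_cases hy : y ≤ vl κ K i
  · left
    exact ROW_dchain (a i) j1 y (fun j x1 x2 => row_dec h i0 ir (by omega) (by omega)) h2
  · right
    exact ROW_ichain (a i) y j2 (fun j x1 x2 => row_inc h i0 ir (by omega) (by omega)) h3

theorem rowN (h : VSR r κ lo hi K a) {i j j' : ℤ} (i0 : 0 ≤ i) (ir : i < r) (h1 : lo i ≤ j)
    (h2 : j < j') (h3 : j' ≤ K (i + 1)) : a i j' < a i j :=
  ROW_dchain (a i) j j' (fun x x1 x2 => h.N i x i0 ir (by omega) (by omega)) h2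

theorem rowP (h : VSR r κ lo hi K a) {i j j' : ℤ} (i0 : 0 ≤ i) (ir : i < r) (h1 : K i ≤ j)
    (h2 : j < j') (h3 : j' < hi i) : a i j < a i j' :=
  ROW_ichain (a i) j j' (fun x x1 x2 => h.P i x i0 ir (by omega) (by omega)) h2

theorem k1a (hS : Shp r lo hi) (h : VS W r κ lo hi K a) {i : ℤ} {v : ℕ} (i0 : 0 ≤ i) (ir : i + 1 < r)
    (hv : InW lo hi K a i v) : a (i + 1) (K (i + 1)) < v ∧ a i (K (i + 1)) < v := by
  have hlom := hS.lom i i0 ir
  have hhim := hS.him i i0 ir
  have hK1 := h.Kmono i i0 (by omega)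
  have hK2 := h.Kmono (i + 1) (by omega) ir
  have hKlt := h.Klt (i + 1) (by omega) ir
  have hKge := h.Kge i i0 (by omega)
  have hKge' := h.Kge (i + 1) (by omega) ir
  rcases hv with ⟨j, j1, j2, rfl⟩ | ⟨j, j1, j2, rfl⟩
  · have A : a (i + 1) (K (i + 1)) < a (i + 1) j :=
      rowP h.toVSR (by omega) ir le_rfl j1 j2
    refine ⟨A, ?_⟩
    by_cases hc : K (i + 1) - (i + 1) < κ
    · have := h.Vd i i0 ir hc
      omega
    · have c1 := h.cP i (K (i + 1) + 1) i0 ir (by omega) (by omega)
      have c2 : a i (K (i + 1)) < a i (K (i + 1) + 1) := by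
        by_cases hk : K (i + 1) < K i
        · exact h.Ri i (K (i + 1)) i0 (by omega) le_rfl hk (by omega)
        · exact h.P i (K (i + 1)) i0 (by omega) (by omega) (by omega)
      have c3 : a (i + 1) (K (i + 1) + 1) ≤ a (i + 1) j := by
        rcases (show K (i + 1) + 1 < j ∨ K (i + 1) + 1 = j by omega) with hh | hh
        · exact (rowP h.toVSR (by omega) ir (by omega) hh j2).le
        · rw [hh]
      omega
  · have A : a i (K (i + 1)) < a i j :=
      rowN h.toVSR i0 (by omega) j1 j2 le_rfl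
    refine ⟨?_, A⟩
    by_cases hc : K (i + 1) - (i + 1) < κ
    · have c1 := h.cN i (K (i + 1) - 1) i0 ir (by omega) (by omega)
      have c2 : a (i + 1) (K (i + 1)) < a (i + 1) (K (i + 1) - 1) := by
        have e : K (i + 1) - 1 + 1 = K (i + 1) := by ring
        by_cases hk : K (i + 1) - 1 < K (i + 1 + 1)
        · have := h.N (i + 1) (K (i + 1) - 1) (by omega) ir (by omega) hk
          rwa [e] at this
        · have := h.Rd (i + 1) (K (i + 1) - 1) (by omega) ir (by omega) (by omega) (by omega)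
          rwa [e] at this
      have c3 : a i (K (i + 1) - 1) ≤ a i j := by
        rcases (show j < K (i + 1) - 1 ∨ K (i + 1) - 1 = j by omega) with hh | hh
        · exact (rowN h.toVSR i0 (by omega) j1 hh (by omega)).le
        · rw [hh]
      omega
    · have := h.Vi i i0 ir (by omega)
      omega

theorem two_le (hS : Shp r lo hi) (h : VS W r κ lo hi K a) {i : ℤ} {v : ℕ} (i0 : 0 ≤ i)
    (ir : i + 1 < r) (hv : InW lo hi K a i v) : 2 ≤ v := by
  obtain ⟨h1, h2⟩ := k1a hS h i0 ir hv
  by_cases hc : K (i + 1) - (i + 1) < κ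
  · have := h.Vd i i0 ir hc
    omega
  · have := h.Vi i i0 ir (by omega)
    omega

theorem k1b (hS : Shp r lo hi) (h : VS W r κ lo hi K a) {i : ℤ} {v : ℕ} (i0 : 1 ≤ i) (ir : i + 1 < r)
    (hv : InW lo hi K a i v) (hv' : InW lo hi K a (i - 1) v) {j : ℤ} (h1 : K (i + 1) ≤ j)
    (h2 : j ≤ K i) : a i j + 2 ≤ v := by
  obtain ⟨A1, A2⟩ := k1a hS h (by omega) ir hv
  have B := k1a hS h (i := i - 1) (by omega) (by omega) hv'
  have e : i - 1 + 1 = i := by ring
  rw [e] at B
  obtain ⟨B1, B2⟩ := B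
  have hm := h.Kmono i (by omega) (by omega)
  have up : ∀ x y, K (i + 1) ≤ x → x < y → y ≤ K i → κ ≤ x - i → a i x < a i y := by
    intro x y x1 x2 x3 x4
    exact ROW_ichain (a i) x y (fun z z1 z2 => h.Ri i z (by omega) (by omega) (by omega)
      (by omega) (by omega)) x2
  have dn : ∀ x y, K (i + 1) ≤ x → x < y → y ≤ K i → y - 1 - i < κ → a i y < a i x := by
    intro x y x1 x2 x3 x4
    exact ROW_dchain (a i) x y (fun z z1 z2 => h.Rd i z (by omega) (by omega) (by omega)
      (by omega) (by omega)) x2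
  have L1 : j - i ≤ κ → a i j ≤ a i (K (i + 1)) := by
    intro hj
    rcases (show K (i + 1) < j ∨ j = K (i + 1) by omega) with hh | hh
    · exact (dn _ _ le_rfl hh h2 (by omega)).le
    · rw [hh]
  have L2 : κ ≤ j - i → a i j ≤ a i (K i) := by
    intro hj
    rcases (show j < K i ∨ j = K i by omega) with hh | hh
    · exact (up _ _ h1 hh le_rfl hj).le
    · rw [hh]
  have V1 : K (i + 1) - (i + 1) < κ → a i (K (i + 1)) < a (i + 1) (K (i + 1)) :=
    h.Vd i (by omega) ir
  have V2 : κ ≤ K i - i → a i (K i) < a (i - 1) (K i) := by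
    intro hj
    have := h.Vi (i - 1) (by omega) (by omega)
    rw [e] at this
    exact this hj
  by_cases c1 : j - i ≤ κ
  · by_cases c2 : K (i + 1) - (i + 1) < κ
    · have := L1 c1
      have := V1 c2
      omega
    · have := L2 (by omega)
      have := V2 (by omega)
      omega
  · have := L2 (by omega)
    have := V2 (by omega)
    omega

end DST
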