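import Pool.Agent.DST.ROW
import Pool.Agent.DST.CLB

/-!
Module S1M of project DST (MP_0f73d6_co).

Write p_g = a (i+1) (L+g) for 1 ≤ g ≤ f; p_1 < ... < p_f = b (rowP).  All cells (i,L+g), (i,L+g+1) for g < f
exist since hi (i+1) ≤ hi i.  Always a i L < M (k1a for the letter M of W_i; c.top M, c.Mb).  b is not in N_i
(c.jgt, c.jlt).

s1: a i (L+g) < p_g for all 1 ≤ g ≤ f.  By VSC.cP a i (L+g) ≤ p_g.  Suppose equality for some g, take the
largest such g ≤ f; v = p_g = a i (L+g), M ≤ v.  For L ≤ y < L+g: a i y < v (for y = L since a i L < M ≤ v, else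
by rowV with ends L and L+g).  VSC.e3 at column L+g: v+1 is in row i+1 right of L+g, or in row i left of L+g; in
the second case its column is < L, so in any case v+1 is in W_i (P_i or N_i).  As b+1 is not in W_i, v ≠ b and so
g < f, v < b.
 (A) v+1 in P_i: then p_(g+1) = v+1 (rowP: p_g < p_(g+1) ≤ v+1).  a i (L+g+1) > a i (L+g) = v (rowV with L, L+g,
   L+g+1 and a i L < v), and ≤ p_(g+1) = v+1 by VSC.cP, so equality at g+1: contradicts maximality.
 (B) v+1 not in P_i, v+1 in N_i.  b in P_i so b ≥ v+2.  z := a i (L+g+1): v < z as in (A), z ≤ p_(g+1) ≤ b and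
   z ≠ p_(g+1) by maximality.  z in [M,b] so z in W_i; z is strictly between p_g and p_(g+1), so z is not in P_i
   and z is in N_i, say in column y0 < L.  Compare the cells (i,y0) and (i,L+g+1), both with letter z; between
   them in row i all letters are < z (rowV).  Letters z-1 between: in columns < L at most one (rowN); in columns
   L ≤ y ≤ L+g: a i y ≤ v, and for y < L+g a i y < v.  If z-1 > v: only the one in N_i: h3c gives z+1 not in the word,
   but z+1 ≤ p_(g+1) ≤ b is in W_i by c.top: contradiction.  If z-1 = v: if v is not in N_i the only letter z-1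
   between is the cell (i,L+g): h3c, same contradiction.  If v is in N_i (column y1): v is in P_i (column L+g)
   and in N_i; between (i+1,L+g) and (i,y1) all letters are > v (rowP, rowN), so qc gives that v+2 is not in the
   word; but v+2 ≤ b is: contradiction.
s1': for 1 ≤ g < f: a i (L+g+1) ≤ p_g.  By s1 z := a i (L+g+1) < p_(g+1).  Suppose z > p_g.  Then z is in [M,b], not
   in P_i, so in N_i, in column y0 < L.  Between (i,y0) and (i,L+g+1) all letters are < z (rowV).  For L ≤ y ≤ L+g:
   a i y ≤ max (a i L) (a i (L+g)) and a i L < M ≤ p_g ≤ z-1, a i (L+g) < p_g ≤ z-1 by s1, so a i y < z-1.  So at most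
   one letter z-1 between (in N_i): if none, h1c is contradicted; otherwise h3c gives z+1 not in the word, but
   z+1 ≤ p_(g+1) ≤ b.  (h3c covers both cases, its uniqueness hypothesis is enough.)
-/

namespace DST

variable {W : List ℕ → Prop} {r κ : ℤ} {lo hi K : ℤ → ℤ} {a : ℤ → ℤ → ℕ} {i L f jb : ℤ} {M b : ℕ}

theorem s1m_q (hW : Cls W) (hS : Shp r lo hi) (h : VS W r κ lo hi K a) (i0 : 0 ≤ i) (i1 : i + 1 < r)
    {v : ℕ} (hP : InP hi K a i v) (hN : InN lo K a i v) : ∀ x y, Cell r lo hi x y → a x y ≠ v + 2 := by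
  obtain ⟨k1, hk1, hk1', e1⟩ := hP
  obtain ⟨k2, hk2, hk2', e2⟩ := hN
  have hlo := hS.lom i i0 i1
  have hhi := hS.him i i0 i1
  have hKlt := h.Klt i i0 (by omega)
  have hKm := h.Kmono i i0 (by omega)
  have hKge := h.Kge i i0 (by omega)
  have c1 : Cell r lo hi (i + 1) k1 := ⟨by omega, i1, by omega, hk1'⟩
  have c2 : Cell r lo hi i k2 := ⟨i0, by omega, hk2, by omega⟩
  have key : ∀ x y, Cell r lo hi x y → Btw (i + 1) k1 i k2 x y → v < a x y := by
    intro x y hc hb
    obtain ⟨hb1, hb2⟩ := hb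
    unfold Bef at hb1 hb2
    obtain ⟨-, -, hc1, hc2⟩ := hc
    rcases hb2 with hb2 | ⟨hb2, hb3⟩
    · rcases hb1 with hb1 | ⟨hb1, hb4⟩
      · omega
      · subst hb1
        rw [← e1]
        exact rowP h.toVSR (by omega) i1 (by omega) hb4 hc2
    · subst hb2
      rw [← e2]
      exact rowN h.toVSR i0 (by omega) hc1 hb3 (by omega)
  exact (qc hW h.w c1 c2 (Or.inl (by omega)) e1 e2 (fun x y hc hb => by
    have := key x y hc hb; omega) (fun x y hc hb => by
    have := key x y hc hb; omega)).2.2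

theorem s1m_aL (c : Ctx W r κ lo hi K a i L f jb M b) {v : ℕ} (hv : InW lo hi K a i v) :
    a i L < v := by
  have := (k1a c.shp c.vs c.i0 c.i1 hv).2
  rwa [c.hL] at this

theorem s1m_bN (c : Ctx W r κ lo hi K a i L f jb M b) : ¬ InN lo K a i b := by
  rintro ⟨j, h1, h2, h3⟩
  rw [c.hL] at h2
  rcases lt_or_ge j jb with h | h
  · have := c.jgt j h1 h; omega
  · have := c.jlt j h h2; omega

theorem s1m_cell (c : Ctx W r κ lo hi K a i L f jb M b) {v : ℕ} (hv : InW lo hi K a i v) :
    ∃ x y, Cell r lo hi x y ∧ a x y = v := by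
  have i0 := c.i0
  have i1 := c.i1
  have hlo := c.shp.lom i i0 i1
  have hhi := c.shp.him i i0 i1
  have hKlt := c.vs.Klt i i0 (by omega)
  have hKm := c.vs.Kmono i i0 (by omega)
  have hKge := c.vs.Kge i i0 (by omega)
  rcases hv with ⟨j, h1, h2, h3⟩ | ⟨j, h1, h2, h3⟩
  · exact ⟨i + 1, j, ⟨by omega, i1, by omega, h2⟩, h3⟩
  · exact ⟨i, j, ⟨i0, by omega, h1, by omega⟩, h3⟩

/-- The cell in N_i with letter z and the cell (i, L+g+1) with the same letter. -/
theorem s1m_h3 (c : Ctx W r κ lo hi K a i L f jb M b) {g : ℤ} (g1 : 0 ≤ g) (gf : g < f)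
    {z : ℕ} (hz : a i (L + g + 1) = z) (hN : InN lo K a i z)
    (hu : ∀ y, L ≤ y → y ≤ L + g → a i y + 1 = z → ¬ InN lo K a i (z - 1) ∧ y = L + g)
    (hzb : z + 1 ≤ b) (hMz : M ≤ z) : False := by
  have i0 := c.i0
  have i1 := c.i1
  have hlo := c.shp.lom i i0 i1
  have hhi := c.shp.him i i0 i1
  have hKlt := c.vs.Klt i i0 (by omega)
  have hKm := c.vs.Kmono i i0 (by omega)
  have hKge := c.vs.Kge i i0 (by omega)
  have hL := c.hL
  have hfh := c.fh
  have h2 : 2 ≤ z := two_le c.shp c.vs i0 i1 (Or.inr hN)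
  obtain ⟨y0, hy1, hy2, hy3⟩ := hN
  rw [hL] at hy2
  have c1 : Cell r lo hi i y0 := ⟨i0, by omega, hy1, by omega⟩
  have c2 : Cell r lo hi i (L + g + 1) := ⟨i0, by omega, by omega, by omega⟩
  have hbtw : ∀ x y, Btw i y0 i (L + g + 1) x y → x = i ∧ y0 < y ∧ y < L + g + 1 := by
    intro x y hb
    obtain ⟨hb1, hb2⟩ := hb
    unfold Bef at hb1 hb2
    omega
  have hlt : ∀ x y, Cell r lo hi x y → Btw i y0 i (L + g + 1) x y → a x y < z := by
    intro x y hc hb
    obtain ⟨rfl, h3, h4⟩ := hbtw x y hb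
    rcases rowV c.vs.toVSR i0 (by omega) hy1 h3 h4 (by omega) with h | h
    · rwa [hy3] at h
    · rwa [hz] at h
  have hno : ∀ x y, Cell r lo hi x y → a x y ≠ z + 1 := by
    apply h3c c.cls c.vs.w h2 c1 c2 (Or.inr ⟨rfl, by omega⟩) hy3 hz
    · intro x y hc hb; have := hlt x y hc hb; omega
    · intro x y hc hb; have := hlt x y hc hb; omega
    · intro x y x' y' hc hc' hb hb' e e'
      obtain ⟨rfl, h3, h4⟩ := hbtw x y hb
      obtain ⟨rfl, h3', h4'⟩ := hbtw x' y' hb'
      refine ⟨rfl, ?_⟩
      have hinN : ∀ t, y0 < t → t < L → a x' t + 1 = z → InN lo K a x' (z - 1) := by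
        intro t ht1 ht2 ht3
        exact ⟨t, by omega, by omega, by omega⟩
      rcases lt_or_ge y L with h | h
      · rcases lt_or_ge y' L with h' | h'
        · rcases lt_trichotomy y y' with h5 | h5 | h5
          · have := rowN c.vs.toVSR i0 (by omega) (by omega : lo x' ≤ y) h5 (by omega); omega
          · exact h5
          · have := rowN c.vs.toVSR i0 (by omega) (by omega : lo x' ≤ y') h5 (by omega); omega
        · exact absurd (hinN y h3 h e) (hu y' h' (by omega) e').1
      · rcases lt_or_ge y' L with h' | h'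
        · exact absurd (hinN y' h3' h' e') (hu y h (by omega) e).1
        · rw [(hu y h (by omega) e).2, (hu y' h' (by omega) e').2]
  obtain ⟨x, y, hc, hv⟩ := s1m_cell c (c.top (z + 1) (by omega) hzb)
  exact hno x y hc hv

theorem s1m_step (c : Ctx W r κ lo hi K a i L f jb M b) {g : ℤ} (g1 : 1 ≤ g) (gf : g ≤ f)
    (hnext : g < f → a i (L + g + 1) < a (i + 1) (L + g + 1)) :
    a i (L + g) ≠ a (i + 1) (L + g) := by
  intro heq
  have i0 := c.i0
  have i1 := c.i1
  have hlo := c.shp.lom i i0 i1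
  have hhi := c.shp.him i i0 i1
  have hKlt := c.vs.Klt i i0 (by omega)
  have hKm := c.vs.Kmono i i0 (by omega)
  have hKge := c.vs.Kge i i0 (by omega)
  have hL := c.hL
  have hfh := c.fh
  have hMW := c.top M le_rfl c.Mb
  have haLM := s1m_aL c hMW
  have hgP : InP hi K a i (a (i + 1) (L + g)) := ⟨L + g, by omega, by omega, rfl⟩
  have hMv : M ≤ a (i + 1) (L + g) := c.Mmin i _ i0 i1 (Or.inl hgP)
  -- letters between L and L+g
  have hmid : ∀ y, L ≤ y → y < L + g → a i y < a i (L + g) := by
    intro y h1 h2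
    rcases eq_or_lt_of_le h1 with h | h
    · rw [← h]; omega
    · rcases rowV c.vs.toVSR i0 (by omega) (by omega : lo i ≤ L) h h2 (by omega) with h3 | h3
      · omega
      · exact h3
  have hW1 : InW lo hi K a i (a i (L + g) + 1) := by
    rcases c.vs.e3 i (L + g) i0 i1 (by omega) (by omega) (by omega) heq.symm with
      ⟨k, h1, h2, h3⟩ | ⟨k, h1, h2, h3⟩
    · exact Or.inl ⟨k, by omega, h2, h3⟩
    · rcases lt_or_ge k L with h | h
      · exact Or.inr ⟨k, h1, by omega, h3⟩
      · have := hmid k h h2; omega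
  have hvb : a i (L + g) ≠ b := by
    intro h; rw [h] at hW1; exact c.nb hW1
  have hgf : g < f := by
    rcases eq_or_lt_of_le gf with h | h
    · exfalso; apply hvb; rw [heq, h]; exact c.fb
    · exact h
  have hpb : a (i + 1) (L + g + 1) ≤ b := by
    rcases eq_or_lt_of_le (show g + 1 ≤ f by omega) with h | h
    · have : L + g + 1 = L + f := by omega
      rw [this, c.fb]
    · have := rowP c.vs.toVSR (by omega) i1 (by omega : K (i + 1) ≤ L + g + 1)
        (by omega : L + g + 1 < L + f) (by omega)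
      rw [c.fb] at this; omega
  have hzlt := hnext hgf
  have hvz : a i (L + g) < a i (L + g + 1) := by
    rcases rowV c.vs.toVSR i0 (by omega) (by omega : lo i ≤ L) (by omega : L < L + g)
      (by omega : L + g < L + g + 1) (by omega) with h3 | h3
    · omega
    · exact h3
  have hnotP : ∀ v, a i (L + g) < v → v < a (i + 1) (L + g + 1) → ¬ InP hi K a i v := by
    rintro v hv1 hv2 ⟨k, h1, h2, h3⟩
    rcases lt_trichotomy k (L + g) with h | h | h
    · have := rowP c.vs.toVSR (by omega) i1 (by omega : K (i + 1) ≤ k) h (by omega); omega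
    · rw [h] at h3; omega
    · rcases eq_or_lt_of_le (show L + g + 1 ≤ k by omega) with h4 | h4
      · rw [← h4] at h3; omega
      · have := rowP c.vs.toVSR (by omega) i1 (by omega : K (i + 1) ≤ L + g + 1) h4 h2; omega
  have hN1 : InN lo K a i (a i (L + g) + 1) := by
    rcases hW1 with h | h
    · exact absurd h (hnotP _ (by omega) (by omega))
    · exact h
  have hb1 : a i (L + g) + 1 ≠ b := by
    intro h; rw [h] at hN1; exact s1m_bN c hN1
  have hzW := c.top (a i (L + g + 1)) (by omega) (by omega)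
  have hzN : InN lo K a i (a i (L + g + 1)) := by
    rcases hzW with h | h
    · exact absurd h (hnotP _ hvz hzlt)
    · exact h
  refine s1m_h3 c (by omega) hgf rfl hzN ?_ (by omega) (by omega)
  intro y h1 h2 h3
  have hy : y = L + g := by
    by_contra hne
    have := hmid y h1 (by omega)
    omega
  refine ⟨?_, hy⟩
  subst hy
  have e : a i (L + g + 1) - 1 = a i (L + g) := by omega
  rw [e]
  intro hNv
  rw [← heq] at hgP
  obtain ⟨x, y, hc, hv⟩ := s1m_cell c (c.top (a i (L + g) + 2) (by omega) (by omega))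
  exact s1m_q c.cls c.shp c.vs i0 i1 hgP hNv x y hc hv

theorem s1_aux (c : Ctx W r κ lo hi K a i L f jb M b) (m : ℕ) : ∀ g : ℤ, 1 ≤ g → g ≤ f →
    f - g ≤ m → a i (L + g) < a (i + 1) (L + g) := by
  induction m with
  | zero =>
    intro g g1 gf hm
    have hne := s1m_step c g1 gf (fun h => by exfalso; simp at hm; omega)
    have hle := c.vs.cP i (L + g) c.i0 c.i1 (by rw [c.hL]; omega) (by have := c.fh; omega)
    omega
  | succ m ih =>
    intro g g1 gf hm
    have hne := s1m_step c g1 gf (fun h => by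
      have := ih (g + 1) (by omega) (by omega) (by push_cast at hm; omega)
      rwa [← add_assoc] at this)
    have hle := c.vs.cP i (L + g) c.i0 c.i1 (by rw [c.hL]; omega) (by have := c.fh; omega)
    omega

theorem s1 (c : Ctx W r κ lo hi K a i L f jb M b) {g : ℤ} (g1 : 1 ≤ g) (gf : g ≤ f) :
    a i (L + g) < a (i + 1) (L + g) :=
  s1_aux c (f - g).toNat g g1 gf (by omega)

theorem s1' (c : Ctx W r κ lo hi K a i L f jb M b) {g : ℤ} (g1 : 1 ≤ g) (gf : g < f) :
    a i (L + g + 1) ≤ a (i + 1) (L + g) := by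
  by_contra hcon
  rw [not_le] at hcon
  have i0 := c.i0
  have i1 := c.i1
  have hlo := c.shp.lom i i0 i1
  have hhi := c.shp.him i i0 i1
  have hKlt := c.vs.Klt i i0 (by omega)
  have hKm := c.vs.Kmono i i0 (by omega)
  have hKge := c.vs.Kge i i0 (by omega)
  have hL := c.hL
  have hfh := c.fh
  have hMW := c.top M le_rfl c.Mb
  have haLM := s1m_aL c hMW
  have hgP : InP hi K a i (a (i + 1) (L + g)) := ⟨L + g, by omega, by omega, rfl⟩
  have hMv : M ≤ a (i + 1) (L + g) := c.Mmin i _ i0 i1 (Or.inl hgP)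
  have hz := s1 c (g := g + 1) (by omega) (by omega)
  rw [← add_assoc] at hz
  have hg := s1 c g1 (by omega : g ≤ f)
  have hpb : a (i + 1) (L + g + 1) ≤ b := by
    rcases eq_or_lt_of_le (show g + 1 ≤ f by omega) with h | h
    · have : L + g + 1 = L + f := by omega
      rw [this, c.fb]
    · have := rowP c.vs.toVSR (by omega) i1 (by omega : K (i + 1) ≤ L + g + 1)
        (by omega : L + g + 1 < L + f) (by omega)
      rw [c.fb] at this; omega
  have hnotP : ∀ v, a (i + 1) (L + g) < v → v < a (i + 1) (L + g + 1) → ¬ InP hi K a i v := by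
    rintro v hv1 hv2 ⟨k, h1, h2, h3⟩
    rcases lt_trichotomy k (L + g) with h | h | h
    · have := rowP c.vs.toVSR (by omega) i1 (by omega : K (i + 1) ≤ k) h (by omega); omega
    · rw [h] at h3; omega
    · rcases eq_or_lt_of_le (show L + g + 1 ≤ k by omega) with h4 | h4
      · rw [← h4] at h3; omega
      · have := rowP c.vs.toVSR (by omega) i1 (by omega : K (i + 1) ≤ L + g + 1) h4 h2; omega
  have hzN : InN lo K a i (a i (L + g + 1)) := by
    rcases c.top (a i (L + g + 1)) (by omega) (by omega) with h | h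
    · exact absurd h (hnotP _ hcon hz)
    · exact h
  refine s1m_h3 c (by omega) gf rfl hzN ?_ (by omega) (by omega)
  intro y h1 h2 h3
  exfalso
  rcases eq_or_lt_of_le h1 with h | h
  · rw [← h] at h3; omega
  · rcases eq_or_lt_of_le h2 with h' | h'
    · rw [h'] at h3; omega
    · rcases rowV c.vs.toVSR i0 (by omega) (by omega : lo i ≤ L) h h' (by omega) with h4 | h4
      · omega
      · omega

end DST
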