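import Pool.Agent.DST.XXM
import Pool.Agent.DST.NPM
import Pool.Agent.DST.CLC

/-!
Module S2M of project DST (MP_0f73d6_co).

s2: the new row i is ≤ row i-1 in the columns jb ≤ j ≤ L.  Here i ≥ 1; K' := K i > L (xK).
Suppose j is a column with jb ≤ j ≤ L, lo (i-1) ≤ j and z := a (i-1) j < t where t := tog ... i j is b (if j = jb) or
a i (j-1) (if j > jb); t ≤ b (c.jlt), so z < b.  The cells (i-1,y), j ≤ y < K', are in N_(i-1), their letters are
pairwise different (rowN), ≤ z and ≥ M (c.Mmin); in particular M ≤ z.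
Counting.  Let g0 be the largest g with 0 ≤ g ≤ f and (g = 0 or p_g ≤ z) (p_g = a (i+1) (L+g)); g0 < f since
p_f = b > z.  The letters of [M,z] are in W_i (c.top).  Those in P_i are among p_1, …, p_g0.  Those in N_i are in
columns ≥ j (if j = jb, columns < jb have letters > b; if j > jb, a i (j-1) > z and rowN), so they are among
a i j, …, a i (L-1).  So  z - M + 1 ≤ g0 + (L - j).
On the other hand A = {a (i-1) y : j ≤ y < K'} has K' - j elements in [M,z], and B = {a i y : K' < y ≤ L+g0+1} (if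
g0 ≥ 1; B empty if g0 = 0) has max(0, L+g0+1-K') elements; they are in P_(i-1) (so ≥ M), and ≤ a i (L+g0+1) ≤
p_g0 ≤ z by rowP and s1' (g0 < f).  If A and B were disjoint, (K'-j) + (L+g0+1-K') ≤ z-M+1 ≤ g0+L-j,
contradiction.  (For g0 = 0: K' - j ≥ L+1-j > L - j.)  So there is u in N_(i-1) and P_(i-1), M ≤ u ≤ z < b, with cells
(i,y1), K' < y1 < hi i, and (i-1,y2), lo (i-1) ≤ y2 < K'.
Between (i,y1) and (i-1,y2) all letters are > u (rowP, rowN); qc: exactly one u+1 between, in a cell c3 of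
P_(i-1) or N_(i-1), and u+2 is not in the word.  u+1 ≤ b; if u+2 ≤ b then u+2 is in W_i, contradiction; so
b = u+1.  u is in W_i (c.top).  If u is in N_i: np gives that u+1 = b is not in the word: contradiction.  So u is
in P_i only.  Now l5c with b := u and the cells (i+1,L+f) [letter b = u+1], (i,y1) [u], c3 [u+1], (i-1,y2) [u]:
 gap 1: row i+1 right of L+f: letters > b and ≠ b+1 (c.nb), so not u, u+1, u+2; row i columns < L (N_i): not u
   (u not in N_i), not b (c.jgt, c.jlt), not b+1; row i columns L ≤ y ≤ K': k1b for u and for u+1 (both in W_i and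
   W_(i-1)): letters ≤ u-2; row i columns K' < y < y1: letters < u.
 gaps 2, 3: cells between (i,y1) and (i-1,y2) other than c3: letters > u, ≠ u+1 (uniqueness), ≠ u+2.
-/

namespace DST

variable {W : List ℕ → Prop} {r κ : ℤ} {lo hi K : ℤ → ℤ} {a : ℤ → ℤ → ℕ} {i L f jb : ℤ} {M b : ℕ}

theorem s2m_trans {i j x y i' j' : ℤ} (h1 : Bef i j x y) (h2 : Bef x y i' j') : Bef i j i' j' := by
  unfold Bef at *
  omega

theorem s2m_irr {i j : ℤ} (h : Bef i j i j) : False := by
  unfold Bef at h
  omega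

/-- The pigeonhole step: a letter u ≤ z in N_(i-1) and in P_(i-1). -/
theorem s2m_pig (c : Ctx W r κ lo hi K a i L f jb M b) (i1' : 1 ≤ i) {j : ℤ} (h1 : jb ≤ j) (h2 : j ≤ L)
    (h3 : lo (i - 1) ≤ j) (hz : a (i - 1) j < tog i L f jb b a i j) :
    ∃ y1 y2, K i < y1 ∧ y1 < hi i ∧ lo (i - 1) ≤ y2 ∧ y2 < K i ∧ a i y1 = a (i - 1) y2 ∧
      M ≤ a i y1 ∧ a i y1 < b := by
  classical
  have i0 := c.i0
  have i1 := c.i1
  have hhi := c.shp.him i i0 i1
  have hL := c.hL
  have hfh := c.fh
  have f1 := c.f1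
  have hKi := xK c
  have hlo' := c.shp.lom (i - 1) (by omega) (by omega)
  rw [sub_add_cancel] at hlo'
  -- the value of the new entry
  have htog : tog i L f jb b a i j = if j = jb then b else a i (j - 1) := by
    unfold tog
    have e1 : ¬ (i = i + 1) := by omega
    rw [if_neg e1, if_pos rfl]
    by_cases h : j = jb
    · rw [if_pos h, if_pos h]
    · rw [if_neg h, if_neg h, if_pos ⟨by omega, h2⟩]
  rw [htog] at hz
  have hzb : a (i - 1) j < b := by
    split_ifs at hz with h
    · exact hz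
    · have := c.jlt (j - 1) (by omega) (by omega); omega
  have hzN : InN lo K a (i - 1) (a (i - 1) j) := ⟨j, h3, by rw [sub_add_cancel]; omega, rfl⟩
  have hzM : M ≤ a (i - 1) j := c.Mmin (i - 1) _ (by omega) (by omega) (Or.inr hzN)
  set z := a (i - 1) j with hzdef
  -- g0
  have hex : ∃ m : ℕ, z < a (i + 1) (L + (m : ℤ) + 1) := by
    refine ⟨(f - 1).toNat, ?_⟩
    have e : L + ((f - 1).toNat : ℤ) + 1 = L + f := by omega
    rw [e, c.fb]
    exact hzb
  obtain ⟨g0, hg0, hg0min⟩ : ∃ m : ℕ, z < a (i + 1) (L + (m : ℤ) + 1) ∧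
      ∀ t < m, ¬ z < a (i + 1) (L + (t : ℤ) + 1) :=
    ⟨Nat.find hex, Nat.find_spec hex, fun t ht => Nat.find_min hex ht⟩
  have hg0f : (g0 : ℤ) < f := by
    by_contra hcon
    have := hg0min (f - 1).toNat (by omega)
    apply this
    have e : L + ((f - 1).toNat : ℤ) + 1 = L + f := by omega
    rw [e, c.fb]
    exact hzb
  have hpg0 : 1 ≤ g0 → a (i + 1) (L + (g0 : ℤ)) ≤ z := by
    intro h
    have := hg0min (g0 - 1) (by omega)
    have e : L + ((g0 - 1 : ℕ) : ℤ) + 1 = L + (g0 : ℤ) := by omega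
    rw [e] at this
    omega
  by_contra hcon
  push Not at hcon
  set A := (Finset.Ico j (K i)).image (a (i - 1)) with hA
  set B := (Finset.Ioc (K i) (L + (g0 : ℤ) + 1)).image (a i) with hB
  set D := (Finset.Ico j L).image (a i) with hD
  set E := (Finset.Ioc L (L + (g0 : ℤ))).image (a (i + 1)) with hE
  have hBval : ∀ y, K i < y → y ≤ L + (g0 : ℤ) + 1 → a i y ≤ z ∧ M ≤ a i y := by
    intro y hy1 hy2
    have hg1 : 1 ≤ g0 := by omega
    have hs := s1' c (g := (g0 : ℤ)) (by omega) hg0f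
    have hle : a i y ≤ a i (L + (g0 : ℤ) + 1) := by
      rcases eq_or_lt_of_le hy2 with h | h
      · rw [h]
      · exact (rowP c.vs.toVSR i0 (by omega) (by omega : K i ≤ y) h (by omega)).le
    have hp := hpg0 hg1
    refine ⟨by omega, ?_⟩
    exact c.Mmin (i - 1) _ (by omega) (by omega)
      (Or.inl ⟨y, by rw [sub_add_cancel]; omega, by rw [sub_add_cancel]; omega,
        by rw [sub_add_cancel]⟩)
  have hAval : ∀ y, j ≤ y → y < K i → a (i - 1) y ≤ z ∧ M ≤ a (i - 1) y := by
    intro y hy1 hy2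
    constructor
    · rcases eq_or_lt_of_le hy1 with h | h
      · rw [← h]
      · exact (rowN c.vs.toVSR (by omega) (by omega) h3 h (by rw [sub_add_cancel]; omega)).le
    · exact c.Mmin (i - 1) _ (by omega) (by omega)
        (Or.inr ⟨y, by omega, by rw [sub_add_cancel]; omega, rfl⟩)
  have hAB : Disjoint A B := by
    rw [Finset.disjoint_left]
    intro u hu1 hu2
    rw [hA, Finset.mem_image] at hu1
    rw [hB, Finset.mem_image] at hu2
    obtain ⟨y2, hy2, e2⟩ := hu1
    obtain ⟨y1, hy1, e1⟩ := hu2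
    rw [Finset.mem_Ico] at hy2
    rw [Finset.mem_Ioc] at hy1
    have hb1 := hBval y1 hy1.1 hy1.2
    have := hcon y1 y2 hy1.1 (by omega) (by omega) hy2.2 (by rw [e1, e2]) hb1.2
    omega
  have hcA : A.card = (K i - j).toNat := by
    rw [hA, Finset.card_image_of_injOn, Int.card_Ico]
    intro y hy y' hy' hyy
    rw [Finset.mem_coe, Finset.mem_Ico] at hy hy'
    rcases lt_trichotomy y y' with h | h | h
    · have := rowN c.vs.toVSR (i := i - 1) (by omega) (by omega) (by omega : lo (i - 1) ≤ y) h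
        (by rw [sub_add_cancel]; omega)
      omega
    · exact h
    · have := rowN c.vs.toVSR (i := i - 1) (by omega) (by omega) (by omega : lo (i - 1) ≤ y') h
        (by rw [sub_add_cancel]; omega)
      omega
  have hcB : B.card = (L + (g0 : ℤ) + 1 - K i).toNat := by
    rw [hB, Finset.card_image_of_injOn, Int.card_Ioc]
    intro y hy y' hy' hyy
    rw [Finset.mem_coe, Finset.mem_Ioc] at hy hy'
    rcases lt_trichotomy y y' with h | h | h
    · have := rowP c.vs.toVSR i0 (by omega) (by omega : K i ≤ y) h (by omega)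
      omega
    · exact h
    · have := rowP c.vs.toVSR i0 (by omega) (by omega : K i ≤ y') h (by omega)
      omega
  have hABC : A ∪ B ⊆ Finset.Icc M z := by
    intro u hu
    rw [Finset.mem_union] at hu
    rw [Finset.mem_Icc]
    rcases hu with hu | hu
    · rw [hA, Finset.mem_image] at hu
      obtain ⟨y, hy, rfl⟩ := hu
      rw [Finset.mem_Ico] at hy
      have := hAval y hy.1 hy.2
      exact ⟨this.2, this.1⟩
    · rw [hB, Finset.mem_image] at hu
      obtain ⟨y, hy, rfl⟩ := hu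
      rw [Finset.mem_Ioc] at hy
      have := hBval y hy.1 hy.2
      exact ⟨this.2, this.1⟩
  have hCDE : Finset.Icc M z ⊆ D ∪ E := by
    intro v hv
    rw [Finset.mem_Icc] at hv
    rw [Finset.mem_union]
    rcases c.top v hv.1 (by omega) with ⟨k, hk1, hk2, hk3⟩ | ⟨k, hk1, hk2, hk3⟩
    · right
      rw [hE, Finset.mem_image]
      refine ⟨k, ?_, hk3⟩
      rw [Finset.mem_Ioc]
      refine ⟨by omega, ?_⟩
      by_contra hlt
      rcases eq_or_lt_of_le (show L + (g0 : ℤ) + 1 ≤ k by omega) with h | h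
      · rw [← h] at hk3; omega
      · have := rowP c.vs.toVSR (by omega) i1 (by omega : K (i + 1) ≤ L + (g0 : ℤ) + 1) h hk2
        omega
    · left
      rw [hD, Finset.mem_image]
      refine ⟨k, ?_, hk3⟩
      rw [Finset.mem_Ico]
      refine ⟨?_, by omega⟩
      by_contra hlt
      split_ifs at hz with h
      · have := c.jgt k hk1 (by omega); omega
      · rcases eq_or_lt_of_le (show k ≤ j - 1 by omega) with h' | h'
        · rw [h'] at hk3; omega
        · have := rowN c.vs.toVSR i0 (by omega) hk1 h' (by omega); omega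
  have q1 := Finset.card_le_card hABC
  have q2 := Finset.card_le_card hCDE
  have q3 := Finset.card_union_le D E
  have q4 : D.card ≤ (L - j).toNat := by
    rw [hD]; exact le_trans Finset.card_image_le (by rw [Int.card_Ico])
  have q5 : E.card ≤ g0 := by
    rw [hE]; exact le_trans Finset.card_image_le (by rw [Int.card_Ioc]; omega)
  rw [Finset.card_union_of_disjoint hAB, hcA, hcB, Nat.card_Icc] at q1
  rw [Nat.card_Icc] at q2
  omega

theorem s2 (c : Ctx W r κ lo hi K a i L f jb M b) (i1 : 1 ≤ i) {j : ℤ} (h1 : jb ≤ j) (h2 : j ≤ L)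
    (h3 : lo (i - 1) ≤ j) : tog i L f jb b a i j ≤ a (i - 1) j := by
  by_contra hcon
  rw [not_le] at hcon
  obtain ⟨y1, y2, k1, k2, k3, k4, k5, k6, k7⟩ := s2m_pig c i1 h1 h2 h3 hcon
  have i0 := c.i0
  have i1' := c.i1
  have hL := c.hL
  have hfh := c.fh
  have f1 := c.f1
  have hKi := xK c
  have hhi := c.shp.him i i0 i1'
  have hlo := c.shp.lom i i0 i1'
  have hlo' := c.shp.lom (i - 1) (by omega) (by omega)
  have hhi' := c.shp.him (i - 1) (by omega) (by omega)
  rw [sub_add_cancel] at hlo' hhi'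
  have hKlt' := c.vs.Klt (i - 1) (by omega) (by omega)
  have hKm' := c.vs.Kmono (i - 1) (by omega) (by omega)
  rw [sub_add_cancel] at hKm'
  have hKge := c.vs.Kge i i0 (by omega)
  have hKge' := c.vs.Kge (i - 1) (by omega) (by omega)
  rw [sub_add_cancel] at hKge'
  set u := a i y1 with hu
  have c1 : Cell r lo hi (i + 1) (L + f) := ⟨by omega, i1', by omega, hfh⟩
  have c2 : Cell r lo hi i y1 := ⟨i0, by omega, by omega, k2⟩
  have c4 : Cell r lo hi (i - 1) y2 := ⟨by omega, by omega, k3, by omega⟩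
  have hPu : InP hi K a (i - 1) u :=
    ⟨y1, by rw [sub_add_cancel]; omega, by rw [sub_add_cancel]; omega, by rw [sub_add_cancel]⟩
  have key : ∀ x y, Cell r lo hi x y → Btw i y1 (i - 1) y2 x y → u < a x y := by
    intro x y hc hb
    obtain ⟨hb1, hb2⟩ := hb
    unfold Bef at hb1 hb2
    obtain ⟨-, -, hc1, hc2⟩ := hc
    rcases hb2 with hb2 | ⟨hb2, hb3⟩
    · rcases hb1 with hb1 | ⟨hb1, hb4⟩
      · omega
      · subst hb1
        exact rowP c.vs.toVSR i0 (by omega) (by omega) hb4 hc2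
    · subst hb2
      rw [k5]
      exact rowN c.vs.toVSR (by omega) (by omega) hc1 hb3 (by rw [sub_add_cancel]; omega)
  obtain ⟨⟨x3, y3, c3, b3, e3⟩, huniq, hno⟩ := qc c.cls c.vs.w c2 c4 (Or.inl (by omega)) hu.symm
    k5.symm (fun x y hc hb => by have := key x y hc hb; omega)
    (fun x y hc hb => by have := key x y hc hb; omega)
  have hbu : b = u + 1 := by
    by_contra hne
    obtain ⟨x, y, hc, hv⟩ := s1m_cell c (c.top (u + 2) (by omega) (by omega))
    exact hno x y hc hv
  have hnN : ¬ InN lo K a i u := by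
    intro hN
    exact np c.cls c.shp c.vs i1 i1' hN hPu _ _ c1 (by rw [c.fb, hbu])
  have hWu : InW lo hi K a i u := c.top u k6 (by omega)
  have hWu' : InW lo hi K a (i - 1) u := Or.inl hPu
  refine l5c c.cls c.vs.w c1 c2 c3 c4 (Or.inl (by omega)) b3.1 b3.2 (by rw [c.fb, hbu]) hu.symm e3
    k5.symm ?_ ?_ ?_
  · intro x y hc hb
    obtain ⟨hb1, hb2⟩ := hb
    unfold Bef at hb1 hb2
    obtain ⟨-, -, hc1, hc2⟩ := hc
    rcases hb2 with hb2 | ⟨hb2, hb3⟩
    · rcases hb1 with hb1 | ⟨hb1, hb4⟩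
      · omega
      · subst hb1
        have h5 := rowP c.vs.toVSR (by omega) i1' (by omega) hb4 hc2
        rw [c.fb] at h5
        have h6 : a (i + 1) y ≠ b + 1 := fun h => c.nb (Or.inl ⟨y, by omega, hc2, h⟩)
        refine ⟨?_, ?_, ?_⟩ <;> omega
    · subst hb2
      rcases lt_or_ge y L with h | h
      · have h5 : a i y ≠ u := fun h' => hnN ⟨y, hc1, by omega, h'⟩
        have h6 : a i y ≠ b := fun h' => s1m_bN c ⟨y, hc1, by omega, h'⟩
        have h7 : a i y ≠ b + 1 := fun h' => c.nb (Or.inr ⟨y, hc1, by omega, h'⟩)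
        refine ⟨?_, ?_, ?_⟩ <;> omega
      · rcases le_or_gt y (K i) with h' | h'
        · have h5 := k1b c.shp c.vs i1 i1' hWu hWu' (by omega : K (i + 1) ≤ y) h'
          refine ⟨?_, ?_, ?_⟩ <;> omega
        · have h5 := rowP c.vs.toVSR i0 (by omega) h'.le hb3 k2
          refine ⟨?_, ?_, ?_⟩ <;> omega
  · intro x y hc hb
    have hb' : Btw i y1 (i - 1) y2 x y := ⟨hb.1, s2m_trans hb.2 b3.2⟩
    have h5 := key x y hc hb'
    have h6 : a x y ≠ u + 1 := by
      intro h
      obtain ⟨e1, e2⟩ := huniq x y x3 y3 hc c3 hb' b3 h e3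
      subst e1; subst e2
      exact s2m_irr hb.2
    have h7 := hno x y hc
    refine ⟨?_, ?_, ?_, ?_⟩ <;> omega
  · intro x y hc hb
    have hb' : Btw i y1 (i - 1) y2 x y := ⟨s2m_trans b3.1 hb.1, hb.2⟩
    have h5 := key x y hc hb'
    have h6 : a x y ≠ u + 1 := by
      intro h
      obtain ⟨e1, e2⟩ := huniq x y x3 y3 hc c3 hb' b3 h e3
      subst e1; subst e2
      exact s2m_irr hb.1
    have h7 := hno x y hc
    refine ⟨?_, ?_, ?_, ?_⟩ <;> omega

end DST
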