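import Pool.Agent.DST.Defs

/-!
Module SCA of project DST (MP_0f73d6_co).

Schur polynomial of a hook as a sum over the corner m, the set C of the j entries of the column below the corner (all
> m) and the multiset R of the l-1-j entries of row 0 right of the corner (all ≥ m).  A semistandard filling t of
hookD l j corresponds to (t (0,0), {t (i,0) : 1 ≤ i ≤ j}, multiset of t (0,c), 1 ≤ c < l-j); conversely sort C strictly
increasingly down the column and R weakly increasingly along the row.
-/

namespace DST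

open MvPolynomial

theorem sca_mem {l j : ℕ} (hj : j < l) (a c : ℕ) :
    (a, c) ∈ hookD l j ↔ (a = 0 ∧ c < l - j) ∨ (c = 0 ∧ a < j + 1) := by
  rw [← YoungDiagram.mem_cells]
  simp only [hookD, hj, if_true, Finset.mem_union, Finset.mem_image, Finset.mem_range,
    Prod.mk.injEq]
  constructor
  · rintro (⟨x, hx, h1, h2⟩ | ⟨x, hx, h1, h2⟩)
    · left; omega
    · right; omega
  · rintro (⟨h1, h2⟩ | ⟨h1, h2⟩)
    · left; exact ⟨c, h2, h1.symm, rfl⟩
    · right; exact ⟨a, h2, rfl, h1.symm⟩

/-- the cells of a hook -/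
noncomputable def scaF {l j : ℕ} (hj : j < l) :
    Unit ⊕ (Fin j ⊕ Fin (l - 1 - j)) → (hookD l j).cells
  | Sum.inl _ => ⟨(0, 0), (YoungDiagram.mem_cells _).2 ((sca_mem hj 0 0).2 (by right; omega))⟩
  | Sum.inr (Sum.inl i) => ⟨((i : ℕ) + 1, 0),
      (YoungDiagram.mem_cells _).2 ((sca_mem hj _ _).2 (by right; have := i.2; omega))⟩
  | Sum.inr (Sum.inr c) => ⟨(0, (c : ℕ) + 1),
      (YoungDiagram.mem_cells _).2 ((sca_mem hj _ _).2 (by left; have := c.2; omega))⟩

theorem scaF_bij {l j : ℕ} (hj : j < l) : Function.Bijective (scaF hj) := by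
  constructor
  · rintro (x | (x | x)) (y | (y | y)) h
    · rfl
    · have := congrArg (fun z => z.1.1) h
      simp [scaF] at this
    · have := congrArg (fun z => z.1.2) h
      simp [scaF] at this
    · have := congrArg (fun z => z.1.1) h
      simp [scaF] at this
    · have := congrArg (fun z => z.1.1) h
      simp only [scaF] at this
      have h2 : x = y := Fin.ext (by omega)
      rw [h2]
    · have := congrArg (fun z => z.1.1) h
      simp [scaF] at this
    · have := congrArg (fun z => z.1.2) h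
      simp [scaF] at this
    · have := congrArg (fun z => z.1.1) h
      simp [scaF] at this
    · have := congrArg (fun z => z.1.2) h
      simp only [scaF] at this
      have h2 : x = y := Fin.ext (by omega)
      rw [h2]
  · rintro ⟨⟨a, c⟩, h⟩
    have h' := (sca_mem hj a c).1 ((YoungDiagram.mem_cells _).1 h)
    rcases Nat.eq_zero_or_pos a with ha | ha
    · rcases Nat.eq_zero_or_pos c with hc | hc
      · exact ⟨Sum.inl (), by subst ha hc; rfl⟩
      · refine ⟨Sum.inr (Sum.inr ⟨c - 1, by omega⟩), ?_⟩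
        apply Subtype.ext
        simp only [scaF]
        ext
        · exact ha.symm
        · simp only; omega
    · refine ⟨Sum.inr (Sum.inl ⟨a - 1, by omega⟩), ?_⟩
      apply Subtype.ext
      simp only [scaF]
      ext
      · simp only; omega
      · simp only; omega

/-- the cells of a hook, as an equivalence -/
noncomputable def scaE {l j : ℕ} (hj : j < l) :
    Unit ⊕ (Fin j ⊕ Fin (l - 1 - j)) ≃ (hookD l j).cells :=
  Equiv.ofBijective (scaF hj) (scaF_bij hj)

theorem sca_ss {k l j : ℕ} (hj : j < l) (t : (hookD l j).cells → Fin k) :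
    IsSS (hookD l j) t ↔
      (StrictMono (fun i : Fin j => t (scaF hj (Sum.inr (Sum.inl i)))) ∧
        ∀ i : Fin j, t (scaF hj (Sum.inl ())) < t (scaF hj (Sum.inr (Sum.inl i)))) ∧
      (Monotone (fun i : Fin (l - 1 - j) => t (scaF hj (Sum.inr (Sum.inr i)))) ∧
        ∀ i : Fin (l - 1 - j), t (scaF hj (Sum.inl ())) ≤ t (scaF hj (Sum.inr (Sum.inr i)))) := by
  constructor
  · intro h
    refine ⟨⟨?_, ?_⟩, ?_, ?_⟩
    · intro x y hxy
      refine (h _ _).2 rfl ?_
      simp only [scaF]
      have : (x : ℕ) < y := hxy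
      omega
    · intro x
      refine (h _ _).2 rfl ?_
      simp only [scaF]
      omega
    · intro x y hxy
      rcases eq_or_lt_of_le hxy with rfl | hlt
      · exact le_refl _
      · refine (h _ _).1 rfl ?_
        simp only [scaF]
        have : (x : ℕ) < y := hlt
        omega
    · intro x
      refine (h _ _).1 rfl ?_
      simp only [scaF]
      omega
  · rintro ⟨⟨h1, h2⟩, h3, h4⟩ c d
    obtain ⟨x, rfl⟩ := (scaF_bij hj).2 c
    obtain ⟨y, rfl⟩ := (scaF_bij hj).2 d
    rcases x with (x | (x | x)) <;> rcases y with (y | (y | y))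
    · refine ⟨fun _ h => ?_, fun _ h => ?_⟩ <;> simp [scaF] at h
    · refine ⟨fun h _ => ?_, fun _ _ => h2 y⟩
      simp [scaF] at h
    · refine ⟨fun _ _ => h4 y, fun h _ => ?_⟩
      simp [scaF] at h
    · refine ⟨fun h _ => ?_, fun _ h => ?_⟩ <;> simp [scaF] at h
    · refine ⟨fun _ h => ?_, fun _ h => ?_⟩
      · simp [scaF] at h
      · refine h1 ?_
        simp only [scaF] at h
        exact Fin.lt_def.2 (by omega)
    · refine ⟨fun h _ => ?_, fun h _ => ?_⟩ <;> simp [scaF] at h
    · refine ⟨fun _ h => ?_, fun h _ => ?_⟩ <;> simp [scaF] at h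
    · refine ⟨fun h _ => ?_, fun h _ => ?_⟩ <;> simp [scaF] at h
    · refine ⟨fun _ h => ?_, fun _ h => ?_⟩
      · refine h3 ?_
        simp only [scaF] at h
        exact le_of_lt (Fin.lt_def.2 (by omega))
      · simp [scaF] at h

open Classical in
theorem sca_col {k : ℕ} (U : Finset (Fin k)) (j : ℕ) :
    ∑ f ∈ (Finset.univ : Finset (Fin j → Fin k)).filter (fun f => StrictMono f ∧ ∀ i, f i ∈ U),
      ∏ i, (X (f i) : MvPolynomial (Fin k) ℤ) =
    ∑ C ∈ U.powersetCard j, ∏ x ∈ C, (X x : MvPolynomial (Fin k) ℤ) := by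
  refine Finset.sum_bij (fun f _ => Finset.univ.image f) ?_ ?_ ?_ ?_
  · intro f hf
    obtain ⟨_, h1, h2⟩ := Finset.mem_filter.1 hf
    refine Finset.mem_powersetCard.2 ⟨?_, ?_⟩
    · intro x hx
      obtain ⟨i, _, rfl⟩ := Finset.mem_image.1 hx
      exact h2 i
    · rw [Finset.card_image_of_injective _ h1.injective, Finset.card_fin]
  · intro f hf g hg hfg
    obtain ⟨_, h1, _⟩ := Finset.mem_filter.1 hf
    obtain ⟨_, h2, _⟩ := Finset.mem_filter.1 hg
    have hc : (Finset.univ.image f).card = j := by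
      rw [Finset.card_image_of_injective _ h1.injective, Finset.card_fin]
    have e1 := Finset.orderEmbOfFin_unique hc (f := f)
      (fun x => Finset.mem_image_of_mem _ (Finset.mem_univ x)) h1
    have e2 := Finset.orderEmbOfFin_unique hc (f := g)
      (fun x => by
        have : g x ∈ Finset.univ.image g := Finset.mem_image_of_mem _ (Finset.mem_univ x)
        rw [← hfg] at this
        exact this) h2
    rw [e1, e2]
  · intro C hC
    obtain ⟨h1, h2⟩ := Finset.mem_powersetCard.1 hC
    refine ⟨C.orderEmbOfFin h2, ?_, ?_⟩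
    · refine Finset.mem_filter.2 ⟨Finset.mem_univ _, (C.orderEmbOfFin h2).strictMono, fun i => ?_⟩
      exact h1 (Finset.orderEmbOfFin_mem C h2 i)
    · apply Finset.coe_injective
      rw [Finset.coe_image, Finset.coe_univ, Set.image_univ, Finset.range_orderEmbOfFin]
  · intro f hf
    obtain ⟨_, h1, _⟩ := Finset.mem_filter.1 hf
    rw [Finset.prod_image (fun x _ y _ h => h1.injective h)]

open Classical in
theorem sca_row {k : ℕ} (m : Fin k) (n : ℕ) :
    ∑ g ∈ (Finset.univ : Finset (Fin n → Fin k)).filter (fun g => Monotone g ∧ ∀ i, m ≤ g i),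
      ∏ i, (X (g i) : MvPolynomial (Fin k) ℤ) =
    ∑ R ∈ (Finset.univ : Finset (Sym (Fin k) n)).filter (fun R => ∀ x ∈ R, m ≤ x),
      ((R : Multiset (Fin k)).map (X : Fin k → MvPolynomial (Fin k) ℤ)).prod := by
  refine Finset.sum_bij (fun g _ => (⟨(List.ofFn g : Multiset (Fin k)), by simp⟩ : Sym (Fin k) n))
    ?_ ?_ ?_ ?_
  · intro g hg
    obtain ⟨_, _, h2⟩ := Finset.mem_filter.1 hg
    refine Finset.mem_filter.2 ⟨Finset.mem_univ _, fun x hx => ?_⟩
    have hx' : x ∈ List.ofFn g := hx
    obtain ⟨i, rfl⟩ := List.mem_ofFn.1 hx'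
    exact h2 i
  · intro f hf g hg hfg
    obtain ⟨_, h1, _⟩ := Finset.mem_filter.1 hf
    obtain ⟨_, h2, _⟩ := Finset.mem_filter.1 hg
    have hp : (List.ofFn f).Perm (List.ofFn g) := Multiset.coe_eq_coe.1 (congrArg Subtype.val hfg)
    have e1 : (List.ofFn f).Pairwise (fun a b => a ≤ b) :=
      List.pairwise_ofFn.2 fun a b hab => h1 hab.le
    have e2 : (List.ofFn g).Pairwise (fun a b => a ≤ b) :=
      List.pairwise_ofFn.2 fun a b hab => h2 hab.le
    exact List.ofFn_injective (hp.eq_of_pairwise' e1 e2)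
  · intro R hR
    obtain ⟨_, h1⟩ := Finset.mem_filter.1 hR
    obtain ⟨R, hn⟩ := R
    have hL : (R.sort (fun a b => a ≤ b)).length = n := by rw [Multiset.length_sort]; exact hn
    subst hL
    set L := R.sort (fun a b => a ≤ b) with hLdef
    have hs : L.Pairwise (fun a b => a ≤ b) := Multiset.pairwise_sort R _
    have hLR : (L : Multiset (Fin k)) = R := Multiset.sort_eq R _
    refine ⟨fun i => L[i.val], ?_, ?_⟩
    · refine Finset.mem_filter.2 ⟨Finset.mem_univ _, ?_, fun i => ?_⟩
      · intro a b hab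
        rcases eq_or_lt_of_le hab with rfl | hlt
        · exact le_refl _
        · exact List.pairwise_iff_getElem.1 hs _ _ _ _ hlt
      · apply h1
        have : L[i.val] ∈ L := List.getElem_mem _
        have h3 : L[i.val] ∈ (L : Multiset (Fin k)) := this
        rw [hLR] at h3
        exact h3
    · apply Subtype.ext
      simp only
      rw [List.ofFn_getElem]
      exact hLR
  · intro g _
    change _ = (Multiset.map X (List.ofFn g : Multiset (Fin k))).prod
    rw [Multiset.map_coe, Multiset.prod_coe, List.map_ofFn, List.prod_ofFn]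
    rfl

open Classical in
theorem sca_sum (k : ℕ) (μ : YoungDiagram) :
    schur k μ = ∑ t ∈ (Finset.univ : Finset (μ.cells → Fin k)).filter (fun t => IsSS μ t),
        ∏ c, (X (t c) : MvPolynomial (Fin k) ℤ) := by
  rw [schur]
  exact (Finset.sum_subtype (p := fun t => IsSS μ t)
    ((Finset.univ : Finset (μ.cells → Fin k)).filter fun t => IsSS μ t)
    (fun t => ⟨fun h => (Finset.mem_filter.1 h).2,
      fun h => Finset.mem_filter.2 ⟨Finset.mem_univ _, h⟩⟩)
    (fun t => ∏ c, (X (t c) : MvPolynomial (Fin k) ℤ))).symm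

open Classical in
theorem schur_hook (k l j : ℕ) (hj : j < l) :
    schur k (hookD l j) = ∑ m : Fin k,
      ∑ C ∈ (Finset.univ.filter fun x : Fin k => m < x).powersetCard j,
        ∑ R ∈ (Finset.univ : Finset (Sym (Fin k) (l - 1 - j))).filter (fun R => ∀ x ∈ R, m ≤ x),
          X m * (∏ x ∈ C, (X x : MvPolynomial (Fin k) ℤ)) *
            ((R : Multiset (Fin k)).map (X : Fin k → MvPolynomial (Fin k) ℤ)).prod := by
  have h1 : schur k (hookD l j) =
      ∑ t ∈ (Finset.univ : Finset ((hookD l j).cells → Fin k)).filter (fun t => IsSS (hookD l j) t),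
        ∏ c, (X (t c) : MvPolynomial (Fin k) ℤ) := by
    exact sca_sum k (hookD l j)
  have h2 : ∀ t : (hookD l j).cells → Fin k, ∏ c, (X (t c) : MvPolynomial (Fin k) ℤ) =
      X (t (scaF hj (Sum.inl ()))) * (∏ i : Fin j, X (t (scaF hj (Sum.inr (Sum.inl i))))) *
        ∏ i : Fin (l - 1 - j), X (t (scaF hj (Sum.inr (Sum.inr i)))) := by
    intro t
    rw [← Equiv.prod_comp (scaE hj), Fintype.prod_sum_type, Fintype.prod_sum_type, mul_assoc]
    simp [scaE]
  have h3 : schur k (hookD l j) =
      ∑ x ∈ (Finset.univ : Finset (Fin k × (Fin j → Fin k) × (Fin (l - 1 - j) → Fin k))).filter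
        (fun x => (StrictMono x.2.1 ∧ ∀ i, x.1 < x.2.1 i) ∧ (Monotone x.2.2 ∧ ∀ i, x.1 ≤ x.2.2 i)),
        (X x.1 : MvPolynomial (Fin k) ℤ) * (∏ i, X (x.2.1 i)) * ∏ i, X (x.2.2 i) := by
    rw [h1]
    refine Finset.sum_bij' (fun t _ => (t (scaF hj (Sum.inl ())),
        (fun i => t (scaF hj (Sum.inr (Sum.inl i)))), fun i => t (scaF hj (Sum.inr (Sum.inr i)))))
      (fun x _ => fun c => Sum.elim (fun _ => x.1) (Sum.elim x.2.1 x.2.2) ((scaE hj).symm c))
      ?_ ?_ ?_ ?_ ?_
    · intro t ht
      exact Finset.mem_filter.2 ⟨Finset.mem_univ _, (sca_ss hj t).1 (Finset.mem_filter.1 ht).2⟩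
    · intro x hx
      refine Finset.mem_filter.2 ⟨Finset.mem_univ _, (sca_ss hj _).2 ?_⟩
      have e : ∀ y, (scaE hj).symm (scaF hj y) = y := fun y => (scaE hj).symm_apply_apply y
      simp only [e, Sum.elim_inl, Sum.elim_inr]
      exact (Finset.mem_filter.1 hx).2
    · intro t _
      funext c
      obtain ⟨y, rfl⟩ := (scaF_bij hj).2 c
      have e : (scaE hj).symm (scaF hj y) = y := (scaE hj).symm_apply_apply y
      simp only [e]
      rcases y with (y | (y | y)) <;> rfl
    · intro x _
      have e : ∀ y, (scaE hj).symm (scaF hj y) = y := fun y => (scaE hj).symm_apply_apply y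
      simp only [e, Sum.elim_inl, Sum.elim_inr]
    · intro t _
      exact h2 t
  rw [h3, Finset.sum_filter, Fintype.sum_prod_type]
  refine Finset.sum_congr rfl fun m _ => ?_
  rw [Fintype.sum_prod_type]
  have h4 : ∑ C ∈ (Finset.univ.filter fun x : Fin k => m < x).powersetCard j,
        ∑ R ∈ (Finset.univ : Finset (Sym (Fin k) (l - 1 - j))).filter (fun R => ∀ x ∈ R, m ≤ x),
          X m * (∏ x ∈ C, (X x : MvPolynomial (Fin k) ℤ)) *
            ((R : Multiset (Fin k)).map (X : Fin k → MvPolynomial (Fin k) ℤ)).prod =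
      X m * (∑ C ∈ (Finset.univ.filter fun x : Fin k => m < x).powersetCard j,
        ∏ x ∈ C, (X x : MvPolynomial (Fin k) ℤ)) *
        ∑ R ∈ (Finset.univ : Finset (Sym (Fin k) (l - 1 - j))).filter (fun R => ∀ x ∈ R, m ≤ x),
          ((R : Multiset (Fin k)).map (X : Fin k → MvPolynomial (Fin k) ℤ)).prod := by
    rw [mul_assoc, Finset.sum_mul_sum, Finset.mul_sum]
    refine Finset.sum_congr rfl fun C _ => ?_
    rw [Finset.mul_sum]
    exact Finset.sum_congr rfl fun R _ => mul_assoc _ _ _
  rw [h4, ← sca_col, ← sca_row, mul_assoc, Finset.sum_mul_sum, Finset.mul_sum, Finset.sum_filter]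
  refine Finset.sum_congr rfl fun f _ => ?_
  rw [Finset.mul_sum, Finset.sum_filter]
  by_cases hf : StrictMono f ∧ ∀ i, m < f i
  · have hf' : StrictMono f ∧ ∀ i, f i ∈ Finset.univ.filter fun x : Fin k => m < x :=
      ⟨hf.1, fun i => Finset.mem_filter.2 ⟨Finset.mem_univ _, hf.2 i⟩⟩
    rw [if_pos hf']
    refine Finset.sum_congr rfl fun g _ => ?_
    by_cases hg : Monotone g ∧ ∀ i, m ≤ g i
    · rw [if_pos ⟨hf, hg⟩, if_pos hg]
      exact mul_assoc _ _ _
    · rw [if_neg (fun h => hg h.2), if_neg hg]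
  · have hf' : ¬ (StrictMono f ∧ ∀ i, f i ∈ Finset.univ.filter fun x : Fin k => m < x) :=
      fun h => hf ⟨h.1, fun i => (Finset.mem_filter.1 (h.2 i)).2⟩
    rw [if_neg hf']
    refine Finset.sum_eq_zero fun g _ => ?_
    rw [if_neg (fun h => hf h.1)]

end DST
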