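import Pool.Agent.DST.LE2

/-!
Module TFA of project DST (MP_0f73d6_co).

Structure of a signed tableau T without free rows.  s i = vcol hi T i (vcol_spec), m_i = |T i (s i)|.
(a) if T i (s i) > 0: i ≥ 1 and T (i-1) (s i) > - m_i (not free).  T (i-1) (s i) ≤ T i (s i) = m_i (Tab.col; s i is a column of
    row i-1).  m_(i-1) ≤ |T (i-1) (s i)| ≤ m_i; if m_(i-1) = m_i then |T (i-1) (s i)| = m_(i-1) so s i = s (i-1) by val_min, against
    lemma2.  So m_(i-1) < m_i.
(b) if T i (s i) < 0: i+1 < r, s i < hi (i+1), T (i+1) (s i) < m_i, and T (i+1) (s i) ≥ -m_i; as in (a) m_(i+1) < m_i.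
(c) take a row i0 with least m_i (finitely many rows): m_i0 = 0 by (a), (b).  This is z.  All other rows have
    m_i ≠ 0 (zc: the letter 0 is in at most one cell).
(d) pos: let i > i0 and suppose T i (s i) < 0.  Then i+1 < r and m_(i+1) < m_i by (b), and T (i+1) (s (i+1)) < 0 again
    (nonzero; positive would give m_i < m_(i+1) by (a)).  Induction upwards to r contradicts i+1 < r.
(e) neg: symmetric, downwards to row 0, using (a) (i ≥ 1).
(f) mono: let 0 ≤ i, i+1 < r and suppose s i < s (i+1).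
    If i ≥ i0: the cell (i+1, s i) exists, T (i+1) (s i) < 0 (left of the valley) and T i (s i) ≥ 0 (pos or z), against Tab.col.
    If i < i0: i+1 ≤ i0, the cell (i, s (i+1)) exists (hi (i+1) ≤ hi i), T i (s (i+1)) > 0 (right of the valley) and T (i+1) (s (i+1))
    ≤ 0 (neg or z), against Tab.col.
(g) dn: i > i0: T (i-1) (s i) > -m_i and ≤ m_i; if it is m_i: if s i = s (i-1) then m_(i-1) = m_i, excluded; if s i < s (i-1) then
    T (i-1) (s i) < 0.  So |T (i-1) (s i)| < m_i.
(h) up: i < i0: from (b): s i < hi (i+1); |T (i+1) (s i)| < m_i: T (i+1) (s i) < m_i and ≥ -m_i; if it is -m_i: if s i = s (i+1)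
    then m_(i+1) = m_i, excluded; if s (i+1) < s i then T (i+1) (s i) > 0.
-/

namespace DST

variable {W : List ℕ → Prop} {r : ℤ} {hi : ℤ → ℤ} {T : ℤ → ℤ → ℤ}

theorem tfa (hW : Cls W) (hS : Shp r z0 hi) (hT : Tab W r hi T) (hF : ∀ i, ¬ Free r hi T i) :
    ∃ i0, TFD r hi T i0 (vcol hi T) := by
  have hv : ∀ i, 0 ≤ i → i < r → IsVal hi T i (vcol hi T i) := fun i h0 h1 => vcol_spec hW hS hT h0 h1
  generalize hs : vcol hi T = s at hv
  have hFr : ∀ i, 0 ≤ i → i < r → ¬ ((0 < T i (s i) ∧ (i = 0 ∨ T (i - 1) (s i) ≤ - T i (s i))) ∨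
      (T i (s i) < 0 ∧ (hi (i + 1) ≤ s i ∨ i + 1 = r ∨ - T i (s i) ≤ T (i + 1) (s i)))) := by
    intro i h0 h1 h
    refine hF i ⟨h0, h1, ?_⟩
    rw [hs]
    exact h
  have hcell : ∀ i j, 0 ≤ i → i < r → 0 ≤ j → j < hi i → Cell r z0 hi i j := by
    intro i j a b c d
    exact ⟨a, b, by simpa [z0] using c, d⟩
  -- positive case
  have hP : ∀ i, 0 ≤ i → i < r → 0 < T i (s i) → 1 ≤ i ∧ - T i (s i) < T (i - 1) (s i) ∧
      T (i - 1) (s i) ≤ T i (s i) ∧ s i < hi (i - 1) := by
    intro i h0 h1 h2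
    have h3 := hFr i h0 h1
    have h4 : i ≠ 0 := fun h => h3 (Or.inl ⟨h2, Or.inl h⟩)
    have h5 : ¬ T (i - 1) (s i) ≤ - T i (s i) := fun h => h3 (Or.inl ⟨h2, Or.inr h⟩)
    have hvi := hv i h0 h1
    have h6 : hi i ≤ hi (i - 1) := by
      have := hS.him (i - 1) (by omega) (by omega)
      have e : i - 1 + 1 = i := by ring
      rwa [e] at this
    have h7 := hT.col (i - 1) (s i) (hcell _ _ (by omega) (by omega) hvi.1 (by have := hvi.2.1; omega))
      (by
        have e : i - 1 + 1 = i := by ring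
        rw [e]
        exact hcell _ _ h0 h1 hvi.1 hvi.2.1)
    have e : i - 1 + 1 = i := by ring
    rw [e] at h7
    refine ⟨by omega, by omega, h7, by have := hvi.2.1; omega⟩
  have hN : ∀ i, 0 ≤ i → i < r → T i (s i) < 0 → i + 1 < r ∧ s i < hi (i + 1) ∧
      T (i + 1) (s i) < - T i (s i) ∧ T i (s i) ≤ T (i + 1) (s i) := by
    intro i h0 h1 h2
    have h3 := hFr i h0 h1
    have h4 : i + 1 ≠ r := fun h => h3 (Or.inr ⟨h2, Or.inr (Or.inl h)⟩)
    have h5 : ¬ hi (i + 1) ≤ s i := fun h => h3 (Or.inr ⟨h2, Or.inl h⟩)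
    have h6 : ¬ - T i (s i) ≤ T (i + 1) (s i) := fun h => h3 (Or.inr ⟨h2, Or.inr (Or.inr h)⟩)
    have hvi := hv i h0 h1
    have h7 := hT.col i (s i) (hcell _ _ h0 h1 hvi.1 hvi.2.1)
      (hcell _ _ (by omega) (by omega) hvi.1 (by omega))
    exact ⟨by omega, by omega, by omega, h7⟩
  have hl2 : ∀ i, 0 ≤ i → i + 1 < r → s i = s (i + 1) →
      (T i (s i)).natAbs ≠ (T (i + 1) (s i)).natAbs := by
    intro i h0 h1 h2
    have h3 := hv i h0 (by omega)
    have h4 := hv (i + 1) (by omega) h1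
    rw [← h2] at h4
    exact lemma2 hW hS hT h0 h1 h3 h4
  -- (a)
  have hA : ∀ i, 0 ≤ i → i < r → 0 < T i (s i) →
      (T (i - 1) (s (i - 1))).natAbs < (T i (s i)).natAbs := by
    intro i h0 h1 h2
    obtain ⟨a1, a2, a3, a4⟩ := hP i h0 h1 h2
    have b1 : (T (i - 1) (s i)).natAbs ≤ (T i (s i)).natAbs := by omega
    have hvi := hv i h0 h1
    have hvp := hv (i - 1) (by omega) (by omega)
    by_cases h : s i = s (i - 1)
    · have := hl2 (i - 1) (by omega) (by omega) (by
        have e : i - 1 + 1 = i := by ring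
        rw [e]; exact h.symm)
      have e : i - 1 + 1 = i := by ring
      rw [e, ← h] at this
      rw [← h]
      omega
    · have := val_min hvp hvi.1 a4 h
      omega
  have hB : ∀ i, 0 ≤ i → i < r → T i (s i) < 0 →
      (T (i + 1) (s (i + 1))).natAbs < (T i (s i)).natAbs := by
    intro i h0 h1 h2
    obtain ⟨a1, a2, a3, a4⟩ := hN i h0 h1 h2
    have b1 : (T (i + 1) (s i)).natAbs ≤ (T i (s i)).natAbs := by omega
    have hvi := hv i h0 h1
    have hvp := hv (i + 1) (by omega) a1
    by_cases h : s i = s (i + 1)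
    · have := hl2 i h0 a1 h
      rw [← h]
      omega
    · have := val_min hvp hvi.1 a2 h
      omega
  -- (c)
  obtain ⟨i0, hi0, hmin⟩ := Finset.exists_min_image (Finset.Ico (0 : ℤ) r)
    (fun i => (T i (s i)).natAbs) ⟨0, by simpa using hS.rpos⟩
  have i00 : 0 ≤ i0 := (Finset.mem_Ico.1 hi0).1
  have i0r : i0 < r := (Finset.mem_Ico.1 hi0).2
  have hz : T i0 (s i0) = 0 := by
    rcases lt_trichotomy (T i0 (s i0)) 0 with h | h | h
    · exfalso
      have h1 := hB i0 i00 i0r h
      have h2 := hmin (i0 + 1) (Finset.mem_Ico.2 ⟨by omega, (hN i0 i00 i0r h).1⟩)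
      omega
    · exact h
    · exfalso
      have h1 := hA i0 i00 i0r h
      have h2 := hmin (i0 - 1) (Finset.mem_Ico.2 ⟨by have := (hP i0 i00 i0r h).1; omega, by omega⟩)
      omega
  have hnz : ∀ i, 0 ≤ i → i < r → i ≠ i0 → T i (s i) ≠ 0 := by
    intro i h0 h1 h2 h3
    have hv1 := hv i h0 h1
    have hv2 := hv i0 i00 i0r
    have := zc hW hT.w (hcell i (s i) h0 h1 hv1.1 hv1.2.1) (hcell i0 (s i0) i00 i0r hv2.1 hv2.2.1)
      (by simp [h3]) (by simp [hz])
    exact h2 this.1
  -- (d)
  have hpos : ∀ n : ℕ, ∀ i, i0 < i → i < r → r - i ≤ n → 0 < T i (s i) := by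
    intro n
    induction n with
    | zero =>
      intro i h1 h2 h3
      simp only [Nat.cast_zero] at h3
      omega
    | succ n ih =>
      intro i h1 h2 h3
      have h4 := hnz i (by omega) h2 (by omega)
      by_contra h5
      have h6 : T i (s i) < 0 := by omega
      have h7 := hN i (by omega) h2 h6
      have h8 := hB i (by omega) h2 h6
      have h9 := ih (i + 1) (by omega) h7.1 (by push_cast at h3; omega)
      have h10 := hA (i + 1) (by omega) h7.1 h9
      have e : i + 1 - 1 = i := by ring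
      rw [e] at h10
      omega
  have hneg : ∀ n : ℕ, ∀ i, 0 ≤ i → i < i0 → i + 1 ≤ n → T i (s i) < 0 := by
    intro n
    induction n with
    | zero =>
      intro i h1 h2 h3
      simp only [Nat.cast_zero] at h3
      omega
    | succ n ih =>
      intro i h1 h2 h3
      have h4 := hnz i h1 (by omega) (by omega)
      by_contra h5
      have h6 : 0 < T i (s i) := by omega
      have h7 := hP i h1 (by omega) h6
      have h8 := hA i h1 (by omega) h6
      have h9 := ih (i - 1) (by omega) (by omega) (by push_cast at h3; omega)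
      have h10 := hB (i - 1) (by omega) (by omega) h9
      have e : i - 1 + 1 = i := by ring
      rw [e] at h10
      omega
  have pos : ∀ i, i0 < i → i < r → 0 < T i (s i) := fun i h1 h2 =>
    hpos (r - i).toNat i h1 h2 (by omega)
  have neg : ∀ i, 0 ≤ i → i < i0 → T i (s i) < 0 := fun i h1 h2 =>
    hneg (i + 1).toNat i h1 h2 (by omega)
  have mono : ∀ i, 0 ≤ i → i + 1 < r → s (i + 1) ≤ s i := by
    intro i h0 h1
    by_contra h
    have h : s i < s (i + 1) := by omega
    have v1 := hv i h0 (by omega)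
    have v2 := hv (i + 1) (by omega) h1
    have hm := hS.him i h0 h1
    rcases le_or_gt i0 i with h2 | h2
    · have h3 : T (i + 1) (s i) < 0 := (v2.2.2.1 (s i) v1.1 h).1
      have h4 : 0 ≤ T i (s i) := by
        rcases eq_or_lt_of_le h2 with h5 | h5
        · rw [← h5, hz]
        · exact (pos i h5 (by omega)).le
      have h5 := hT.col i (s i) (hcell _ _ h0 (by omega) v1.1 v1.2.1)
        (hcell _ _ (by omega) h1 v1.1 (by have := v2.2.1; omega))
      omega
    · have h3 : 0 < T i (s (i + 1)) := (v1.2.2.2 (s (i + 1)) h (by have := v2.2.1; omega)).1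
      have h4 : T (i + 1) (s (i + 1)) ≤ 0 := by
        by_cases h5 : i + 1 = i0
        · rw [h5, hz]
        · exact (neg (i + 1) (by omega) (by omega)).le
      have h5 := hT.col i (s (i + 1)) (hcell _ _ h0 (by omega) v2.1 (by have := v2.2.1; omega))
        (hcell _ _ (by omega) h1 v2.1 v2.2.1)
      omega
  refine ⟨i0, ?_⟩
  refine ⟨i00, i0r, hv, hz, pos, neg, mono, ?_, ?_⟩
  · intro i h1 h2
    have hp := pos i h1 h2
    obtain ⟨a1, a2, a3, a4⟩ := hP i (by omega) h2 hp
    have hm := mono (i - 1) (by omega) (by omega)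
    have e : i - 1 + 1 = i := by ring
    rw [e] at hm
    have hvi := hv i (by omega) h2
    have hvp := hv (i - 1) (by omega) (by omega)
    by_cases h : s i = s (i - 1)
    · have := hl2 (i - 1) (by omega) (by omega) (by rw [e]; exact h.symm)
      rw [e, ← h] at this
      omega
    · have := (hvp.2.2.1 (s i) hvi.1 (by omega)).1
      omega
  · intro i h1 h2
    have hn := neg i h1 h2
    obtain ⟨a1, a2, a3, a4⟩ := hN i h1 (by omega) hn
    have hm := mono i h1 a1
    have hvi := hv i h1 (by omega)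
    have hvp := hv (i + 1) (by omega) a1
    refine ⟨a2, ?_⟩
    by_cases h : s i = s (i + 1)
    · have := hl2 i h1 a1 h
      omega
    · have := (hvp.2.2.2 (s i) (by omega) a2).1
      omega

end DST
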