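import Pool.Agent.DST.VAL

/-!
Module TFB of project DST (MP_0f73d6_co).

A signed tableau with the structure TFD comes from a V-structure.  a i j = |T i j|, κ = s i0 - i0, and
K m = hi 0 - 1 for m = 0; 0 for m = r (m = r first!) and for m not in [0,r]; s (m-1) for 1 ≤ m ≤ i0, m < r; s m for i0 < m < r.
From mono: s i ≤ s i0 for i ≥ i0 and s i ≥ s i0 for i ≤ i0 (induction).
Check (0-based, all from TFD and IsVal):
 Kmono, Klt (for 1 ≤ i ≤ i0: s (i-1) < hi i by up), Kge (lo = 0), κ0 (s i0 - i0 ≤ hi 0 - 1), κr (0 - (r-1) ≤ s i0 - i0).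
 N: j < K (i+1) implies j < s i: the entries decrease in absolute value.  P: K i ≤ j implies s i ≤ j (for i = 0 vacuous).
 Rd: j - i < κ: if i < i0 then K (i+1) = s i ≤ j gives j - i ≥ s i - i > κ, impossible; if i ≥ i0 then j < s i.
 Ri: κ ≤ j - i: if i > i0 then j < K i = s i ≤ s i0, impossible; else s i ≤ j.
 Vd: i+1 > i0: K (i+1) = s (i+1), dn; i+1 ≤ i0: K (i+1) - (i+1) = s i - (i+1) ≥ κ, impossible.
 Vi: i+1 ≤ i0: K (i+1) = s i, up; i+1 > i0: s (i+1) - (i+1) < κ, impossible.
 z: i = i0 and j = s i0.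
 cN (j < K (i+1)): then T i j < 0 (j < s i).  If T (i+1) j < 0, T i j ≤ T (i+1) j < 0 gives |T (i+1) j| ≤ |T i j|.  Else
   s (i+1) ≤ j so i+1 ≤ i0 and j < K (i+1) = s i: |T (i+1) j| ≤ |T (i+1) (s i)| < |T i (s i)| < |T i j| (increasing right of the
   valley of row i+1, up, decreasing left of the valley of row i).
 cP (j > K (i+1)): T (i+1) j > 0 (j > s (i+1)).  If T i j ≥ 0: from T i j ≤ T (i+1) j.  Else j < s i, so i+1 > i0, K (i+1) = s (i+1):
   |T i j| < |T i (s (i+1))| < |T (i+1) (s (i+1))| < |T (i+1) j|.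
 e3: equality of absolute values is only possible in the first sub-case, where the signs agree, so T i j =
   T (i+1) j and Tab.eg applies.
 T = phi κ K |T|: nu κ K i = s i for i > i0 (K i - i = s i - i < κ), s i + 1 for i < i0 (κ < K (i+1) - i), κ + i0 = s i0 for
   i = i0; on cells T i j < 0 iff j < nu; outside the cells everything is 0.
-/

namespace DST

variable {W : List ℕ → Prop} {r : ℤ} {hi : ℤ → ℤ} {T : ℤ → ℤ → ℤ}

private theorem tfb_inc {i s : ℤ} (h : IsVal hi T i s) {j : ℤ} (hj : s ≤ j) :
    ∀ j' : ℤ, j ≤ j' → j' < hi i → (T i j).natAbs ≤ (T i j').natAbs := by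
  intro j' hjj
  induction j', hjj using Int.le_induction with
  | base => intro _; exact le_rfl
  | succ m hm ih =>
    intro hlt
    have h1 := ih (by omega)
    have h2 := (h.2.2.2 (m + 1) (by omega) hlt).2
    have h3 : m + 1 - 1 = m := by ring
    rw [h3] at h2
    omega

private theorem tfb_dec {i s : ℤ} (h : IsVal hi T i s) {j : ℤ} (hj : 0 ≤ j) :
    ∀ j' : ℤ, j ≤ j' → j' ≤ s → (T i j').natAbs ≤ (T i j).natAbs := by
  intro j' hjj
  induction j', hjj using Int.le_induction with
  | base => intro _; exact le_rfl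
  | succ m hm ih =>
    intro hlt
    have h1 := ih (by omega)
    have h2 := (h.2.2.1 m (by omega) (by omega)).2
    omega

theorem tfb (hW : Cls W) (hS : Shp r z0 hi) (hT : Tab W r hi T) {i0 : ℤ} {s : ℤ → ℤ}
    (hD : TFD r hi T i0 s) :
    ∃ y ∈ USet W r z0 hi, T = phi y.1 y.2.1 y.2.2 := by
  obtain ⟨κ, hκ⟩ : ∃ κ, κ = s i0 - i0 := ⟨_, rfl⟩
  obtain ⟨K, hKd⟩ : ∃ K : ℤ → ℤ, K = fun m => if m = r ∨ m < 0 ∨ r < m then 0 else
    if m = 0 then hi 0 - 1 else if m ≤ i0 then s (m - 1) else s m := ⟨_, rfl⟩
  have hi0 := hD.i0n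
  have hir := hD.i0r
  have hrp := hS.rpos
  have hs0 : ∀ i, 0 ≤ i → i < r → 0 ≤ s i := fun i h1 h2 => (hD.val i h1 h2).1
  have hsh : ∀ i, 0 ≤ i → i < r → s i < hi i := fun i h1 h2 => (hD.val i h1 h2).2.1
  have hle : ∀ i, i0 ≤ i → i < r → s i ≤ s i0 := by
    intro i hi1
    induction i, hi1 using Int.le_induction with
    | base => intro _; exact le_rfl
    | succ m hm ih =>
      intro hlt
      exact (hD.mono m (by omega) hlt).trans (ih (by omega))
  have hge : ∀ i, 0 ≤ i → i ≤ i0 → s i0 ≤ s i := by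
    intro i hi1 hi2
    have h : ∀ n : ℕ, (n : ℤ) ≤ i0 → s i0 ≤ s (i0 - n) := by
      intro n
      induction n with
      | zero => intro _; simp
      | succ n ih =>
        intro hn
        push_cast at hn ⊢
        have h1 := hD.mono (i0 - (n + 1)) (by omega) (by omega)
        have h2 : i0 - ((n : ℤ) + 1) + 1 = i0 - n := by ring
        rw [h2] at h1
        exact (ih (by omega)).trans h1
    have h1 := h (i0 - i).toNat (by omega)
    have h2 : i0 - ((i0 - i).toNat : ℤ) = i := by omega
    rwa [h2] at h1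
  have hK1 : ∀ i, 0 ≤ i → i < r → (i + 1 = r ∧ i0 ≤ i ∧ K (i + 1) = 0) ∨
      (i + 1 < r ∧ i < i0 ∧ K (i + 1) = s i) ∨ (i + 1 < r ∧ i0 ≤ i ∧ K (i + 1) = s (i + 1)) := by
    intro i h1 h2
    rw [hKd]
    simp only
    by_cases ha : i + 1 = r
    · left
      refine ⟨ha, by omega, ?_⟩
      rw [if_pos (Or.inl ha)]
    · right
      rw [if_neg (by omega), if_neg (by omega)]
      by_cases hb : i + 1 ≤ i0
      · left
        rw [if_pos hb]
        refine ⟨by omega, by omega, ?_⟩
        congr 1
        ring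
      · right
        rw [if_neg hb]
        exact ⟨by omega, by omega, rfl⟩
  have hK0 : ∀ i, 0 ≤ i → i < r → (i = 0 ∧ K i = hi 0 - 1) ∨ (1 ≤ i ∧ i ≤ i0 ∧ K i = s (i - 1)) ∨
      (i0 < i ∧ K i = s i) := by
    intro i h1 h2
    rw [hKd]
    simp only
    rw [if_neg (by omega)]
    by_cases ha : i = 0
    · left
      rw [if_pos ha]
      exact ⟨ha, rfl⟩
    · right
      rw [if_neg ha]
      by_cases hb : i ≤ i0
      · left
        rw [if_pos hb]
        exact ⟨by omega, hb, rfl⟩
      · right
        rw [if_neg hb]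
        exact ⟨by omega, rfl⟩
  have hmono' : ∀ i, 1 ≤ i → i < r → s i ≤ s (i - 1) := by
    intro i h1 h2
    have h3 := hD.mono (i - 1) (by omega) (by omega)
    have h4 : i - 1 + 1 = i := by ring
    rwa [h4] at h3
  -- K (i+1) ≤ s i and s i ≤ K i
  have hKs : ∀ i, 0 ≤ i → i < r → K (i + 1) ≤ s i := by
    intro i h1 h2
    have := hs0 i h1 h2
    rcases hK1 i h1 h2 with ⟨ha, hb, hc⟩ | ⟨ha, hb, hc⟩ | ⟨ha, hb, hc⟩
    · omega
    · omega
    · have := hD.mono i h1 ha
      omega
  have hsK : ∀ i, 0 ≤ i → i < r → s i ≤ K i := by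
    intro i h1 h2
    have h3 := hsh i h1 h2
    rcases hK0 i h1 h2 with ⟨ha, hb⟩ | ⟨ha, hb, hc⟩ | ⟨ha, hb⟩
    · subst ha; omega
    · have := hmono' i ha h2
      omega
    · omega
  have hKge : ∀ i, 0 ≤ i → i < r → 0 ≤ K (i + 1) := by
    intro i h1 h2
    rcases hK1 i h1 h2 with ⟨ha, hb, hc⟩ | ⟨ha, hb, hc⟩ | ⟨ha, hb, hc⟩
    · omega
    · have := hs0 i h1 h2
      omega
    · have := hs0 (i + 1) (by omega) ha
      omega
  have hKlt : ∀ i, 0 ≤ i → i < r → K i < hi i := by
    intro i h1 h2
    rcases hK0 i h1 h2 with ⟨ha, hb⟩ | ⟨ha, hb, hc⟩ | ⟨ha, hb⟩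
    · subst ha; omega
    · have h3 := (hD.up (i - 1) (by omega) (by omega)).1
      have h4 : i - 1 + 1 = i := by ring
      rw [h4] at h3
      omega
    · have := hsh i h1 h2
      omega
  have him := hS.him
  -- columns: the two cases of cN and cP with strictness when the signs differ
  have hcN : ∀ i j, 0 ≤ i → i + 1 < r → 0 ≤ j → j < K (i + 1) →
      (T i j ≤ T (i + 1) j ∧ T i j < 0 ∧ T (i + 1) j < 0) ∨
        (T (i + 1) j).natAbs < (T i j).natAbs := by
    intro i j h1 h2 h3 h4
    have h5 := hKs i h1 (by omega)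
    have h6 := hsh i h1 (by omega)
    have h7 := hKlt (i + 1) (by omega) h2
    have hv := hD.val i h1 (by omega)
    have hv1 := hD.val (i + 1) (by omega) h2
    have hneg := (hv.2.2.1 j h3 (by omega)).1
    have hcol := hT.col i j ⟨h1, by omega, h3, by omega⟩ ⟨by omega, h2, h3, by omega⟩
    by_cases hlt : T (i + 1) j < 0
    · exact Or.inl ⟨hcol, hneg, hlt⟩
    · right
      have h8 : s (i + 1) ≤ j := by
        by_contra hcon
        exact hlt (hv1.2.2.1 j h3 (by omega)).1
      rcases hK1 i h1 (by omega) with ⟨ha, hb, hc⟩ | ⟨ha, hb, hc⟩ | ⟨ha, hb, hc⟩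
      · omega
      · obtain ⟨h9, h10⟩ := hD.up i h1 hb
        have h11 := tfb_inc hv1 h8 (s i) (by omega) h9
        have h12 := val_min hv h3 (by omega) (by omega : j ≠ s i)
        omega
      · omega
  have hcP : ∀ i j, 0 ≤ i → i + 1 < r → K (i + 1) < j → j < hi (i + 1) →
      (T i j ≤ T (i + 1) j ∧ 0 ≤ T i j ∧ 0 < T (i + 1) j) ∨
        (T i j).natAbs < (T (i + 1) j).natAbs := by
    intro i j h1 h2 h3 h4
    have h5 := hKge i h1 (by omega)
    have hv := hD.val i h1 (by omega)
    have hv1 := hD.val (i + 1) (by omega) h2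
    have h6 : hi (i + 1) ≤ hi i := him i h1 h2
    have h7 : s (i + 1) ≤ K (i + 1) := hsK (i + 1) (by omega) h2
    have hpos := (hv1.2.2.2 j (by omega) h4).1
    have hcol := hT.col i j ⟨h1, by omega, by simp only [z0]; omega, by omega⟩
      ⟨by omega, h2, by simp only [z0]; omega, h4⟩
    by_cases hnn : 0 ≤ T i j
    · exact Or.inl ⟨hcol, hnn, hpos⟩
    · right
      have h8 : j ≤ s i := by
        by_contra hcon
        have := (hv.2.2.2 j (by omega) (by omega)).1
        omega
      rcases hK1 i h1 (by omega) with ⟨ha, hb, hc⟩ | ⟨ha, hb, hc⟩ | ⟨ha, hb, hc⟩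
      · omega
      · omega
      · have h9 : j ≠ s i := by
          rintro rfl
          rcases hb.eq_or_lt with he | hl
          · have := hD.z
            rw [he] at this
            omega
          · have := hD.pos i hl (by omega)
            omega
        have h10 := hD.dn (i + 1) (by omega) h2
        have h11 : i + 1 - 1 = i := by ring
        rw [h11] at h10
        have hs1 := hs0 (i + 1) (by omega) h2
        have h12 := tfb_dec hv hs1 (j - 1) (by omega) (by omega)
        have h13 := (hv.2.2.1 (j - 1) (by omega) (by omega)).2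
        have h14 : j - 1 + 1 = j := by ring
        rw [h14] at h13
        have h15 := val_min hv1 (by omega : 0 ≤ j) h4 (by omega)
        omega
  refine ⟨(κ, K, fun i j => (T i j).natAbs), ⟨?_, ?_, ?_⟩, ?_⟩
  · -- V-structure
    refine { toVSR := ?_, toVSC := ?_, w := hT.w }
    · refine ⟨?_, ?_, ?_, hKlt, hKge, ?_, ?_, ?_, ?_, ?_, ?_, ?_, ?_, ?_⟩
      · simp only
        rcases hK0 0 le_rfl hrp with ⟨ha, hb⟩ | ⟨ha, hb, hc⟩ | ⟨ha, hb⟩
        · exact hb
        · omega
        · omega
      · simp only [z0]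
        rw [hKd]
        simp
      · intro i h1 h2
        exact (hKs i h1 h2).trans (hsK i h1 h2)
      · simp only
        have h1 := hge 0 le_rfl hi0
        have h2 := hsK 0 le_rfl hrp
        omega
      · simp only
        have h1 : K r = 0 := by rw [hKd]; simp
        have h2 := hs0 i0 hi0 hir
        omega
      · intro i j h1 h2 h3 h4
        simp only [z0] at h3 h4 ⊢
        have h5 := hKs i h1 h2
        exact ((hD.val i h1 h2).2.2.1 j h3 (by omega)).2
      · intro i j h1 h2 h3 h4
        simp only at h3 ⊢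
        have h5 := hsK i h1 h2
        have h6 := ((hD.val i h1 h2).2.2.2 (j + 1) (by omega) h4).2
        have h7 : j + 1 - 1 = j := by ring
        rwa [h7] at h6
      · intro i j h1 h2 h3 h4 h5
        simp only at h3 h4 h5 ⊢
        have h6 := hKge i h1 h2
        have h7 : j < s i := by
          rcases lt_trichotomy i i0 with hl | he | hg
          · rcases hK1 i h1 h2 with ⟨ha, hb, hc⟩ | ⟨ha, hb, hc⟩ | ⟨ha, hb, hc⟩
            · omega
            · have := hge i h1 hl.le
              omega
            · omega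
          · rw [he] at h5 ⊢; omega
          · rcases hK0 i h1 h2 with ⟨ha, hb⟩ | ⟨ha, hb, hc⟩ | ⟨ha, hb⟩
            · omega
            · omega
            · omega
        exact ((hD.val i h1 h2).2.2.1 j (by omega) h7).2
      · intro i j h1 h2 h3 h4 h5
        simp only at h3 h4 h5 ⊢
        have h6 := hKlt i h1 h2
        have h7 : s i ≤ j := by
          rcases lt_trichotomy i i0 with hl | he | hg
          · rcases hK1 i h1 h2 with ⟨ha, hb, hc⟩ | ⟨ha, hb, hc⟩ | ⟨ha, hb, hc⟩
            · omega
            · omega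
            · omega
          · rw [he] at h5 ⊢; omega
          · rcases hK0 i h1 h2 with ⟨ha, hb⟩ | ⟨ha, hb, hc⟩ | ⟨ha, hb⟩
            · omega
            · omega
            · have := hle i hg.le h2
              omega
        have h8 := ((hD.val i h1 h2).2.2.2 (j + 1) (by omega) (by omega)).2
        have h9 : j + 1 - 1 = j := by ring
        rwa [h9] at h8
      · intro i h1 h2 h3
        simp only at h3 ⊢
        rcases hK1 i h1 (by omega) with ⟨ha, hb, hc⟩ | ⟨ha, hb, hc⟩ | ⟨ha, hb, hc⟩
        · omega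
        · have := hge i h1 hb.le
          omega
        · have h4 := hD.dn (i + 1) (by omega) h2
          have h5 : i + 1 - 1 = i := by ring
          rw [h5] at h4
          rw [hc]
          exact h4
      · intro i h1 h2 h3
        simp only at h3 ⊢
        rcases hK1 i h1 (by omega) with ⟨ha, hb, hc⟩ | ⟨ha, hb, hc⟩ | ⟨ha, hb, hc⟩
        · omega
        · rw [hc]
          exact (hD.up i h1 hb).2
        · have := hle (i + 1) (by omega) h2
          omega
      · intro i j h1 h2 h3 h4 h5
        simp only at h3 h4 h5 ⊢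
        rcases lt_trichotomy i i0 with hl | he | hg
        · exfalso
          rcases hK1 i h1 h2 with ⟨ha, hb, hc⟩ | ⟨ha, hb, hc⟩ | ⟨ha, hb, hc⟩
          · omega
          · have := hge i h1 hl.le
            omega
          · omega
        · have h6 : j = s i0 := by rw [he] at h5; omega
          rw [he, h6, hD.z]
          rfl
        · exfalso
          rcases hK0 i h1 h2 with ⟨ha, hb⟩ | ⟨ha, hb, hc⟩ | ⟨ha, hb⟩
          · omega
          · omega
          · have := hle i hg.le h2
            omega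
    · refine ⟨?_, ?_, ?_⟩
      · intro i j h1 h2 h3 h4
        simp only [z0] at h3 h4 ⊢
        rcases hcN i j h1 h2 h3 h4 with h5 | h5 <;> omega
      · intro i j h1 h2 h3 h4
        simp only at h3 ⊢
        rcases hcP i j h1 h2 h3 h4 with h5 | h5 <;> omega
      · intro i j h1 h2 h3 h4 h5 h6
        simp only [z0] at h3 h5 h6 ⊢
        have h7 : T i j = T (i + 1) j := by
          rcases lt_or_gt_of_ne h5 with hl | hg
          · rcases hcN i j h1 h2 h3 hl with h8 | h8 <;> omega
          · rcases hcP i j h1 h2 hg h4 with h8 | h8 <;> omega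
        have h8 : hi (i + 1) ≤ hi i := him i h1 h2
        rcases hT.eg i j ⟨h1, by omega, h3, by omega⟩ ⟨by omega, h2, h3, h4⟩ h7 with
          ⟨k, hk1, hk2, hk3⟩ | ⟨k, hk1, hk2, hk3⟩
        · exact Or.inl ⟨k, hk1, hk2.2.2.2, hk3⟩
        · exact Or.inr ⟨k, hk2.2.2.1, hk1, hk3⟩
  · intro i h
    simp only
    rw [hKd]
    simp only
    rw [if_pos (by omega)]
  · intro i j h
    simp only
    rw [hT.off i j h]
    rfl
  · funext i j
    simp only [phi]
    by_cases hc : Cell r z0 hi i j
    · obtain ⟨h1, h2, h3, h4⟩ := hc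
      simp only [z0] at h3
      have hv := hD.val i h1 h2
      have h5 := hKs i h1 h2
      have h6 := hsK i h1 h2
      have hnu : (i0 < i ∧ nu κ K i = s i) ∨ (i < i0 ∧ nu κ K i = s i + 1) ∨
          (i = i0 ∧ nu κ K i = s i) := by
        unfold nu
        rcases lt_trichotomy i i0 with hl | he | hg
        · right; left
          refine ⟨hl, ?_⟩
          have h7 := hge i h1 hl.le
          rw [if_neg (by omega)]
          rcases hK1 i h1 h2 with ⟨ha, hb, hc⟩ | ⟨ha, hb, hc⟩ | ⟨ha, hb, hc⟩
          · omega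
          · rw [if_pos (by omega), hc]
          · omega
        · right; right
          refine ⟨he, ?_⟩
          rw [← he] at hκ
          rw [if_neg (by omega), if_neg (by omega)]
          omega
        · left
          refine ⟨hg, ?_⟩
          have h7 := hle i hg.le h2
          rcases hK0 i h1 h2 with ⟨ha, hb⟩ | ⟨ha, hb, hc⟩ | ⟨ha, hb⟩
          · omega
          · omega
          · rw [if_pos (by omega), hb]
      have hsign : (j < nu κ K i ∧ T i j ≤ 0) ∨ (¬ j < nu κ K i ∧ 0 ≤ T i j) := by
        rcases lt_trichotomy j (s i) with hl | he | hg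
        · have := (hv.2.2.1 j h3 hl).1
          rcases hnu with ⟨ha, hb⟩ | ⟨ha, hb⟩ | ⟨ha, hb⟩ <;> left <;> constructor <;> omega
        · rcases hnu with ⟨ha, hb⟩ | ⟨ha, hb⟩ | ⟨ha, hb⟩
          · have := hD.pos i ha h2
            rw [← he] at this
            right; constructor <;> omega
          · have := hD.neg i h1 ha
            rw [← he] at this
            left; constructor <;> omega
          · have := hD.z
            rw [← ha, ← he] at this
            right; constructor <;> omega
        · have := (hv.2.2.2 j hg h4).1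
          rcases hnu with ⟨ha, hb⟩ | ⟨ha, hb⟩ | ⟨ha, hb⟩ <;> right <;> constructor <;> omega
      rcases hsign with ⟨ha, hb⟩ | ⟨ha, hb⟩
      · rw [if_pos ha]
        omega
      · rw [if_neg ha]
        omega
    · rw [hT.off i j hc]
      simp

end DST
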