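import Pool.Agent.DST.FLC
import Pool.Agent.DST.TFA
import Pool.Agent.DST.TFB
import Pool.Agent.DST.PHB
import Pool.Agent.DST.PHC

/-!
Module ST1 of project DST (MP_0f73d6_co).

step1: phi is a bijection of USet onto {T | Tab ∧ no free row} (phi_tab, phi_not_free, phi_inj; surjective by tfa, tfb), and
(-1)^bars (phi y) = negOnePow (κ + sumK) by phi_bars, nu_sum (Int.negOnePow of κ + sumK + 2t; (-1)^n = negOnePow n for a
natural number n).  With sum_free.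
-/

namespace DST

variable {W : List ℕ → Prop} {r : ℤ} {hi : ℤ → ℤ}

private theorem st1_sign (n : ℕ) (m t : ℤ) (h : (n : ℤ) = m + 2 * t) :
    ((m.negOnePow : ℤˣ) : ℤ) = (-1 : ℤ) ^ n := by
  have h1 : ((n : ℤ).negOnePow : ℤˣ) = m.negOnePow := by
    rw [h, Int.negOnePow_add, Int.negOnePow_even (2 * t) (even_two_mul t), mul_one]
  rw [← h1, Int.negOnePow_def, zpow_natCast]
  simp

theorem step1 (hW : Cls W) (hfin : {w | W w}.Finite) (hS : Shp r z0 hi) :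
    ∑ᶠ T ∈ {T | Tab W r hi T}, (-1 : ℤ) ^ bars r hi T =
      ∑ᶠ y ∈ USet W r z0 hi, (((y.1 + sumK r y.2.1).negOnePow : ℤˣ) : ℤ) := by
  rw [sum_free hW hfin hS]
  symm
  refine finsum_mem_eq_of_bijOn (fun y => phi y.1 y.2.1 y.2.2) ⟨?_, ?_, ?_⟩ ?_
  · intro y hy
    exact ⟨phi_tab hS hy, fun i => phi_not_free hS hy i⟩
  · intro y hy y' hy' h
    exact phi_inj hW hS hy hy' h
  · rintro T ⟨hT, hF⟩
    obtain ⟨i0, hD⟩ := tfa hW hS hT hF
    obtain ⟨y, hy, h⟩ := tfb hW hS hT hD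
    exact ⟨y, hy, h.symm⟩
  · intro y hy
    have hv : VSR r y.1 z0 hi y.2.1 y.2.2 := hy.1.toVSR
    obtain ⟨t, ht⟩ := nu_sum hS.rpos hv
    have hb := phi_bars hS hy
    exact st1_sign _ _ t (by rw [hb, ht])

end DST
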