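import Pool.Agent.DST.CLB
import Pool.Agent.DST.Defs

/-!
Module TRN of project DST (MP_0f73d6_co).

Transport between fillings of Young diagrams (indexed by ℕ) and internal signed tableaux (indexed by ℤ).
liftT T i j = T i.toNat j.toNat for 0 ≤ i, 0 ≤ j, else 0.  yhi μ i = rowLen i.toNat.
(i,j) in μ iff j < rowLen i (YoungDiagram.mem_iff_lt_rowLen), rows i < colLen 0.
word_lift: word (colLen 0) z0 (yhi μ) |liftT T| = (reading μ T).map natAbs.
tab_lift: IsTab n ω μ T → Tab ... (liftT T): in eg the third alternative gives two cells (i,j+1), (i+1,j+1) with letter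
 0, impossible by zc.  tab_lift' : conversely every Tab T' is liftT of T = fun i j => T' i j and IsTab.
trn: liftT is a bijection, bars = nbars (count over the cells row by row).
-/

namespace DST

/-- Extension of a filling to integer indices. -/
def liftT (T : ℕ → ℕ → ℤ) : ℤ → ℤ → ℤ := fun i j => if 0 ≤ i ∧ 0 ≤ j then T i.toNat j.toNat else 0

/-- Row lengths of a Young diagram, with integer index. -/
def yhi (μ : YoungDiagram) : ℤ → ℤ := fun i => (μ.rowLen i.toNat : ℤ)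

private theorem liftT_nat (T : ℕ → ℕ → ℤ) (i j : ℕ) : liftT T i j = T i j := by
  simp [liftT]

private theorem trn_cell (μ : YoungDiagram) (i j : ℤ) :
    Cell (μ.colLen 0 : ℤ) z0 (yhi μ) i j ↔ 0 ≤ i ∧ 0 ≤ j ∧ (i.toNat, j.toNat) ∈ μ := by
  unfold Cell yhi z0
  constructor
  · rintro ⟨h1, h2, h3, h4⟩
    exact ⟨h1, h3, YoungDiagram.mem_iff_lt_rowLen.2 (by omega)⟩
  · rintro ⟨h1, h2, h3⟩
    have h4 := YoungDiagram.mem_iff_lt_rowLen.1 h3
    have h5 := YoungDiagram.mem_iff_lt_colLen.1 (μ.up_left_mem le_rfl (Nat.zero_le _) h3)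
    exact ⟨h1, by omega, h2, by omega⟩

private theorem trn_cell_nat (μ : YoungDiagram) (i j : ℕ) :
    Cell (μ.colLen 0 : ℤ) z0 (yhi μ) i j ↔ (i, j) ∈ μ := by
  rw [trn_cell]
  simp

theorem shp_yhi (μ : YoungDiagram) (hμ : (0, 0) ∈ μ) : Shp (μ.colLen 0 : ℤ) z0 (yhi μ) := by
  refine ⟨?_, ?_, ?_, ?_⟩
  · have := YoungDiagram.mem_iff_lt_colLen.1 hμ
    omega
  · intro i h0 h1
    have h2 : (i.toNat, 0) ∈ μ := YoungDiagram.mem_iff_lt_colLen.2 (by omega)
    have h3 := YoungDiagram.mem_iff_lt_rowLen.1 h2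
    unfold z0 yhi
    omega
  · intro i _ _
    exact le_refl _
  · intro i h0 h1
    unfold yhi
    have : μ.rowLen (i + 1).toNat ≤ μ.rowLen i.toNat := μ.rowLen_anti _ _ (by omega)
    exact_mod_cast this

private theorem word_lift (μ : YoungDiagram) (T : ℕ → ℕ → ℤ) :
    word (μ.colLen 0 : ℤ) z0 (yhi μ) (fun i j => (liftT T i j).natAbs) =
      (reading μ T).map Int.natAbs := by
  unfold word cellsL reading rowCells
  simp only [bind_pure_comp, List.map_eq_map, List.map_flatMap, List.flatMap_map, List.map_map,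
    Int.toNat_natCast]
  congr 1
  funext i
  have h : (yhi μ (i : ℤ) - z0 (i : ℤ)).toNat = μ.rowLen i := by
    simp [yhi, z0]
  rw [h]
  refine List.map_congr_left fun t _ => ?_
  simp only [Function.comp, z0, zero_add]
  rw [liftT_nat]

private theorem tab_lift {n : ℕ} {ω : Equiv.Perm ℤ} (hW : Cls (fun w => w ∈ Red n ω))
    (μ : YoungDiagram) {T : ℕ → ℕ → ℤ} (hT : IsTab n ω μ T) :
    Tab (fun w => w ∈ Red n ω) (μ.colLen 0 : ℤ) (yhi μ) (liftT T) := by
  have hw : (fun w => w ∈ Red n ω) (word (μ.colLen 0 : ℤ) z0 (yhi μ)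
      (fun i j => (liftT T i j).natAbs)) := by
    have := hT.word
    rwa [← word_lift] at this
  refine ⟨?_, hw, ?_, ?_, ?_⟩
  · intro i j hc
    rw [trn_cell] at hc
    unfold liftT
    split_ifs with h
    · exact hT.off _ _ fun hm => hc ⟨h.1, h.2, hm⟩
    · rfl
  · intro i j h1 h2
    obtain ⟨i, rfl⟩ := Int.eq_ofNat_of_zero_le ((trn_cell _ _ _).1 h1).1
    obtain ⟨j, rfl⟩ := Int.eq_ofNat_of_zero_le ((trn_cell _ _ _).1 h1).2.1
    have e : ((j : ℤ) + 1) = ((j + 1 : ℕ) : ℤ) := by push_cast; ring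
    rw [e] at h2 ⊢
    rw [trn_cell_nat] at h2
    rw [liftT_nat, liftT_nat]
    exact hT.row i j h2
  · intro i j h1 h2
    obtain ⟨i, rfl⟩ := Int.eq_ofNat_of_zero_le ((trn_cell _ _ _).1 h1).1
    obtain ⟨j, rfl⟩ := Int.eq_ofNat_of_zero_le ((trn_cell _ _ _).1 h1).2.1
    have e : ((i : ℤ) + 1) = ((i + 1 : ℕ) : ℤ) := by push_cast; ring
    rw [e] at h2 ⊢
    rw [trn_cell_nat] at h2
    rw [liftT_nat, liftT_nat]
    exact hT.col i j h2
  · intro i j h1 h2 heq
    obtain ⟨i, rfl⟩ := Int.eq_ofNat_of_zero_le ((trn_cell _ _ _).1 h1).1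
    obtain ⟨j, rfl⟩ := Int.eq_ofNat_of_zero_le ((trn_cell _ _ _).1 h1).2.1
    have e : ((i : ℤ) + 1) = ((i + 1 : ℕ) : ℤ) := by push_cast; ring
    have e' : ((j : ℤ) + 1) = ((j + 1 : ℕ) : ℤ) := by push_cast; ring
    rw [e] at h2 heq ⊢
    rw [trn_cell_nat] at h1 h2
    rw [liftT_nat, liftT_nat] at heq
    rcases hT.eg i j h2 heq with ⟨k, hk1, hk2, hk3⟩ | ⟨l, hl1, hl2⟩ | ⟨-, -, h3, h4, h5⟩
    · left
      refine ⟨(k : ℤ), by omega, (trn_cell_nat _ _ _).2 hk2, ?_⟩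
      rw [liftT_nat, liftT_nat]
      exact hk3
    · right
      refine ⟨(l : ℤ), by omega, (trn_cell_nat _ _ _).2 (μ.up_left_mem le_rfl hl1.le h1), ?_⟩
      rw [liftT_nat, liftT_nat]
      exact hl2
    · exfalso
      have c1 := (trn_cell_nat μ (i + 1) (j + 1)).2 h3
      have c2 := (trn_cell_nat μ i (j + 1)).2 (μ.up_left_mem (Nat.le_succ i) le_rfl h3)
      have := zc hW hw c1 c2 (by simp only [liftT_nat, h5]; rfl) (by simp only [liftT_nat, h4]; rfl)
      omega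

private theorem lift_unlift (μ : YoungDiagram) {W : List ℕ → Prop} {T' : ℤ → ℤ → ℤ}
    (hT : Tab W (μ.colLen 0 : ℤ) (yhi μ) T') :
    liftT (fun i j => T' (i : ℤ) (j : ℤ)) = T' := by
  funext i j
  unfold liftT
  split_ifs with h
  · simp only [Int.toNat_of_nonneg h.1, Int.toNat_of_nonneg h.2]
  · refine (hT.off i j fun hc => h ?_).symm
    have := (trn_cell _ _ _).1 hc
    exact ⟨this.1, this.2.1⟩

private theorem tab_unlift {n : ℕ} {ω : Equiv.Perm ℤ}
    (μ : YoungDiagram) {T' : ℤ → ℤ → ℤ}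
    (hT : Tab (fun w => w ∈ Red n ω) (μ.colLen 0 : ℤ) (yhi μ) T') :
    IsTab n ω μ (fun i j => T' (i : ℤ) (j : ℤ)) := by
  refine ⟨?_, ?_, ?_, ?_, ?_⟩
  · intro i j h
    exact hT.off _ _ fun hc => h ((trn_cell_nat _ _ _).1 hc)
  · have h := hT.w
    rw [← word_lift, lift_unlift μ hT]
    exact h
  · intro i j h
    have h2 := (trn_cell_nat μ i (j + 1)).2 h
    have h1 := (trn_cell_nat μ i j).2 (μ.up_left_mem le_rfl (Nat.le_succ j) h)
    push_cast at h2 ⊢
    exact hT.row _ _ h1 h2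
  · intro i j h
    have h2 := (trn_cell_nat μ (i + 1) j).2 h
    have h1 := (trn_cell_nat μ i j).2 (μ.up_left_mem (Nat.le_succ i) le_rfl h)
    push_cast at h2 ⊢
    exact hT.col _ _ h1 h2
  · intro i j h heq
    have h2 := (trn_cell_nat μ (i + 1) j).2 h
    have h1 := (trn_cell_nat μ i j).2 (μ.up_left_mem (Nat.le_succ i) le_rfl h)
    push_cast at h2 heq ⊢
    rcases hT.eg _ _ h1 h2 heq with ⟨k, hk1, hk2, hk3⟩ | ⟨k, hk1, hk2, hk3⟩
    · left
      have hk := (trn_cell _ _ _).1 hk2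
      obtain ⟨k, rfl⟩ := Int.eq_ofNat_of_zero_le hk.2.1
      refine ⟨k, by omega, ?_, ?_⟩
      · have := hk.2.2
        simpa using this
      · exact hk3
    · right
      left
      have hk := (trn_cell _ _ _).1 hk2
      obtain ⟨k, rfl⟩ := Int.eq_ofNat_of_zero_le hk.2.1
      exact ⟨k, by omega, hk3⟩

private theorem trn_bars (μ : YoungDiagram) (T : ℕ → ℕ → ℤ) :
    nbars μ T = bars (μ.colLen 0 : ℤ) (yhi μ) (liftT T) := by
  unfold nbars bars
  rw [Finset.card_eq_sum_card_fiberwise (f := fun c : ℕ × ℕ => (c.1 : ℤ))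
    (t := Finset.Ico (0 : ℤ) (μ.colLen 0 : ℤ))]
  · refine Finset.sum_congr rfl fun i hi => ?_
    rw [Finset.mem_Ico] at hi
    refine Finset.card_nbij' (fun c => (c.2 : ℤ)) (fun j => (i.toNat, j.toNat)) ?_ ?_ ?_ ?_
    · rintro ⟨a, b⟩ hc
      simp only [Finset.coe_filter, Finset.mem_filter, YoungDiagram.mem_cells] at hc
      obtain ⟨⟨h1, h2⟩, h3⟩ := hc
      subst h3
      simp only [Finset.coe_filter, Finset.mem_Ico]
      have h4 := YoungDiagram.mem_iff_lt_rowLen.1 h1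
      refine ⟨⟨by omega, ?_⟩, ?_⟩
      · simp only [yhi, Int.toNat_natCast]
        omega
      · rw [liftT_nat]
        exact h2
    · intro j hj
      simp only [Finset.coe_filter, Finset.mem_Ico] at hj
      obtain ⟨⟨h1, h2⟩, h3⟩ := hj
      simp only [Finset.coe_filter, Finset.mem_filter, YoungDiagram.mem_cells]
      refine ⟨⟨?_, ?_⟩, ?_⟩
      · refine YoungDiagram.mem_iff_lt_rowLen.2 ?_
        unfold yhi at h2
        omega
      · unfold liftT at h3
        rwa [if_pos ⟨hi.1, h1⟩] at h3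
      · exact Int.toNat_of_nonneg hi.1
    · rintro ⟨a, b⟩ hc
      simp only [Finset.coe_filter, Finset.mem_filter] at hc
      obtain ⟨-, h3⟩ := hc
      subst h3
      simp
    · intro j hj
      simp only [Finset.coe_filter, Finset.mem_Ico] at hj
      exact Int.toNat_of_nonneg hj.1.1
  · rintro ⟨a, b⟩ hc
    simp only [Finset.coe_filter, YoungDiagram.mem_cells] at hc
    have h5 := YoungDiagram.mem_iff_lt_colLen.1 (μ.up_left_mem le_rfl (Nat.zero_le _) hc.1)
    simp only [Finset.coe_Ico, Set.mem_Ico]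
    omega

theorem trn {n : ℕ} {ω : Equiv.Perm ℤ} (hW : Cls (fun w => w ∈ Red n ω)) (μ : YoungDiagram)
    (hμ : (0, 0) ∈ μ) :
    ∑ᶠ T ∈ {T | IsTab n ω μ T}, (-1 : ℤ) ^ nbars μ T =
      ∑ᶠ T ∈ {T | Tab (fun w => w ∈ Red n ω) (μ.colLen 0 : ℤ) (yhi μ) T},
        (-1 : ℤ) ^ bars (μ.colLen 0 : ℤ) (yhi μ) T := by
  refine finsum_mem_eq_of_bijOn liftT ⟨?_, ?_, ?_⟩ ?_
  · intro T hT
    exact tab_lift hW μ hT
  · intro T _ T' _ heq
    funext i j
    have := congrFun (congrFun heq (i : ℤ)) (j : ℤ)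
    rwa [liftT_nat, liftT_nat] at this
  · intro T' hT'
    exact ⟨fun i j => T' (i : ℤ) (j : ℤ), tab_unlift μ hT', lift_unlift μ hT'⟩
  · intro T _
    rw [trn_bars]

end DST
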