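import Pool.Agent.DST.Core

/-!
Module WRA of project DST (MP_0f73d6_co).

Basic facts on words.
slide: induction on q, with Cls.comm (both cases of the hypothesis; c + 2 ≤ a uses comm with (c,a),
  a + 2 ≤ c uses comm with (a,c)).
h1: if neither a+1 nor a-1 nor a is in q then all letters of q are far from a, slide the first a through q
  and get a factor a a, contradicting nodup.
h3: by h1 the letter a-1 is in q, so q = q1 ++ (a-1) :: q2 with a-1 not in q1, q2 (count ≤ 1).  All letters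
  of q1 and q2 are far from a (they are not a-1, a, a+1).  Slide: W (p ++ q1 ++ a :: (a-1) :: a :: (q2 ++ s)).
  By braid (with a-1 ≥ 1) W (p ++ q1 ++ (a-1) :: a :: (a-1) :: (q2 ++ s)), and knot gives that
  (a-1)+2 = a+1 is neither in p ++ q1 nor in q2 ++ s.
-/

namespace DST

variable {W : List ℕ → Prop}

theorem slide (hW : Cls W) (p q s : List ℕ) (a : ℕ) (h : ∀ c ∈ q, c + 2 ≤ a ∨ a + 2 ≤ c) :
    W (p ++ a :: (q ++ s)) ↔ W (p ++ (q ++ a :: s)) := by
  induction q generalizing p with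
  | nil => simp
  | cons c q ih =>
    have hc := h c (by simp)
    have ih' := ih (p ++ [c]) (fun d hd => h d (by simp [hd]))
    have e : W (p ++ a :: c :: (q ++ s)) ↔ W (p ++ c :: a :: (q ++ s)) := by
      rcases hc with hc | hc
      · exact (hW.comm p (q ++ s) c a hc).symm
      · exact hW.comm p (q ++ s) a c hc
    have e1 : (p ++ [c]) ++ a :: (q ++ s) = p ++ c :: a :: (q ++ s) := by simp
    have e2 : (p ++ [c]) ++ (q ++ a :: s) = p ++ (c :: q ++ a :: s) := by simp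
    rw [e1, e2] at ih'
    exact e.trans ih'

theorem h1 (hW : Cls W) {p q s : List ℕ} {a : ℕ} (h : W (p ++ a :: (q ++ a :: s))) (hq : a ∉ q) :
    a + 1 ∈ q ∨ ∃ c ∈ q, c + 1 = a := by
  by_contra hcon
  push Not at hcon
  obtain ⟨h1, h2⟩ := hcon
  have hfar : ∀ c ∈ q, c + 2 ≤ a ∨ a + 2 ≤ c := by
    intro c hc
    have a1 : c ≠ a := fun e => hq (e ▸ hc)
    have a2 : c ≠ a + 1 := fun e => h1 (e ▸ hc)
    have a3 := h2 c hc
    omega
  have h3 := (slide hW p q (a :: s) a hfar).1 h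
  have e : p ++ (q ++ a :: a :: s) = (p ++ q) ++ a :: a :: s := by simp
  rw [e] at h3
  exact hW.nodup _ _ _ h3

theorem h3 (hW : Cls W) {p q s : List ℕ} {a : ℕ} (ha : 2 ≤ a) (h : W (p ++ a :: (q ++ a :: s)))
    (hq : a ∉ q) (hq1 : a + 1 ∉ q) (hc : q.count (a - 1) ≤ 1) : a + 1 ∉ p ++ a :: (q ++ a :: s) := by
  obtain ⟨m, rfl⟩ : ∃ m, a = m + 1 := ⟨a - 1, by omega⟩
  have hm : 1 ≤ m := by omega
  simp only [Nat.add_sub_cancel] at hc
  have hmem : m ∈ q := by
    rcases h1 hW h hq with h' | ⟨c, hc, e⟩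
    · exact absurd h' hq1
    · have : c = m := by omega
      exact this ▸ hc
  obtain ⟨q1, q2, rfl⟩ := List.append_of_mem hmem
  rw [List.count_append, List.count_cons_self] at hc
  have n1 : m ∉ q1 := by
    intro hx
    have := List.count_pos_iff.2 hx
    omega
  have n2 : m ∉ q2 := by
    intro hx
    have := List.count_pos_iff.2 hx
    omega
  simp only [List.mem_append, List.mem_cons, not_or] at hq hq1
  have far1 : ∀ c ∈ q1, c + 2 ≤ m + 1 ∨ m + 1 + 2 ≤ c := by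
    intro c hc'
    have a1 : c ≠ m + 1 := fun e => hq.1 (e ▸ hc')
    have a2 : c ≠ m + 1 + 1 := fun e => hq1.1 (e ▸ hc')
    have a3 : c ≠ m := fun e => n1 (e ▸ hc')
    omega
  have far2 : ∀ c ∈ q2, c + 2 ≤ m + 1 ∨ m + 1 + 2 ≤ c := by
    intro c hc'
    have a1 : c ≠ m + 1 := fun e => hq.2.2 (e ▸ hc')
    have a2 : c ≠ m + 1 + 1 := fun e => hq1.2.2 (e ▸ hc')
    have a3 : c ≠ m := fun e => n2 (e ▸ hc')
    omega
  have s1 := slide hW p q1 (m :: q2 ++ (m + 1) :: s) (m + 1) far1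
  have s2 := slide hW (p ++ q1 ++ [m + 1, m]) q2 s (m + 1) far2
  have e1 : p ++ (m + 1) :: ((q1 ++ m :: q2) ++ (m + 1) :: s) =
      p ++ (m + 1) :: (q1 ++ (m :: q2 ++ (m + 1) :: s)) := by simp
  have e2 : p ++ (q1 ++ (m + 1) :: (m :: q2 ++ (m + 1) :: s)) =
      (p ++ q1 ++ [m + 1, m]) ++ (q2 ++ (m + 1) :: s) := by simp
  have e3 : (p ++ q1 ++ [m + 1, m]) ++ (m + 1) :: (q2 ++ s) =
      (p ++ q1) ++ (m + 1) :: m :: (m + 1) :: (q2 ++ s) := by simp
  rw [e1, s1, e2, ← s2, e3, ← hW.braid _ _ m hm] at h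
  obtain ⟨k1, k2⟩ := hW.knot _ _ m hm h
  simp only [List.mem_append, not_or] at k1 k2
  simp only [List.mem_append, List.mem_cons, not_or]
  refine ⟨k1.1, by omega, ⟨k1.2, by omega, k2.1⟩, by omega, k2.2⟩

end DST
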