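import Pool.Agent.DST.WRA

/-!
Module WRC of project DST (MP_0f73d6_co).

l5: letters b+1, b, b+1, b with gaps q1, q2, q3.  For b = 0 there are two letters 0, contradiction to
  Cls.zero.  For b ≥ 1: letters of q1 are far from b+1 (they are not b, b+1, b+2): slide the first b+1 right
  through q1.  Letters of q2 are far from b and from b+1: slide b and then b+1 ... so that b+1, b, b+1 become
  adjacent.  Letters of q3 are far from b: slide the last b left through q3.  The word now has the factor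
  (b+1) b (b+1) b; by braid it becomes b (b+1) b b, contradicting nodup.
l5': letters b, b+1, b, b+1; q1, q2 are far from b and b+1, q3 is far from b+1.  Make the factor
  b (b+1) b (b+1), braid: (b+1) b (b+1) (b+1), contradiction.
-/

namespace DST

variable {W : List ℕ → Prop}

theorem l5 (hW : Cls W) {p q1 q2 q3 s : List ℕ} {b : ℕ}
    (h : W (p ++ (b + 1) :: (q1 ++ b :: (q2 ++ (b + 1) :: (q3 ++ b :: s)))))
    (g1 : ∀ c ∈ q1, c ≠ b ∧ c ≠ b + 1 ∧ c ≠ b + 2)
    (g2 : ∀ c ∈ q2, c + 1 ≠ b ∧ c ≠ b ∧ c ≠ b + 1 ∧ c ≠ b + 2)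
    (g3 : ∀ c ∈ q3, c + 1 ≠ b ∧ c ≠ b ∧ c ≠ b + 1 ∧ c ≠ b + 2) : False := by
  rcases Nat.eq_zero_or_pos b with rfl | hb
  · have h0 := hW.zero _ h
    simp [List.count_append, List.count_cons] at h0
    omega
  · have e1 := (slide hW p q1 (b :: (q2 ++ (b + 1) :: (q3 ++ b :: s))) (b + 1) (by
      intro c hc; have := g1 c hc; omega)).1 h
    have e2 := (slide hW (p ++ q1 ++ [b + 1]) q2 ((b + 1) :: (q3 ++ b :: s)) b (by
      intro c hc; have := g2 c hc; omega)).1 (by simpa using e1)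
    have e3 := (slide hW (p ++ q1) q2 (b :: (b + 1) :: (q3 ++ b :: s)) (b + 1) (by
      intro c hc; have := g2 c hc; omega)).1 (by simpa using e2)
    have e4 := (slide hW (p ++ q1 ++ q2 ++ [b + 1, b, b + 1]) q3 s b (by
      intro c hc; have := g3 c hc; omega)).2 (by simpa using e3)
    have e5 := (hW.braid (p ++ q1 ++ q2) (b :: (q3 ++ s)) b hb).2 (by simpa using e4)
    exact hW.nodup (p ++ q1 ++ q2 ++ [b, b + 1]) (q3 ++ s) b (by simpa using e5)

theorem l5' (hW : Cls W) {p q1 q2 q3 s : List ℕ} {b : ℕ}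
    (h : W (p ++ b :: (q1 ++ (b + 1) :: (q2 ++ b :: (q3 ++ (b + 1) :: s)))))
    (g1 : ∀ c ∈ q1, c + 1 ≠ b ∧ c ≠ b ∧ c ≠ b + 1 ∧ c ≠ b + 2)
    (g2 : ∀ c ∈ q2, c + 1 ≠ b ∧ c ≠ b ∧ c ≠ b + 1 ∧ c ≠ b + 2)
    (g3 : ∀ c ∈ q3, c ≠ b ∧ c ≠ b + 1 ∧ c ≠ b + 2) : False := by
  rcases Nat.eq_zero_or_pos b with rfl | hb
  · have h0 := hW.zero _ h
    simp [List.count_append, List.count_cons] at h0
    omega
  · have e1 := (slide hW p q1 ((b + 1) :: (q2 ++ b :: (q3 ++ (b + 1) :: s))) b (by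
      intro c hc; have := g1 c hc; omega)).1 h
    have e2 := (slide hW (p ++ q1 ++ [b]) q2 (b :: (q3 ++ (b + 1) :: s)) (b + 1) (by
      intro c hc; have := g2 c hc; omega)).1 (by simpa using e1)
    have e3 := (slide hW (p ++ q1) q2 ((b + 1) :: b :: (q3 ++ (b + 1) :: s)) b (by
      intro c hc; have := g2 c hc; omega)).1 (by simpa using e2)
    have e4 := (slide hW (p ++ q1 ++ q2 ++ [b, b + 1, b]) q3 s (b + 1) (by
      intro c hc; have := g3 c hc; omega)).2 (by simpa using e3)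
    have e5 := (hW.braid (p ++ q1 ++ q2) ((b + 1) :: (q3 ++ s)) b hb).1 (by simpa using e4)
    exact hW.nodup (p ++ q1 ++ q2 ++ [b + 1, b]) (q3 ++ s) (b + 1) (by simpa using e5)

end DST
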